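import Pool.Agent.LibSQ58.FpA
set_option autoImplicit false
namespace Pool.Agent.LibSQ58
open MeasureTheory Filter Topology


theorem rotZ_add (θ φ : ℝ) (w : E3) : rotZ (θ + φ) w = rotZ θ (rotZ φ w) := by
  ext i
  fin_cases i
  · simp [rotZ, Real.cos_add, Real.sin_add]
    ring
  · simp [rotZ, Real.cos_add, Real.sin_add]
    ring
  · simp [rotZ]

theorem rotX_add (θ φ : ℝ) (w : E3) : rotX (θ + φ) w = rotX θ (rotX φ w) := by
  ext i
  fin_cases i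
  · simp [rotX]
  · simp [rotX, Real.cos_add, Real.sin_add]
    ring
  · simp [rotX, Real.cos_add, Real.sin_add]
    ring

theorem exists_rotX (θ : ℝ) : ∃ R : E3 ≃ₗᵢ[ℝ] E3, ∀ w, R w = rotX θ w := by
  obtain ⟨C, hC⟩ := exists_cyc
  obtain ⟨Z, hZ⟩ := exists_rotZ θ
  -- `cyc w = (w 2, w 0, w 1)`; `rotX θ = C ∘ Z ∘ C⁻¹`
  refine ⟨(C.symm.trans Z).trans C, fun w => ?_⟩
  obtain ⟨v, rfl⟩ : ∃ v, w = C v := ⟨C.symm w, by simp⟩
  rw [LinearIsometryEquiv.trans_apply, LinearIsometryEquiv.trans_apply,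
    LinearIsometryEquiv.symm_apply_apply, hZ, hC, hC]
  ext i
  fin_cases i
  · simp [rotX, rotZ, cyc]
  · simp [rotX, rotZ, cyc]
  · simp [rotX, rotZ, cyc]

end Pool.Agent.LibSQ58
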