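import Pool.Agent.LibSQ58.InvMean
set_option autoImplicit false
namespace Pool.Agent.LibSQ58
open MeasureTheory Filter Topology

/-- a set with `n` pairwise disjoint translates has mean at most `1/n` -/
theorem inv_mean_le (M : Mean ℝ) (hM : ∀ f, Bdd f → ∀ g : ℝ, M (fun x => f (x + g)) = M f)
    (S : Set ℝ) (n : ℕ) (hn : 0 < n) (g : Fin n → ℝ)
    (hd : ∀ i j, i ≠ j → ∀ x : ℝ, x + g i ∈ S → x + g j ∉ S) :
    M (S.indicator (fun _ => 1)) ≤ 1 / n := by
  classical
  have hb : Bdd (S.indicator (fun _ => (1 : ℝ))) := by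
    refine ⟨1, fun x => ?_⟩
    by_cases hx : x ∈ S
    · rw [Set.indicator_of_mem hx]; simp
    · rw [Set.indicator_of_notMem hx]; simp
  have h1 : M (fun x => ∑ i : Fin n, S.indicator (fun _ => (1 : ℝ)) (x + g i)) =
      n * M (S.indicator (fun _ => 1)) := by
    rw [Mean.sum M Finset.univ (f := fun i x => S.indicator (fun _ => (1 : ℝ)) (x + g i))
      (fun i _ => hb.comp _)]
    rw [Finset.sum_congr rfl (fun i _ => hM _ hb (g i))]
    rw [Finset.sum_const, Finset.card_univ, Fintype.card_fin, nsmul_eq_mul]
  have h2 : M (fun x => ∑ i : Fin n, S.indicator (fun _ => (1 : ℝ)) (x + g i)) ≤ 1 := by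
    have h3 : M (fun x => ∑ i : Fin n, S.indicator (fun _ => (1 : ℝ)) (x + g i)) ≤
        M (fun _ => (1 : ℝ)) := by
      refine M.mono' _ _ (Bdd.sum _ fun i _ => hb.comp _) (Bdd.const _) (fun x => ?_)
      by_cases hx : ∃ i, x + g i ∈ S
      · obtain ⟨i, hi⟩ := hx
        rw [Finset.sum_eq_single i]
        · rw [Set.indicator_of_mem hi]
        · intro j _ hj
          exact Set.indicator_of_notMem (hd i j (Ne.symm hj) x hi) _
        · intro h
          exact absurd (Finset.mem_univ i) h
      · push Not at hx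
        rw [Finset.sum_eq_zero fun i _ => Set.indicator_of_notMem (hx i) _]
        norm_num
    rwa [M.const' 1] at h3
  have hn' : (0 : ℝ) < n := by exact_mod_cast hn
  rw [h1] at h2
  rw [le_div_iff₀ hn']
  linarith

private theorem fract_mem (t : ℝ) : Int.fract t ∈ Set.Ico (0 : ℝ) 1 :=
  ⟨Int.fract_nonneg t, Int.fract_lt_one t⟩

/-- the arc `[1 - s, 1)` has mean at most `2 s` -/
private theorem arc_le (M : Mean ℝ) (hM : ∀ f, Bdd f → ∀ g : ℝ, M (fun x => f (x + g)) = M f)
    (s : ℝ) (hs : 0 < s) (hs1 : s ≤ 1 / 2) (a : ℝ) :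
    M ({t : ℝ | 1 - s ≤ Int.fract (t + a)}.indicator (fun _ => 1)) ≤ 2 * s := by
  set n : ℕ := ⌊1 / s⌋₊ with hn
  have h1 : (1 : ℝ) / s - 1 < n := by
    have := Nat.lt_floor_add_one (1 / s)
    rw [← hn] at this
    linarith
  have h2 : (n : ℝ) ≤ 1 / s := Nat.floor_le (by positivity)
  have h3 : (2 : ℝ) ≤ 1 / s := by
    rw [le_div_iff₀ hs]
    linarith
  have hn0 : (0 : ℝ) < n := by linarith
  have hns : (n : ℝ) * s ≤ 1 := by
    rw [le_div_iff₀ hs] at h2
    exact h2
  refine (inv_mean_le M hM _ n (by exact_mod_cast hn0) (fun i => (i : ℕ) * s) ?_).trans ?_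
  · have key : ∀ i j : Fin n, (i : ℕ) < (j : ℕ) → ∀ x : ℝ,
        1 - s ≤ Int.fract (x + (i : ℕ) * s + a) → ¬ (1 - s ≤ Int.fract (x + (j : ℕ) * s + a)) := by
      intro i j hij x hx
      have hj : ((j : ℕ) : ℝ) ≤ n - 1 := by
        have : (j : ℕ) + 1 ≤ n := j.2
        have : (((j : ℕ) : ℝ) + 1) ≤ n := by exact_mod_cast this
        linarith
      have hij' : ((i : ℕ) : ℝ) + 1 ≤ (j : ℕ) := by exact_mod_cast hij
      have hi0 : (0 : ℝ) ≤ (i : ℕ) := Nat.cast_nonneg _
      set y := x + (i : ℕ) * s + a with hy
      set d := (((j : ℕ) : ℝ) - (i : ℕ)) * s with hd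
      have hd1 : s ≤ d := by
        rw [hd]
        nlinarith
      have hd2 : d ≤ 1 - s := by
        rw [hd]
        nlinarith
      have e : x + (j : ℕ) * s + a = y + d := by
        rw [hy, hd]
        ring
      have hf := Int.fract_lt_one y
      have e2 : Int.fract (y + d) = Int.fract y + d - 1 := by
        rw [Int.fract_eq_iff]
        refine ⟨by linarith, by linarith, ⌊y⌋ + 1, ?_⟩
        have := Int.floor_add_fract y
        push_cast
        linarith
      rw [e, e2]
      linarith
    intro i j hij x hx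
    rcases lt_or_gt_of_ne (fun h : (i : ℕ) = (j : ℕ) => hij (Fin.ext h)) with h | h
    · exact key i j h x hx
    · intro hx'
      exact key j i h x hx' hx
  · rw [div_le_iff₀ hn0]
    have h4 : (1 : ℝ) / s ≤ 2 * n := by linarith
    rw [div_le_iff₀ hs] at h4
    linarith

/-- Hint: `M` an invariant mean on `ℝ`, `toFun f = M (fun t => f (Int.fract t))`.  For `0 < s < 1`:
`Int.fract (t + s) = Int.fract t + s` unless `Int.fract t ∈ [1 - s, 1)`, and this set has `⌊1/s⌋` pairwise disjoint
translates (by multiples of `s`), so mean at most `1/⌊1/s⌋ ≤ 2 s`.  For `|s| ≥ 1/2` the bound is trivial. -/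
theorem exists_jmean : Nonempty JMean := by
  classical
  obtain ⟨M, hM⟩ := exists_inv_mean ℝ
  have pos : ∀ (f : ℝ → ℝ) (C : ℝ), (∀ t, |f t| ≤ C) → ∀ s : ℝ, 0 < s → s ≤ 1 / 2 → ∀ a : ℝ,
      |M (fun t => f (Int.fract (t + a) + s)) - M (fun t => f (Int.fract (t + a + s)))| ≤
        4 * s * C := by
    intro f C hf s hs hs1 a
    have hC : 0 ≤ C := (abs_nonneg _).trans (hf 0)
    have hb : Bdd f := ⟨C, hf⟩
    set I := {t : ℝ | 1 - s ≤ Int.fract (t + a)}.indicator (fun _ => (1 : ℝ)) with hI
    have hIb : Bdd I := by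
      refine ⟨1, fun x => ?_⟩
      by_cases hx : x ∈ {t : ℝ | 1 - s ≤ Int.fract (t + a)}
      · rw [hI, Set.indicator_of_mem hx]; simp
      · rw [hI, Set.indicator_of_notMem hx]; simp
    have h1 : ∀ t, |f (Int.fract (t + a) + s) - f (Int.fract (t + a + s))| ≤ 2 * C * I t := by
      intro t
      by_cases ht : 1 - s ≤ Int.fract (t + a)
      · have : I t = 1 := by
          rw [hI, Set.indicator_of_mem]
          exact ht
        rw [this]
        have := abs_sub (f (Int.fract (t + a) + s)) (f (Int.fract (t + a + s)))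
        have := hf (Int.fract (t + a) + s)
        have := hf (Int.fract (t + a + s))
        linarith
      · have : I t = 0 := by
          rw [hI, Set.indicator_of_notMem]
          exact ht
        rw [this]
        have e : Int.fract (t + a + s) = Int.fract (t + a) + s := by
          rw [Int.fract_eq_iff]
          push Not at ht
          have h0 := Int.fract_nonneg (t + a)
          refine ⟨by linarith, by linarith, ⌊t + a⌋, ?_⟩
          have := Int.floor_add_fract (t + a)
          linarith
        rw [e]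
        simp
    have hb1 : Bdd (fun t => f (Int.fract (t + a) + s)) := hb.comp _
    have hb2 : Bdd (fun t => f (Int.fract (t + a + s))) := hb.comp _
    rw [← M.sub hb1 hb2, abs_le]
    have hI2 : M (fun t => 2 * C * I t) ≤ 4 * s * C := by
      rw [M.smul' _ _ hIb]
      have := arc_le M hM s hs hs1 a
      nlinarith
    have hbs : Bdd (fun t => f (Int.fract (t + a) + s) - f (Int.fract (t + a + s))) :=
      ⟨C + C, fun x => (abs_sub _ _).trans (add_le_add (hf _) (hf _))⟩
    constructor
    · have h2 := M.mono' (fun t => (-1) * (2 * C * I t)) _ ((hIb.cmul _).cmul _) hbs (fun t => by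
        have := (abs_le.1 (h1 t)).1
        linarith)
      rw [M.smul' _ _ (hIb.cmul _)] at h2
      linarith
    · have h2 := M.mono' _ (fun t => 2 * C * I t) hbs (hIb.cmul _) (fun t => (abs_le.1 (h1 t)).2)
      linarith
  refine ⟨⟨⟨fun f => M (fun t => f (Int.fract t)), ?_, ?_, ?_, ?_⟩, ?_, ?_⟩⟩
  · intro f g hf hg
    exact M.add' _ _ (hf.comp _) (hg.comp _)
  · intro c f hf
    exact M.smul' _ _ (hf.comp _)
  · intro f g hf hg h
    exact M.mono' _ _ (hf.comp _) (hg.comp _) (fun x => h _)
  · intro c
    exact M.const' c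
  · intro f C hf s
    change |M (fun t => f (Int.fract t + s)) - M (fun t => f (Int.fract t))| ≤ 4 * |s| * C
    have hC : 0 ≤ C := (abs_nonneg _).trans (hf 0)
    have hb : Bdd f := ⟨C, hf⟩
    rcases le_or_gt |s| (1 / 2) with hs | hs
    · rcases lt_trichotomy s 0 with h | h | h
      · have hab : |s| = -s := abs_of_neg h
        rw [hab] at hs ⊢
        -- substitute t = t' - s ... use `pos` with shift `-s` for the function `f (· + s)`
        have h1 := pos (fun t => f (t + s)) C (fun t => hf _) (-s) (by linarith) hs 0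
        have e1 : (fun t => f (Int.fract (t + 0) + -s + s)) = fun t => f (Int.fract t) := by
          funext t
          rw [add_zero, neg_add_cancel_right]
        have e2 : M (fun t => f (Int.fract (t + 0 + -s) + s)) = M (fun t => f (Int.fract t + s)) := by
          have h2 := hM (fun t => f (Int.fract t + s)) (hb.comp _) (-s)
          rw [← h2]
          simp only [add_zero]
        rw [e1, e2] at h1
        rw [abs_sub_comm]
        linarith
      · subst h
        simp
      · have hab : |s| = s := abs_of_pos h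
        rw [hab] at hs ⊢
        have h1 := pos f C hf s h hs 0
        have e2 : M (fun t => f (Int.fract (t + 0 + s))) = M (fun t => f (Int.fract t)) := by
          have h2 := hM (fun t => f (Int.fract t)) (hb.comp _) s
          rw [← h2]
          simp only [add_zero]
        rw [e2] at h1
        simpa using h1
    · have h1 := M.abs_le (f := fun t => f (Int.fract t + s)) (fun t => hf _)
      have h2 := M.abs_le (f := fun t => f (Int.fract t)) (fun t => hf _)
      have h3 := abs_sub (M (fun t => f (Int.fract t + s))) (M (fun t => f (Int.fract t)))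
      nlinarith
  · intro f g hf hg h
    change M (fun t => f (Int.fract t)) = M (fun t => g (Int.fract t))
    congr 1
    funext t
    exact h _ (fract_mem t)

end Pool.Agent.LibSQ58
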