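import Pool.Agent.LibSQ58.AvA
import Pool.Agent.LibSQ58.JM
set_option autoImplicit false
namespace Pool.Agent.LibSQ58
open MeasureTheory Filter Topology

/-- a bounded function whose support has all differences in `ℤ π` has mean zero -/
theorem avg_kill_aux (M : Mean ℝ)
    (hM : ∀ f, Bdd f → ∀ g : ℝ, M (fun x => f (x + g)) = M f)
    (f : ℝ → ℝ) (hf : Bdd f) (hs : ∀ a b, f a ≠ 0 → f b ≠ 0 → Real.sin (a - b) = 0) :
    M f = 0 := by
  obtain ⟨C, hC⟩ := hf
  have hC0 : 0 ≤ C := le_trans (abs_nonneg _) (hC 0)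
  set S : Set ℝ := {a | f a ≠ 0} with hS
  have hSb : Bdd (S.indicator (fun _ => (1 : ℝ))) := by
    refine ⟨1, fun x => ?_⟩
    by_cases hx : x ∈ S
    · simp [Set.indicator_of_mem hx]
    · simp [Set.indicator_of_notMem hx]
  -- disjoint translates
  have hle : ∀ n : ℕ, 0 < n → M (S.indicator (fun _ => 1)) ≤ 1 / n := by
    intro n hn
    refine inv_mean_le M hM S n hn (fun i => Real.pi * (i : ℝ) / n) ?_
    intro i j hij x hi hj
    have h1 := hs _ _ hi hj
    have hn' : (0 : ℝ) < n := by exact_mod_cast hn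
    have hdiff : x + Real.pi * (i : ℝ) / n - (x + Real.pi * (j : ℝ) / n)
        = Real.pi * (((i : ℝ) - j) / n) := by ring
    rw [hdiff] at h1
    have hi' : ((i : ℕ) : ℝ) < n := by exact_mod_cast i.2
    have hj' : ((j : ℕ) : ℝ) < n := by exact_mod_cast j.2
    have hi0 : (0 : ℝ) ≤ ((i : ℕ) : ℝ) := Nat.cast_nonneg _
    have hj0 : (0 : ℝ) ≤ ((j : ℕ) : ℝ) := Nat.cast_nonneg _
    have hlt1 : (((i : ℕ) : ℝ) - (j : ℕ)) / n < 1 := by
      rw [div_lt_one hn']
      linarith
    have hlt2 : -1 < (((i : ℕ) : ℝ) - (j : ℕ)) / n := by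
      rw [lt_div_iff₀ hn']
      linarith
    have h2 : Real.pi * ((((i : ℕ) : ℝ) - (j : ℕ)) / n) = 0 := by
      refine (Real.sin_eq_zero_iff_of_lt_of_lt ?_ ?_).1 h1
      · nlinarith [Real.pi_pos]
      · nlinarith [Real.pi_pos]
    have h3 : (((i : ℕ) : ℝ) - (j : ℕ)) / n = 0 := by
      rcases mul_eq_zero.1 h2 with h | h
      · exact absurd h Real.pi_ne_zero
      · exact h
    rw [div_eq_zero_iff] at h3
    rcases h3 with h3 | h3
    · apply hij
      apply Fin.ext
      have : ((i : ℕ) : ℝ) = (j : ℕ) := by linarith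
      exact_mod_cast this
    · exact absurd h3 hn'.ne'
  have hfC : ∀ x, |f x| ≤ C * S.indicator (fun _ => (1 : ℝ)) x := by
    intro x
    by_cases hx : x ∈ S
    · rw [Set.indicator_of_mem hx, mul_one]
      exact hC x
    · have : f x = 0 := by
        by_contra h
        exact hx h
      rw [this, abs_zero, Set.indicator_of_notMem hx, mul_zero]
  have hup : M f ≤ C * M (S.indicator (fun _ => 1)) := by
    rw [← M.smul' C _ hSb]
    exact M.mono' _ _ ⟨C, hC⟩ (Bdd.cmul C hSb) (fun x => (le_abs_self _).trans (hfC x))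
  have hlo : -(C * M (S.indicator (fun _ => 1))) ≤ M f := by
    have h1 : -(C * M (S.indicator (fun _ => 1))) = (-C) * M (S.indicator (fun _ => 1)) := by ring
    rw [h1, ← M.smul' (-C) _ hSb]
    refine M.mono' _ _ (Bdd.cmul (-C) hSb) ⟨C, hC⟩ (fun x => ?_)
    have h2 := (abs_le.1 (hfC x)).1
    linarith
  have hz : M (S.indicator (fun _ => 1)) ≤ 0 := by
    refine le_of_forall_pos_le_add (fun ε hε => ?_)
    obtain ⟨n, hn⟩ := exists_nat_one_div_lt hε
    have := hle (n + 1) (Nat.succ_pos n)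
    push_cast at this
    linarith
  have hz2 : C * M (S.indicator (fun _ => 1)) ≤ 0 := mul_nonpos_of_nonneg_of_nonpos hC0 hz
  linarith

/-- averaging over the rotations about the first axis kills functions supported on the third axis (except at `0`):
for `w ≠ 0` the set of `θ` with `rotX θ w ∈ ℝ e₃` has infinitely many disjoint translates (`inv_mean_le`) -/
theorem avgX_kill (M : Mean ℝ) (hM : ∀ f, Bdd f → ∀ g : ℝ, M (fun x => f (x + g)) = M f)
    (B : E3 → ℝ) (hB : Bdd B) (h0 : ∀ w : E3, w 0 ≠ 0 ∨ w 1 ≠ 0 → B w = 0) (w : E3) (hw : w ≠ 0) :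
    M (fun θ => B (rotX θ w)) = 0 := by
  refine avg_kill_aux M hM _ (hB.comp _) ?_
  intro a b ha hb
  have ha0 : ∀ i : Fin 3, i = 0 ∨ i = 1 → rotX a w i = 0 := by
    intro i hi
    by_contra h
    rcases hi with rfl | rfl
    · exact ha (h0 _ (Or.inl h))
    · exact ha (h0 _ (Or.inr h))
  have hb0 : ∀ i : Fin 3, i = 0 ∨ i = 1 → rotX b w i = 0 := by
    intro i hi
    by_contra h
    rcases hi with rfl | rfl
    · exact hb (h0 _ (Or.inl h))
    · exact hb (h0 _ (Or.inr h))
  have e1 : w 0 = 0 := by simpa [rotX] using ha0 0 (Or.inl rfl)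
  have e2 : Real.cos a * w 1 - Real.sin a * w 2 = 0 := by simpa [rotX] using ha0 1 (Or.inr rfl)
  have e3 : Real.cos b * w 1 - Real.sin b * w 2 = 0 := by simpa [rotX] using hb0 1 (Or.inr rfl)
  have k1 : Real.sin (a - b) * w 1 = 0 := by
    rw [Real.sin_sub]
    linear_combination Real.sin a * e3 - Real.sin b * e2
  have k2 : Real.sin (a - b) * w 2 = 0 := by
    rw [Real.sin_sub]
    linear_combination Real.cos a * e3 - Real.cos b * e2
  by_contra hne
  apply hw
  ext i
  fin_cases i
  · simpa using e1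
  · simpa using (mul_eq_zero.1 k1).resolve_left hne
  · simpa using (mul_eq_zero.1 k2).resolve_left hne

/-- averaging over the rotations about the third axis kills functions supported on the first axis -/
theorem avgZ_kill (M : Mean ℝ) (hM : ∀ f, Bdd f → ∀ g : ℝ, M (fun x => f (x + g)) = M f)
    (B : E3 → ℝ) (hB : Bdd B) (h0 : ∀ w : E3, w 1 ≠ 0 ∨ w 2 ≠ 0 → B w = 0) (w : E3) (hw : w ≠ 0) :
    M (fun θ => B (rotZ θ w)) = 0 := by
  refine avg_kill_aux M hM _ (hB.comp _) ?_
  intro a b ha hb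
  have ha0 : ∀ i : Fin 3, i = 1 ∨ i = 2 → rotZ a w i = 0 := by
    intro i hi
    by_contra h
    rcases hi with rfl | rfl
    · exact ha (h0 _ (Or.inl h))
    · exact ha (h0 _ (Or.inr h))
  have hb0 : ∀ i : Fin 3, i = 1 ∨ i = 2 → rotZ b w i = 0 := by
    intro i hi
    by_contra h
    rcases hi with rfl | rfl
    · exact hb (h0 _ (Or.inl h))
    · exact hb (h0 _ (Or.inr h))
  have e1 : w 2 = 0 := by simpa [rotZ] using ha0 2 (Or.inr rfl)
  have e2 : Real.sin a * w 0 + Real.cos a * w 1 = 0 := by simpa [rotZ] using ha0 1 (Or.inl rfl)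
  have e3 : Real.sin b * w 0 + Real.cos b * w 1 = 0 := by simpa [rotZ] using hb0 1 (Or.inl rfl)
  have k1 : Real.sin (a - b) * w 0 = 0 := by
    rw [Real.sin_sub]
    linear_combination Real.cos b * e2 - Real.cos a * e3
  have k2 : Real.sin (a - b) * w 1 = 0 := by
    rw [Real.sin_sub]
    linear_combination Real.sin a * e3 - Real.sin b * e2
  by_contra hne
  apply hw
  ext i
  fin_cases i
  · simpa using (mul_eq_zero.1 k1).resolve_left hne
  · simpa using (mul_eq_zero.1 k2).resolve_left hne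
  · simpa using e1

end Pool.Agent.LibSQ58
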