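import Pool.Agent.LibSQ58.PdA
set_option autoImplicit false
namespace Pool.Agent.LibSQ58
open MeasureTheory Filter Topology


/-- means of positive definite functions -/
theorem PD.mean {α : Type*} (M : Mean α) (Φ : α → E3 → ℝ) (h : ∀ a, PD (Φ a))
    (C : ℝ) (hC : ∀ a, Φ a 0 ≤ C) : PD (fun w => M (fun a => Φ a w)) := by
  have hb : ∀ w, Bdd (fun a => Φ a w) := fun w => ⟨C, fun a => ((h a).abs_le w).trans (hC a)⟩
  refine ⟨fun x => ?_, fun s c => ?_⟩
  · have e : (fun a => Φ a (-x)) = fun a => Φ a x := by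
      funext a
      exact (h a).1 x
    simp only [e]
  · have e : (∑ x ∈ s, ∑ y ∈ s, c x * c y * M (fun a => Φ a (x - y))) =
        M (fun a => ∑ x ∈ s, ∑ y ∈ s, c x * c y * Φ a (x - y)) := by
      rw [M.sum s (fun x _ => Bdd.sum s (fun y _ => (hb (x - y)).cmul (c x * c y)))]
      refine Finset.sum_congr rfl (fun x _ => ?_)
      rw [M.sum s (fun y _ => (hb (x - y)).cmul (c x * c y))]
      refine Finset.sum_congr rfl (fun y _ => ?_)
      rw [M.smul' _ _ (hb _)]
    rw [e]
    exact M.nonneg (Bdd.sum s (fun x _ => Bdd.sum s (fun y _ => (hb (x - y)).cmul (c x * c y))))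
      (fun a => (h a).2 s c)

private theorem abs_sg (b : Bool) : |sg b| ≤ 1 := by
  cases b <;> simp [sg]

/-- the correlation function of a stationary mean is positive definite -/
theorem pd_corr (E : Mean (E3 → Bool)) (hE : ∀ (a : E3) (F : (E3 → Bool) → ℝ), Bdd F →
    E (fun c => F (fun x => c (x + a))) = E F) : PD (corr E) := by
  have hs : ∀ x : E3, Bdd (fun c : E3 → Bool => sg (c x)) := fun x => ⟨1, fun c => abs_sg _⟩
  have hss : ∀ x y : E3, Bdd (fun c : E3 → Bool => sg (c x) * sg (c y)) :=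
    fun x y => (hs x).mul (hs y)
  have key : ∀ x y : E3, corr E (x - y) = E (fun c => sg (c x) * sg (c y)) := by
    intro x y
    have h1 := hE y (fun c => sg (c 0) * sg (c (x - y))) (hss _ _)
    unfold corr
    rw [← h1]
    congr 1
    funext c
    show sg (c (0 + y)) * sg (c (x - y + y)) = sg (c x) * sg (c y)
    rw [zero_add, sub_add_cancel, mul_comm]
  refine ⟨fun x => ?_, fun s c => ?_⟩
  · have h1 := key 0 x
    have h2 := key x 0
    rw [zero_sub] at h1
    rw [sub_zero] at h2
    rw [h1, h2]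
    congr 1
    funext c
    rw [mul_comm]
  · have e : (∑ x ∈ s, ∑ y ∈ s, c x * c y * corr E (x - y)) =
        E (fun ω => ∑ x ∈ s, ∑ y ∈ s, c x * c y * (sg (ω x) * sg (ω y))) := by
      rw [E.sum s (fun x _ => Bdd.sum s (fun y _ => (hss x y).cmul (c x * c y)))]
      refine Finset.sum_congr rfl (fun x _ => ?_)
      rw [E.sum s (fun y _ => (hss x y).cmul (c x * c y))]
      refine Finset.sum_congr rfl (fun y _ => ?_)
      rw [E.smul' _ _ (hss _ _), key]
    rw [e]
    refine E.nonneg (Bdd.sum s (fun x _ => Bdd.sum s (fun y _ => (hss x y).cmul (c x * c y))))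
      (fun ω => ?_)
    have e2 : (∑ x ∈ s, ∑ y ∈ s, c x * c y * (sg (ω x) * sg (ω y))) =
        (∑ x ∈ s, c x * sg (ω x)) * (∑ x ∈ s, c x * sg (ω x)) := by
      rw [Finset.sum_mul_sum]
      refine Finset.sum_congr rfl (fun x _ => Finset.sum_congr rfl (fun y _ => ?_))
      ring
    rw [e2]
    exact mul_self_nonneg _

end Pool.Agent.LibSQ58
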