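import Pool.Agent.LibSQ58.AvA
import Pool.Agent.LibSQ58.PdB
set_option autoImplicit false
namespace Pool.Agent.LibSQ58
open MeasureTheory Filter Topology


/-- continuity at `0` of `A` on `ℝ³` from continuity along the first axis and along its orthogonal plane (`PD.add_le`) -/
theorem cont_of_two {A : E3 → ℝ} (hA : PD A)
    (h1 : Tendsto (fun p : ℝ × ℝ => A (!₂[0, p.1, p.2] : E3)) (𝓝 0) (𝓝 (A 0)))
    (h2 : Tendsto (fun t : ℝ => A (!₂[t, 0, 0] : E3)) (𝓝 0) (𝓝 (A 0))) :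
    Tendsto A (𝓝 0) (𝓝 (A 0)) := by
  have hc : ∀ i : Fin 3, Continuous (fun w : E3 => w i) := fun i => by fun_prop
  have c1 : Tendsto (fun w : E3 => ((w 1, w 2) : ℝ × ℝ)) (𝓝 0) (𝓝 0) := by
    have h8 := ((hc 1).prodMk (hc 2)).tendsto (0 : E3)
    have h9 : (((0 : E3) 1, (0 : E3) 2) : ℝ × ℝ) = 0 := by simp
    rw [h9] at h8
    exact h8
  have c2 : Tendsto (fun w : E3 => w 0) (𝓝 0) (𝓝 0) := by
    have := (hc 0).tendsto (0 : E3)
    simpa using this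
  have d1 := h1.comp c1
  have d2 := h2.comp c2
  have hdec : ∀ w : E3, w = (!₂[w 0, 0, 0] : E3) + (!₂[0, w 1, w 2] : E3) := by
    intro w
    ext i
    fin_cases i <;> simp
  have hlow : ∀ w : E3, A w ≤ A 0 := fun w => (abs_le.mp (hA.abs_le w)).2
  have hup : ∀ w : E3, A 0 - (2 * (A 0 - A (!₂[w 0, 0, 0] : E3)) +
      2 * (A 0 - A (!₂[0, w 1, w 2] : E3))) ≤ A w := by
    intro w
    have h := hA.add_le (!₂[w 0, 0, 0] : E3) (!₂[0, w 1, w 2] : E3)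
    rw [← hdec w] at h
    linarith
  have e1 : Tendsto (fun w : E3 => A 0 - (2 * (A 0 - A (!₂[w 0, 0, 0] : E3)) +
      2 * (A 0 - A (!₂[0, w 1, w 2] : E3)))) (𝓝 0) (𝓝 (A 0)) := by
    have h3 : Tendsto (fun w : E3 => A 0 - (2 * (A 0 - A (!₂[w 0, 0, 0] : E3)) +
      2 * (A 0 - A (!₂[0, w 1, w 2] : E3)))) (𝓝 0)
      (𝓝 (A 0 - (2 * (A 0 - A 0) + 2 * (A 0 - A 0)))) :=
      (((d2.const_sub (A 0)).const_mul 2).add ((d1.const_sub (A 0)).const_mul 2)).const_sub (A 0)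
    have h4 : A 0 - (2 * (A 0 - A 0) + 2 * (A 0 - A 0)) = A 0 := by ring
    rwa [h4] at h3
  exact tendsto_of_tendsto_of_tendsto_of_le_of_le e1 tendsto_const_nhds hup hlow

/-- continuity at `0` is preserved by averaging over rotations -/
theorem cont_avg (M : Mean ℝ) {A : E3 → ℝ} (hA : PD A) (h : Tendsto A (𝓝 0) (𝓝 (A 0))) :
    Tendsto (fun w => M (fun θ => A (rotZ θ w))) (𝓝 0) (𝓝 (M (fun θ => A (rotZ θ 0)))) := by
  have hn : ∀ θ w, ‖rotZ θ w‖ = ‖w‖ := by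
    intro θ w
    obtain ⟨R, hR⟩ := exists_rotZ θ
    rw [← hR, R.norm_map]
  have hz : ∀ θ, rotZ θ 0 = 0 := by
    intro θ
    have := hn θ 0
    rw [norm_zero] at this
    exact norm_eq_zero.mp this
  have hb : ∀ w, Bdd (fun θ => A (rotZ θ w)) := fun w => ⟨A 0, fun θ => hA.abs_le _⟩
  rw [Metric.tendsto_nhds_nhds] at h ⊢
  intro ε hε
  obtain ⟨δ, hδ, hd⟩ := h (ε / 2) (half_pos hε)
  refine ⟨δ, hδ, fun {w} hw => ?_⟩
  rw [Real.dist_eq]
  have h5 : |M (fun θ => A (rotZ θ w)) - M (fun θ => A (rotZ θ 0))| ≤ ε / 2 := by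
    refine M.abs_sub_le (hb w) (hb 0) (fun θ => ?_)
    rw [hz θ]
    have h6 : dist (rotZ θ w) 0 < δ := by
      rw [dist_zero_right, hn, ← dist_zero_right]
      exact hw
    have h7 := hd h6
    rw [Real.dist_eq] at h7
    exact h7.le
  linarith

end Pool.Agent.LibSQ58
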