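import Pool.Agent.LibSQ58.FpB
set_option autoImplicit false
namespace Pool.Agent.LibSQ58
open MeasureTheory Filter Topology


/-- the same for the first axis, by transport with `cyc` -/
theorem flat_pdX (Φ : E3 → ℝ) (hΦ : PD Φ) (hrot : ∀ θ w, Φ (rotX θ w) = Φ w) :
    ∃ A B : E3 → ℝ, PD A ∧ PD B ∧ (∀ w, Φ w = A w + B w) ∧
      Tendsto (fun p : ℝ × ℝ => A (!₂[0, p.1, p.2] : E3)) (𝓝 0) (𝓝 (A 0)) ∧
      (∀ w : E3, w 1 ≠ 0 ∨ w 2 ≠ 0 → B w = 0) ∧
      (Tendsto (fun t : ℝ => Φ (!₂[t, 0, 0] : E3)) (𝓝 0) (𝓝 (Φ 0)) →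
        Tendsto (fun t : ℝ => A (!₂[t, 0, 0] : E3)) (𝓝 0) (𝓝 (A 0))) := by
  obtain ⟨R, hR⟩ := exists_cyc
  have hS : ∀ w : E3, R.symm w = !₂[w 1, w 2, w 0] := by
    intro w
    rw [LinearIsometryEquiv.symm_apply_eq, hR]
    ext i
    fin_cases i <;> simp [cyc]
  have hrot' : ∀ θ w, Φ (R (rotZ θ w)) = Φ (R w) := by
    intro θ w
    rw [← hrot θ (R w)]
    congr 1
    rw [hR, hR]
    ext i
    fin_cases i <;> simp [cyc, rotZ, rotX]
  obtain ⟨A, B, hA, hB, hAB, hc, h0, ht⟩ := flat_pd (fun w => Φ (R w)) (hΦ.comp R) hrot'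
  refine ⟨fun w => A (R.symm w), fun w => B (R.symm w), hA.comp R.symm, hB.comp R.symm, ?_, ?_, ?_, ?_⟩
  · intro w
    have := hAB (R.symm w)
    simpa using this
  · have e : (fun p : ℝ × ℝ => A (R.symm (!₂[0, p.1, p.2] : E3)))
        = fun p : ℝ × ℝ => A (!₂[p.1, p.2, 0] : E3) := by
      funext p
      congr 1
      rw [hS]
      ext i
      fin_cases i <;> simp
    have z : R.symm (0 : E3) = 0 := map_zero R.symm
    show Tendsto (fun p : ℝ × ℝ => A (R.symm (!₂[0, p.1, p.2] : E3))) (𝓝 0) (𝓝 (A (R.symm 0)))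
    rw [e, z]
    exact hc
  · intro w hw
    apply h0
    rw [hS]
    simpa using hw
  · intro hΦt
    have e : (fun t : ℝ => A (R.symm (!₂[t, 0, 0] : E3)))
        = fun t : ℝ => A (!₂[0, 0, t] : E3) := by
      funext t
      congr 1
      rw [hS]
      ext i
      fin_cases i <;> simp
    have e2 : (fun t : ℝ => Φ (R (!₂[0, 0, t] : E3)))
        = fun t : ℝ => Φ (!₂[t, 0, 0] : E3) := by
      funext t
      congr 1
      rw [hR]
      ext i
      fin_cases i <;> simp [cyc]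
    have z : R.symm (0 : E3) = 0 := map_zero R.symm
    have z2 : R (0 : E3) = 0 := map_zero R
    show Tendsto (fun t : ℝ => A (R.symm (!₂[t, 0, 0] : E3))) (𝓝 0) (𝓝 (A (R.symm 0)))
    rw [e, z]
    apply ht
    rw [e2, z2]
    exact hΦt

end Pool.Agent.LibSQ58
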