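import Pool.Agent.LibSQ58.AvB
import Pool.Agent.LibSQ58.AvC
import Pool.Agent.LibSQ58.FpC
set_option autoImplicit false
namespace Pool.Agent.LibSQ58
open MeasureTheory Filter Topology


/-- THREE AVERAGINGS: if `Φ` is positive definite and `rotZ`-invariant, then the average over `rotX` and then over `rotZ` is continuous plus a
multiple of the indicator of `0` -/
theorem three_avg (M : Mean ℝ) (hM : ∀ f, Bdd f → ∀ g : ℝ, M (fun x => f (x + g)) = M f)
    (Φ : E3 → ℝ) (hΦ : PD Φ) (hrot : ∀ θ w, Φ (rotZ θ w) = Φ w) :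
    ∃ (A : E3 → ℝ) (κ : ℝ), PD A ∧ Tendsto A (𝓝 0) (𝓝 (A 0)) ∧ 0 ≤ κ ∧
      ∀ w, M (fun θ => M (fun φ => Φ (rotX φ (rotZ θ w)))) = A w + if w = 0 then κ else 0 := by
  -- facts on rotations
  have hnX : ∀ θ w, ‖rotX θ w‖ = ‖w‖ := by
    intro θ w
    obtain ⟨R, hR⟩ := exists_rotX θ
    rw [← hR, R.norm_map]
  have hnZ : ∀ θ w, ‖rotZ θ w‖ = ‖w‖ := by
    intro θ w
    obtain ⟨R, hR⟩ := exists_rotZ θ
    rw [← hR, R.norm_map]
  have hX0 : ∀ θ, rotX θ 0 = 0 := fun θ => by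
    have h := hnX θ 0
    rw [norm_zero] at h
    exact norm_eq_zero.mp h
  have hZ0 : ∀ θ, rotZ θ 0 = 0 := fun θ => by
    have h := hnZ θ 0
    rw [norm_zero] at h
    exact norm_eq_zero.mp h
  have hZne : ∀ θ w, w ≠ 0 → rotZ θ w ≠ 0 := fun θ w hw h0 => hw (by
    have h := hnZ θ w
    rw [h0, norm_zero] at h
    exact norm_eq_zero.mp h.symm)
  -- boundedness of positive definite functions
  have hbd : ∀ {F : E3 → ℝ}, PD F → Bdd F := fun {F} hF => ⟨F 0, fun w => hF.abs_le w⟩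
  -- averages of positive definite functions
  have pdX : ∀ {F : E3 → ℝ}, PD F → PD (fun w => M (fun φ => F (rotX φ w))) := by
    intro F hF
    refine PD.mean M (fun φ w => F (rotX φ w)) (fun φ => ?_) (F 0) (fun φ => ?_)
    · obtain ⟨R, hR⟩ := exists_rotX φ
      have h := hF.comp R
      simpa only [hR] using h
    · show F (rotX φ 0) ≤ F 0
      rw [hX0]
  have pdZ : ∀ {F : E3 → ℝ}, PD F → PD (fun w => M (fun φ => F (rotZ φ w))) := by
    intro F hF
    refine PD.mean M (fun φ w => F (rotZ φ w)) (fun φ => ?_) (F 0) (fun φ => ?_)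
    · obtain ⟨R, hR⟩ := exists_rotZ φ
      have h := hF.comp R
      simpa only [hR] using h
    · show F (rotZ φ 0) ≤ F 0
      rw [hZ0]
  -- first splitting
  obtain ⟨A1, B1, hA1, hB1, hAB1, hc1, hs1, -⟩ := flat_pd Φ hΦ hrot
  -- average over rotX
  have hb1X : ∀ w, Bdd (fun φ => A1 (rotX φ w)) := fun w => (hbd hA1).comp _
  have hb1X' : ∀ w, Bdd (fun φ => B1 (rotX φ w)) := fun w => (hbd hB1).comp _
  set A2 : E3 → ℝ := fun w => M (fun φ => A1 (rotX φ w)) with hA2def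
  have hA2 : PD A2 := pdX hA1
  have hsplit2 : ∀ w, M (fun φ => Φ (rotX φ w)) = A2 w + if w = 0 then B1 0 else 0 := by
    intro w
    have h : M (fun φ => Φ (rotX φ w)) = M (fun φ => A1 (rotX φ w)) + M (fun φ => B1 (rotX φ w)) := by
      rw [← M.add' _ _ (hb1X w) (hb1X' w)]
      congr 1
      funext φ
      exact hAB1 _
    rw [h]
    by_cases hw : w = 0
    · subst hw
      simp only [hX0, if_true]
      rw [M.const' (B1 0)]
      simp only [hA2def, hX0]
    · rw [if_neg hw, avgX_kill M hM B1 (hbd hB1) hs1 w hw]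
  have hA2rot : ∀ θ w, A2 (rotX θ w) = A2 w := by
    intro θ w
    have h := hM (fun φ => A1 (rotX φ w)) (hb1X w) θ
    simp only [hA2def]
    rw [← h]
    congr 1
    funext φ
    rw [rotX_add]
  have hXaxis : ∀ φ t, rotX φ (!₂[t, 0, 0] : E3) = !₂[t, 0, 0] := by
    intro φ t
    ext i
    fin_cases i <;> simp [rotX]
  have hA2axis : ∀ t : ℝ, A2 (!₂[t, 0, 0] : E3) = A1 (!₂[t, 0, 0] : E3) := by
    intro t
    simp only [hA2def, hXaxis]
    exact M.const' _
  have hA20 : A2 0 = A1 0 := by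
    simp only [hA2def, hX0]
    exact M.const' _
  have hc2 : Tendsto (fun t : ℝ => A2 (!₂[t, 0, 0] : E3)) (𝓝 0) (𝓝 (A2 0)) := by
    simp only [hA2axis, hA20]
    have hm : Tendsto (fun t : ℝ => ((t, 0) : ℝ × ℝ)) (𝓝 0) (𝓝 0) := by
      have hcc : Continuous (fun t : ℝ => ((t, 0) : ℝ × ℝ)) := by fun_prop
      exact hcc.tendsto 0
    exact hc1.comp hm
  -- second splitting
  obtain ⟨A3, B3, hA3, hB3, hAB3, hc3, hs3, hc3'⟩ := flat_pdX A2 hA2 hA2rot
  have hA3c : Tendsto A3 (𝓝 0) (𝓝 (A3 0)) := cont_of_two hA3 hc3 (hc3' hc2)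
  refine ⟨fun w => M (fun θ => A3 (rotZ θ w)), B3 0 + B1 0, pdZ hA3, cont_avg M hA3 hA3c,
    add_nonneg hB3.zero_nonneg hB1.zero_nonneg, fun w => ?_⟩
  have hb3 : Bdd (fun θ => A3 (rotZ θ w)) := (hbd hA3).comp _
  have hb3' : Bdd (fun θ => B3 (rotZ θ w)) := (hbd hB3).comp _
  by_cases hw : w = 0
  · subst hw
    simp only [if_true, hZ0, hX0]
    rw [M.const', M.const', M.const']
    have h1 := hAB1 0
    have h2 := hAB3 0
    rw [hA20] at h2
    linarith
  · rw [if_neg hw]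
    have h : (fun θ => M (fun φ => Φ (rotX φ (rotZ θ w)))) =
        fun θ => A3 (rotZ θ w) + B3 (rotZ θ w) := by
      funext θ
      rw [hsplit2, if_neg (hZne θ w hw), add_zero, hAB3]
    rw [h, M.add' _ _ hb3 hb3', avgZ_kill M hM B3 (hbd hB3) hs3 w hw]

end Pool.Agent.LibSQ58
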