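import Pool.Agent.LibSQ58.Rep
set_option autoImplicit false
namespace Pool.Agent.LibSQ58
open MeasureTheory Filter Topology Polynomial


variable {H : Type*} [NormedAddCommGroup H] [InnerProductSpace ℝ H]

/-- point of the horizontal circle of radius `r` at the angle `θ` -/
noncomputable def cp (r θ : ℝ) : E3 := !₂[r * Real.cos θ, r * Real.sin θ, 0]

/-- difference of two points at the angles `2 j β`, `2 l β` -/
theorem cp_sub (r β : ℝ) (j l : ℝ) :
    cp r (2 * j * β) - cp r (2 * l * β) =
      rotZ ((j + l) * β + Real.pi / 2) (!₂[2 * r * Real.sin ((j - l) * β), 0, 0]) := by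
  have h1 : Real.cos (2 * j * β) - Real.cos (2 * l * β) =
      -2 * Real.sin ((j + l) * β) * Real.sin ((j - l) * β) := by
    rw [Real.cos_sub_cos]
    congr 2
    · congr 1
      ring_nf
    · ring_nf
  have h2 : Real.sin (2 * j * β) - Real.sin (2 * l * β) =
      2 * Real.sin ((j - l) * β) * Real.cos ((j + l) * β) := by
    rw [Real.sin_sub_sin]
    congr 2
    · congr 1
      ring_nf
    · ring_nf
  ext i
  fin_cases i
  · simp only [cp, rotZ, Real.cos_add_pi_div_two, Real.sin_add_pi_div_two]
    simp
    linear_combination r * h1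
  · simp only [cp, rotZ, Real.cos_add_pi_div_two, Real.sin_add_pi_div_two]
    simp
    linear_combination r * h2
  · simp [cp, rotZ]

theorem cp_eq_rot (r θ : ℝ) : cp r θ = rotZ θ (!₂[r, 0, 0]) := by
  ext i
  fin_cases i
  · simp [cp, rotZ, mul_comm]
  · simp [cp, rotZ, mul_comm]
  · simp [cp, rotZ]

end Pool.Agent.LibSQ58
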