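import Pool.Agent.LibSQ58.ChebA
set_option autoImplicit false
namespace Pool.Agent.LibSQ58
open MeasureTheory Filter Topology Polynomial


variable {H : Type*} [NormedAddCommGroup H] [InnerProductSpace ℝ H]

/-- Bessel's inequality: `n² a² ≤ ‖G‖² ∑∑ ⟨G, τ (w_l - w_j) G⟩` -/
theorem bessel_pts (S : Rp E3 H) (G k : H) (n : ℕ) (w : Fin n → E3) (a : ℝ)
    (ha : ∀ j, inner ℝ k (S.τ (w j) G) = a) :
    (n : ℝ) ^ 2 * a ^ 2 ≤ ‖k‖ ^ 2 * ∑ j, ∑ l, inner ℝ G (S.τ (w l - w j) G) := by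
  have h1 : inner ℝ k (∑ j, S.τ (w j) G) = n * a := by
    rw [inner_sum]
    simp [ha]
  have h2 : ‖∑ j, S.τ (w j) G‖ ^ 2 = ∑ j, ∑ l, inner ℝ G (S.τ (w l - w j) G) := by
    rw [← real_inner_self_eq_norm_sq, sum_inner]
    refine Finset.sum_congr rfl fun j _ => ?_
    rw [inner_sum]
    refine Finset.sum_congr rfl fun l _ => ?_
    rw [S.inner_two]
  rw [← h2]
  have h3 := abs_real_inner_le_norm k (∑ j, S.τ (w j) G)
  rw [h1] at h3
  calc (n : ℝ) ^ 2 * a ^ 2 = |(n : ℝ) * a| ^ 2 := by rw [sq_abs]; ring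
    _ ≤ (‖k‖ * ‖∑ j, S.τ (w j) G‖) ^ 2 := pow_le_pow_left₀ (abs_nonneg _) h3 2
    _ = _ := by ring

/-- the radial function on the first axis -/
noncomputable def ax (S : Rp E3 H) (G : H) (s : ℝ) : ℝ := inner ℝ G (S.τ (!₂[s, 0, 0] : E3) G)

/-- BESSEL ON A CIRCLE: if `G` has a rotation invariant correlation and `k` has constant inner product `a` with
the translates of `G` by the points at the angles `2 j β` on the circle of radius `r` (height `z`), then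
`a² ≤ ‖k‖² (‖G‖²/n + (1/n²) ∑_{j ≠ l} F(2 r sin((l-j) β)))`. -/
theorem bessel_circle (S : Rp E3 H) (G k : H)
    (hrot : ∀ θ w, inner ℝ G (S.τ (rotZ θ w) G) = inner ℝ G (S.τ w G))
    (r β z a : ℝ) (n : ℕ) (hn : 0 < n)
    (ha : ∀ j : Fin n, inner ℝ k (S.τ (cp r (2 * (j : ℕ) * β) + !₂[0, 0, z]) G) = a) :
    a ^ 2 ≤ ‖k‖ ^ 2 * (‖G‖ ^ 2 / n + (1 / (n : ℝ) ^ 2) * ∑ j : Fin n, ∑ l : Fin n,
      if j = l then 0 else ax S G (2 * r * Real.sin ((((l : ℕ) : ℝ) - ((j : ℕ) : ℝ)) * β))) := by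
  have h1 := bessel_pts S G k n (fun j : Fin n => cp r (2 * (j : ℕ) * β) + !₂[0, 0, z]) a ha
  have h2 : ∀ j l : Fin n, inner ℝ G (S.τ ((cp r (2 * (l : ℕ) * β) + !₂[0, 0, z]) -
      (cp r (2 * (j : ℕ) * β) + !₂[0, 0, z])) G) =
      (if j = l then ‖G‖ ^ 2 else 0) +
      (if j = l then 0 else ax S G (2 * r * Real.sin ((((l : ℕ) : ℝ) - ((j : ℕ) : ℝ)) * β))) := by
    intro j l
    rw [add_sub_add_right_eq_sub]
    split_ifs with h
    · subst h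
      rw [sub_self, S.zero', real_inner_self_eq_norm_sq, add_zero]
    · rw [cp_sub, hrot, zero_add]
      rfl
  have h3 : (∑ j : Fin n, ∑ l : Fin n, inner ℝ G (S.τ ((cp r (2 * (l : ℕ) * β) + !₂[0, 0, z]) -
      (cp r (2 * (j : ℕ) * β) + !₂[0, 0, z])) G)) =
      n * ‖G‖ ^ 2 + ∑ j : Fin n, ∑ l : Fin n,
      if j = l then 0 else ax S G (2 * r * Real.sin ((((l : ℕ) : ℝ) - ((j : ℕ) : ℝ)) * β)) := by
    simp_rw [h2, Finset.sum_add_distrib]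
    simp
  rw [h3] at h1
  have hn' : (0 : ℝ) < n := by exact_mod_cast hn
  have h4 : a ^ 2 = ((n : ℝ) ^ 2 * a ^ 2) / (n : ℝ) ^ 2 := by
    field_simp
  rw [h4]
  have h5 : ∀ X : ℝ, ‖k‖ ^ 2 * (‖G‖ ^ 2 / n + (1 / (n : ℝ) ^ 2) * X) =
      (‖k‖ ^ 2 * (n * ‖G‖ ^ 2 + X)) / (n : ℝ) ^ 2 := by
    intro X
    field_simp
  rw [h5]
  exact div_le_div_of_nonneg_right h1 (by positivity)

end Pool.Agent.LibSQ58
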