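import Pool.Agent.LibSQ58.Rep
set_option autoImplicit false
namespace Pool.Agent.LibSQ58
open MeasureTheory Filter Topology Polynomial


/-- the Chebyshev polynomial of the two-level trick -/
noncomputable def Q (b : ℝ) (m n : ℤ) : ℝ[X] := C (2 * b) * (Chebyshev.T ℝ (m - n) - Chebyshev.T ℝ (m + n))

theorem Q_eval (b : ℝ) (m n : ℤ) (β : ℝ) :
    (Q b m n).eval (Real.cos β) = 2 * (2 * b * Real.sin (m * β)) * Real.sin (n * β) := by
  have h1 : Real.cos (((m - n : ℤ) : ℝ) * β) =
      Real.cos (m * β) * Real.cos (n * β) + Real.sin (m * β) * Real.sin (n * β) := by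
    rw [← Real.cos_sub]
    push_cast
    ring_nf
  have h2 : Real.cos (((m + n : ℤ) : ℝ) * β) =
      Real.cos (m * β) * Real.cos (n * β) - Real.sin (m * β) * Real.sin (n * β) := by
    rw [← Real.cos_add]
    push_cast
    ring_nf
  unfold Q
  rw [eval_mul, eval_C, eval_sub, Chebyshev.T_real_cos, Chebyshev.T_real_cos, h1, h2]
  ring

theorem Q_natDegree (b : ℝ) (hb : b ≠ 0) (m n : ℤ) (hm : m ≠ 0) (hn : n ≠ 0) :
    1 ≤ (Q b m n).natDegree := by
  unfold Q
  rw [natDegree_C_mul (mul_ne_zero two_ne_zero hb)]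
  have h1 : (Chebyshev.T ℝ (m - n)).natDegree = (m - n).natAbs := Chebyshev.natDegree_T ℝ _
  have h2 : (Chebyshev.T ℝ (m + n)).natDegree = (m + n).natAbs := Chebyshev.natDegree_T ℝ _
  have h3 : (m - n).natAbs ≠ (m + n).natAbs := by omega
  rcases lt_or_gt_of_ne h3 with h | h
  · rw [natDegree_sub_eq_right_of_natDegree_lt (by rw [h1, h2]; exact h), h2]
    omega
  · rw [natDegree_sub_eq_left_of_natDegree_lt (by rw [h1, h2]; exact h), h1]
    omega

end Pool.Agent.LibSQ58
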