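import Pool.Agent.LibSQ58.Rep
set_option autoImplicit false
namespace Pool.Agent.LibSQ58
open MeasureTheory Filter Topology Polynomial

private theorem coeff_CurveB (P : ℝ[X]) (n : ℕ) (hn : P.natDegree = n + 1) (s : ℝ) :
    (P.comp (X + C s)).coeff n = P.coeff n + (n + 1) * P.coeff (n + 1) * s := by
  rw [← taylor_apply, taylor_coeff]
  have hd : (hasseDeriv n P).natDegree < 2 := by
    have := natDegree_hasseDeriv_le P n
    omega
  rw [eval_eq_sum_range' hd, Finset.sum_range_succ, Finset.sum_range_one, hasseDeriv_coeff,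
    hasseDeriv_coeff]
  rw [zero_add, Nat.choose_self, add_comm 1 n, Nat.choose_succ_self_right]
  push_cast
  ring

/-- differences: for `2 ≤ P.natDegree` and `s ≠ s'` the polynomial `P(X + s) - P(X + s')` has degree
`P.natDegree - 1` -/
theorem natDegree_diff (P : ℝ[X]) (hP : 2 ≤ P.natDegree) (s s' : ℝ) (h : s ≠ s') :
    (P.comp (X + C s) - P.comp (X + C s')).natDegree = P.natDegree - 1 := by
  obtain ⟨n, hn⟩ : ∃ n, P.natDegree = n + 1 := ⟨P.natDegree - 1, by omega⟩
  have hlc : P.coeff (n + 1) ≠ 0 := by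
    rw [← hn]
    have h0 : P ≠ 0 := by
      rintro rfl
      rw [natDegree_zero] at hP
      omega
    exact leadingCoeff_ne_zero.2 h0
  have hd : ∀ r : ℝ, (P.comp (X + C r)).natDegree = n + 1 := by
    intro r
    rw [← taylor_apply, natDegree_taylor, hn]
  have hl : ∀ r : ℝ, (P.comp (X + C r)).coeff (n + 1) = P.coeff (n + 1) := by
    intro r
    have := leadingCoeff_taylor (r := r) (f := P)
    rw [taylor_apply, leadingCoeff, leadingCoeff, hd, hn] at this
    exact this
  rw [hn, Nat.add_sub_cancel]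
  refine natDegree_eq_of_le_of_coeff_ne_zero ?_ ?_
  · rw [natDegree_le_iff_coeff_eq_zero]
    intro N hN
    rw [coeff_sub]
    rcases Nat.eq_or_lt_of_le (Nat.succ_le_of_lt hN) with hN' | hN'
    · rw [← hN', Nat.succ_eq_add_one, hl, hl, sub_self]
    · rw [coeff_eq_zero_of_natDegree_lt (by rw [hd]; exact hN'),
        coeff_eq_zero_of_natDegree_lt (by rw [hd]; exact hN'), sub_self]
  · rw [coeff_sub, coeff_CurveB P n hn, coeff_CurveB P n hn]
    have e1 : P.coeff n + (n + 1) * P.coeff (n + 1) * s -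
        (P.coeff n + (n + 1) * P.coeff (n + 1) * s') = (n + 1) * P.coeff (n + 1) * (s - s') := by
      ring
    rw [e1]
    exact mul_ne_zero (mul_ne_zero (by positivity) hlc) (sub_ne_zero.2 h)

end Pool.Agent.LibSQ58
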