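import Pool.Agent.LibSQ58.Rep
set_option autoImplicit false
namespace Pool.Agent.LibSQ58
open MeasureTheory Filter Topology Polynomial


variable {H : Type*} [NormedAddCommGroup H] [InnerProductSpace ℝ H] [CompleteSpace H]

private theorem bdd_CurveC {α : Type*} (f : α → ℝ) (C : ℝ) (h : ∀ x, |f x| ≤ C) : Bdd f := ⟨C, h⟩

/-- van der Corput: averaging over the `N` shifts `s_i = i δ / N`, `i < N` -/
theorem curve_step (m : JMean) (R : Rp ℝ H) (G : H) (P : ℝ[X])
    (hd : ∀ s s' : ℝ, s ≠ s' → m.toMean (fun t => inner ℝ G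
      (R.τ ((P.comp (X + C s) - P.comp (X + C s')).eval t) G)) = 0) (k : H) :
    m.toMean (fun t => inner ℝ k (R.τ (P.eval t) G)) = 0 := by
  set φ : ℝ → ℝ := fun t => inner ℝ k (R.τ (P.eval t) G) with hφ
  set B : ℝ := ‖k‖ * ‖G‖ with hB
  have hB0 : 0 ≤ B := by positivity
  have hφB : ∀ t, |φ t| ≤ B := fun t => R.abs_inner_le _ _ _
  -- the averages
  set s : (N : ℕ) → Fin N → ℝ := fun N i => (i : ℝ) / ((N : ℝ) * N) with hs
  set w : (N : ℕ) → ℝ → H := fun N t =>
    (1 / (N : ℝ)) • ∑ i : Fin N, R.τ (P.eval (t + s N i)) G with hw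
  set av : ℕ → ℝ := fun N => m.toMean (fun t => inner ℝ k (w N t)) with hav
  have hwB : ∀ N : ℕ, ∀ t, ‖w N t‖ ≤ ‖G‖ := by
    intro N t
    rw [hw]
    rcases Nat.eq_zero_or_pos N with rfl | hN
    · simp
    have hN' : (0 : ℝ) < N := by exact_mod_cast hN
    calc ‖(1 / (N : ℝ)) • ∑ i : Fin N, R.τ (P.eval (t + s N i)) G‖
        = (1 / (N : ℝ)) * ‖∑ i : Fin N, R.τ (P.eval (t + s N i)) G‖ := by
          rw [norm_smul, Real.norm_of_nonneg (by positivity)]
      _ ≤ (1 / (N : ℝ)) * ∑ i : Fin N, ‖R.τ (P.eval (t + s N i)) G‖ :=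
          mul_le_mul_of_nonneg_left (norm_sum_le _ _) (by positivity)
      _ = (1 / (N : ℝ)) * ∑ _i : Fin N, ‖G‖ := by
          congr 1
          exact Finset.sum_congr rfl fun i _ => (R.τ _).norm_map _
      _ = ‖G‖ := by
          rw [Finset.sum_const, Finset.card_univ, Fintype.card_fin, nsmul_eq_mul]
          field_simp
  -- the averages are close to `m φ`
  have hclose : ∀ N : ℕ, 0 < N → |av N - m.toMean φ| ≤ 4 * (1 / (N : ℝ)) * B := by
    intro N hN
    have hN' : (0 : ℝ) < N := by exact_mod_cast hN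
    have e1 : av N = (1 / (N : ℝ)) * ∑ i : Fin N, m.toMean (fun t => φ (t + s N i)) := by
      rw [← m.toMean.sum Finset.univ (f := fun i t => φ (t + s N i))
        (fun i _ => bdd_CurveC _ B fun t => hφB _)]
      rw [← m.toMean.smul' (1 / (N : ℝ)) _
        (Bdd.sum Finset.univ (f := fun i t => φ (t + s N i))
          (fun i _ => bdd_CurveC _ B fun t => hφB _))]
      have e0 : av N = m.toMean (fun t => inner ℝ k (w N t)) := rfl
      rw [e0]
      congr 1
      funext t
      rw [hw]
      simp only []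
      rw [inner_smul_right, inner_sum]
    have e2 : m.toMean φ = (1 / (N : ℝ)) * ∑ _i : Fin N, m.toMean φ := by
      rw [Finset.sum_const, Finset.card_univ, Fintype.card_fin, nsmul_eq_mul]
      field_simp
    have e3 : av N - m.toMean φ =
        (1 / (N : ℝ)) * ∑ i : Fin N, (m.toMean (fun t => φ (t + s N i)) - m.toMean φ) := by
      rw [Finset.sum_sub_distrib, mul_sub, ← e2, ← e1]
    have hbound : ∀ i : Fin N, |m.toMean (fun t => φ (t + s N i)) - m.toMean φ| ≤
        4 * (1 / (N : ℝ)) * B := by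
      intro i
      refine (m.shift' φ B hφB (s N i)).trans ?_
      refine mul_le_mul_of_nonneg_right ?_ hB0
      refine mul_le_mul_of_nonneg_left ?_ (by norm_num)
      have hi : ((i : ℕ) : ℝ) ≤ N := by exact_mod_cast i.isLt.le
      rw [hs]
      simp only []
      rw [abs_of_nonneg (by positivity), div_le_div_iff₀ (by positivity) hN']
      nlinarith
    calc |av N - m.toMean φ|
        = (1 / (N : ℝ)) * |∑ i : Fin N, (m.toMean (fun t => φ (t + s N i)) - m.toMean φ)| := by
          rw [e3, abs_mul, abs_of_nonneg (by positivity : (0 : ℝ) ≤ 1 / (N : ℝ))]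
      _ ≤ (1 / (N : ℝ)) * ∑ _i : Fin N, 4 * (1 / (N : ℝ)) * B := by
          refine mul_le_mul_of_nonneg_left ?_ (by positivity)
          exact (Finset.abs_sum_le_sum_abs _ _).trans (Finset.sum_le_sum fun i _ => hbound i)
      _ = 4 * (1 / (N : ℝ)) * B := by
          rw [Finset.sum_const, Finset.card_univ, Fintype.card_fin, nsmul_eq_mul]
          field_simp
  -- the averages are small
  have hsmall : ∀ N : ℕ, 0 < N → (av N) ^ 2 ≤ B ^ 2 * (1 / (N : ℝ)) := by
    intro N hN
    have hN' : (0 : ℝ) < N := by exact_mod_cast hN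
    have h1 := mean_inner_sq_le m.toMean (w N) ‖G‖ (hwB N) k
    have hbG : ∀ i j : Fin N, Bdd (fun t => inner ℝ (R.τ (P.eval (t + s N i)) G)
        (R.τ (P.eval (t + s N j)) G)) := by
      intro i j
      refine bdd_CurveC _ (‖G‖ * ‖G‖) fun t => ?_
      refine (abs_real_inner_le_norm _ _).trans ?_
      rw [(R.τ _).norm_map, (R.τ _).norm_map]
    have h2 : m.toMean (fun t => ‖w N t‖ ^ 2) = (1 / (N : ℝ) ^ 2) * ∑ i : Fin N, ∑ j : Fin N,
        m.toMean (fun t => inner ℝ (R.τ (P.eval (t + s N i)) G)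
          (R.τ (P.eval (t + s N j)) G)) := by
      have e1 : (fun t => ‖w N t‖ ^ 2) = fun t => (1 / (N : ℝ) ^ 2) * ∑ i : Fin N, ∑ j : Fin N,
          inner ℝ (R.τ (P.eval (t + s N i)) G) (R.τ (P.eval (t + s N j)) G) := by
        funext t
        exact norm_avg_sq (fun i : Fin N => R.τ (P.eval (t + s N i)) G)
      have hb2 : ∀ i : Fin N, Bdd (fun t => ∑ j : Fin N,
          inner ℝ (R.τ (P.eval (t + s N i)) G) (R.τ (P.eval (t + s N j)) G)) := fun i =>
        Bdd.sum Finset.univ (f := fun j t => inner ℝ (R.τ (P.eval (t + s N i)) G)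
          (R.τ (P.eval (t + s N j)) G)) fun j _ => hbG i j
      rw [e1, m.toMean.smul' (1 / (N : ℝ) ^ 2) (fun t => ∑ i : Fin N, ∑ j : Fin N,
          inner ℝ (R.τ (P.eval (t + s N i)) G) (R.τ (P.eval (t + s N j)) G))
        (Bdd.sum Finset.univ (f := fun i t => ∑ j : Fin N,
          inner ℝ (R.τ (P.eval (t + s N i)) G) (R.τ (P.eval (t + s N j)) G)) fun i _ => hb2 i)]
      congr 1
      rw [m.toMean.sum Finset.univ (f := fun i t => ∑ j : Fin N,
          inner ℝ (R.τ (P.eval (t + s N i)) G) (R.τ (P.eval (t + s N j)) G)) fun i _ => hb2 i]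
      refine Finset.sum_congr rfl fun i _ => ?_
      rw [m.toMean.sum Finset.univ (f := fun j t => inner ℝ (R.τ (P.eval (t + s N i)) G)
          (R.τ (P.eval (t + s N j)) G)) fun j _ => hbG i j]
    have h3 : ∀ i j : Fin N, m.toMean (fun t => inner ℝ (R.τ (P.eval (t + s N i)) G)
          (R.τ (P.eval (t + s N j)) G)) = if i = j then ‖G‖ ^ 2 else 0 := by
      intro i j
      by_cases hij : i = j
      · subst hij
        rw [if_pos rfl]
        have e1 : (fun t => inner ℝ (R.τ (P.eval (t + s N i)) G)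
            (R.τ (P.eval (t + s N i)) G)) = fun _ : ℝ => ‖G‖ ^ 2 := by
          funext t
          rw [real_inner_self_eq_norm_sq, (R.τ _).norm_map]
        rw [e1]
        exact m.const' _
      · rw [if_neg hij]
        have hne : s N j ≠ s N i := by
          intro h
          apply hij
          rw [hs] at h
          simp only [] at h
          rw [div_left_inj' (by positivity)] at h
          exact (Fin.ext (by exact_mod_cast h)).symm
        rw [← hd (s N j) (s N i) hne]
        congr 1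
        funext t
        rw [R.inner_two, eval_sub, eval_comp, eval_comp, eval_add, eval_add, eval_X, eval_C,
          eval_C]
    have h4 : m.toMean (fun t => ‖w N t‖ ^ 2) = ‖G‖ ^ 2 * (1 / (N : ℝ)) := by
      rw [h2]
      have e1 : ∑ i : Fin N, ∑ j : Fin N,
        m.toMean (fun t => inner ℝ (R.τ (P.eval (t + s N i)) G)
          (R.τ (P.eval (t + s N j)) G)) = N * ‖G‖ ^ 2 := by
        calc ∑ i : Fin N, ∑ j : Fin N, m.toMean (fun t => inner ℝ (R.τ (P.eval (t + s N i)) G)
              (R.τ (P.eval (t + s N j)) G))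
            = ∑ i : Fin N, ∑ j : Fin N, (if i = j then ‖G‖ ^ 2 else 0) :=
              Finset.sum_congr rfl fun i _ => Finset.sum_congr rfl fun j _ => h3 i j
          _ = ∑ _i : Fin N, ‖G‖ ^ 2 := by
              refine Finset.sum_congr rfl fun i _ => ?_
              rw [Finset.sum_ite_eq]
              simp
          _ = N * ‖G‖ ^ 2 := by
              rw [Finset.sum_const, Finset.card_univ, Fintype.card_fin, nsmul_eq_mul]
      rw [e1]
      field_simp
    calc (av N) ^ 2 ≤ ‖k‖ ^ 2 * m.toMean (fun t => ‖w N t‖ ^ 2) := h1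
      _ = B ^ 2 * (1 / (N : ℝ)) := by rw [h4, hB]; ring
  -- the limit
  have hlim0 : Tendsto (fun N : ℕ => 1 / ((N : ℝ) + 1)) atTop (𝓝 0) :=
    tendsto_one_div_add_atTop_nhds_zero_nat
  have t1 : Tendsto (fun N : ℕ => av (N + 1)) atTop (𝓝 (m.toMean φ)) := by
    rw [tendsto_iff_dist_tendsto_zero]
    refine squeeze_zero (fun _ => dist_nonneg) (g := fun N : ℕ => 4 * (1 / ((N : ℝ) + 1)) * B) ?_ ?_
    · intro N
      have := hclose (N + 1) (Nat.succ_pos N)
      rw [Real.dist_eq]
      rwa [Nat.cast_add, Nat.cast_one] at this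
    · have := (hlim0.const_mul 4).mul_const B
      rwa [mul_zero, zero_mul] at this
  have t2 : Tendsto (fun N : ℕ => (av (N + 1)) ^ 2) atTop (𝓝 0) := by
    refine squeeze_zero (fun _ => sq_nonneg _) (g := fun N : ℕ => B ^ 2 * (1 / ((N : ℝ) + 1))) ?_ ?_
    · intro N
      have := hsmall (N + 1) (Nat.succ_pos N)
      rwa [Nat.cast_add, Nat.cast_one] at this
    · have := hlim0.const_mul (B ^ 2)
      rwa [mul_zero] at this
  have t3 := tendsto_nhds_unique (t1.pow 2) t2
  exact pow_eq_zero_iff (two_ne_zero) |>.1 t3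

end Pool.Agent.LibSQ58
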