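import Pool.Agent.LibSQ58.CurveA
import Pool.Agent.LibSQ58.CurveB
import Pool.Agent.LibSQ58.CurveC
set_option autoImplicit false
namespace Pool.Agent.LibSQ58
open MeasureTheory Filter Topology Polynomial


variable {H : Type*} [NormedAddCommGroup H] [InnerProductSpace ℝ H] [CompleteSpace H]

/-- polynomial curves on a line average wild vectors to `0` -/
theorem curve (m : JMean) (R : Rp ℝ H) (G : H)
    (hG : ∀ h : H, Tendsto (fun t => R.τ t h) (𝓝 0) (𝓝 h) → inner ℝ h G = (0 : ℝ))
    (P : ℝ[X]) (hP : 1 ≤ P.natDegree) (k : H) :
    m.toMean (fun t => inner ℝ k (R.τ (P.eval t) G)) = 0 := by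
  induction hn : P.natDegree using Nat.strong_induction_on generalizing P k with
  | _ n ih =>
    rcases Nat.lt_or_ge 1 P.natDegree with h2 | h1
    · refine curve_step m R G P ?_ k
      intro s s' hs
      have hd := natDegree_diff P h2 s s' hs
      exact ih (P.natDegree - 1) (by omega) _ (by omega) G (by rw [hd])
    · have h1' : P.natDegree = 1 := le_antisymm h1 hP
      have ha : P.coeff 1 ≠ 0 := by
        intro h0
        have : P.leadingCoeff = 0 := by rw [leadingCoeff, h1', h0]
        rw [leadingCoeff_eq_zero] at this
        rw [this] at h1'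
        simp at h1'
      have he : ∀ t : ℝ, P.eval t = P.coeff 1 * t + P.coeff 0 := by
        intro t
        conv_lhs => rw [P.eq_X_add_C_of_natDegree_le_one h1]
        simp
      simp only [he]
      exact curve_one m R G hG _ _ ha k

end Pool.Agent.LibSQ58
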