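import Pool.Agent.LibSQ58.Rep
set_option autoImplicit false
namespace Pool.Agent.LibSQ58
open MeasureTheory Filter Topology Polynomial


variable {H : Type*} [NormedAddCommGroup H] [InnerProductSpace ℝ H] [CompleteSpace H]

/-- degree one: the weak mean `V` of `τ_{at} G` satisfies `‖τ_{as} V - V‖ ≤ 4 |s| ‖G‖` (`shift'`), so it is a continuous
vector; all `τ_{at} G` are orthogonal to the continuous vectors (these are invariant), so `V = 0`. -/
theorem curve_one (m : JMean) (R : Rp ℝ H) (G : H)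
    (hG : ∀ h : H, Tendsto (fun t => R.τ t h) (𝓝 0) (𝓝 h) → inner ℝ h G = (0 : ℝ))
    (a b : ℝ) (ha : a ≠ 0) (k : H) :
    m.toMean (fun t => inner ℝ k (R.τ (a * t + b) G)) = 0 := by
  obtain ⟨V, hV⟩ := weak_mean m.toMean (fun t => R.τ (a * t + b) G) ‖G‖
    (fun t => by rw [(R.τ (a * t + b)).norm_map])
  have hbd : ∀ k : H, ∀ t : ℝ, |inner ℝ k (R.τ (a * t + b) G)| ≤ ‖k‖ * ‖G‖ := fun k t =>
    R.abs_inner_le _ _ _
  -- translates of `V`
  have hshift : ∀ (x : ℝ) (k : H), |inner ℝ k (R.τ x V - V)| ≤ 4 * |x / a| * (‖k‖ * ‖G‖) := by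
    intro x k
    have e1 : inner ℝ k (R.τ x V) =
        m.toMean (fun t => inner ℝ k (R.τ (a * (t + x / a) + b) G)) := by
      have h1 : inner ℝ k (R.τ x V) = inner ℝ (R.τ (-x) k) V := by
        rw [R.inner_left, neg_neg]
      rw [h1, hV]
      congr 1
      funext t
      rw [R.inner_two]
      congr 3
      field_simp
      ring
    have e2 : inner ℝ k (R.τ x V - V) =
        m.toMean (fun t => inner ℝ k (R.τ (a * (t + x / a) + b) G)) -
          m.toMean (fun t => inner ℝ k (R.τ (a * t + b) G)) := by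
      rw [inner_sub_right, e1, hV]
    rw [e2]
    exact m.shift' (fun t => inner ℝ k (R.τ (a * t + b) G)) (‖k‖ * ‖G‖) (hbd k) (x / a)
  have hnorm : ∀ x : ℝ, ‖R.τ x V - V‖ ≤ 4 * |x / a| * ‖G‖ := by
    intro x
    have h1 := hshift x (R.τ x V - V)
    rw [real_inner_self_eq_norm_sq, abs_of_nonneg (by positivity)] at h1
    rcases (norm_nonneg (R.τ x V - V)).eq_or_lt with h0 | h0
    · rw [← h0]
      positivity
    · have h2 : ‖R.τ x V - V‖ * ‖R.τ x V - V‖ ≤ (4 * |x / a| * ‖G‖) * ‖R.τ x V - V‖ := by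
        nlinarith
      exact le_of_mul_le_mul_right h2 h0
  have hcont : Tendsto (fun t => R.τ t V) (𝓝 0) (𝓝 V) := by
    rw [tendsto_iff_norm_sub_tendsto_zero]
    refine squeeze_zero (fun _ => norm_nonneg _) hnorm ?_
    have hc : Continuous fun x : ℝ => 4 * |x / a| * ‖G‖ := by fun_prop
    have := hc.tendsto 0
    simpa using this
  have hinv : ∀ x : ℝ, Tendsto (fun t => R.τ t (R.τ x V)) (𝓝 0) (𝓝 (R.τ x V)) := by
    intro x
    have e1 : (fun t => R.τ t (R.τ x V)) = fun t => R.τ x (R.τ t V) := by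
      funext t
      rw [← R.add', ← R.add', add_comm]
    rw [e1]
    exact ((R.τ x).continuous.tendsto V).comp hcont
  have hVV : inner ℝ V V = (0 : ℝ) := by
    rw [hV V]
    have e1 : (fun t => inner ℝ V (R.τ (a * t + b) G)) = fun _ : ℝ => (0 : ℝ) := by
      funext t
      have h1 : inner ℝ V (R.τ (a * t + b) G) = inner ℝ (R.τ (-(a * t + b)) V) G := by
        rw [R.inner_left, neg_neg]
      rw [h1]
      exact hG _ (hinv _)
    rw [e1]
    exact m.const' 0
  have hV0 : V = 0 := inner_self_eq_zero.1 hVV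
  rw [← hV k, hV0, inner_zero_right]

end Pool.Agent.LibSQ58
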