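import Pool.Agent.LibSQ58.RhC
set_option autoImplicit false
namespace Pool.Agent.LibSQ58
open MeasureTheory Filter Topology


variable {Ω : Type} [MeasurableSpace Ω]

theorem RR.g_T (X : RR Ω) (x a : E3) (ω : Ω) : X.g x (X.T a ω) = X.g (x + a) ω := by
  simp only [RR.g, X.T_add]

theorem RR.R_T (X : RR Ω) (L : List E3) (a : E3) (ω : Ω) :
    X.R L (X.T a ω) = X.R (L.map (fun x => x + a)) ω := by
  simp only [RR.R, RR.r, List.map_map, Function.comp_def, X.T_add]

private theorem RR.T_meas (X : RR Ω) (x : E3) : Measurable (X.T x) := (X.mp x).measurable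

theorem RR.g_meas (X : RR Ω) (x : E3) : Measurable (X.g x) :=
  (X.χm.comp (X.T_meas x)).sub (X.ρm.comp (X.T_meas x))

theorem RR.g_le (X : RR Ω) (x : E3) (ω : Ω) : |X.g x ω| ≤ 2 := by
  have h1 := X.pm (X.T x ω)
  have h2 := abs_le.1 (X.ρ1 (X.T x ω))
  rw [RR.g, abs_le]
  rcases h1 with h | h <;> rw [h] <;> constructor <;> linarith [h2.1, h2.2]

theorem RR.R_meas (X : RR Ω) (L : List E3) : Measurable (X.R L) := by
  induction L with
  | nil =>
    have : X.R [] = fun _ => (1 : ℝ) := by
      funext ω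
      simp [RR.R]
    rw [this]
    exact measurable_const
  | cons a L ih =>
    have : X.R (a :: L) = fun ω => X.r a ω * X.R L ω := by
      funext ω
      simp [RR.R]
    rw [this]
    exact (X.ρm.comp (X.T_meas a)).mul ih

theorem RR.R_le (X : RR Ω) (L : List E3) (ω : Ω) : |X.R L ω| ≤ 1 := by
  induction L with
  | nil => simp [RR.R]
  | cons a L ih =>
    have : X.R (a :: L) ω = X.r a ω * X.R L ω := by
      simp [RR.R]
    rw [this, abs_mul]
    exact mul_le_one₀ (X.ρ1 _) (abs_nonneg _) ih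

/-- translation invariance of `∫ f (T a ω)` for measurable `f` -/
theorem RR.integral_T (X : RR Ω) (a : E3) (f : Ω → ℝ) (hf : Measurable f) :
    ∫ ω, f (X.T a ω) ∂X.μ = ∫ ω, f ω ∂X.μ := by
  have h := MeasureTheory.integral_map (μ := X.μ) (φ := X.T a) (f := f)
    (X.T_meas a).aemeasurable hf.aestronglyMeasurable
  rw [(X.mp a).map_eq] at h
  exact h.symm

end Pool.Agent.LibSQ58
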