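import Pool.Agent.LibSQ58.DcA
set_option autoImplicit false
namespace Pool.Agent.LibSQ58
open MeasureTheory Filter Topology


variable {Ω : Type} [MeasurableSpace Ω]

private theorem RR.r_meas' (X : RR Ω) (x : E3) : Measurable (X.r x) :=
  X.ρm.comp (X.mp x).measurable

private theorem RR.r_le' (X : RR Ω) (x : E3) (ω : Ω) : |X.r x ω| ≤ 1 := X.ρ1 _

/-- `x ↦ ρ_x` is continuous in `L¹`, uniformly -/
theorem RR.r_cont (X : RR Ω) : ∀ ε > 0, ∃ δ > 0, ∀ x y : E3, dist x y < δ →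
    ∫ ω, |X.r x ω - X.r y ω| ∂X.μ < ε := by
  have := X.prob
  intro ε hε
  have h1 := (Metric.tendsto_nhds_nhds.mp X.ρc) (ε ^ 2) (by positivity)
  obtain ⟨δ, hδ, h2⟩ := h1
  refine ⟨δ, hδ, fun x y hxy => ?_⟩
  have h3 : ∫ ω, |X.r x ω - X.r y ω| ∂X.μ = ∫ ω, |X.ρ (X.T (x - y) ω) - X.ρ ω| ∂X.μ := by
    rw [← X.integral_T y (fun ω => |X.ρ (X.T (x - y) ω) - X.ρ ω|)]
    · congr 1
      ext ω
      rw [← X.T_add, sub_add_cancel]
      rfl
    · exact ((X.ρm.comp (X.mp (x - y)).measurable).sub X.ρm).norm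
  rw [h3]
  have h4 : dist (x - y) 0 < δ := by
    rw [dist_zero_right, ← dist_eq_norm]
    exact hxy
  have h5 := h2 h4
  rw [Real.dist_eq, sub_zero] at h5
  have h6 : ∫ ω, (X.ρ (X.T (x - y) ω) - X.ρ ω) ^ 2 ∂X.μ < ε ^ 2 := lt_of_le_of_lt (le_abs_self _) h5
  set f : Ω → ℝ := fun ω => X.ρ (X.T (x - y) ω) - X.ρ ω with hf
  have hfm : Measurable f := (X.ρm.comp (X.mp (x - y)).measurable).sub X.ρm
  have hfb : ∀ ω, |f ω| ≤ 2 := by
    intro ω
    have e1 := X.ρ1 (X.T (x - y) ω)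
    have e2 := X.ρ1 ω
    calc |f ω| ≤ |X.ρ (X.T (x - y) ω)| + |X.ρ ω| := abs_sub _ _
      _ ≤ 2 := by linarith
  have i1 : Integrable (fun ω => |f ω|) X.μ := by
    refine Integrable.of_bound hfm.norm.aestronglyMeasurable 2 (Eventually.of_forall fun ω => ?_)
    rw [Real.norm_eq_abs, abs_abs]
    exact hfb ω
  have i2 : Integrable (fun ω => f ω ^ 2) X.μ := by
    refine Integrable.of_bound (hfm.pow_const 2).aestronglyMeasurable 4 (Eventually.of_forall fun ω => ?_)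
    rw [Real.norm_eq_abs, abs_pow]
    nlinarith [hfb ω, abs_nonneg (f ω)]
  have h7 : ∫ ω, |f ω| ∂X.μ ≤ ∫ ω, ((2 * ε)⁻¹ * f ω ^ 2 + ε / 2) ∂X.μ := by
    apply integral_mono i1 ((i2.const_mul _).add (integrable_const _))
    intro ω
    show |f ω| ≤ (2 * ε)⁻¹ * f ω ^ 2 + ε / 2
    have e1 : (2 * ε)⁻¹ * f ω ^ 2 + ε / 2 - |f ω| = (2 * ε)⁻¹ * (|f ω| - ε) ^ 2 := by
      rw [← sq_abs (f ω)]
      field_simp
      ring
    have e2 : 0 ≤ (2 * ε)⁻¹ * (|f ω| - ε) ^ 2 := by positivity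
    linarith
  rw [integral_add (i2.const_mul _) (integrable_const _), integral_const_mul] at h7
  simp only [integral_const, probReal_univ, smul_eq_mul, one_mul] at h7
  have h8 : (2 * ε)⁻¹ * ∫ ω, f ω ^ 2 ∂X.μ < (2 * ε)⁻¹ * ε ^ 2 :=
    mul_lt_mul_of_pos_left h6 (by positivity)
  have h9 : (2 * ε)⁻¹ * ε ^ 2 = ε / 2 := by
    field_simp
  linarith

private theorem prod_sub_prod_le' (n : ℕ) (a b : Fin n → ℝ) (ha : ∀ i, |a i| ≤ 1)
    (hb : ∀ i, |b i| ≤ 1) : |∏ i, a i - ∏ i, b i| ≤ ∑ i, |a i - b i| := by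
  induction n with
  | zero => simp
  | succ n ih =>
    rw [Fin.prod_univ_succ, Fin.prod_univ_succ, Fin.sum_univ_succ]
    have h1 := ih (fun i => a i.succ) (fun i => b i.succ) (fun i => ha _) (fun i => hb _)
    have h2 : a 0 * ∏ i : Fin n, a i.succ - b 0 * ∏ i : Fin n, b i.succ
        = (a 0 - b 0) * ∏ i : Fin n, a i.succ
          + b 0 * (∏ i : Fin n, a i.succ - ∏ i : Fin n, b i.succ) := by ring
    rw [h2]
    have h3 : |∏ i : Fin n, a i.succ| ≤ 1 := by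
      rw [Finset.abs_prod]
      exact Finset.prod_le_one (fun i _ => abs_nonneg _) (fun i _ => ha _)
    calc |(a 0 - b 0) * ∏ i : Fin n, a i.succ
          + b 0 * (∏ i : Fin n, a i.succ - ∏ i : Fin n, b i.succ)|
        ≤ |(a 0 - b 0) * ∏ i : Fin n, a i.succ|
          + |b 0 * (∏ i : Fin n, a i.succ - ∏ i : Fin n, b i.succ)| := abs_add_le _ _
      _ = |a 0 - b 0| * |∏ i : Fin n, a i.succ|
          + |b 0| * |∏ i : Fin n, a i.succ - ∏ i : Fin n, b i.succ| := by rw [abs_mul, abs_mul]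
      _ ≤ |a 0 - b 0| * 1 + 1 * ∑ i : Fin n, |a i.succ - b i.succ| := by
          gcongr
          exact hb 0
      _ = _ := by ring

private theorem RR.R_ofFn (X : RR Ω) (n : ℕ) (x : Fin n → E3) (ω : Ω) :
    X.R (List.ofFn x) ω = ∏ i, X.r (x i) ω := by
  unfold RR.R
  rw [List.map_ofFn, List.prod_ofFn]
  rfl

/-- products of regular parts depend continuously on the points -/
theorem RR.R_cont (X : RR Ω) (n : ℕ) : ∀ ε > 0, ∃ δ > 0, ∀ x y : Fin n → E3,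
    (∀ i, dist (x i) (y i) < δ) →
      ∫ ω, |X.R (List.ofFn x) ω - X.R (List.ofFn y) ω| ∂X.μ < ε := by
  have := X.prob
  intro ε hε
  obtain ⟨δ, hδ, h1⟩ := X.r_cont (ε / (n + 1)) (by positivity)
  refine ⟨δ, hδ, fun x y hxy => ?_⟩
  have i0 : ∀ i, Integrable (fun ω => |X.r (x i) ω - X.r (y i) ω|) X.μ := by
    intro i
    refine Integrable.of_bound
      ((X.r_meas' (x i)).sub (X.r_meas' (y i))).norm.aestronglyMeasurable 2
      (Eventually.of_forall fun ω => ?_)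
    rw [Real.norm_eq_abs, abs_abs]
    have e1 := X.r_le' (x i) ω
    have e2 := X.r_le' (y i) ω
    calc |X.r (x i) ω - X.r (y i) ω| ≤ |X.r (x i) ω| + |X.r (y i) ω| := abs_sub _ _
      _ ≤ 2 := by linarith
  have i1 : Integrable (fun ω => |X.R (List.ofFn x) ω - X.R (List.ofFn y) ω|) X.μ := by
    refine Integrable.of_bound
      ((X.R_meas _).sub (X.R_meas _)).norm.aestronglyMeasurable 2
      (Eventually.of_forall fun ω => ?_)
    rw [Real.norm_eq_abs, abs_abs]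
    have e1 := X.R_le (List.ofFn x) ω
    have e2 := X.R_le (List.ofFn y) ω
    calc |X.R (List.ofFn x) ω - X.R (List.ofFn y) ω|
        ≤ |X.R (List.ofFn x) ω| + |X.R (List.ofFn y) ω| := abs_sub _ _
      _ ≤ 2 := by linarith
  have h2 : ∫ ω, |X.R (List.ofFn x) ω - X.R (List.ofFn y) ω| ∂X.μ
      ≤ ∫ ω, ∑ i, |X.r (x i) ω - X.r (y i) ω| ∂X.μ := by
    apply integral_mono i1 (integrable_finsetSum _ (fun i _ => i0 i))
    intro ω
    show |X.R (List.ofFn x) ω - X.R (List.ofFn y) ω| ≤ ∑ i, |X.r (x i) ω - X.r (y i) ω|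
    rw [X.R_ofFn, X.R_ofFn]
    exact prod_sub_prod_le' n _ _ (fun i => X.r_le' _ _) (fun i => X.r_le' _ _)
  rw [integral_finsetSum _ (fun i _ => i0 i)] at h2
  have h3 : ∑ i : Fin n, ∫ ω, |X.r (x i) ω - X.r (y i) ω| ∂X.μ ≤ ∑ _i : Fin n, ε / (n + 1) :=
    Finset.sum_le_sum (fun i _ => (h1 _ _ (hxy i)).le)
  rw [Finset.sum_const, Finset.card_univ, Fintype.card_fin, nsmul_eq_mul] at h3
  have h4 : (n : ℝ) * (ε / (n + 1)) < ε := by
    rw [mul_div_assoc', div_lt_iff₀ (by positivity)]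
    nlinarith
  linarith

end Pool.Agent.LibSQ58
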