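import Pool.Agent.LibSQ58.DcA
set_option autoImplicit false
namespace Pool.Agent.LibSQ58
open MeasureTheory Filter Topology


variable {Ω : Type} [MeasurableSpace Ω]

private theorem RR.inner_g (X : RR Ω) (x y : E3) (hxy : x ≠ y) :
    ∫ ω, X.g x ω * X.g y ω ∂X.μ = 0 := by
  have h1 := X.orth (y - x) (sub_ne_zero.mpr hxy.symm)
  have hm : Measurable (fun ω => (X.χ ω - X.ρ ω) * (X.χ (X.T (y - x) ω) - X.ρ (X.T (y - x) ω))) :=
    (X.χm.sub X.ρm).mul ((X.χm.comp (X.mp _).measurable).sub (X.ρm.comp (X.mp _).measurable))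
  rw [← X.integral_T x _ hm] at h1
  rw [← h1]
  congr 1
  ext ω
  rw [← X.T_add, sub_add_cancel]
  rfl

private theorem RR.norm_g (X : RR Ω) (x : E3) :
    ∫ ω, X.g x ω * X.g x ω ∂X.μ = ∫ ω, (X.χ ω - X.ρ ω) * (X.χ ω - X.ρ ω) ∂X.μ := by
  have hm : Measurable (fun ω => (X.χ ω - X.ρ ω) * (X.χ ω - X.ρ ω)) :=
    (X.χm.sub X.ρm).mul (X.χm.sub X.ρm)
  rw [← X.integral_T x _ hm]
  rfl

/-- BESSEL: a bounded measurable function is orthogonal to all but countably many wild parts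
(`Lp ℝ 2 X.μ`, the family `g x` is orthogonal, all norms are equal) -/
theorem RR.bessel (X : RR Ω) (f : Ω → ℝ) (hf : Measurable f) (hb : ∃ C, ∀ ω, |f ω| ≤ C) :
    {x : E3 | ∫ ω, f ω * X.g x ω ∂X.μ ≠ 0}.Countable := by
  have := X.prob
  obtain ⟨C, hC⟩ := hb
  have mf : MemLp f 2 X.μ :=
    MemLp.of_bound hf.aestronglyMeasurable C (Eventually.of_forall fun ω => hC ω)
  have mg : ∀ x, MemLp (X.g x) 2 X.μ := fun x =>
    MemLp.of_bound (X.g_meas x).aestronglyMeasurable 2 (Eventually.of_forall fun ω => X.g_le x ω)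
  set F : Lp ℝ 2 X.μ := mf.toLp f with hF
  set G : E3 → Lp ℝ 2 X.μ := fun x => (mg x).toLp (X.g x) with hG
  have inn : ∀ (u v : Ω → ℝ) (hu : MemLp u 2 X.μ) (hv : MemLp v 2 X.μ),
      inner ℝ (hu.toLp u) (hv.toLp v) = ∫ ω, u ω * v ω ∂X.μ := by
    intro u v hu hv
    rw [L2.inner_def]
    apply integral_congr_ae
    filter_upwards [hu.coeFn_toLp, hv.coeFn_toLp] with ω h1 h2
    rw [h1, h2]
    simp [mul_comm]
  set c : ℝ := ∫ ω, (X.χ ω - X.ρ ω) * (X.χ ω - X.ρ ω) ∂X.μ with hc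
  have hGG : ∀ x, ‖G x‖ ^ 2 = c := by
    intro x
    rw [← real_inner_self_eq_norm_sq, hG]
    show inner ℝ ((mg x).toLp (X.g x)) ((mg x).toLp (X.g x)) = c
    rw [inn, X.norm_g]
  have hortho : ∀ x y, x ≠ y → inner ℝ (G x) (G y) = (0 : ℝ) := by
    intro x y hxy
    show inner ℝ ((mg x).toLp (X.g x)) ((mg y).toLp (X.g y)) = (0 : ℝ)
    rw [inn, X.inner_g x y hxy]
  have hGF : ∀ x, inner ℝ (G x) F = ∫ ω, f ω * X.g x ω ∂X.μ := by
    intro x
    show inner ℝ ((mg x).toLp (X.g x)) (mf.toLp f) = _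
    rw [inn]
    congr 1
    ext ω
    ring
  by_cases hc0 : c = 0
  · have : {x : E3 | ∫ ω, f ω * X.g x ω ∂X.μ ≠ 0} = ∅ := by
      ext x
      simp only [Set.mem_ofPred_eq, Set.mem_empty_iff_false, iff_false, not_not]
      rw [← hGF x]
      have h1 := hGG x
      rw [hc0] at h1
      have h2 : G x = 0 := by
        rw [← norm_eq_zero]
        exact pow_eq_zero_iff (two_ne_zero) |>.mp h1
      rw [h2, inner_zero_left]
    rw [this]
    exact Set.countable_empty
  · have hcn : 0 ≤ c := by rw [← hGG 0]; positivity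
    have hcp : 0 < c := lt_of_le_of_ne hcn (Ne.symm hc0)
    set s : ℝ := (Real.sqrt c)⁻¹ with hs
    have hsp : 0 < s := by rw [hs]; exact inv_pos.mpr (Real.sqrt_pos.mpr hcp)
    have horth : Orthonormal ℝ (fun x : E3 => s • G x) := by
      constructor
      · intro x
        rw [norm_smul, Real.norm_eq_abs, abs_of_pos hsp]
        have h1 : ‖G x‖ = Real.sqrt c := by
          rw [← hGG x, Real.sqrt_sq (norm_nonneg _)]
        rw [h1, hs, inv_mul_cancel₀ (Real.sqrt_pos.mpr hcp).ne']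
      · intro x y hxy
        show inner ℝ (s • G x) (s • G y) = (0 : ℝ)
        rw [inner_smul_left, inner_smul_right, hortho x y hxy, mul_zero, mul_zero]
    have hsum := horth.inner_products_summable (x := F)
    have hcs := hsum.countable_support
    apply hcs.mono
    intro x hx
    rw [Function.mem_support]
    rw [Set.mem_ofPred_eq, ← hGF x] at hx
    have h1 : inner ℝ (s • G x) F = s * inner ℝ (G x) F := by
      rw [inner_smul_left]
      rfl
    show ‖inner ℝ (s • G x) F‖ ^ 2 ≠ 0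
    rw [h1]
    have h2 : s * inner ℝ (G x) F ≠ 0 := mul_ne_zero hsp.ne' hx
    exact pow_ne_zero 2 (norm_ne_zero_iff.mpr h2)

end Pool.Agent.LibSQ58
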