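import Pool.Agent.LibSQ58.DcD0
import Pool.Agent.LibSQ58.DcB
import Pool.Agent.LibSQ58.DcC
set_option autoImplicit false
namespace Pool.Agent.LibSQ58
open MeasureTheory Filter Topology


variable {Ω : Type} [MeasurableSpace Ω]

theorem RR.integrable_of_bdd (X : RR Ω) {f : Ω → ℝ} (hf : Measurable f) {C : ℝ}
    (hb : ∀ ω, |f ω| ≤ C) : Integrable f X.μ := by
  have := X.prob
  exact Integrable.of_bound hf.aestronglyMeasurable C
    (Filter.Eventually.of_forall fun ω => by rw [Real.norm_eq_abs]; exact hb ω)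

/-- comparison of `∫ R(L) F` and `∫ R(L') F` -/
theorem RR.abs_integral_R_sub_le (X : RR Ω) (L L' : List E3) (F : Ω → ℝ) (hF : Measurable F) (C : ℝ)
    (hC : ∀ ω, |F ω| ≤ C) :
    |∫ ω, X.R L ω * F ω ∂X.μ - ∫ ω, X.R L' ω * F ω ∂X.μ| ≤
      C * ∫ ω, |X.R L ω - X.R L' ω| ∂X.μ := by
  have hC0 : 0 ≤ C := by
    have := X.prob
    obtain ⟨ω⟩ : Nonempty Ω := by
      by_contra h
      rw [not_nonempty_iff] at h
      have h1 : X.μ Set.univ = 1 := measure_univ
      rw [Set.univ_eq_empty_iff.2 h, measure_empty] at h1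
      exact zero_ne_one h1
    exact (abs_nonneg _).trans (hC ω)
  have hi : ∀ M : List E3, Integrable (fun ω => X.R M ω * F ω) X.μ := fun M =>
    X.integrable_of_bdd ((X.R_meas M).mul hF) (C := C) fun ω => by
      rw [abs_mul]
      calc |X.R M ω| * |F ω| ≤ 1 * C :=
            mul_le_mul (X.R_le M ω) (hC ω) (abs_nonneg _) zero_le_one
        _ = C := one_mul C
  have hd : Integrable (fun ω => |X.R L ω - X.R L' ω|) X.μ :=
    X.integrable_of_bdd (C := 2) ((X.R_meas L).sub (X.R_meas L')).abs fun ω => by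
      rw [abs_abs]
      have h1 := abs_le.1 (X.R_le L ω)
      have h2 := abs_le.1 (X.R_le L' ω)
      rw [abs_le]
      constructor <;> linarith [h1.1, h1.2, h2.1, h2.2]
  rw [← integral_sub (hi L) (hi L'), ← integral_const_mul]
  calc |∫ ω, (X.R L ω * F ω - X.R L' ω * F ω) ∂X.μ|
      ≤ ∫ ω, |X.R L ω * F ω - X.R L' ω * F ω| ∂X.μ := abs_integral_le_integral_abs
    _ ≤ ∫ ω, C * |X.R L ω - X.R L' ω| ∂X.μ := by
        refine integral_mono ((hi L).sub (hi L')).abs (hd.const_mul C) fun ω => ?_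
        show |X.R L ω * F ω - X.R L' ω * F ω| ≤ C * |X.R L ω - X.R L' ω|
        rw [← sub_mul, abs_mul, mul_comm]
        exact mul_le_mul_of_nonneg_right (hC ω) (abs_nonneg _)

/-- `∫ R(L + w) g_{x+w}` does not depend on `w`, `R(L+w) → R(L)` in `L¹` as `w → 0`, and `∫ R(L) g_{x+w} = 0` for all `w` outside a
countable set -/
theorem RR.p1 (X : RR Ω) (x : E3) : X.P1 x := by
  intro L
  by_contra hne
  set I := ∫ ω, X.R L ω * X.g x ω ∂X.μ with hI
  have hIpos : 0 < |I| := abs_pos.2 hne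
  obtain ⟨δ, hδ, hcont⟩ := X.R_cont L.length (|I| / 4) (by positivity)
  have hcount := X.bessel (X.R L) (X.R_meas L) ⟨1, X.R_le L⟩
  -- choose a point
  obtain ⟨y, hy, hyB⟩ : ∃ y, y ∈ {x : E3 | ∫ ω, X.R L ω * X.g x ω ∂X.μ ≠ 0}ᶜ ∧ y ∈ Metric.ball x δ := by
    have hd := hcount.dense_compl ℝ
    obtain ⟨y, hy⟩ := hd.inter_open_nonempty (Metric.ball x δ) Metric.isOpen_ball
      ⟨x, Metric.mem_ball_self hδ⟩
    exact ⟨y, hy.2, hy.1⟩
  have hy0 : ∫ ω, X.R L ω * X.g y ω ∂X.μ = 0 := by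
    simpa using hy
  set w := y - x with hw
  have hxw : x + w = y := by rw [hw]; abel
  -- invariance
  have hinv : ∫ ω, X.R (L.map (fun z => z + w)) ω * X.g y ω ∂X.μ = I := by
    have h := X.integral_T w (fun ω => X.R L ω * X.g x ω) ((X.R_meas L).mul (X.g_meas x))
    simp only [X.R_T, X.g_T, hxw] at h
    exact h
  have h1 := X.abs_integral_R_sub_le (L.map (fun z => z + w)) L (X.g y) (X.g_meas y) 2 (X.g_le y)
  rw [hinv, hy0, sub_zero] at h1
  have h2 : ∫ ω, |X.R (L.map (fun z => z + w)) ω - X.R L ω| ∂X.μ < |I| / 4 := by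
    have h := hcont (fun i => L.get i + w) (fun i => L.get i) (fun i => by
      rw [dist_eq_norm, add_sub_cancel_left, hw, ← dist_eq_norm]
      exact hyB)
    have e1 : List.ofFn (fun i => L.get i + w) = L.map (fun z => z + w) := by
      have : (fun i => L.get i + w) = (fun z => z + w) ∘ L.get := rfl
      rw [this, ← List.map_ofFn, List.ofFn_get]
    have e2 : List.ofFn (fun i => L.get i) = L := List.ofFn_get L
    rw [e1, e2] at h
    exact h
  linarith

theorem RR.P2.symm {X : RR Ω} {x y : E3} (h : X.P2 x y) : X.P2 y x := by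
  intro L
  have := h L
  simp only [mul_comm (X.g y _)]
  exact this

private theorem RR.R_shift (X : RR Ω) (L : List E3) (a : E3) (ω : Ω) :
    X.R (L.map (fun z => z - a)) (X.T a ω) = X.R L ω := by
  rw [X.R_T, List.map_map]
  congr 1
  conv_rhs => rw [← List.map_id L]
  congr 1
  funext z
  simp

theorem RR.P2.trans {X : RR Ω} {x y : E3} (h : X.P2 x y) (a : E3) : X.P2 (x + a) (y + a) := by
  intro L
  have h1 := X.integral_T a (fun ω => X.R (L.map (fun z => z - a)) ω * (X.g x ω * X.g y ω))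
    ((X.R_meas _).mul ((X.g_meas x).mul (X.g_meas y)))
  simp only [X.R_shift, X.g_T] at h1
  rw [h1]
  exact h _

theorem RR.P3.swap {X : RR Ω} {x y z : E3} (h : X.P3 x y z) : X.P3 y x z ∧ X.P3 x z y := by
  constructor
  · intro L
    rw [← h L]
    congr 1
    funext ω
    ring
  · intro L
    rw [← h L]
    congr 1
    funext ω
    ring

theorem RR.P3.trans {X : RR Ω} {x y z : E3} (h : X.P3 x y z) (a : E3) :
    X.P3 (x + a) (y + a) (z + a) := by
  intro L
  have h1 := X.integral_T a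
    (fun ω => X.R (L.map (fun z => z - a)) ω * (X.g x ω * X.g y ω * X.g z ω))
    ((X.R_meas _).mul (((X.g_meas x).mul (X.g_meas y)).mul (X.g_meas z)))
  simp only [X.R_shift, X.g_T] at h1
  rw [h1]
  exact h _

end Pool.Agent.LibSQ58
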