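import Pool.Agent.LibSQ58.DcA
set_option autoImplicit false
namespace Pool.Agent.LibSQ58
open MeasureTheory Filter Topology


variable {Ω : Type} [MeasurableSpace Ω]

/-- the product of one, two, three wild parts decouples from all products of regular parts -/
def RR.P1 (X : RR Ω) (x : E3) : Prop := ∀ L : List E3, ∫ ω, X.R L ω * X.g x ω ∂X.μ = 0
def RR.P2 (X : RR Ω) (x y : E3) : Prop := ∀ L : List E3, ∫ ω, X.R L ω * (X.g x ω * X.g y ω) ∂X.μ = 0
def RR.P3 (X : RR Ω) (x y z : E3) : Prop :=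
  ∀ L : List E3, ∫ ω, X.R L ω * (X.g x ω * X.g y ω * X.g z ω) ∂X.μ = 0

end Pool.Agent.LibSQ58
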