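import Pool.Agent.LibSQ58.DcD
set_option autoImplicit false
namespace Pool.Agent.LibSQ58
open MeasureTheory Filter Topology


variable {Ω : Type} [MeasurableSpace Ω]

/-- countably many exceptions: lists of points of a countable dense set, `RR.bessel`, and `RR.R_cont` -/
theorem RR.countable_of (X : RR Ω) (f : Ω → ℝ) (hf : Measurable f) (hb : ∃ C, ∀ ω, |f ω| ≤ C) :
    {x : E3 | ¬ ∀ L : List E3, ∫ ω, X.R L ω * (f ω * X.g x ω) ∂X.μ = 0}.Countable := by
  obtain ⟨C, hC⟩ := hb
  -- the countable union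
  have hS : (⋃ l : List ℕ, {x : E3 | ∫ ω, (X.R (l.map (TopologicalSpace.denseSeq E3)) ω * f ω) *
      X.g x ω ∂X.μ ≠ 0}).Countable := by
    refine Set.countable_iUnion fun l => X.bessel _ ((X.R_meas _).mul hf) ⟨|C|, fun ω => ?_⟩
    rw [abs_mul]
    calc |X.R (l.map (TopologicalSpace.denseSeq E3)) ω| * |f ω| ≤ 1 * |C| :=
          mul_le_mul (X.R_le _ ω) ((hC ω).trans (le_abs_self C)) (abs_nonneg _) zero_le_one
      _ = |C| := one_mul _
  refine hS.mono fun x hx => ?_
  by_contra hnot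
  apply hx
  simp only [Set.mem_iUnion, Set.mem_ofPred_eq, not_exists, not_not] at hnot
  intro L
  by_contra hne
  set I := ∫ ω, X.R L ω * (f ω * X.g x ω) ∂X.μ with hI
  have hIpos : 0 < |I| := abs_pos.2 hne
  have hC0 : 0 ≤ |C| := abs_nonneg _
  obtain ⟨δ, hδ, hcont⟩ := X.R_cont L.length (|I| / (4 * (|C| + 1))) (by positivity)
  -- approximate the points of `L`
  have hex : ∀ i : Fin L.length, ∃ k : ℕ, dist (L.get i) (TopologicalSpace.denseSeq E3 k) < δ := by
    intro i
    obtain ⟨k, hk⟩ := (TopologicalSpace.denseRange_denseSeq E3).exists_dist_lt (L.get i) hδ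
    exact ⟨k, hk⟩
  choose k hk using hex
  have e2 : List.ofFn (fun i => L.get i) = L := List.ofFn_get L
  have e1 : List.ofFn (fun i => TopologicalSpace.denseSeq E3 (k i)) =
      (List.ofFn k).map (TopologicalSpace.denseSeq E3) := by
    rw [List.map_ofFn]
    rfl
  have h2 := hcont (fun i => L.get i) (fun i => TopologicalSpace.denseSeq E3 (k i)) hk
  rw [e1, e2] at h2
  have h3 := hnot (List.ofFn k)
  have h1 := X.abs_integral_R_sub_le L ((List.ofFn k).map (TopologicalSpace.denseSeq E3))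
    (fun ω => f ω * X.g x ω) (hf.mul (X.g_meas x)) (|C| * 2) (fun ω => by
      rw [abs_mul]
      exact mul_le_mul ((hC ω).trans (le_abs_self C)) (X.g_le x ω) (abs_nonneg _) hC0)
  simp only [mul_assoc] at h3
  rw [h3, sub_zero, ← hI] at h1
  have h4 : |C| * 2 * ∫ ω, |X.R L ω - X.R ((List.ofFn k).map (TopologicalSpace.denseSeq E3)) ω| ∂X.μ
      ≤ |C| * 2 * (|I| / (4 * (|C| + 1))) :=
    mul_le_mul_of_nonneg_left h2.le (by positivity)
  have h5 : |C| * 2 * (|I| / (4 * (|C| + 1))) ≤ |I| / 2 := by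
    rw [mul_div_assoc', div_le_div_iff₀ (by positivity) (by norm_num)]
    nlinarith [mul_nonneg hC0 hIpos.le]
  linarith

private theorem RR.countable_P2 (X : RR Ω) (x : E3) : {y : E3 | ¬ X.P2 x y}.Countable :=
  X.countable_of (X.g x) (X.g_meas x) ⟨2, X.g_le x⟩

private theorem RR.countable_P3 (X : RR Ω) (x y : E3) : {z : E3 | ¬ X.P3 x y z}.Countable :=
  X.countable_of (fun ω => X.g x ω * X.g y ω) ((X.g_meas x).mul (X.g_meas y))
    ⟨4, fun ω => by
      rw [abs_mul]
      calc |X.g x ω| * |X.g y ω| ≤ 2 * 2 :=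
            mul_le_mul (X.g_le x ω) (X.g_le y ω) (abs_nonneg _) (by norm_num)
        _ = 4 := by norm_num⟩

/-- the bad sets -/
theorem RR.bad (X : RR Ω) : ∃ (B₁ : Set E3) (B₂ : E3 → Set E3), B₁.Countable ∧
    (∀ u, (B₂ u).Countable) ∧ ∀ u v, u ∉ B₁ → v ∉ B₂ u →
      (X.P2 0 u ∧ X.P2 0 v ∧ X.P2 0 (u + v) ∧ X.P2 u v ∧ X.P2 u (u + v) ∧ X.P2 v (u + v)) ∧
      (X.P3 0 u v ∧ X.P3 0 u (u + v) ∧ X.P3 0 v (u + v) ∧ X.P3 u v (u + v)) := by
  refine ⟨{u | ¬ X.P2 0 u}, fun u => {v | ¬ X.P2 0 v} ∪ {v | ¬ X.P2 0 (u + v)} ∪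
    {v | ¬ X.P2 u v} ∪ {v | ¬ X.P2 u (u + v)} ∪ {v | ¬ X.P3 0 u v} ∪ {v | ¬ X.P3 0 u (u + v)} ∪
    {v | ¬ X.P3 0 u (-v)} ∪ {v | ¬ X.P3 0 u (u - v)}, X.countable_P2 0, fun u => ?_, ?_⟩
  · have ha : Function.Injective (fun v : E3 => u + v) := add_right_injective u
    have hn : Function.Injective (fun v : E3 => -v) := neg_injective
    have hs : Function.Injective (fun v : E3 => u - v) := sub_right_injective
    refine Set.Countable.union (Set.Countable.union (Set.Countable.union (Set.Countable.union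
      (Set.Countable.union (Set.Countable.union (Set.Countable.union ?_ ?_) ?_) ?_) ?_) ?_) ?_) ?_
    · exact X.countable_P2 0
    · exact (X.countable_P2 0).preimage ha
    · exact X.countable_P2 u
    · exact (X.countable_P2 u).preimage ha
    · exact X.countable_P3 0 u
    · exact (X.countable_P3 0 u).preimage ha
    · exact (X.countable_P3 0 u).preimage hn
    · exact (X.countable_P3 0 u).preimage hs
  · intro u v hu hv
    simp only [Set.mem_union, Set.mem_ofPred_eq, not_or, not_not] at hu hv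
    obtain ⟨⟨⟨⟨⟨⟨⟨h1, h2⟩, h3⟩, h4⟩, h5⟩, h6⟩, h7⟩, h8⟩ := hv
    refine ⟨⟨hu, h1, h2, h3, h4, ?_⟩, h5, h6, ?_, ?_⟩
    · have := hu.trans v
      rwa [zero_add] at this
    · -- `P3 0 u (-v)` translated by `v`: `P3 v (u + v) 0`
      have := h7.trans v
      rw [zero_add, neg_add_cancel] at this
      exact this.swap.2.swap.1
    · -- `P3 0 u (u - v)` translated by `v`: `P3 v (u + v) u`
      have := h8.trans v
      rw [zero_add, sub_add_cancel] at this
      exact this.swap.2.swap.1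

end Pool.Agent.LibSQ58
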