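import Pool.Agent.LibSQ58.Defs
set_option autoImplicit false
namespace Pool.Agent.LibSQ58
open MeasureTheory Filter Topology

/-- an injective-on-a-small-interval curve avoids a countable set at a small positive parameter -/
private theorem exists_small_avoid (B : Set E3) (hB : B.Countable) (u v : E3) (h : ON u v)
    (η : ℝ) (hη : 0 < η) :
    ∃ θ : ℝ, 0 < θ ∧ θ < η ∧ Real.cos θ • u + Real.sin θ • v ∉ B := by
  by_contra hcon
  push Not at hcon
  obtain ⟨hu, hv, huv⟩ := h
  set η' := min η 1 with hη'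
  have hη'0 : 0 < η' := lt_min hη one_pos
  have hinj : Set.InjOn (fun θ : ℝ => Real.cos θ • u + Real.sin θ • v) (Set.Ioo 0 η') := by
    intro s hs t ht hst
    have h1 : inner ℝ u (Real.cos s • u + Real.sin s • v) =
        inner ℝ u (Real.cos t • u + Real.sin t • v) := by
      have := hst
      simp only at this
      rw [this]
    rw [inner_add_right, inner_add_right, inner_smul_right, inner_smul_right, inner_smul_right,
      inner_smul_right, huv, real_inner_self_eq_norm_sq, hu] at h1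
    simp only [one_pow, mul_one, mul_zero, add_zero] at h1
    have hpi : (1 : ℝ) ≤ Real.pi := by linarith [Real.pi_gt_three]
    have hη1 : η' ≤ 1 := min_le_right _ _
    exact Real.injOn_cos ⟨hs.1.le, by linarith [hs.2]⟩ ⟨ht.1.le, by linarith [ht.2]⟩ h1
  have hsub : Set.Ioo 0 η' ⊆ (fun θ : ℝ => Real.cos θ • u + Real.sin θ • v) ⁻¹' B := by
    intro θ hθ
    exact hcon θ hθ.1 (hθ.2.trans_le (min_le_left _ _))
  have hc : (Set.Ioo 0 η').Countable :=
    Set.MapsTo.countable_of_injOn (t := B) (fun θ hθ => hsub hθ) hinj hB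
  rw [Cardinal.Real.Ioo_countable_iff] at hc
  linarith

private theorem on_rot {u v : E3} (h : ON u v) (θ : ℝ) :
    ON (Real.cos θ • u + Real.sin θ • v) (-Real.sin θ • u + Real.cos θ • v) := by
  obtain ⟨hu, hv, huv⟩ := h
  have hvu : inner ℝ v u = (0 : ℝ) := by rw [real_inner_comm]; exact huv
  have huu : inner ℝ u u = (1 : ℝ) := by rw [real_inner_self_eq_norm_sq, hu]; norm_num
  have hvv : inner ℝ v v = (1 : ℝ) := by rw [real_inner_self_eq_norm_sq, hv]; norm_num
  have hs := Real.sin_sq_add_cos_sq θ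
  refine ⟨?_, ?_, ?_⟩
  · have h1 : ‖Real.cos θ • u + Real.sin θ • v‖ ^ 2 = 1 := by
      rw [← real_inner_self_eq_norm_sq]
      simp only [inner_add_left, inner_add_right, real_inner_smul_left, real_inner_smul_right,
        huu, hvv, huv, hvu]
      nlinarith
    have h2 := norm_nonneg (Real.cos θ • u + Real.sin θ • v)
    nlinarith
  · have h1 : ‖-Real.sin θ • u + Real.cos θ • v‖ ^ 2 = 1 := by
      rw [← real_inner_self_eq_norm_sq]
      simp only [inner_add_left, inner_add_right, real_inner_smul_left, real_inner_smul_right,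
        huu, hvv, huv, hvu]
      nlinarith
    have h2 := norm_nonneg (-Real.sin θ • u + Real.cos θ • v)
    nlinarith
  · simp only [inner_add_left, inner_add_right, real_inner_smul_left, real_inner_smul_right,
      huu, hvv, huv, hvu]
    ring

private theorem norm_rot_sub {u v : E3} (hu : ‖u‖ = 1) (hv : ‖v‖ = 1) (θ : ℝ) (h0 : 0 ≤ θ)
    (h1 : θ ≤ 1) : dist (Real.cos θ • u + Real.sin θ • v) u ≤ 2 * θ := by
  rw [dist_eq_norm]
  have e : Real.cos θ • u + Real.sin θ • v - u = (Real.cos θ - 1) • u + Real.sin θ • v := by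
    rw [sub_smul, one_smul]
    abel
  rw [e]
  refine (norm_add_le _ _).trans ?_
  rw [norm_smul, norm_smul, hu, hv, mul_one, mul_one, Real.norm_eq_abs, Real.norm_eq_abs]
  have hc := Real.one_sub_sq_div_two_le_cos (x := θ)
  have hc1 := Real.cos_le_one θ
  have hs1 : |Real.sin θ| ≤ θ := by
    have := Real.abs_sin_le_abs (x := θ)
    rwa [abs_of_nonneg h0] at this
  have h2 : |Real.cos θ - 1| ≤ θ := by
    rw [abs_le]
    constructor <;> nlinarith
  linarith

private theorem norm_rot_sub' {u v : E3} (hu : ‖u‖ = 1) (hv : ‖v‖ = 1) (θ : ℝ) (h0 : 0 ≤ θ)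
    (h1 : θ ≤ 1) : dist (-Real.sin θ • u + Real.cos θ • v) v ≤ 2 * θ := by
  have h := norm_rot_sub (u := v) (v := -u) hv (by rw [norm_neg]; exact hu) θ h0 h1
  have e : Real.cos θ • v + Real.sin θ • -u = -Real.sin θ • u + Real.cos θ • v := by
    rw [smul_neg, neg_smul, add_comm]
  rwa [e] at h

private theorem exists_third {u v : E3} (_h : ON u v) :
    ∃ w : E3, ‖w‖ = 1 ∧ inner ℝ u w = (0 : ℝ) ∧ inner ℝ v w = (0 : ℝ) := by
  have hfin : Module.finrank ℝ (Submodule.span ℝ ({u, v} : Set E3)) < Module.finrank ℝ E3 := by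
    have h3 : Module.finrank ℝ E3 = 3 := by simp
    rw [h3]
    have h2 : Module.finrank ℝ (Submodule.span ℝ (({u, v} : Finset E3) : Set E3)) ≤
        ({u, v} : Finset E3).card := finrank_span_finset_le_card _
    have h4 : ({u, v} : Finset E3).card ≤ 2 := Finset.card_le_two
    have h5 : (({u, v} : Finset E3) : Set E3) = ({u, v} : Set E3) := by simp
    rw [h5] at h2
    omega
  have hne : (Submodule.span ℝ ({u, v} : Set E3))ᗮ ≠ ⊥ := by
    intro hbot
    rw [Submodule.orthogonal_eq_bot_iff] at hbot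
    rw [hbot, finrank_top] at hfin
    exact lt_irrefl _ hfin
  obtain ⟨w, hw, hw0⟩ := Submodule.exists_mem_ne_zero_of_ne_bot hne
  refine ⟨‖w‖⁻¹ • w, ?_, ?_, ?_⟩
  · rw [norm_smul, norm_inv, norm_norm, inv_mul_cancel₀ (norm_ne_zero_iff.2 hw0)]
  · rw [real_inner_smul_right, (Submodule.mem_orthogonal _ _).1 hw u (Submodule.subset_span (by simp)),
      mul_zero]
  · rw [real_inner_smul_right, (Submodule.mem_orthogonal _ _).1 hw v (Submodule.subset_span (by simp)),
      mul_zero]

/-- generic orthonormal pairs are dense -/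
theorem generic_dense (B₁ : Set E3) (B₂ : E3 → Set E3) (h1 : B₁.Countable)
    (h2 : ∀ u, (B₂ u).Countable) (u₀ v₀ : E3) (h : ON u₀ v₀) (ε : ℝ) (hε : 0 < ε) :
    ∃ u v, ON u v ∧ dist u u₀ < ε ∧ dist v v₀ < ε ∧ u ∉ B₁ ∧ v ∉ B₂ u := by
  set η := min (ε / 4) 1 with hη
  have hη0 : 0 < η := lt_min (by positivity) one_pos
  have hη1 : η ≤ 1 := min_le_right _ _
  have hη2 : η ≤ ε / 4 := min_le_left _ _
  obtain ⟨θ, hθ0, hθη, hθB⟩ := exists_small_avoid B₁ h1 u₀ v₀ h η hη0
  have hon := on_rot h θ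
  have hd1 := norm_rot_sub h.1 h.2.1 θ hθ0.le (by linarith)
  have hd2 := norm_rot_sub' h.1 h.2.1 θ hθ0.le (by linarith)
  set u := Real.cos θ • u₀ + Real.sin θ • v₀ with hu
  set v' := -Real.sin θ • u₀ + Real.cos θ • v₀ with hv'
  obtain ⟨w, hw1, hwu, hwv⟩ := exists_third hon
  obtain ⟨φ, hφ0, hφη, hφB⟩ := exists_small_avoid (B₂ u) (h2 u) v' w ⟨hon.2.1, hw1, hwv⟩ η hη0
  have hon2 := on_rot (u := v') (v := w) ⟨hon.2.1, hw1, hwv⟩ φ
  have hd3 := norm_rot_sub hon.2.1 hw1 φ hφ0.le (by linarith)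
  refine ⟨u, Real.cos φ • v' + Real.sin φ • w, ⟨hon.1, hon2.1, ?_⟩, ?_, ?_, hθB, hφB⟩
  · rw [inner_add_right, real_inner_smul_right, real_inner_smul_right, hon.2.2, hwu]
    ring
  · linarith
  · calc dist (Real.cos φ • v' + Real.sin φ • w) v₀
        ≤ dist (Real.cos φ • v' + Real.sin φ • w) v' + dist v' v₀ := dist_triangle _ _ _
      _ ≤ 2 * φ + 2 * θ := add_le_add hd3 hd2
      _ < ε := by linarith

end Pool.Agent.LibSQ58
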