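import Mathlib

/-!
# Monochromatic unit squares in arbitrary two-colourings of three-space: basic definitions
-/

set_option autoImplicit false

namespace Pool.Agent.LibSQ58

open MeasureTheory Filter Topology

abbrev E3 := EuclideanSpace ℝ (Fin 3)

/-- bounded real functions -/
def Bdd {α : Type*} (f : α → ℝ) : Prop := ∃ C : ℝ, ∀ x, |f x| ≤ C

/-- A finitely additive probability on `α`, as a functional on all real functions (only the values on
bounded functions matter). -/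
structure Mean (α : Type*) where
  toFun : (α → ℝ) → ℝ
  add' : ∀ f g : α → ℝ, Bdd f → Bdd g → toFun (fun x => f x + g x) = toFun f + toFun g
  smul' : ∀ (c : ℝ) (f : α → ℝ), Bdd f → toFun (fun x => c * f x) = c * toFun f
  mono' : ∀ f g : α → ℝ, Bdd f → Bdd g → (∀ x, f x ≤ g x) → toFun f ≤ toFun g
  const' : ∀ c : ℝ, toFun (fun _ => c) = c

instance {α : Type*} : CoeFun (Mean α) (fun _ => (α → ℝ) → ℝ) := ⟨Mean.toFun⟩

/-- A finitely additive probability on `[0,1)` which is nearly invariant under small translations. -/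
structure JMean extends Mean ℝ where
  shift' : ∀ (f : ℝ → ℝ) (C : ℝ), (∀ t, |f t| ≤ C) → ∀ s : ℝ,
    |toFun (fun t => f (t + s)) - toFun f| ≤ 4 * |s| * C
  supp' : ∀ f g : ℝ → ℝ, Bdd f → Bdd g → (∀ t ∈ Set.Ico (0 : ℝ) 1, f t = g t) → toFun f = toFun g

/-- A representation of the additive group `V` by linear isometries of `H`; no continuity. -/
structure Rp (V : Type*) [AddCommGroup V] (H : Type*) [NormedAddCommGroup H]
    [InnerProductSpace ℝ H] where
  τ : V → H →ₗᵢ[ℝ] H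
  add' : ∀ (x y : V) (h : H), τ (x + y) h = τ x (τ y h)
  zero' : ∀ h : H, τ 0 h = h

/-- real, even, positive definite function on (the discrete group) `ℝ³` -/
def PD (Φ : E3 → ℝ) : Prop :=
  (∀ x, Φ (-x) = Φ x) ∧
    ∀ (s : Finset E3) (c : E3 → ℝ), 0 ≤ ∑ x ∈ s, ∑ y ∈ s, c x * c y * Φ (x - y)

/-- rotation by `θ` about the third axis -/
noncomputable def rotZ (θ : ℝ) (w : E3) : E3 :=
  !₂[Real.cos θ * w 0 - Real.sin θ * w 1, Real.sin θ * w 0 + Real.cos θ * w 1, w 2]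

/-- rotation by `θ` about the first axis -/
noncomputable def rotX (θ : ℝ) (w : E3) : E3 :=
  !₂[w 0, Real.cos θ * w 1 - Real.sin θ * w 2, Real.sin θ * w 1 + Real.cos θ * w 2]

/-- signs -/
def sg (b : Bool) : ℝ := if b then 1 else -1

/-- orthonormal pairs -/
def ON (u v : E3) : Prop := ‖u‖ = 1 ∧ ‖v‖ = 1 ∧ inner ℝ u v = (0 : ℝ)

/-- colourings without monochromatic unit square -/
def Proper (c : E3 → Bool) : Prop :=
  ∀ p u v : E3, ON u v → ¬ (c (p + u) = c p ∧ c (p + v) = c p ∧ c (p + u + v) = c p)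

/-- stationary random proper colouring (finitely additive) -/
structure StM (E : Mean (E3 → Bool)) : Prop where
  stat : ∀ (a : E3) (F : (E3 → Bool) → ℝ), Bdd F → E (fun c => F (fun x => c (x + a))) = E F
  sq : ∀ p u v : E3, ON u v →
    E (fun c => if (c (p + u) = c p ∧ c (p + v) = c p ∧ c (p + u + v) = c p) then 1 else 0) = 0

/-- correlation function -/
noncomputable def corr (E : Mean (E3 → Bool)) (w : E3) : ℝ := E (fun c => sg (c 0) * sg (c w))

/-- stationary random proper colouring (countably additive) with exactly decoupled wild part -/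
structure RF (Ω : Type) [MeasurableSpace Ω] where
  μ : Measure Ω
  prob : IsProbabilityMeasure μ
  T : E3 → Ω → Ω
  mp : ∀ a, MeasurePreserving (T a) μ μ
  T_add : ∀ a b ω, T (a + b) ω = T a (T b ω)
  T_zero : ∀ ω, T 0 ω = ω
  χ : Ω → ℝ
  χm : Measurable χ
  pm : ∀ ω, χ ω = 1 ∨ χ ω = -1
  sq : ∀ u v : E3, ON u v →
    ∀ᵐ ω ∂μ, ¬ (χ (T u ω) = χ ω ∧ χ (T v ω) = χ ω ∧ χ (T (u + v) ω) = χ ω)
  A : E3 → ℝ
  Apd : PD A
  Acont : Tendsto A (𝓝 0) (𝓝 (A 0))
  κ : ℝ
  corr : ∀ w, ∫ ω, χ ω * χ (T w ω) ∂μ = A w + if w = 0 then κ else 0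

/-- the trichotomy set: all four zero, or both a `+1` and a `-1` -/
def Tri (a b c d : ℝ) : Prop :=
  (a = 0 ∧ b = 0 ∧ c = 0 ∧ d = 0) ∨
    ((a = 1 ∨ b = 1 ∨ c = 1 ∨ d = 1) ∧ (a = -1 ∨ b = -1 ∨ c = -1 ∨ d = -1))

/-- legal patterns for two disjoint sets: no point in `A ∪ B`, or a point of `A` and a point of `B` -/
def Leg (A B : Set E3) (x y z w : E3) : Prop :=
  (x ∉ A ∪ B ∧ y ∉ A ∪ B ∧ z ∉ A ∪ B ∧ w ∉ A ∪ B) ∨
    ((x ∈ A ∨ y ∈ A ∨ z ∈ A ∨ w ∈ A) ∧ (x ∈ B ∨ y ∈ B ∨ z ∈ B ∨ w ∈ B))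

/-- a set of pairs which is dense at the orthonormal pairs -/
def DenseON (D : Set (E3 × E3)) : Prop :=
  ∀ u v : E3, ON u v → ∀ ε > 0, ∃ u' v' : E3, (u', v') ∈ D ∧ dist u' u < ε ∧ dist v' v < ε

end Pool.Agent.LibSQ58
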