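import Pool.Agent.LibSQ58.TrF
set_option autoImplicit false
namespace Pool.Agent.LibSQ58
open MeasureTheory Filter Topology


variable {Ω : Type} [MeasurableSpace Ω]

private theorem RR.c_pm' (X : RR Ω) (x : E3) (ω : Ω) : X.c x ω = 1 ∨ X.c x ω = -1 := X.pm _

private theorem RR.c_meas (X : RR Ω) (x : E3) : Measurable (X.c x) := X.χm.comp (X.mp x).measurable

/-- if `ρ = 0` a.s. then decoupled squares are odd: `expand` with `f = 1`, all `s = 1`: `0 = 1 + ∫ χχχχ` -/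
theorem RR.odd_generic (X : RR Ω) (h0 : ∀ᵐ ω ∂X.μ, X.ρ ω = 0) (x u v : E3) (h : ON u v)
    (h2 : X.P2 0 u ∧ X.P2 0 v ∧ X.P2 0 (u + v) ∧ X.P2 u v ∧ X.P2 u (u + v) ∧ X.P2 v (u + v))
    (h3 : X.P3 0 u v ∧ X.P3 0 u (u + v) ∧ X.P3 0 v (u + v) ∧ X.P3 u v (u + v)) :
    ∀ᵐ ω ∂X.μ, X.c x ω * X.c (x + u) ω * X.c (x + v) ω * X.c (x + u + v) ω = -1 := by
  have := X.prob
  -- the regular part vanishes at every point
  have hr : ∀ y : E3, ∀ᵐ ω ∂X.μ, X.r y ω = 0 := by
    intro y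
    exact (X.mp y).quasiMeasurePreserving.ae h0
  have hg : ∀ y : E3, ∀ᵐ ω ∂X.μ, X.g y ω = X.c y ω := by
    intro y
    filter_upwards [hr y] with ω hω
    unfold RR.g RR.c
    unfold RR.r at hω
    rw [hω, sub_zero]
  have E := X.expand 0 u v (u + v) h2 h3 1 1 1 1 X.alg_one
  have L : ∫ ω, (fun _ => (1 : ℝ)) ω * ((1 + 1 * X.c 0 ω) * (1 + 1 * X.c u ω) *
      (1 + 1 * X.c v ω) * (1 + 1 * X.c (u + v) ω)) ∂X.μ = 0 := by
    rw [integral_eq_zero_of_ae]
    filter_upwards [X.prod_zero u v h] with ω hω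
    simp only [one_mul, Pi.zero_apply]
    exact hω.1
  have R : ∫ ω, (fun _ => (1 : ℝ)) ω * ((1 + 1 * X.r 0 ω) * (1 + 1 * X.r u ω) *
      (1 + 1 * X.r v ω) * (1 + 1 * X.r (u + v) ω)) ∂X.μ = 1 := by
    have h1 : ∫ _ω : Ω, (1 : ℝ) ∂X.μ = 1 := by simp
    rw [← h1]
    apply integral_congr_ae
    filter_upwards [hr 0, hr u, hr v, hr (u + v)] with ω a b c d
    rw [a, b, c, d]
    norm_num
  have G : ∫ ω, (fun _ => (1 : ℝ)) ω * (X.g 0 ω * X.g u ω * X.g v ω * X.g (u + v) ω) ∂X.μ =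
      ∫ ω, (X.c 0 ω * X.c u ω * X.c v ω * X.c (u + v) ω) ∂X.μ := by
    apply integral_congr_ae
    filter_upwards [hg 0, hg u, hg v, hg (u + v)] with ω a b c d
    rw [a, b, c, d]
    norm_num
  rw [L, R, G] at E
  have hpm : ∀ ω, X.c 0 ω * X.c u ω * X.c v ω * X.c (u + v) ω = 1 ∨
      X.c 0 ω * X.c u ω * X.c v ω * X.c (u + v) ω = -1 := by
    intro ω
    rcases X.c_pm' 0 ω with a | a <;> rcases X.c_pm' u ω with b | b <;>
      rcases X.c_pm' v ω with c | c <;> rcases X.c_pm' (u + v) ω with d | d <;>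
      rw [a, b, c, d] <;> norm_num
  have hm : Measurable (fun ω => X.c 0 ω * X.c u ω * X.c v ω * X.c (u + v) ω) :=
    (((X.c_meas 0).mul (X.c_meas u)).mul (X.c_meas v)).mul (X.c_meas (u + v))
  have hI : Integrable (fun ω => X.c 0 ω * X.c u ω * X.c v ω * X.c (u + v) ω) X.μ :=
    Integrable.of_bound hm.aestronglyMeasurable 1
      (Eventually.of_forall (fun ω => by rcases hpm ω with h | h <;> rw [h] <;> norm_num))
  have hz : ∫ ω, (X.c 0 ω * X.c u ω * X.c v ω * X.c (u + v) ω + 1) ∂X.μ = 0 := by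
    rw [integral_add hI (integrable_const _)]
    simp only [integral_const, probReal_univ, smul_eq_mul, mul_one]
    linarith
  have h5 : ∀ᵐ ω ∂X.μ, X.c 0 ω * X.c u ω * X.c v ω * X.c (u + v) ω = -1 := by
    have hI1 : Integrable (fun ω => X.c 0 ω * X.c u ω * X.c v ω * X.c (u + v) ω + 1) X.μ :=
      hI.add (integrable_const _)
    have hnn : (0 : Ω → ℝ) ≤ fun ω => X.c 0 ω * X.c u ω * X.c v ω * X.c (u + v) ω + 1 := by
      intro ω
      rcases hpm ω with h | h <;> simp only [Pi.zero_apply] <;> rw [h] <;> norm_num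
    have hz2 := (integral_eq_zero_iff_of_nonneg hnn hI1).1 hz
    filter_upwards [hz2] with ω hω
    simp only [Pi.zero_apply] at hω
    linarith
  have h6 := (X.mp x).quasiMeasurePreserving.ae h5
  filter_upwards [h6] with ω hω
  have e : ∀ y : E3, X.c y (X.T x ω) = X.c (x + y) ω := by
    intro y
    unfold RR.c
    rw [← X.T_add, add_comm]
  rw [e, e, e, e, add_zero, ← add_assoc] at hω
  exact hω

end Pool.Agent.LibSQ58
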