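import Pool.Agent.LibSQ58.Defs
set_option autoImplicit false
namespace Pool.Agent.LibSQ58
open MeasureTheory Filter Topology

private theorem exists_avoid {a b : ℝ} (hab : a < b) (S : Set ℝ) (hS : (S ∩ Set.Ioo a b).Countable) :
    ∃ t ∈ Set.Ioo a b, t ∉ S := by
  by_contra hcon
  push Not at hcon
  have h1 : (Set.Ioo a b).Countable := by
    refine hS.mono ?_
    intro t ht
    exact ⟨hcon t ht, ht⟩
  rw [Cardinal.Real.Ioo_countable_iff] at h1
  linarith

private noncomputable def uu (θ : ℝ) : E3 := !₂[Real.cos θ, Real.sin θ, 0]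

private noncomputable def ww (θ φ : ℝ) : E3 :=
  !₂[-(Real.sin θ * Real.cos φ), Real.cos θ * Real.cos φ, Real.sin φ]

private theorem uu_norm (θ : ℝ) : ‖uu θ‖ = 1 := by
  rw [EuclideanSpace.norm_eq, Fin.sum_univ_three, Real.sqrt_eq_one]
  simp only [uu, Real.norm_eq_abs, sq_abs]
  simp
 
private theorem ww_norm (θ φ : ℝ) : ‖ww θ φ‖ = 1 := by
  rw [EuclideanSpace.norm_eq, Fin.sum_univ_three, Real.sqrt_eq_one]
  simp only [ww, Real.norm_eq_abs, sq_abs]
  simp
  nlinarith [Real.sin_sq_add_cos_sq θ, Real.sin_sq_add_cos_sq φ]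

private theorem uu_ww (θ φ : ℝ) : inner ℝ (uu θ) (ww θ φ) = (0 : ℝ) := by
  simp [PiLp.inner_apply, Fin.sum_univ_three, uu, ww]
  ring

private theorem ON_uw (θ φ : ℝ) : ON (uu θ) (ww θ φ) := ⟨uu_norm θ, ww_norm θ φ, uu_ww θ φ⟩

private theorem ww_sub (θ φ : ℝ) :
    ww θ (φ + Real.pi / 3) - ww θ φ = ww θ (φ + 2 * Real.pi / 3) := by
  have hc : Real.cos (φ + Real.pi / 3) - Real.cos φ = Real.cos (φ + 2 * Real.pi / 3) := by
    have e1 : φ + 2 * Real.pi / 3 = φ + Real.pi - Real.pi / 3 := by ring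
    rw [e1, Real.cos_sub, Real.cos_add_pi, Real.sin_add_pi, Real.cos_add, Real.cos_pi_div_three,
      Real.sin_pi_div_three]
    ring
  have hs : Real.sin (φ + Real.pi / 3) - Real.sin φ = Real.sin (φ + 2 * Real.pi / 3) := by
    have e1 : φ + 2 * Real.pi / 3 = φ + Real.pi - Real.pi / 3 := by ring
    rw [e1, Real.sin_sub, Real.cos_add_pi, Real.sin_add_pi, Real.sin_add, Real.cos_pi_div_three,
      Real.sin_pi_div_three]
    ring
  ext i
  fin_cases i
  · simp only [ww]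
    simp
    rw [← hc]
    ring
  · simp only [ww]
    simp
    rw [← hc]
    ring
  · simp only [ww]
    simp
    rw [← hs]

/-- a generic prism: unit vectors `u` and `v₁, v₂, v₃ = v₂ - v₁` orthogonal to `u` -/
theorem exists_prism (B₁ : Set E3) (B₂ : E3 → Set E3) (h1 : B₁.Countable)
    (h2 : ∀ u, (B₂ u).Countable) : ∃ u v₁ v₂ : E3, ON u v₁ ∧ ON u v₂ ∧ ON u (v₂ - v₁) ∧ u ∉ B₁ ∧
      v₁ ∉ B₂ u ∧ v₂ ∉ B₂ u ∧ v₂ - v₁ ∉ B₂ u := by
  have hpi := Real.pi_pos
  obtain ⟨θ, -, hθ⟩ := exists_avoid (a := 0) (b := Real.pi / 2) (by linarith)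
    {t | uu t ∈ B₁} (by
      refine Set.MapsTo.countable_of_injOn (f := uu) (t := B₁) (fun t ht => ht.1) ?_ h1
      intro t ht t' ht' hE
      have h3 : Real.sin t = Real.sin t' := by
        have := congrArg (fun w : E3 => w 1) hE
        simpa [uu] using this
      exact Real.injOn_sin ⟨by linarith [ht.2.1], by linarith [ht.2.2]⟩
        ⟨by linarith [ht'.2.1], by linarith [ht'.2.2]⟩ h3)
  have hcount : ∀ c : ℝ, (c = 0 ∨ c = Real.pi / 3 ∨ c = 2 * Real.pi / 3) →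
      ({t | ww θ (t + c) ∈ B₂ (uu θ)} ∩ Set.Ioo 0 (Real.pi / 6)).Countable := by
    intro c hc
    refine Set.MapsTo.countable_of_injOn (f := fun t => ww θ (t + c)) (t := B₂ (uu θ))
      (fun t ht => ht.1) ?_ (h2 _)
    intro t ht t' ht' hE
    have h3 : Real.sin (t + c) = Real.sin (t' + c) := by
      have := congrArg (fun w : E3 => w 2) hE
      simpa [ww] using this
    obtain ⟨-, ht1, ht2⟩ := ht
    obtain ⟨-, ht1', ht2'⟩ := ht'
    rcases hc with rfl | rfl | rfl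
    · have := Real.injOn_sin ⟨by linarith, by linarith⟩ ⟨by linarith, by linarith⟩ h3
      linarith
    · have := Real.injOn_sin ⟨by linarith, by linarith⟩ ⟨by linarith, by linarith⟩ h3
      linarith
    · rw [← Real.sin_pi_sub, ← Real.sin_pi_sub (t' + 2 * Real.pi / 3)] at h3
      have := Real.injOn_sin ⟨by linarith, by linarith⟩ ⟨by linarith, by linarith⟩ h3
      linarith
  obtain ⟨φ, -, hφ⟩ := exists_avoid (a := 0) (b := Real.pi / 6) (by linarith)
    ({t | ww θ (t + 0) ∈ B₂ (uu θ)} ∪ {t | ww θ (t + Real.pi / 3) ∈ B₂ (uu θ)} ∪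
      {t | ww θ (t + 2 * Real.pi / 3) ∈ B₂ (uu θ)}) (by
      rw [Set.union_inter_distrib_right, Set.union_inter_distrib_right]
      exact ((hcount 0 (Or.inl rfl)).union (hcount _ (Or.inr (Or.inl rfl)))).union
        (hcount _ (Or.inr (Or.inr rfl))))
  simp only [Set.mem_union, Set.mem_ofPred_eq, not_or, add_zero] at hφ
  refine ⟨uu θ, ww θ φ, ww θ (φ + Real.pi / 3), ON_uw _ _, ON_uw _ _, ?_, hθ, hφ.1.1, hφ.1.2, ?_⟩
  · rw [ww_sub]; exact ON_uw _ _
  · rw [ww_sub]; exact hφ.2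

end Pool.Agent.LibSQ58
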