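import Pool.Agent.LibSQ58.EnA
import Pool.Agent.LibSQ58.EnB
import Pool.Agent.LibSQ58.DcE
set_option autoImplicit false
namespace Pool.Agent.LibSQ58
open MeasureTheory Filter Topology


variable {Ω : Type} [MeasurableSpace Ω]

/-- the three lateral faces of the prism are odd squares and each vertex is in exactly two of them -/
theorem RR.contra (X : RR Ω) (h0 : ∀ᵐ ω ∂X.μ, X.ρ ω = 0) : False := by
  have := X.prob
  obtain ⟨B₁, B₂, h1, h2, hB⟩ := X.bad
  obtain ⟨u, v₁, v₂, o1, o2, o3, n0, n1, n2, n3⟩ := exists_prism B₁ B₂ h1 h2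
  have f1 := X.odd_generic h0 0 u v₁ o1 (hB u v₁ n0 n1).1 (hB u v₁ n0 n1).2
  have f2 := X.odd_generic h0 0 u v₂ o2 (hB u v₂ n0 n2).1 (hB u v₂ n0 n2).2
  have f3 := X.odd_generic h0 v₁ u (v₂ - v₁) o3 (hB u (v₂ - v₁) n0 n3).1 (hB u (v₂ - v₁) n0 n3).2
  obtain ⟨ω, g1, g2, g3⟩ := (f1.and (f2.and f3)).exists
  have e1 : v₁ + u = 0 + u + v₁ := by abel
  have e2 : v₁ + (v₂ - v₁) = 0 + v₂ := by abel
  have e3 : v₁ + u + (v₂ - v₁) = 0 + u + v₂ := by abel
  have e4 : v₁ = 0 + v₁ := by abel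
  rw [e2, e3, e1] at g3
  have hpm : ∀ y : E3, X.c y ω = 1 ∨ X.c y ω = -1 := fun y => X.pm _
  have e5 : X.c v₁ ω = X.c (0 + v₁) ω := by rw [← e4]
  rw [e5] at g3
  rcases hpm 0 with a | a <;> rcases hpm (0 + u) with b | b <;>
    rcases hpm (0 + v₁) with c | c <;> rcases hpm (0 + v₂) with d | d <;>
    rcases hpm (0 + u + v₁) with e | e <;> rcases hpm (0 + u + v₂) with f | f <;>
    rw [a, b, c, e] at g1 <;> rw [a, b, d, f] at g2 <;> rw [c, e, d, f] at g3 <;>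
    first | (norm_num at g1; done) | (norm_num at g2; done) | (norm_num at g3; done)

end Pool.Agent.LibSQ58
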