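import Pool.Agent.LibSQ58.WildB
set_option autoImplicit false
namespace Pool.Agent.LibSQ58
open MeasureTheory Filter Topology


variable {H : Type*} [NormedAddCommGroup H] [InnerProductSpace ℝ H]

/-- WILD VECTORS ARE WILD ALONG LINES.  Let `P_θ` be the projection onto `lsub S (eth θ)`, `q = ‖P_0 G‖`.
`U_θ P_0 G ∈ lsub (eth θ)`, `⟨U_θ P_0 G, G⟩ = q²`, so `‖P_θ G‖ ≥ q`.  For `sin (θ - φ) ≠ 0`: `P_φ P_θ G` is continuous along
`eth φ` and `eth θ` (`proj_comm`), so `⟨P_θ G, P_φ G⟩ = ⟨P_φ P_θ G, G⟩ = 0`.  With `N` lines: `v = ∑ P_θ G`, `⟨G, v⟩ = ‖v‖² = ∑ ‖P_θ G‖²`,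
so `N q² ≤ ‖v‖² ≤ ‖G‖²`. -/
theorem wild_line [CompleteSpace H] (S : Rp E3 H) (G : H)
    (hU : ∀ θ : ℝ, ∃ U : H →ₗᵢ[ℝ] H, (∀ w h, U (S.τ w h) = S.τ (rotZ θ w) (U h)) ∧ U G = G)
    (hG : ∀ h, HCont S h → inner ℝ h G = (0 : ℝ)) :
    ∀ h, LCont S (!₂[1, 0, 0] : E3) h → inner ℝ h G = (0 : ℝ) := by
  have hcomp : ∀ θ : ℝ, CompleteSpace (lsub S (eth θ)) := fun θ =>
    (lsub_closed S (eth θ)).completeSpace_coe
  -- the projections
  set P : ℝ → H → H := fun θ h => (lsub S (eth θ)).starProjection h with hP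
  have hPmem : ∀ θ h, LCont S (eth θ) (P θ h) := fun θ h =>
    (lsub S (eth θ)).starProjection_apply_mem h
  have hPinner : ∀ θ h k, LCont S (eth θ) k → inner ℝ k (P θ h) = inner ℝ k h := by
    intro θ h k hk
    have := (lsub S (eth θ)).starProjection_inner_eq_zero h k hk
    rw [inner_sub_left, sub_eq_zero] at this
    rw [real_inner_comm, ← this, real_inner_comm]
  have hPcomm : ∀ θ x h, P θ (S.τ x h) = S.τ x (P θ h) := fun θ x h =>
    proj_comm S (lsub S (eth θ)) (fun x h hh => lsub_inv S (eth θ) x hh) x h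
  have hnorm : ∀ θ, inner ℝ (P θ G) G = ‖P θ G‖ ^ 2 := by
    intro θ
    rw [← hPinner θ G _ (hPmem θ G), real_inner_self_eq_norm_sq]
  set q : ℝ := ‖P 0 G‖ with hq
  -- all the projections have norm at least `q`
  have hge : ∀ θ, q ≤ ‖P θ G‖ := by
    intro θ
    obtain ⟨U, hU1, hU2⟩ := hU θ
    have h1 : LCont S (eth θ) (U (P 0 G)) := by
      have := lcont_rot S θ 0 U hU1 (hPmem 0 G)
      rwa [zero_add] at this
    have h2 : inner ℝ (U (P 0 G)) (P θ G) = q ^ 2 := by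
      rw [hPinner θ G _ h1]
      calc inner ℝ (U (P 0 G)) G = inner ℝ (U (P 0 G)) (U G) := by rw [hU2]
        _ = inner ℝ (P 0 G) G := U.inner_map_map _ _
        _ = q ^ 2 := hnorm 0
    have h3 : q ^ 2 ≤ q * ‖P θ G‖ := by
      calc q ^ 2 = inner ℝ (U (P 0 G)) (P θ G) := h2.symm
        _ ≤ ‖U (P 0 G)‖ * ‖P θ G‖ := real_inner_le_norm _ _
        _ = q * ‖P θ G‖ := by rw [U.norm_map]
    rcases (norm_nonneg (P 0 G)).eq_or_lt with h0 | h0
    · rw [hq, ← h0]
      exact norm_nonneg _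
    · rw [← hq] at h0
      nlinarith
  -- orthogonality
  have horth : ∀ θ φ, Real.sin (θ - φ) ≠ 0 → inner ℝ (P θ G) (P φ G) = (0 : ℝ) := by
    intro θ φ hs
    have h1 : LCont S (eth φ) (P φ (P θ G)) := hPmem φ _
    have h2 : LCont S (eth θ) (P φ (P θ G)) := by
      have h3 : (fun t : ℝ => S.τ (t • eth θ) (P φ (P θ G))) =
          fun t : ℝ => P φ (S.τ (t • eth θ) (P θ G)) := by
        funext t
        rw [hPcomm]
      unfold LCont
      rw [h3]
      exact (((lsub S (eth φ)).starProjection.continuous).tendsto (P θ G)).comp (hPmem θ G)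
    have h4 := hG _ (hcont_of_two S hs h2 h1)
    rw [← hPinner φ G _ h1] at h4
    -- `⟨P_φ P_θ G, P_φ G⟩ = ⟨P_θ G, P_φ G⟩`
    have h5 := hPinner φ (P θ G) (P φ G) (hPmem φ G)
    rw [real_inner_comm, ← h5, real_inner_comm]
    exact h4
  -- `N` lines
  have hN : ∀ N : ℕ, (N : ℝ) * q ^ 2 ≤ ‖G‖ ^ 2 := by
    intro N
    rcases Nat.eq_zero_or_pos N with rfl | hNpos
    · simp
    have hN' : (0 : ℝ) < N := by exact_mod_cast hNpos
    set th : ℕ → ℝ := fun i => (i : ℝ) / N with hth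
    have hsin : ∀ i ∈ Finset.range N, ∀ j ∈ Finset.range N, i ≠ j →
        Real.sin (th i - th j) ≠ 0 := by
      intro i hi j hj hij
      rw [Finset.mem_range] at hi hj
      have hi' : (i : ℝ) < N := by exact_mod_cast hi
      have hj' : (j : ℝ) < N := by exact_mod_cast hj
      have e1 : th i - th j = ((i : ℝ) - j) / N := by rw [hth]; ring
      have hlt : |th i - th j| < 1 := by
        rw [e1, abs_div, abs_of_pos hN', div_lt_one hN', abs_lt]
        constructor
        · have : (0 : ℝ) ≤ i := by positivity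
          linarith
        · have : (0 : ℝ) ≤ j := by positivity
          linarith
      have hne : th i - th j ≠ 0 := by
        rw [e1]
        refine div_ne_zero (sub_ne_zero.2 ?_) hN'.ne'
        exact_mod_cast hij
      intro h0
      apply hne
      rw [abs_lt] at hlt
      have hpi := Real.pi_gt_three
      exact (Real.sin_eq_zero_iff_of_lt_of_lt (by linarith) (by linarith)).1 h0
    set v : H := ∑ i ∈ Finset.range N, P (th i) G with hv
    have hvv : ‖v‖ ^ 2 = ∑ i ∈ Finset.range N, ‖P (th i) G‖ ^ 2 := by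
      rw [← real_inner_self_eq_norm_sq, hv, sum_inner]
      refine Finset.sum_congr rfl fun i hi => ?_
      rw [inner_sum, Finset.sum_eq_single i, real_inner_self_eq_norm_sq]
      · intro j hj hji
        exact horth _ _ (hsin i hi j hj hji.symm)
      · intro h
        exact absurd hi h
    have hvG : inner ℝ v G = ‖v‖ ^ 2 := by
      rw [hvv, hv, sum_inner]
      exact Finset.sum_congr rfl fun i _ => hnorm _
    have h1 : ‖v‖ ^ 2 ≤ ‖v‖ * ‖G‖ := by
      rw [← hvG]
      exact real_inner_le_norm _ _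
    have h2 : ‖v‖ ≤ ‖G‖ := by
      rcases (norm_nonneg v).eq_or_lt with h0 | h0
      · rw [← h0]
        exact norm_nonneg _
      · nlinarith
    calc (N : ℝ) * q ^ 2 = ∑ _i ∈ Finset.range N, q ^ 2 := by
          rw [Finset.sum_const, Finset.card_range, nsmul_eq_mul]
      _ ≤ ∑ i ∈ Finset.range N, ‖P (th i) G‖ ^ 2 :=
          Finset.sum_le_sum fun i _ => pow_le_pow_left₀ (norm_nonneg _) (hge _) 2
      _ = ‖v‖ ^ 2 := hvv.symm
      _ ≤ ‖G‖ ^ 2 := pow_le_pow_left₀ (norm_nonneg _) h2 2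
  have hq0 : q ^ 2 = 0 := by
    by_contra hne
    have hpos : 0 < q ^ 2 := lt_of_le_of_ne (sq_nonneg q) (Ne.symm hne)
    obtain ⟨n, hn⟩ := exists_nat_gt (‖G‖ ^ 2 / q ^ 2)
    rw [div_lt_iff₀ hpos] at hn
    exact absurd (hN n) (not_le.2 hn)
  have hP0 : P 0 G = 0 := by
    rw [← norm_eq_zero]
    exact pow_eq_zero_iff (two_ne_zero) |>.1 hq0
  intro h hh
  have e0 : eth 0 = (!₂[1, 0, 0] : E3) := by
    simp [eth]
  rw [← e0] at hh
  rw [← hPinner 0 G h hh, hP0, inner_zero_right]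

end Pool.Agent.LibSQ58
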