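import Pool.Agent.LibSQ58.Curve
import Pool.Agent.LibSQ58.WildC
import Pool.Agent.LibSQ58.ChebB
import Pool.Agent.LibSQ58.ChebC
set_option autoImplicit false
namespace Pool.Agent.LibSQ58
open MeasureTheory Filter Topology Polynomial


variable {H : Type*} [NormedAddCommGroup H] [InnerProductSpace ℝ H] [CompleteSpace H]

omit [CompleteSpace H] in
theorem ax_line (S : Rp E3 H) (G : H) (s : ℝ) :
    ax S G s = inner ℝ G ((S.line (!₂[1, 0, 0] : E3)).τ s G) := by
  have h : s • (!₂[1, 0, 0] : E3) = !₂[s, 0, 0] := by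
    ext i
    fin_cases i <;> simp
  unfold ax Rp.line
  simp only [h]

omit [CompleteSpace H] in
theorem ax_abs_le (S : Rp E3 H) (G : H) (s : ℝ) : |ax S G s| ≤ ‖G‖ ^ 2 := by
  have := S.abs_inner_le (!₂[s, 0, 0] : E3) G G
  rw [← sq] at this
  exact this

omit [CompleteSpace H] in
theorem cp_const (S : Rp E3 H) (G : H)
    (hrot : ∀ θ w, inner ℝ G (S.τ (rotZ θ w) G) = inner ℝ G (S.τ w G)) (r θ : ℝ) :
    inner ℝ G (S.τ (cp r θ + !₂[0, 0, 0]) G) = ax S G r := by
  have h : cp r θ + !₂[0, 0, 0] = rotZ θ (!₂[r, 0, 0]) := by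
    rw [← cp_eq_rot]
    ext i
    fin_cases i <;> simp [cp]
  rw [h, hrot]
  rfl

/-- the mean of the off-diagonal terms -/
theorem mean_poly_zero (m : JMean) (S : Rp E3 H) (G : H)
    (hG : ∀ h, LCont S (!₂[1, 0, 0] : E3) h → inner ℝ h G = (0 : ℝ))
    (b : ℝ) (hb : b ≠ 0) (k n : ℤ) (hk : k ≠ 0) (hn : n ≠ 0) :
    m.toMean (fun t => ax S G ((Q b k n).eval t)) = 0 := by
  simp only [ax_line]
  exact curve m (S.line (!₂[1, 0, 0] : E3)) G hG _ (Q_natDegree b hb k n hk hn) G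

/-- A nonnegative quantity bounded by `c / n` for all `n` vanishes. -/
theorem eq_zero_of_le_div {x c : ℝ} (hx : 0 ≤ x) (h : ∀ n : ℕ, 0 < n → x ≤ c / n) : x = 0 := by
  refine le_antisymm ?_ hx
  have h1 : Tendsto (fun n : ℕ => c / (n : ℝ)) atTop (𝓝 0) :=
    tendsto_const_div_atTop_nhds_zero_nat c
  refine ge_of_tendsto h1 ?_
  filter_upwards [eventually_gt_atTop 0] with n hn
  exact h n hn

/-- comparison of means of functions which are only compared on `[0, 1)` -/
theorem JMean.mono_supp (m : JMean) {f g : ℝ → ℝ} (hf : Bdd f) (hg : Bdd g)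
    (h : ∀ t ∈ Set.Ico (0 : ℝ) 1, f t ≤ g t) : m.toMean f ≤ m.toMean g := by
  classical
  obtain ⟨f', hf'⟩ : ∃ f' : ℝ → ℝ, f' = fun t => if t ∈ Set.Ico (0 : ℝ) 1 then f t else g t :=
    ⟨_, rfl⟩
  have hb' : Bdd f' := by
    obtain ⟨A, hA⟩ := hf
    obtain ⟨B, hB⟩ := hg
    refine ⟨max A B, fun t => ?_⟩
    rw [hf']
    by_cases ht : t ∈ Set.Ico (0 : ℝ) 1
    · simp only [if_pos ht]
      exact (hA t).trans (le_max_left _ _)
    · simp only [if_neg ht]
      exact (hB t).trans (le_max_right _ _)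
  have h1 : m.toMean f = m.toMean f' := by
    apply m.supp' f f' hf hb'
    intro t ht
    rw [hf']
    simp only [if_pos ht]
  have h2 : m.toMean f' ≤ m.toMean g := by
    apply m.mono' f' g hb' hg
    intro t
    rw [hf']
    by_cases ht : t ∈ Set.Ico (0 : ℝ) 1
    · simp only [if_pos ht]
      exact h t ht
    · simp only [if_neg ht]
      exact le_rfl
  exact h1.trans_le h2

/-- Level 2: `mean_t F(2 b sin(m arccos t))² = 0`.  For each `n`: `bessel_circle` with `r = 2 b sin (m β)`, `β = arccos t`, `z = 0`, `k = G`;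
the off-diagonal terms are `F(Q b m (l-j) (t))` (`Q_eval`), with mean `0` by `curve` (line through the first axis). -/
theorem level_two (m : JMean) (S : Rp E3 H) (G : H)
    (hrot : ∀ θ w, inner ℝ G (S.τ (rotZ θ w) G) = inner ℝ G (S.τ w G))
    (hG : ∀ h, LCont S (!₂[1, 0, 0] : E3) h → inner ℝ h G = (0 : ℝ))
    (b : ℝ) (hb : b ≠ 0) (k : ℤ) (hk : k ≠ 0) :
    m.toMean (fun t => (ax S G (2 * b * Real.sin (k * Real.arccos t))) ^ 2) = 0 := by
  have hax : ∀ φ : ℝ → ℝ, Bdd (fun t => ax S G (φ t)) := fun φ =>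
    ⟨‖G‖ ^ 2, fun t => ax_abs_le S G (φ t)⟩
  have hf : Bdd (fun t => (ax S G (2 * b * Real.sin (k * Real.arccos t))) ^ 2) := by
    refine ⟨(‖G‖ ^ 2) ^ 2, fun t => ?_⟩
    rw [abs_pow]
    exact pow_le_pow_left₀ (abs_nonneg _) (ax_abs_le S G _) 2
  apply eq_zero_of_le_div (c := ‖G‖ ^ 4) (m.toMean.nonneg hf fun t => sq_nonneg _)
  intro n hn
  have hnR : (0 : ℝ) < n := by exact_mod_cast hn
  -- the terms
  obtain ⟨F, hF⟩ : ∃ F : Fin n → Fin n → ℝ → ℝ, F = fun (j l : Fin n) (t : ℝ) =>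
      if j = l then 0 else ax S G ((Q b k (((l : ℕ) : ℤ) - ((j : ℕ) : ℤ))).eval t) := ⟨_, rfl⟩
  have hFb : ∀ j l, Bdd (F j l) := by
    intro j l
    rw [hF]
    by_cases h : j = l
    · simp only [if_pos h]
      exact Bdd.const 0
    · simp only [if_neg h]
      exact hax _
  have hFm : ∀ j l, m.toMean (F j l) = 0 := by
    intro j l
    rw [hF]
    by_cases h : j = l
    · simp only [if_pos h]
      exact m.const' 0
    · simp only [if_neg h]
      apply mean_poly_zero m S G hG b hb k _ hk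
      intro h0
      apply h
      apply Fin.ext
      omega
  have hg : Bdd (fun t => ‖G‖ ^ 2 * (‖G‖ ^ 2 / n + (1 / (n : ℝ) ^ 2) * ∑ j : Fin n, ∑ l : Fin n,
      F j l t)) := by
    apply Bdd.cmul
    apply Bdd.add (Bdd.const _)
    apply Bdd.cmul
    apply Bdd.sum
    intro j _
    apply Bdd.sum
    intro l _
    exact hFb j l
  have hle := m.mono_supp hf hg (by
    intro t ht
    have hcos : Real.cos (Real.arccos t) = t := Real.cos_arccos (by linarith [ht.1]) ht.2.le
    have hb1 := bessel_circle S G G hrot (2 * b * Real.sin (k * Real.arccos t)) (Real.arccos t) 0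
      (ax S G (2 * b * Real.sin (k * Real.arccos t))) n hn (fun j => cp_const S G hrot _ _)
    refine hb1.trans (le_of_eq ?_)
    congr 3
    apply Finset.sum_congr rfl
    intro j _
    apply Finset.sum_congr rfl
    intro l _
    rw [hF]
    by_cases h : j = l
    · simp only [if_pos h]
    · simp only [if_neg h]
      have hq := Q_eval b k (((l : ℕ) : ℤ) - ((j : ℕ) : ℤ)) (Real.arccos t)
      rw [hcos] at hq
      rw [hq]
      push_cast
      rfl)
  refine hle.trans (le_of_eq ?_)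
  have e1 : m.toMean (fun t => ‖G‖ ^ 2 * (‖G‖ ^ 2 / n + (1 / (n : ℝ) ^ 2) *
      ∑ j : Fin n, ∑ l : Fin n, F j l t)) = ‖G‖ ^ 2 * (‖G‖ ^ 2 / n + (1 / (n : ℝ) ^ 2) *
      ∑ j : Fin n, ∑ l : Fin n, m.toMean (F j l)) := by
    have hs2 : ∀ j : Fin n, Bdd (fun t => ∑ l : Fin n, F j l t) := fun j =>
      Bdd.sum _ fun l _ => hFb j l
    have hs3 : Bdd (fun t => ∑ j : Fin n, ∑ l : Fin n, F j l t) := Bdd.sum _ fun j _ => hs2 j
    rw [m.smul' _ _ ((Bdd.const _).add (hs3.cmul _)), m.add' _ _ (Bdd.const _) (hs3.cmul _),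
      m.const', m.smul' _ _ hs3]
    rw [show m.toFun (fun t => ∑ j : Fin n, ∑ l : Fin n, F j l t) =
      ∑ j : Fin n, m.toMean (fun t => ∑ l : Fin n, F j l t) from
      m.toMean.sum Finset.univ fun j _ => hs2 j]
    congr 3
    apply Finset.sum_congr rfl
    intro j _
    exact m.toMean.sum Finset.univ fun l _ => hFb j l
  rw [e1]
  simp only [hFm, Finset.sum_const_zero, mul_zero, add_zero]
  ring

end Pool.Agent.LibSQ58
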