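import Pool.Agent.LibSQ58.FlatA
set_option autoImplicit false
namespace Pool.Agent.LibSQ58
open MeasureTheory Filter Topology Polynomial


variable {H : Type*} [NormedAddCommGroup H] [InnerProductSpace ℝ H] [CompleteSpace H]

/-- Level 1: `F(b) = 0` -/
theorem level_one (m : JMean) (S : Rp E3 H) (G : H)
    (hrot : ∀ θ w, inner ℝ G (S.τ (rotZ θ w) G) = inner ℝ G (S.τ w G))
    (hG : ∀ h, LCont S (!₂[1, 0, 0] : E3) h → inner ℝ h G = (0 : ℝ))
    (b : ℝ) (hb : b ≠ 0) : ax S G b = 0 := by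
  have hax : ∀ φ : ℝ → ℝ, Bdd (fun t => ax S G (φ t)) := fun φ =>
    ⟨‖G‖ ^ 2, fun t => ax_abs_le S G (φ t)⟩
  rw [← sq_eq_zero_iff]
  apply eq_zero_of_le_div (c := ‖G‖ ^ 4) (sq_nonneg _)
  intro n hn
  have hnR : (0 : ℝ) < n := by exact_mod_cast hn
  -- the terms
  obtain ⟨F, hF⟩ : ∃ F : Fin n → Fin n → ℝ → ℝ, F = fun (j l : Fin n) (t : ℝ) =>
      if j = l then 0 else ax S G (2 * b * Real.sin ((((((l : ℕ) : ℤ) - ((j : ℕ) : ℤ)) : ℤ) : ℝ) *
        Real.arccos t)) := ⟨_, rfl⟩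
  have hFb : ∀ j l, Bdd (F j l) := by
    intro j l
    rw [hF]
    by_cases h : j = l
    · simp only [if_pos h]
      exact Bdd.const 0
    · simp only [if_neg h]
      exact hax _
  have hFm : ∀ j l, m.toMean (F j l) = 0 := by
    intro j l
    rw [hF]
    by_cases h : j = l
    · simp only [if_pos h]
      exact m.const' 0
    · simp only [if_neg h]
      have h0 : (((l : ℕ) : ℤ) - ((j : ℕ) : ℤ)) ≠ 0 := by
        intro h0
        apply h
        apply Fin.ext
        omega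
      have h1 := level_two m S G hrot hG b hb _ h0
      have h2 := m.toMean.sq_le (hax (fun t => 2 * b *
        Real.sin ((((((l : ℕ) : ℤ) - ((j : ℕ) : ℤ)) : ℤ) : ℝ) * Real.arccos t)))
      rw [h1] at h2
      exact pow_eq_zero_iff (two_ne_zero) |>.1 (le_antisymm h2 (sq_nonneg _))
  have hg : Bdd (fun t => ‖G‖ ^ 2 * (‖G‖ ^ 2 / n + (1 / (n : ℝ) ^ 2) * ∑ j : Fin n, ∑ l : Fin n,
      F j l t)) := by
    apply Bdd.cmul
    apply Bdd.add (Bdd.const _)
    apply Bdd.cmul
    apply Bdd.sum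
    intro j _
    apply Bdd.sum
    intro l _
    exact hFb j l
  have hle := m.toMean.mono' (fun _ => ax S G b ^ 2) _ (Bdd.const _) hg (by
    intro t
    have hb1 := bessel_circle S G G hrot b (Real.arccos t) 0 (ax S G b) n hn
      (fun j => cp_const S G hrot _ _)
    refine hb1.trans (le_of_eq ?_)
    congr 3
    apply Finset.sum_congr rfl
    intro j _
    apply Finset.sum_congr rfl
    intro l _
    rw [hF]
    by_cases h : j = l
    · simp only [if_pos h]
    · simp only [if_neg h]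
      push_cast
      rfl)
  rw [m.const'] at hle
  refine hle.trans (le_of_eq ?_)
  have e1 : m.toMean (fun t => ‖G‖ ^ 2 * (‖G‖ ^ 2 / n + (1 / (n : ℝ) ^ 2) *
      ∑ j : Fin n, ∑ l : Fin n, F j l t)) = ‖G‖ ^ 2 * (‖G‖ ^ 2 / n + (1 / (n : ℝ) ^ 2) *
      ∑ j : Fin n, ∑ l : Fin n, m.toMean (F j l)) := by
    have hs2 : ∀ j : Fin n, Bdd (fun t => ∑ l : Fin n, F j l t) := fun j =>
      Bdd.sum _ fun l _ => hFb j l
    have hs3 : Bdd (fun t => ∑ j : Fin n, ∑ l : Fin n, F j l t) := Bdd.sum _ fun j _ => hs2 j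
    rw [m.smul' _ _ ((Bdd.const _).add (hs3.cmul _)), m.add' _ _ (Bdd.const _) (hs3.cmul _),
      m.const', m.smul' _ _ hs3]
    rw [show m.toFun (fun t => ∑ j : Fin n, ∑ l : Fin n, F j l t) =
      ∑ j : Fin n, m.toMean (fun t => ∑ l : Fin n, F j l t) from
      m.toMean.sum Finset.univ fun j _ => hs2 j]
    congr 3
    apply Finset.sum_congr rfl
    intro j _
    exact m.toMean.sum Finset.univ fun l _ => hFb j l
  rw [e1]
  simp only [hFm, Finset.sum_const_zero, mul_zero, add_zero]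
  ring

end Pool.Agent.LibSQ58
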