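import Pool.Agent.LibSQ58.FlatB
import Pool.Agent.LibSQ58.JM
set_option autoImplicit false
namespace Pool.Agent.LibSQ58
open MeasureTheory Filter Topology Polynomial


variable {H : Type*} [NormedAddCommGroup H] [InnerProductSpace ℝ H] [CompleteSpace H]

/-- a point with a nonzero horizontal part is a rotation of a point over the first axis -/
theorem exists_polar (w : E3) (hw : w 0 ≠ 0 ∨ w 1 ≠ 0) :
    ∃ r θ : ℝ, 0 < r ∧ w = rotZ θ (!₂[r, 0, w 2]) := by
  obtain ⟨z, hz⟩ : ∃ z : ℂ, z = ⟨w 0, w 1⟩ := ⟨_, rfl⟩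
  have hz0 : z ≠ 0 := by
    intro h
    rw [h] at hz
    have h1 := congrArg Complex.re hz
    have h2 := congrArg Complex.im hz
    simp only [Complex.zero_re, Complex.zero_im] at h1 h2
    rcases hw with hw | hw
    · exact hw h1.symm
    · exact hw h2.symm
  refine ⟨‖z‖, Complex.arg z, norm_pos_iff.2 hz0, ?_⟩
  have h1 : ‖z‖ * Real.cos (Complex.arg z) = w 0 := by
    rw [Complex.norm_mul_cos_arg, hz]
  have h2 : ‖z‖ * Real.sin (Complex.arg z) = w 1 := by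
    rw [Complex.norm_mul_sin_arg, hz]
  ext i
  fin_cases i
  · simp [rotZ, ← h1, mul_comm]
  · simp [rotZ, ← h2, mul_comm]
  · simp [rotZ]

/-- THE FLAT LEMMA: the wild part is orthogonal to its non-vertical translates -/
theorem flat_zero (S : Rp E3 H) (G : H)
    (hU : ∀ θ : ℝ, ∃ U : H →ₗᵢ[ℝ] H, (∀ w h, U (S.τ w h) = S.τ (rotZ θ w) (U h)) ∧ U G = G)
    (hG : ∀ h, HCont S h → inner ℝ h G = (0 : ℝ)) (w : E3) (hw : w 0 ≠ 0 ∨ w 1 ≠ 0) :
    inner ℝ G (S.τ w G) = 0 := by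
  obtain ⟨m⟩ := exists_jmean
  have hrot : ∀ θ w, inner ℝ G (S.τ (rotZ θ w) G) = inner ℝ G (S.τ w G) := by
    intro θ w
    obtain ⟨U, h1, h2⟩ := hU θ
    have h3 := h1 w G
    rw [h2] at h3
    rw [← h3]
    nth_rewrite 1 [← h2]
    exact U.inner_map_map _ _
  have hG1 := wild_line S G hU hG
  obtain ⟨r, θ, hr, hw'⟩ := exists_polar w hw
  rw [hw', hrot]
  obtain ⟨a, ha⟩ : ∃ a, a = inner ℝ G (S.τ (!₂[r, 0, w 2] : E3) G) := ⟨_, rfl⟩
  rw [← ha]
  rw [← sq_eq_zero_iff]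
  apply eq_zero_of_le_div (c := ‖G‖ ^ 4) (sq_nonneg _)
  intro n hn
  have hnR : (0 : ℝ) < n := by exact_mod_cast hn
  -- an angle with `sin (k β) ≠ 0` for `0 < |k| < n`
  obtain ⟨β, hβ⟩ : ∃ β : ℝ, β = Real.pi / n := ⟨_, rfl⟩
  have hsin : ∀ j l : Fin n, j ≠ l → Real.sin ((((l : ℕ) : ℝ) - ((j : ℕ) : ℝ)) * β) ≠ 0 := by
    have hpos : ∀ k : ℝ, 0 < k → k < n → Real.sin (k * β) ≠ 0 := by
      intro k hk1 hk2
      apply ne_of_gt
      apply Real.sin_pos_of_pos_of_lt_pi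
      · rw [hβ]
        have := Real.pi_pos
        positivity
      · rw [hβ, mul_div_assoc', div_lt_iff₀ hnR, mul_comm]
        exact mul_lt_mul_of_pos_left hk2 Real.pi_pos
    intro j l hjl
    have hj : ((j : ℕ) : ℝ) < n := by exact_mod_cast j.2
    have hl : ((l : ℕ) : ℝ) < n := by exact_mod_cast l.2
    have hj0 : (0 : ℝ) ≤ ((j : ℕ) : ℝ) := Nat.cast_nonneg _
    have hl0 : (0 : ℝ) ≤ ((l : ℕ) : ℝ) := Nat.cast_nonneg _
    rcases lt_trichotomy ((j : ℕ) : ℝ) ((l : ℕ) : ℝ) with h | h | h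
    · exact hpos _ (by linarith) (by linarith)
    · exfalso
      apply hjl
      apply Fin.ext
      exact_mod_cast h
    · have h1 := hpos (((j : ℕ) : ℝ) - ((l : ℕ) : ℝ)) (by linarith) (by linarith)
      have h2 : (((l : ℕ) : ℝ) - ((j : ℕ) : ℝ)) * β = -((((j : ℕ) : ℝ) - ((l : ℕ) : ℝ)) * β) := by
        ring
      rw [h2, Real.sin_neg]
      exact neg_ne_zero.2 h1
  have hb1 := bessel_circle S G G hrot r β (w 2) a n hn (by
    intro j
    have h1 : cp r (2 * (j : ℕ) * β) + !₂[0, 0, w 2] = rotZ (2 * (j : ℕ) * β) (!₂[r, 0, w 2]) := by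
      ext i
      fin_cases i <;> simp [cp, rotZ, mul_comm]
    rw [h1, hrot, ha])
  refine hb1.trans (le_of_eq ?_)
  have h0 : ∑ j : Fin n, ∑ l : Fin n, (if j = l then 0 else
      ax S G (2 * r * Real.sin ((((l : ℕ) : ℝ) - ((j : ℕ) : ℝ)) * β))) = 0 := by
    apply Finset.sum_eq_zero
    intro j _
    apply Finset.sum_eq_zero
    intro l _
    by_cases h : j = l
    · rw [if_pos h]
    · rw [if_neg h]
      apply level_one m S G hrot hG1
      have := hsin j l h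
      exact mul_ne_zero (mul_ne_zero two_ne_zero hr.ne') this
  rw [h0]
  ring

end Pool.Agent.LibSQ58
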