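import Pool.Agent.LibSQ58.PdA
set_option autoImplicit false
namespace Pool.Agent.LibSQ58
open MeasureTheory Filter Topology

private theorem norm3 (w : E3) : ‖w‖ = Real.sqrt (w 0 ^ 2 + w 1 ^ 2 + w 2 ^ 2) := by
  rw [EuclideanSpace.norm_eq, Fin.sum_univ_three]
  simp [Real.norm_eq_abs, sq_abs]

private theorem mkLie (f g : E3 → E3) (hadd : ∀ x y, f (x + y) = f x + f y)
    (hsmul : ∀ (c : ℝ) x, f (c • x) = c • f x) (h1 : ∀ x, g (f x) = x) (h2 : ∀ x, f (g x) = x)
    (hn : ∀ x, ‖f x‖ = ‖x‖) : ∃ R : E3 ≃ₗᵢ[ℝ] E3, ∀ w, R w = f w := by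
  refine ⟨{ toFun := f, map_add' := hadd, map_smul' := fun c x => by simpa using hsmul c x,
            invFun := g, left_inv := h1, right_inv := h2, norm_map' := fun x => hn x }, ?_⟩
  intro w
  rfl

/-- `rotZ θ` as a linear isometric equivalence -/
theorem exists_rotZ (θ : ℝ) : ∃ R : E3 ≃ₗᵢ[ℝ] E3, ∀ w, R w = rotZ θ w := by
  have hcs : Real.cos θ ^ 2 + Real.sin θ ^ 2 = 1 := Real.cos_sq_add_sin_sq θ
  refine mkLie (rotZ θ) (rotZ (-θ)) ?_ ?_ ?_ ?_ ?_
  · intro x y
    ext i
    fin_cases i <;> simp [rotZ] <;> ring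
  · intro c x
    ext i
    fin_cases i <;> simp [rotZ] <;> ring
  · intro x
    ext i
    fin_cases i
    · simp [rotZ]
      linear_combination (x 0) * hcs
    · simp [rotZ]
      linear_combination (x 1) * hcs
    · simp [rotZ]
  · intro x
    ext i
    fin_cases i
    · simp [rotZ]
      linear_combination (x 0) * hcs
    · simp [rotZ]
      linear_combination (x 1) * hcs
    · simp [rotZ]
  · intro x
    rw [norm3, norm3]
    congr 1
    simp [rotZ]
    linear_combination (x 0 ^ 2 + x 1 ^ 2) * hcs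

/-- cyclic permutation of the coordinates -/
noncomputable def cyc (w : E3) : E3 := !₂[w 2, w 0, w 1]

theorem exists_cyc : ∃ R : E3 ≃ₗᵢ[ℝ] E3, ∀ w, R w = cyc w := by
  refine mkLie cyc (fun w => !₂[w 1, w 2, w 0]) ?_ ?_ ?_ ?_ ?_
  · intro x y
    ext i
    fin_cases i <;> simp [cyc]
  · intro c x
    ext i
    fin_cases i <;> simp [cyc]
  · intro x
    ext i
    fin_cases i <;> simp [cyc]
  · intro x
    ext i
    fin_cases i <;> simp [cyc]
  · intro x
    rw [norm3, norm3]
    congr 1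
    simp [cyc]
    ring

/-- positive definiteness is invariant under linear isometries -/
theorem PD.comp {Φ : E3 → ℝ} (h : PD Φ) (R : E3 ≃ₗᵢ[ℝ] E3) : PD (fun w => Φ (R w)) := by
  classical
  refine ⟨fun x => by simp [h.1], ?_⟩
  intro s c
  have h2 := h.2 (s.map R.toEquiv.toEmbedding) (fun x => c (R.symm x))
  simpa [Finset.sum_map, map_sub] using h2

end Pool.Agent.LibSQ58
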