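import Pool.Agent.LibSQ58.Rep
set_option autoImplicit false
namespace Pool.Agent.LibSQ58
open MeasureTheory Filter Topology

private theorem GnsB_dense {X : Type} {H : Type} [NormedAddCommGroup H] [InnerProductSpace ℝ H]
    (e : X → H) (hd : (Submodule.span ℝ (Set.range e)).topologicalClosure = ⊤) :
    DenseRange (Finsupp.linearCombination ℝ e) := by
  have h1 : Set.range (Finsupp.linearCombination ℝ e) =
      (Submodule.span ℝ (Set.range e) : Set H) := by
    rw [← Finsupp.range_linearCombination]
    rfl
  rw [DenseRange, h1]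
  exact Submodule.dense_iff_topologicalClosure_eq_top.2 hd

private theorem GnsB_inner {X : Type} {H : Type} [NormedAddCommGroup H] [InnerProductSpace ℝ H]
    (e : X → H) (c : X →₀ ℝ) :
    inner ℝ (Finsupp.linearCombination ℝ e c) (Finsupp.linearCombination ℝ e c) =
      ∑ x ∈ c.support, ∑ y ∈ c.support, c x * (c y * inner ℝ (e x) (e y)) := by
  rw [Finsupp.linearCombination_apply, Finsupp.sum, sum_inner]
  refine Finset.sum_congr rfl fun x _ => ?_
  rw [inner_sum]
  refine Finset.sum_congr rfl fun y _ => ?_
  rw [real_inner_smul_left, real_inner_smul_right]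

/-- extension of an isometric map between total families to a linear isometric equivalence -/
theorem exists_ext {X : Type} {H : Type} [NormedAddCommGroup H] [InnerProductSpace ℝ H]
    [CompleteSpace H] (e e' : X → H) (he : ∀ x y, inner ℝ (e' x) (e' y) = inner ℝ (e x) (e y))
    (hd : (Submodule.span ℝ (Set.range e)).topologicalClosure = ⊤)
    (hd' : (Submodule.span ℝ (Set.range e')).topologicalClosure = ⊤) :
    ∃ U : H ≃ₗᵢ[ℝ] H, ∀ x, U (e x) = e' x := by
  have hn : ∀ c : X →₀ ℝ, ‖Finsupp.linearCombination ℝ e' (LinearEquiv.refl ℝ (X →₀ ℝ) c)‖ =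
      ‖Finsupp.linearCombination ℝ e c‖ := by
    intro c
    rw [LinearEquiv.refl_apply]
    have h1 : ‖Finsupp.linearCombination ℝ e' c‖ ^ 2 = ‖Finsupp.linearCombination ℝ e c‖ ^ 2 := by
      rw [← real_inner_self_eq_norm_sq, ← real_inner_self_eq_norm_sq, GnsB_inner, GnsB_inner]
      refine Finset.sum_congr rfl fun x _ => Finset.sum_congr rfl fun y _ => ?_
      rw [he]
    exact (pow_left_inj₀ (norm_nonneg _) (norm_nonneg _) two_ne_zero).1 h1
  refine ⟨LinearEquiv.extendOfIsometry (LinearEquiv.refl ℝ (X →₀ ℝ))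
    (Finsupp.linearCombination ℝ e) (Finsupp.linearCombination ℝ e') (GnsB_dense e hd)
    (GnsB_dense e' hd') hn, fun x => ?_⟩
  have h1 := LinearEquiv.extendOfIsometry_eq (LinearEquiv.refl ℝ (X →₀ ℝ))
    (Finsupp.linearCombination ℝ e) (Finsupp.linearCombination ℝ e') (GnsB_dense e hd)
    (GnsB_dense e' hd') hn (Finsupp.single x 1)
  rw [LinearEquiv.refl_apply, Finsupp.linearCombination_single, Finsupp.linearCombination_single,
    one_smul, one_smul] at h1
  exact h1

theorem eq_of_total {X : Type} {H : Type} [NormedAddCommGroup H] [InnerProductSpace ℝ H]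
    (e : X → H) (hd : (Submodule.span ℝ (Set.range e)).topologicalClosure = ⊤)
    (U V : H →ₗᵢ[ℝ] H) (h : ∀ x, U (e x) = V (e x)) : U = V := by
  have h1 : (fun y => U y) = fun y => V y := by
    refine (GnsB_dense e hd).equalizer U.continuous V.continuous ?_
    funext c
    simp only [Function.comp_apply]
    rw [Finsupp.linearCombination_apply, Finsupp.sum, map_sum, map_sum]
    refine Finset.sum_congr rfl fun x _ => ?_
    rw [map_smul, map_smul, h]
  exact LinearIsometry.ext fun y => congrFun h1 y

end Pool.Agent.LibSQ58
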