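import Pool.Agent.LibSQ58.GnsA
import Pool.Agent.LibSQ58.GnsB
set_option autoImplicit false
namespace Pool.Agent.LibSQ58
open MeasureTheory Filter Topology


/-- Gelfand-Naimark-Segal construction for positive definite functions on `ℝ³` -/
theorem gns (Φ : E3 → ℝ) (hΦ : PD Φ) :
    ∃ (H : Type) (_ : NormedAddCommGroup H) (_ : InnerProductSpace ℝ H) (_ : CompleteSpace H)
      (S : Rp E3 H) (ξ : H), (∀ w, inner ℝ ξ (S.τ w ξ) = Φ w) ∧
        ∀ R : E3 ≃ₗᵢ[ℝ] E3, (∀ w, Φ (R w) = Φ w) →
          ∃ U : H ≃ₗᵢ[ℝ] H, (∀ w h, U (S.τ w h) = S.τ (R w) (U h)) ∧ U ξ = ξ := by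
  obtain ⟨H, i1, i2, i3, e, he, hd⟩ := exists_gram (fun x y : E3 => Φ (x - y))
    (fun x y => by rw [← hΦ.1 (x - y), neg_sub]) hΦ.2
  -- the translations
  have hT : ∀ w : E3, ∃ U : H ≃ₗᵢ[ℝ] H, ∀ x, U (e x) = e (x + w) := by
    intro w
    have hr : Set.range (fun x => e (x + w)) = Set.range e := by
      ext y
      constructor
      · rintro ⟨x, rfl⟩
        exact ⟨x + w, rfl⟩
      · rintro ⟨x, rfl⟩
        exact ⟨x - w, by simp only [sub_add_cancel]⟩
    refine exists_ext e (fun x => e (x + w)) (fun x y => ?_) hd (by rw [hr]; exact hd)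
    rw [he, he, add_sub_add_right_eq_sub]
  choose U hU using hT
  let S : Rp E3 H :=
    { τ := fun w => (U w).toLinearIsometry
      add' := by
        intro x y h
        have h1 := eq_of_total e hd (U (x + y)).toLinearIsometry
          ((U x).toLinearIsometry.comp (U y).toLinearIsometry) (fun z => by
            change U (x + y) (e z) = U x (U y (e z))
            rw [hU, hU, hU, add_assoc, add_comm y x])
        rw [h1]
        rfl
      zero' := by
        intro h
        have h1 := eq_of_total e hd (U 0).toLinearIsometry LinearIsometry.id (fun z => by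
            change U 0 (e z) = e z
            rw [hU, add_zero])
        rw [h1]
        rfl }
  refine ⟨H, i1, i2, i3, S, e 0, fun w => ?_, fun R hR => ?_⟩
  · change inner ℝ (e 0) (U w (e 0)) = Φ w
    rw [hU, he, zero_add, zero_sub, hΦ.1]
  · have hr : Set.range (fun x => e (R x)) = Set.range e := by
      ext y
      constructor
      · rintro ⟨x, rfl⟩
        exact ⟨R x, rfl⟩
      · rintro ⟨x, rfl⟩
        exact ⟨R.symm x, by simp only [LinearIsometryEquiv.apply_symm_apply]⟩
    obtain ⟨V, hV⟩ := exists_ext e (fun x => e (R x)) (fun x y => by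
      rw [he, he, ← map_sub, hR]) hd (by rw [hr]; exact hd)
    refine ⟨V, fun w h => ?_, ?_⟩
    · have h1 := eq_of_total e hd (V.toLinearIsometry.comp (U w).toLinearIsometry)
          ((U (R w)).toLinearIsometry.comp V.toLinearIsometry) (fun z => by
            change V (U w (e z)) = U (R w) (V (e z))
            rw [hU, hV, hV, hU, map_add])
      exact congrArg (fun T : H →ₗᵢ[ℝ] H => T h) h1
    · rw [hV, map_zero]

end Pool.Agent.LibSQ58
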