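import Pool.Agent.LibSQ58.FpA
import Pool.Agent.LibSQ58.FlatC
import Pool.Agent.LibSQ58.GnsC
set_option autoImplicit false
namespace Pool.Agent.LibSQ58
open MeasureTheory Filter Topology

private theorem hcont_map {H : Type*} [NormedAddCommGroup H] [InnerProductSpace ℝ H]
    (S : Rp E3 H) (V : H → H) (hV : Continuous V) (L : ℝ × ℝ → ℝ × ℝ) (hL : Continuous L)
    (hL0 : L 0 = 0)
    (h : ∀ (p : ℝ × ℝ) (k : H), S.τ (!₂[p.1, p.2, 0] : E3) (V k) =
      V (S.τ (!₂[(L p).1, (L p).2, 0] : E3) k)) {k : H} (hk : HCont S k) : HCont S (V k) := by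
  unfold HCont at hk ⊢
  have h1 : Tendsto L (𝓝 0) (𝓝 0) := by
    have := hL.tendsto 0
    rwa [hL0] at this
  have h2 := (hV.tendsto k).comp (hk.comp h1)
  refine h2.congr fun p => ?_
  rw [h p k]
  rfl

/-- FLAT THEOREM for positive definite functions: `gns`, `ξ = P ξ + G` (`P` the projection onto `hsub S`), `A w = ⟨Pξ, τ_w Pξ⟩`,
`B w = ⟨G, τ_w G⟩` (`flat_zero`); the unitaries `U` of `gns` preserve `hsub S` (also `U⁻¹`), so `U G = G`.
If `Φ (0,0,t) → Φ 0` then `‖τ ξ - ξ‖ → 0`, hence `‖τ Pξ - Pξ‖ = ‖P (τ ξ - ξ)‖ → 0` (`proj_comm`). -/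
theorem flat_pd (Φ : E3 → ℝ) (hΦ : PD Φ) (hrot : ∀ θ w, Φ (rotZ θ w) = Φ w) :
    ∃ A B : E3 → ℝ, PD A ∧ PD B ∧ (∀ w, Φ w = A w + B w) ∧
      Tendsto (fun p : ℝ × ℝ => A (!₂[p.1, p.2, 0] : E3)) (𝓝 0) (𝓝 (A 0)) ∧
      (∀ w : E3, w 0 ≠ 0 ∨ w 1 ≠ 0 → B w = 0) ∧
      (Tendsto (fun t : ℝ => Φ (!₂[0, 0, t] : E3)) (𝓝 0) (𝓝 (Φ 0)) →
        Tendsto (fun t : ℝ => A (!₂[0, 0, t] : E3)) (𝓝 0) (𝓝 (A 0))) := by
  obtain ⟨H, i1, i2, i3, S, ξ, hξ, hR⟩ := gns Φ hΦ
  have hcl : IsClosed (hsub S : Set H) := hsub_closed S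
  have : CompleteSpace (hsub S) := hcl.completeSpace_coe
  obtain ⟨a, haK, ha⟩ : ∃ a ∈ hsub S, ξ - a ∈ (hsub S)ᗮ :=
    ⟨(hsub S).starProjection ξ, Submodule.starProjection_apply_mem _ _,
      Submodule.sub_starProjection_mem_orthogonal ξ⟩
  obtain ⟨G, hG⟩ : ∃ G, G = ξ - a := ⟨_, rfl⟩
  have hGperp : ∀ k ∈ hsub S, inner ℝ k G = (0 : ℝ) := by
    intro k hk
    rw [hG]
    exact Submodule.inner_right_of_mem_orthogonal hk ha
  have hsum : ξ = a + G := by rw [hG]; abel
  have hA : PD (fun w => inner ℝ a (S.τ w a)) := pd_of_rep S a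
  have hB : PD (fun w => inner ℝ G (S.τ w G)) := pd_of_rep S G
  have hdec : ∀ w, Φ w = inner ℝ a (S.τ w a) + inner ℝ G (S.τ w G) := by
    intro w
    rw [← hξ w]
    have e1 : inner ℝ a (S.τ w G) = (0 : ℝ) := by
      have h1 : S.τ (-w) a ∈ hsub S := hsub_inv S (-w) haK
      have h2 := hGperp _ h1
      rw [S.inner_left, neg_neg] at h2
      exact h2
    have e2 : inner ℝ G (S.τ w a) = (0 : ℝ) := by
      have h1 : S.τ w a ∈ hsub S := hsub_inv S w haK
      rw [real_inner_comm]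
      exact hGperp _ h1
    conv_lhs => rw [hsum]
    rw [map_add, inner_add_left, inner_add_right, inner_add_right, e1, e2]
    ring
  refine ⟨fun w => inner ℝ a (S.τ w a), fun w => inner ℝ G (S.τ w G), hA, hB, hdec, ?_, ?_, ?_⟩
  · have h1 : HCont S a := haK
    have h2 : Tendsto (fun p : ℝ × ℝ => inner ℝ a (S.τ (!₂[p.1, p.2, 0] : E3) a)) (𝓝 0)
        (𝓝 (inner ℝ a a)) := tendsto_const_nhds.inner h1
    have h3 : inner ℝ a (S.τ 0 a) = (inner ℝ a a : ℝ) := by rw [S.zero']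
    show Tendsto _ _ (𝓝 (inner ℝ a (S.τ 0 a)))
    rw [h3]
    exact h2
  · intro w hw
    refine flat_zero S G ?_ (fun k hk => hGperp k hk) w hw
    intro θ
    obtain ⟨R, hRθ⟩ := exists_rotZ θ
    obtain ⟨U, hU1, hU2⟩ := hR R (fun w => by rw [hRθ, hrot])
    have hUK : ∀ k, HCont S k → HCont S (U k) := by
      intro k hk
      refine hcont_map S U U.continuous
        (fun p => (Real.cos θ * p.1 + Real.sin θ * p.2, - Real.sin θ * p.1 + Real.cos θ * p.2))
        (by fun_prop) (by simp) ?_ hk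
      intro p k
      rw [hU1, hRθ]
      congr 2
      unfold rotZ
      ext i
      have hcs := Real.cos_sq_add_sin_sq θ
      fin_cases i
      · show p.1 = Real.cos θ * (Real.cos θ * p.1 + Real.sin θ * p.2) -
          Real.sin θ * (-Real.sin θ * p.1 + Real.cos θ * p.2)
        linear_combination (-p.1) * hcs
      · show p.2 = Real.sin θ * (Real.cos θ * p.1 + Real.sin θ * p.2) +
          Real.cos θ * (-Real.sin θ * p.1 + Real.cos θ * p.2)
        linear_combination (-p.2) * hcs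
      · rfl
    have hUK' : ∀ k, HCont S k → HCont S (U.symm k) := by
      intro k hk
      refine hcont_map S U.symm U.symm.continuous
        (fun p => (Real.cos θ * p.1 - Real.sin θ * p.2, Real.sin θ * p.1 + Real.cos θ * p.2))
        (by fun_prop) (by simp) ?_ hk
      intro p k
      apply U.injective
      rw [hU1, hRθ, U.apply_symm_apply, U.apply_symm_apply]
      rfl
    have hUa : U a = a := by
      have m1 : a - U a ∈ hsub S := (hsub S).sub_mem haK (hUK a haK)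
      have m2 : a - U a = U G - G := by
        have : U a + U G = a + G := by rw [← map_add, ← hsum, hU2]
        rw [sub_eq_sub_iff_add_eq_add, ← this]
        abel
      have m3 : inner ℝ (a - U a) (U G) = (0 : ℝ) := by
        have h1 : U.symm (a - U a) ∈ hsub S := hUK' _ m1
        have h2 := hGperp _ h1
        rw [← U.inner_map_map, U.apply_symm_apply] at h2
        exact h2
      have m4 : inner ℝ (a - U a) (a - U a) = (0 : ℝ) := by
        have e : inner ℝ (a - U a) (a - U a) = (inner ℝ (a - U a) (U G - G) : ℝ) := by rw [← m2]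
        rw [e, inner_sub_right, m3, hGperp _ m1, sub_zero]
      exact (sub_eq_zero.1 (inner_self_eq_zero.1 m4)).symm
    refine ⟨U.toLinearIsometry, fun w h => ?_, ?_⟩
    · show U (S.τ w h) = S.τ (rotZ θ w) (U h)
      rw [hU1, hRθ]
    · show U G = G
      rw [hG, map_sub, hU2, hUa]
  · intro ht
    have hΦ0 : Tendsto (fun t : ℝ => Φ 0 - Φ (!₂[0, 0, t] : E3)) (𝓝 0) (𝓝 0) := by
      have := ht.const_sub (Φ 0)
      rwa [sub_self] at this
    have hd : Tendsto (fun t : ℝ => (inner ℝ a (S.τ 0 a) : ℝ) - inner ℝ a (S.τ (!₂[0, 0, t] : E3) a))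
        (𝓝 0) (𝓝 0) := by
      refine squeeze_zero (fun t => ?_) (fun t => ?_) hΦ0
      · have := (abs_le.1 (hA.abs_le (!₂[0, 0, t] : E3))).2
        linarith
      · have := (abs_le.1 (hB.abs_le (!₂[0, 0, t] : E3))).2
        rw [hdec 0, hdec (!₂[0, 0, t] : E3)]
        linarith
    have := hd.const_sub (inner ℝ a (S.τ 0 a) : ℝ)
    simpa using this

end Pool.Agent.LibSQ58
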