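import Pool.Agent.LibSQ58.Rep
set_option autoImplicit false
namespace Pool.Agent.LibSQ58
open MeasureTheory Filter Topology


/-- Moore: a positive semidefinite real kernel is a Gram kernel with dense span.  (`RKHS.OfKernel` in Mathlib, or directly:
`X →₀ ℝ` with the semi inner product, completion.) -/
theorem exists_gram {X : Type} (K : X → X → ℝ) (hs : ∀ x y, K x y = K y x)
    (hp : ∀ (s : Finset X) (c : X → ℝ), 0 ≤ ∑ x ∈ s, ∑ y ∈ s, c x * c y * K x y) :
    ∃ (H : Type) (_ : NormedAddCommGroup H) (_ : InnerProductSpace ℝ H) (_ : CompleteSpace H)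
      (e : X → H), (∀ x y, inner ℝ (e x) (e y) = K x y) ∧
        (Submodule.span ℝ (Set.range e)).topologicalClosure = ⊤ := by
  classical
  let K' : Matrix X X (ℝ →L[ℝ] ℝ) := Matrix.of fun x y => K x y • ContinuousLinearMap.id ℝ ℝ
  have hK : K'.PosSemidef := by
    have h := (RKHS.posSemidef_tfae (K := K')).out 0 2
    refine h.2 ⟨?_, fun vv => ?_⟩
    · ext x y
      simp only [K', Matrix.conjTranspose_apply, Matrix.of_apply, star_smul]
      have h3 : star (ContinuousLinearMap.id ℝ ℝ) = ContinuousLinearMap.id ℝ ℝ :=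
        star_one (ℝ →L[ℝ] ℝ)
      rw [hs y x, h3]
      simp
    · have h1 := hp vv.support vv
      refine h1.trans (le_of_eq ?_)
      simp only [K', Matrix.of_apply, Finsupp.sum, RCLike.re_to_real]
      refine Finset.sum_congr rfl fun x _ => Finset.sum_congr rfl fun y _ => ?_
      simp
      rw [hs y x]
      ring
  have : Fact K'.PosSemidef := ⟨hK⟩
  refine ⟨RKHS.OfKernel K', inferInstance, inferInstance, inferInstance,
    fun x => RKHS.kerFun (RKHS.OfKernel K') x 1, fun x y => ?_, ?_⟩
  · rw [← RKHS.kernel_inner, RKHS.OfKernel.kernel_ofKernel]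
    simp [K', hs y x]
  · have h1 := RKHS.kerFun_dense (RKHS.OfKernel K')
    have h2 : Submodule.span ℝ {RKHS.kerFun (RKHS.OfKernel K') x v | (x : X) (v : ℝ)} ≤
        Submodule.span ℝ (Set.range fun x => RKHS.kerFun (RKHS.OfKernel K') x 1) := by
      rw [Submodule.span_le]
      rintro _ ⟨x, v, rfl⟩
      have h3 : RKHS.kerFun (RKHS.OfKernel K') x v = v • RKHS.kerFun (RKHS.OfKernel K') x 1 := by
        rw [← map_smul, smul_eq_mul, mul_one]
      rw [h3]
      exact Submodule.smul_mem _ _ (Submodule.subset_span ⟨x, rfl⟩)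
    rw [eq_top_iff, ← h1]
    exact Submodule.topologicalClosure_mono h2

end Pool.Agent.LibSQ58
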