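import Pool.Agent.LibSQ58.MeanApi
set_option autoImplicit false
namespace Pool.Agent.LibSQ58
open MeasureTheory Filter Topology

/-! Invariant means on abelian groups (Banach).  Hint: on the submodule `W` of bounded functions of `G → ℝ` let
`p f` be the infimum over all `n ≥ 1` and `s : Fin n → G` of `⨆ x, (1/n) ∑ i, f (x + s i)`.  `p` is sublinear (for the
sum use the shifts `s i + t j`, `Fin n × Fin k`), `p (fun x => f (x + g) - f x) ≤ 0` (shifts `0, g, 2g, …, (n-1) g`), `p f ≤ sup f`,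
`-p (-f) ≥ inf f`.  `exists_extension_of_le_sublinear` (with domain `⊥`) gives a linear `m ≤ p`. -/

variable {G : Type*} [AddCommGroup G]

/-- the bounded functions -/
private def W (G : Type*) : Submodule ℝ (G → ℝ) where
  carrier := {f | Bdd f}
  add_mem' := fun hf hg => Bdd.add hf hg
  zero_mem' := Bdd.const 0
  smul_mem' := fun c _ hf => Bdd.cmul c hf

/-- upper bounds of averages -/
private def UB (f : G → ℝ) : Set ℝ :=
  {c | ∃ (n : ℕ) (s : Fin n → G), 0 < n ∧ ∀ x, ∑ i, f (x + s i) ≤ n * c}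

private theorem ub_sup {f : G → ℝ} {C : ℝ} (h : ∀ x, f x ≤ C) : C ∈ UB f := by
  refine ⟨1, fun _ => 0, one_pos, fun x => ?_⟩
  simpa using h x

private theorem ub_nonempty {f : G → ℝ} (h : Bdd f) : (UB f).Nonempty := by
  obtain ⟨C, hC⟩ := h
  exact ⟨C, ub_sup fun x => (le_abs_self _).trans (hC x)⟩

private theorem ub_lower {f : G → ℝ} {C : ℝ} (h : ∀ x, C ≤ f x) : ∀ c ∈ UB f, C ≤ c := by
  rintro c ⟨n, s, hn, hs⟩
  have h1 := hs 0
  have h2 : ∑ _i : Fin n, C ≤ ∑ i, f (0 + s i) := Finset.sum_le_sum fun i _ => h _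
  rw [Finset.sum_const, Finset.card_univ, Fintype.card_fin, nsmul_eq_mul] at h2
  have hn' : (0 : ℝ) < n := by exact_mod_cast hn
  exact le_of_mul_le_mul_left (h2.trans h1) hn'

private theorem ub_bdd {f : G → ℝ} (h : Bdd f) : BddBelow (UB f) := by
  obtain ⟨C, hC⟩ := h
  exact ⟨-C, fun c hc => ub_lower (fun x => (abs_le.1 (hC x)).1) c hc⟩

private noncomputable def p (f : G → ℝ) : ℝ := sInf (UB f)

private theorem p_le {f : G → ℝ} (h : Bdd f) {c : ℝ} (hc : c ∈ UB f) : p f ≤ c :=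
  csInf_le (ub_bdd h) hc

private theorem p_add {f g : G → ℝ} (hf : Bdd f) (hg : Bdd g) : p (f + g) ≤ p f + p g := by
  refine le_of_forall_pos_le_add fun ε hε => ?_
  obtain ⟨c, ⟨n, s, hn, hs⟩, hc⟩ := exists_lt_of_csInf_lt (ub_nonempty hf)
    (show sInf (UB f) < p f + ε / 2 by unfold p; linarith)
  obtain ⟨d, ⟨k, t, hk, ht⟩, hd⟩ := exists_lt_of_csInf_lt (ub_nonempty hg)
    (show sInf (UB g) < p g + ε / 2 by unfold p; linarith)
  have h1 : c + d ∈ UB (f + g) := by
    refine ⟨n * k, fun i => s (finProdFinEquiv.symm i).1 + t (finProdFinEquiv.symm i).2,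
      Nat.mul_pos hn hk, fun x => ?_⟩
    rw [Equiv.sum_comp finProdFinEquiv.symm
      (fun q : Fin n × Fin k => (f + g) (x + (s q.1 + t q.2)))]
    rw [Fintype.sum_prod_type]
    have h2 : ∑ i : Fin n, ∑ j : Fin k, (f + g) (x + (s i + t j)) =
        ∑ j : Fin k, ∑ i : Fin n, f ((x + t j) + s i) + ∑ i : Fin n, ∑ j : Fin k, g ((x + s i) + t j) := by
      rw [Finset.sum_comm (s := (Finset.univ : Finset (Fin k)))]
      rw [← Finset.sum_add_distrib]
      refine Finset.sum_congr rfl fun i _ => ?_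
      rw [← Finset.sum_add_distrib]
      refine Finset.sum_congr rfl fun j _ => ?_
      rw [Pi.add_apply]
      congr 2 <;> abel
    rw [h2]
    have h3 : ∑ j : Fin k, ∑ i : Fin n, f ((x + t j) + s i) ≤ ∑ _j : Fin k, (n : ℝ) * c :=
      Finset.sum_le_sum fun j _ => hs _
    have h4 : ∑ i : Fin n, ∑ j : Fin k, g ((x + s i) + t j) ≤ ∑ _i : Fin n, (k : ℝ) * d :=
      Finset.sum_le_sum fun i _ => ht _
    rw [Finset.sum_const, Finset.card_univ, Fintype.card_fin, nsmul_eq_mul] at h3 h4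
    push_cast
    nlinarith
  have h5 := p_le (hf.add hg) h1
  have h6 : p (f + g) ≤ c + d := h5
  linarith

private theorem p_smul {f : G → ℝ} (hf : Bdd f) {a : ℝ} (ha : 0 < a) : p (a • f) = a * p f := by
  have key : ∀ (f : G → ℝ), Bdd f → ∀ a : ℝ, 0 < a → p (a • f) ≤ a * p f := by
    intro f hf a ha
    have h1 : ∀ c ∈ UB f, p (a • f) ≤ a * c := by
      rintro c ⟨n, s, hn, hs⟩
      refine p_le (hf.cmul a) ⟨n, s, hn, fun x => ?_⟩
      have h2 := mul_le_mul_of_nonneg_left (hs x) ha.le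
      rw [Finset.mul_sum] at h2
      calc ∑ i, (a • f) (x + s i) = ∑ i, a * f (x + s i) := rfl
        _ ≤ a * (n * c) := h2
        _ = n * (a * c) := by ring
    have h2 : a⁻¹ * p (a • f) ≤ p f := by
      refine le_csInf (ub_nonempty hf) fun c hc => ?_
      rw [inv_mul_le_iff₀ ha]
      exact h1 c hc
    rwa [inv_mul_le_iff₀ ha] at h2
  refine le_antisymm (key f hf a ha) ?_
  have h1 := key (a • f) (hf.cmul a) a⁻¹ (inv_pos.2 ha)
  rw [smul_smul, inv_mul_cancel₀ ha.ne', one_smul] at h1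
  have h2 := mul_le_mul_of_nonneg_left h1 ha.le
  rwa [← mul_assoc, mul_inv_cancel₀ ha.ne', one_mul] at h2

private theorem p_shift {f : G → ℝ} (hf : Bdd f) (g : G) :
    p (fun x => f (x + g) - f x) ≤ 0 := by
  obtain ⟨C, hC⟩ := hf
  have hb : Bdd (fun x => f (x + g) - f x) := by
    refine ⟨C + C, fun x => (abs_sub _ _).trans (add_le_add (hC _) (hC _))⟩
  refine le_of_forall_pos_le_add fun ε hε => ?_
  obtain ⟨n, hn⟩ := exists_nat_gt (2 * C / ε)
  have hC0 : 0 ≤ C := (abs_nonneg _).trans (hC 0)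
  have hn0 : (0 : ℝ) < n := lt_of_le_of_lt (by positivity) hn
  refine p_le hb ⟨n, fun i => (i : ℕ) • g, by exact_mod_cast hn0, fun x => ?_⟩
  have h1 : ∑ i : Fin n, (f (x + (i : ℕ) • g + g) - f (x + (i : ℕ) • g)) =
      f (x + n • g) - f x := by
    rw [Fin.sum_univ_eq_sum_range (fun i => f (x + i • g + g) - f (x + i • g)) n]
    have h2 := Finset.sum_range_sub (fun i => f (x + i • g)) n
    simp only [zero_smul, add_zero] at h2
    rw [← h2]
    refine Finset.sum_congr rfl fun i _ => ?_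
    rw [succ_nsmul, ← add_assoc]
  rw [h1]
  have h3 : f (x + n • g) - f x ≤ 2 * C := by
    have := (abs_le.1 (hC (x + n • g))).2
    have := (abs_le.1 (hC x)).1
    linarith
  rw [div_lt_iff₀ hε] at hn
  linarith

theorem exists_inv_mean (G : Type*) [AddCommGroup G] :
    ∃ M : Mean G, ∀ (f : G → ℝ), Bdd f → ∀ g : G, M (fun x => f (x + g)) = M f := by
  classical
  obtain ⟨m, -, hm⟩ := exists_extension_of_le_sublinear (E := W G) ⟨⊥, 0⟩
    (fun f => p (f : G → ℝ)) (fun c hc x => p_smul x.2 hc) (fun x y => p_add x.2 y.2) (by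
      rintro ⟨x, hx⟩
      have hx0 : x = 0 := (Submodule.mem_bot ℝ).1 hx
      subst hx0
      have h0 : (0 : ℝ) ≤ p (fun _ : G => (0 : ℝ)) :=
        le_csInf (ub_nonempty (Bdd.const 0)) (ub_lower fun _ => le_refl _)
      exact h0)
  have hneg : ∀ f : W G, -p (fun x => -(f : G → ℝ) x) ≤ m f := by
    intro f
    have h1 := hm (-f)
    rw [map_neg] at h1
    have h2 : p ((-f : W G) : G → ℝ) = p (fun x => -(f : G → ℝ) x) := rfl
    rw [h2] at h1
    linarith
  have hmono : ∀ f g : W G, (∀ x, (f : G → ℝ) x ≤ (g : G → ℝ) x) → m f ≤ m g := by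
    intro f g hfg
    have h1 := hm (f - g)
    have h2 : p ((f - g : W G) : G → ℝ) ≤ 0 := by
      refine p_le (f - g).2 (ub_sup fun x => ?_)
      have := hfg x
      change (f : G → ℝ) x - (g : G → ℝ) x ≤ 0
      linarith
    rw [map_sub] at h1
    linarith
  have hconst : ∀ c : ℝ, m ⟨fun _ => c, Bdd.const c⟩ = c := by
    intro c
    refine le_antisymm ((hm _).trans (p_le (Bdd.const c) (ub_sup fun _ => le_refl _))) ?_
    have h1 := hneg ⟨fun _ => c, Bdd.const c⟩
    have h2 : p (fun _ : G => -c) ≤ -c := p_le (Bdd.const _) (ub_sup fun _ => le_refl _)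
    have h3 : p (fun x : G => -((⟨fun _ => c, Bdd.const c⟩ : W G) : G → ℝ) x) = p (fun _ : G => -c) := rfl
    rw [h3] at h1
    linarith
  refine ⟨⟨fun f => if h : Bdd f then m ⟨f, h⟩ else 0, ?_, ?_, ?_, ?_⟩, ?_⟩
  · intro f g hf hg
    rw [dif_pos (hf.add hg), dif_pos hf, dif_pos hg, ← map_add]
    rfl
  · intro c f hf
    rw [dif_pos (hf.cmul c), dif_pos hf]
    have := m.map_smul c ⟨f, hf⟩
    rw [smul_eq_mul] at this
    rw [← this]
    rfl
  · intro f g hf hg h
    rw [dif_pos hf, dif_pos hg]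
    exact hmono _ _ h
  · intro c
    rw [dif_pos (Bdd.const c)]
    exact hconst c
  · intro f hf g
    have hf' : Bdd (fun x => f (x + g)) := hf.comp _
    change (if h : Bdd (fun x => f (x + g)) then m ⟨_, h⟩ else 0) = if h : Bdd f then m ⟨f, h⟩ else 0
    rw [dif_pos hf', dif_pos hf]
    have h1 := hm (⟨fun x => f (x + g), hf'⟩ - ⟨f, hf⟩)
    have h2 : p ((⟨fun x => f (x + g), hf'⟩ - ⟨f, hf⟩ : W G) : G → ℝ) ≤ 0 := p_shift hf g
    rw [map_sub] at h1
    have hf'' : Bdd (fun x => f (x + g) * (-1)) := hf'.mul (Bdd.const _)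
    have h3 := hm (⟨f, hf⟩ - ⟨fun x => f (x + g), hf'⟩)
    have h4 : p ((⟨f, hf⟩ - ⟨fun x => f (x + g), hf'⟩ : W G) : G → ℝ) ≤ 0 := by
      have h5 := p_shift hf' (-g)
      have h6 : ((⟨f, hf⟩ - ⟨fun x => f (x + g), hf'⟩ : W G) : G → ℝ) =
          fun x => f (x + -g + g) - f (x + g) := by
        funext x
        change f x - f (x + g) = _
        rw [neg_add_cancel_right]
      rw [h6]
      exact h5
    rw [map_sub] at h3
    linarith

end Pool.Agent.LibSQ58
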