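import Pool.Agent.LibSQ58.DcB
set_option autoImplicit false
namespace Pool.Agent.LibSQ58
open MeasureTheory Filter Topology


variable {Ω : Type} [MeasurableSpace Ω]

theorem RR.jta_rm (X : RR Ω) (x : E3) : Measurable (X.r x) := by
  unfold RR.r
  exact X.ρm.comp (X.mp x).measurable

theorem RR.jta_r1 (X : RR Ω) (x : E3) (ω : Ω) : |X.r x ω| ≤ 1 := X.ρ1 _

/-- approximation of `r` by countably many values -/
theorem RR.jta_approx (X : RR Ω) (ε : ℝ) (hε : 0 < ε) : ∃ R : Ω → E3 → ℝ,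
    Measurable (fun p : Ω × E3 => R p.1 p.2) ∧
      ∀ x, Measurable (fun ω => R ω x) ∧ (∀ ω, |R ω x| ≤ 1) ∧
        ∫ ω, |R ω x - X.r x ω| ∂X.μ < ε := by
  classical
  obtain ⟨δ, hδ, h⟩ := X.r_cont ε hε
  have hex : ∀ p : Ω × E3, ∃ n : ℕ, dist p.2 (TopologicalSpace.denseSeq E3 n) < δ := by
    intro p
    obtain ⟨y, hy, n, hn⟩ := Metric.denseRange_iff.mp (TopologicalSpace.denseRange_denseSeq E3) p.2 δ hδ
      |> fun ⟨n, hn⟩ => (⟨TopologicalSpace.denseSeq E3 n, hn, n, rfl⟩ :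
        ∃ y, dist p.2 y < δ ∧ ∃ n, TopologicalSpace.denseSeq E3 n = y)
    exact ⟨n, hn ▸ hy⟩
  have hm : Measurable (fun p : Ω × E3 =>
      X.r (TopologicalSpace.denseSeq E3 (Nat.find (hex p))) p.1) :=
    Measurable.find (f := fun n (p : Ω × E3) => X.r (TopologicalSpace.denseSeq E3 n) p.1)
      (p := fun n (p : Ω × E3) => dist p.2 (TopologicalSpace.denseSeq E3 n) < δ)
      (fun n => (X.jta_rm _).comp measurable_fst)
      (fun n => measurableSet_lt (measurable_snd.dist measurable_const) measurable_const) hex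
  refine ⟨fun ω x => X.r (TopologicalSpace.denseSeq E3 (Nat.find (hex (ω, x)))) ω, hm, ?_⟩
  intro x
  refine ⟨hm.comp measurable_prodMk_right, fun ω => X.jta_r1 _ _, ?_⟩
  by_cases hne : Nonempty Ω
  · obtain ⟨ω0⟩ := hne
    have hind : ∀ ω, Nat.find (hex (ω, x)) = Nat.find (hex (ω0, x)) := fun ω => rfl
    simp only [hind]
    refine h _ _ ?_
    rw [dist_comm]
    exact Nat.find_spec (hex (ω0, x))
  · have : IsEmpty Ω := not_nonempty_iff.mp hne
    rw [Measure.eq_zero_of_isEmpty X.μ]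
    simpa using hε

/-- a jointly measurable version of the regular part: `limsup_k` of `r (grid_k x)`, `grid_k x` a point of the grid of width `δ_k` next to `x`
(countably many values, so jointly measurable), with `∫ |r (grid_k x) - r x| ≤ 4⁻ᵏ` -/
theorem RR.exists_joint (X : RR Ω) : ∃ R : Ω → E3 → ℝ,
    Measurable (fun p : Ω × E3 => R p.1 p.2) ∧ ∀ x, ∀ᵐ ω ∂X.μ, R ω x = X.r x ω := by
  have := X.prob
  choose R hR1 hR2 using fun k : ℕ => X.jta_approx ((1 / 2 : ℝ) ^ k) (by positivity)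
  refine ⟨fun ω x => limsup (fun k => R k ω x) atTop, ?_, ?_⟩
  · exact Measurable.limsup (f := fun k (p : Ω × E3) => R k p.1 p.2) hR1
  intro x
  have hd : ∀ k, Measurable (fun ω => |R k ω x - X.r x ω|) := fun k =>
    ((hR2 k x).1.sub (X.jta_rm x)).abs
  have hi : ∀ k, Integrable (fun ω => |R k ω x - X.r x ω|) X.μ := fun k => by
    refine Integrable.of_bound (hd k).aestronglyMeasurable 2
      (Filter.Eventually.of_forall (fun ω => ?_))
    rw [Real.norm_eq_abs, abs_abs]
    have a1 := abs_le.mp ((hR2 k x).2.1 ω)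
    have a2 := abs_le.mp (X.jta_r1 x ω)
    rw [abs_le]
    constructor <;> linarith [a1.1, a1.2, a2.1, a2.2]
  have hl : ∀ k, ∫⁻ ω, ENNReal.ofReal |R k ω x - X.r x ω| ∂X.μ ≤
      ENNReal.ofReal ((1 / 2 : ℝ) ^ k) := by
    intro k
    rw [← ofReal_integral_eq_lintegral_ofReal (hi k)
      (Filter.Eventually.of_forall (fun ω => abs_nonneg _))]
    exact ENNReal.ofReal_le_ofReal (hR2 k x).2.2.le
  have hsum : ∫⁻ ω, ∑' k, ENNReal.ofReal |R k ω x - X.r x ω| ∂X.μ ≠ ⊤ := by
    rw [lintegral_tsum (fun k => (hd k).ennreal_ofReal.aemeasurable)]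
    refine ne_top_of_le_ne_top ?_ (ENNReal.tsum_le_tsum hl)
    rw [← ENNReal.ofReal_tsum_of_nonneg (fun k => by positivity) summable_geometric_two]
    exact ENNReal.ofReal_ne_top
  have hae := ae_lt_top' (AEMeasurable.tsum
    (fun k => (hd k).ennreal_ofReal.aemeasurable)) hsum
  filter_upwards [hae] with ω hω
  have h0 := ENNReal.tendsto_atTop_zero_of_tsum_ne_top hω.ne
  have h1 : Tendsto (fun k => |R k ω x - X.r x ω|) atTop (𝓝 0) := by
    have h2 := (ENNReal.tendsto_toReal ENNReal.zero_ne_top).comp h0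
    simp only [ENNReal.toReal_zero] at h2
    refine h2.congr (fun k => ?_)
    simp [ENNReal.toReal_ofReal (abs_nonneg _)]
  have h3 : Tendsto (fun k => R k ω x) atTop (𝓝 (X.r x ω)) := by
    rw [tendsto_iff_dist_tendsto_zero]
    simpa only [Real.dist_eq] using h1
  exact h3.limsup_eq

end Pool.Agent.LibSQ58
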