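import Pool.Agent.LibSQ58.Defs
set_option autoImplicit false
namespace Pool.Agent.LibSQ58
open MeasureTheory Filter Topology


/-- countable sets of orthonormal pairs which are dense -/
theorem exists_countable_ON : ∃ D : Set (E3 × E3), D.Countable ∧ DenseON D ∧
    ∀ u v : E3, (u, v) ∈ D → ON u v := by
  have key : ∀ S : Set (E3 × E3), ∃ D : Set (E3 × E3), D ⊆ S ∧ D.Countable ∧ S ⊆ closure D := by
    intro S
    exact (TopologicalSpace.IsSeparable.of_separableSpace S).exists_countable_dense_subset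
  obtain ⟨D, hDS, hDc, hD⟩ := key {q : E3 × E3 | ON q.1 q.2}
  have hmem : ∀ u v : E3, (u, v) ∈ {q : E3 × E3 | ON q.1 q.2} ↔ ON u v := fun u v => Iff.rfl
  refine ⟨D, hDc, ?_, fun u v h => (hmem u v).1 (hDS h)⟩
  intro u v h ε hε
  have h1 : (u, v) ∈ closure D := hD ((hmem u v).2 h)
  obtain ⟨q, hm, hlt⟩ := Metric.mem_closure_iff.1 h1 ε hε
  have h2 := max_lt_iff.1 (lt_of_eq_of_lt (Prod.dist_eq (x := (u, v)) (y := q)).symm hlt)
  refine ⟨q.1, q.2, hm, ?_, ?_⟩
  · rw [dist_comm]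
    exact h2.1
  · rw [dist_comm]
    exact h2.2

end Pool.Agent.LibSQ58
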