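import Pool.Agent.LibSQ58.Defs
import Pool.Agent.LibMS49.Pos
set_option autoImplicit false
namespace Pool.Agent.LibSQ58
open MeasureTheory Metric Set Filter Topology
open Pool.Agent.LibMS49

/-! ## legal patterns of values: `0` = in neither set, `1` = in `A`, `2` = in `B` -/

/-- legal four-tuples -/
def T3Lg (i j k l : Fin 3) : Prop :=
  (i = 0 ∧ j = 0 ∧ k = 0 ∧ l = 0) ∨
    ((i = 1 ∨ j = 1 ∨ k = 1 ∨ l = 1) ∧ (i = 2 ∨ j = 2 ∨ k = 2 ∨ l = 2))

/-- both signs -/
def T3Bs (i j k : Fin 3) : Prop := (i = 1 ∨ j = 1 ∨ k = 1) ∧ (i = 2 ∨ j = 2 ∨ k = 2)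

instance (i j k l : Fin 3) : Decidable (T3Lg i j k l) := by unfold T3Lg; infer_instance
instance (i j k : Fin 3) : Decidable (T3Bs i j k) := by unfold T3Bs; infer_instance

theorem t3_bs_of_lg : ∀ a b i j k : Fin 3, a ≠ b → T3Lg a i j k → T3Lg b i j k → T3Bs i j k := by
  decide

theorem t3_lg_const : ∀ i : Fin 3, T3Lg i i i i → i = 0 := by decide

theorem t3_bs_zero : ∀ k : Fin 3, ¬ T3Bs 0 0 k := by decide

theorem t3_octa_aux1 : ∀ i j h : Fin 3, T3Bs i j h → ¬ ((i = 1 ∧ j = 2) ∨ (i = 2 ∧ j = 1)) →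
    (h = 1 ∧ (i = 2 ∨ j = 2) ∧ i ≠ 1 ∧ j ≠ 1) ∨ (h = 2 ∧ (i = 1 ∨ j = 1) ∧ i ≠ 2 ∧ j ≠ 2) := by
  decide

theorem t3_octa_aux2 : ∀ a β : Fin 3, T3Bs a β 1 → a = 2 ∨ β = 2 := by decide
theorem t3_octa_aux3 : ∀ a β : Fin 3, T3Bs a β 2 → a = 1 ∨ β = 1 := by decide
theorem t3_octa_aux4 : ∀ a β i j : Fin 3, (i = 2 ∨ j = 2) → i ≠ 1 → j ≠ 1 → T3Lg a i j β →
    a = 1 ∨ β = 1 := by decide
theorem t3_octa_aux5 : ∀ a β i j : Fin 3, (i = 1 ∨ j = 1) → i ≠ 2 → j ≠ 2 → T3Lg a i j β →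
    a = 2 ∨ β = 2 := by decide

theorem t3_octa_fin (a b β i j h h' : Fin 3) (hab : a ≠ b) (h1 : T3Bs a β h) (h2 : T3Bs i j h)
    (h3 : T3Lg a i j β) (h4 : T3Bs b β h') (h5 : T3Bs i j h') (h6 : T3Lg b i j β) :
    (i = 1 ∧ j = 2) ∨ (i = 2 ∧ j = 1) := by
  by_contra hcon
  rcases t3_octa_aux1 i j h h2 hcon with ⟨rfl, g1, g2, g3⟩ | ⟨rfl, g1, g2, g3⟩ <;>
  rcases t3_octa_aux1 i j h' h5 hcon with ⟨rfl, g4, g5, g6⟩ | ⟨rfl, g4, g5, g6⟩
  · have k1 := t3_octa_aux2 _ _ h1
    have k2 := t3_octa_aux2 _ _ h4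
    have k3 := t3_octa_aux4 _ _ _ _ g1 g2 g3 h3
    have k4 := t3_octa_aux4 _ _ _ _ g1 g2 g3 h6
    omega
  · omega
  · omega
  · have k1 := t3_octa_aux3 _ _ h1
    have k2 := t3_octa_aux3 _ _ h4
    have k3 := t3_octa_aux5 _ _ _ _ g1 g2 g3 h3
    have k4 := t3_octa_aux5 _ _ _ _ g1 g2 g3 h6
    omega

/-! ## density -/

section
variable {V : Type*} [NormedAddCommGroup V] [NormedSpace ℝ V] [FiniteDimensional ℝ V]
  [MeasureSpace V] [BorelSpace V] [(volume : Measure V).IsAddHaarMeasure]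

/-- a point which is not a density point of any of three classes covering almost everything has two
different values of positive upper density -/
theorem t3_dens_two {x : V} {K : Fin 3 → Set V} (hfull : Dens x (⋃ i, K i))
    (h : ∀ i, ¬ Dens x (K i)) : ∃ a b, a ≠ b ∧ ¬ Dens x (K a)ᶜ ∧ ¬ Dens x (K b)ᶜ := by
  have key : ∀ i j k : Fin 3, (∀ l : Fin 3, l = i ∨ l = j ∨ l = k) → Dens x (K i)ᶜ →
      Dens x (K j)ᶜ → False := by
    intro i j k hl hi hj
    refine h k (((hfull.inter hi).inter hj).mono ?_)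
    rintro y ⟨⟨hy, hyi⟩, hyj⟩
    obtain ⟨l, hyl⟩ := mem_iUnion.1 hy
    rcases hl l with rfl | rfl | rfl
    · exact absurd hyl hyi
    · exact absurd hyl hyj
    · exact hyl
  by_contra hcon
  push Not at hcon
  by_cases h0 : Dens x (K 0)ᶜ
  · by_cases h1 : Dens x (K 1)ᶜ
    · exact key 0 1 2 (by decide) h0 h1
    · exact key 0 2 1 (by decide) h0 (hcon 1 2 (by decide) h1)
  · exact key 1 2 0 (by decide) (hcon 0 1 (by decide) h0) (hcon 0 2 (by decide) h0)

/-- three classes without wild point in a convex open set: one of them has full measure -/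
theorem t3_nested {U : Set V} {K : Fin 3 → Set V} (hU : IsOpen U) (hUc : Convex ℝ U)
    (mK : ∀ i, MeasurableSet (K i)) (hd : ∀ i j, i ≠ j → Disjoint (K i) (K j))
    (hfull : volume (U \ ⋃ i, K i) = 0) (h : ∀ x ∈ U, ∃ i, Dens x (K i)) :
    ∃ s, volume (U \ K s) = 0 := by
  have key : ∀ i j k : Fin 3, i ≠ j → i ≠ k → (∀ l : Fin 3, l = i ∨ l = j ∨ l = k) →
      volume (U ∩ K i) = 0 ∨ volume (U ∩ (K j ∪ K k)) = 0 := by
    intro i j k hij hik hl
    refine nested hU hUc (mK i) ((mK j).union (mK k)) ?_ ?_ ?_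
    · exact disjoint_union_right.2 ⟨hd i j hij, hd i k hik⟩
    · refine measure_mono_null (sdiff_subset_sdiff_right ?_) hfull
      intro y hy
      obtain ⟨l, hyl⟩ := mem_iUnion.1 hy
      rcases hl l with rfl | rfl | rfl
      · exact Or.inl hyl
      · exact Or.inr (Or.inl hyl)
      · exact Or.inr (Or.inr hyl)
    · intro x hx
      obtain ⟨l, hxl⟩ := h x hx
      rcases hl l with rfl | rfl | rfl
      · exact Or.inl hxl
      · exact Or.inr (hxl.mono subset_union_left)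
      · exact Or.inr (hxl.mono subset_union_right)
  have fin : ∀ i j k : Fin 3, (∀ l : Fin 3, l = i ∨ l = j ∨ l = k) →
      volume (U ∩ (K j ∪ K k)) = 0 → volume (U \ K i) = 0 := by
    intro i j k hl h0
    refine measure_mono_null ?_ (measure_union_null hfull h0)
    intro y hy
    by_cases hyK : y ∈ ⋃ l, K l
    · obtain ⟨l, hyl⟩ := mem_iUnion.1 hyK
      rcases hl l with rfl | rfl | rfl
      · exact absurd hyl hy.2
      · exact Or.inr ⟨hy.1, Or.inl hyl⟩
      · exact Or.inr ⟨hy.1, Or.inr hyl⟩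
    · exact Or.inl ⟨hy.1, hyK⟩
  rcases key 0 1 2 (by decide) (by decide) (by decide) with h0 | h0
  · rcases key 1 0 2 (by decide) (by decide) (by decide) with h1 | h1
    · refine ⟨2, fin 2 0 1 (by decide) ?_⟩
      rw [inter_union_distrib_left]
      exact measure_union_null h0 h1
    · exact ⟨1, fin 1 0 2 (by decide) h1⟩
  · exact ⟨0, fin 0 1 2 (by decide) h0⟩

end

/-! ## the sphere around a wild point -/

/-- the situation around an ambiguous centre (moved to the origin) -/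
structure T3C (K : Fin 3 → Set E3) : Prop where
  mK : ∀ i, MeasurableSet (K i)
  disj : ∀ i j, i ≠ j → Disjoint (K i) (K j)
  full1 : ∀ᵐ q : HH, rot q e0 ∈ ⋃ i, K i
  full2 : ∀ᵐ q : HH, Real.sqrt 2 • rot q e0 ∈ ⋃ i, K i
  h3 : ∀ u v : E3, ‖u‖ = 1 → ‖v‖ = 1 → inner ℝ u v = (0 : ℝ) → ∀ i j k, u ∈ K i → v ∈ K j →
    u + v ∈ K k → T3Bs i j k
  h4 : ∀ x a b : E3, ‖a‖ = 1 → ‖b‖ = 1 → inner ℝ a b = (0 : ℝ) → ∀ i j k l, x ∈ K i →
    x + a ∈ K j → x + b ∈ K k → x + a + b ∈ K l → T3Lg i j k l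

theorem T3C.full_unit {K : Fin 3 → Set E3} (h : T3C K) {u : E3} (hu : ‖u‖ = 1) :
    ∀ᵐ q : HH, rot q u ∈ ⋃ i, K i :=
  ae_rot_of_ae (by rw [hu, cfg_norm_e0]) h.full1

theorem T3C.full_diag {K : Fin 3 → Set E3} (h : T3C K) {w : E3} (hw : ‖w‖ = Real.sqrt 2) :
    ∀ᵐ q : HH, rot q w ∈ ⋃ i, K i := by
  have h2 : ∀ᵐ q : HH, rot q (Real.sqrt 2 • e0) ∈ ⋃ i, K i := by
    simpa only [rot_smul] using h.full2
  refine ae_rot_of_ae ?_ h2
  rw [norm_smul, cfg_norm_e0, hw, Real.norm_eq_abs, abs_of_nonneg (Real.sqrt_nonneg 2), mul_one]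

/-- wild unit vectors -/
def T3W (K : Fin 3 → Set E3) (y : E3) : Prop := ‖y‖ = 1 ∧ ∀ i, ¬ St (K i) y

theorem t3_two {K : Fin 3 → Set E3} (h : T3C K) {u : E3} (hu : T3W K u) :
    ∃ a b, a ≠ b ∧ ¬ St (K a)ᶜ u ∧ ¬ St (K b)ᶜ u := by
  have h1 : Dens (1 : HH) (⋃ i, {h | rot h u ∈ K i}) := by
    refine dens_of_ae ?_ 1
    have h2 := h.full_unit hu.1
    rw [ae_iff] at h2
    refine measure_mono_null ?_ h2
    intro q hq hq'
    apply hq
    obtain ⟨i, hi⟩ := mem_iUnion.1 hq'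
    exact mem_iUnion.2 ⟨i, hi⟩
  exact t3_dens_two (K := fun i => {h | rot h u ∈ K i}) h1 hu.2

theorem t3_octa_one {K : Fin 3 → Set E3} (h : T3C K) {u u' c c' : E3} (hu : ‖u‖ = 1)
    (hu' : ‖u'‖ = 1) (hc : ‖c‖ = 1) (hc' : ‖c'‖ = 1) (huu : inner ℝ u u' = (0 : ℝ))
    (hcc : inner ℝ c c' = (0 : ℝ)) (hsum : c + c' = u + u') (huc : inner ℝ u c = (1 / 2 : ℝ))
    {a β i j : Fin 3} (ha : ¬ St (K a)ᶜ u) (h3 : St (K β) u') (h4 : St (K i) c)
    (h5 : St (K j) c') : ∃ k, T3Bs a β k ∧ T3Bs i j k ∧ T3Lg a i j β := by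
  have huc' : inner ℝ u c' = (1 / 2 : ℝ) := by
    have e : inner ℝ u (c + c') = (inner ℝ u (u + u') : ℝ) := by rw [hsum]
    rw [inner_add_right, inner_add_right, huc, huu, real_inner_self_eq_norm_sq, hu] at e
    linarith
  have hw : ‖u + u'‖ = Real.sqrt 2 := by
    have e : ‖u + u'‖ ^ 2 = 2 := by
      rw [norm_add_sq_real, huu, hu, hu']; norm_num
    rw [← e, Real.sqrt_sq (norm_nonneg _)]
  obtain ⟨q, hq, q1, q2, q3, q4, q5⟩ := perturb h3 h4 h5 ha (h.full_diag hw)
  have q4' : rot q u ∈ K a := by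
    by_contra hcon
    exact q4 hcon
  obtain ⟨k, hk⟩ := mem_iUnion.1 q5
  refine ⟨k, ?_, ?_, ?_⟩
  · refine h.h3 (rot q u) (rot q u') (by rw [norm_rot hq, hu]) (by rw [norm_rot hq, hu'])
        (by rw [inner_rot hq, huu]) _ _ _ q4' q1 ?_
    rw [← rot_add]; exact hk
  · refine h.h3 (rot q c) (rot q c') (by rw [norm_rot hq, hc]) (by rw [norm_rot hq, hc'])
        (by rw [inner_rot hq, hcc]) _ _ _ q2 q3 ?_
    rw [← rot_add, hsum]; exact hk
  · refine h.h4 (rot q u) (rot q (c - u)) (rot q (c' - u)) ?_ ?_ ?_ _ _ _ _ q4' ?_ ?_ ?_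
    · rw [norm_rot hq, cfg_norm_sub hu hc huc]
    · rw [norm_rot hq, cfg_norm_sub hu hc' huc']
    · rw [inner_rot hq, inner_sub_left, inner_sub_right, inner_sub_right, hcc, huc',
        real_inner_comm, huc, real_inner_self_eq_norm_sq, hu]
      norm_num
    · rw [← rot_add]; simpa using q2
    · rw [← rot_add]; simpa using q3
    · rw [← rot_add, ← rot_add]
      have : u + (c - u) + (c' - u) = u' := by
        have : u + (c - u) + (c' - u) = (c + c') - u := by abel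
        rw [this, hsum]; abel
      rw [this]; exact q1

theorem t3_octa {K : Fin 3 → Set E3} (h : T3C K) {u u' c c' : E3} (hu : T3W K u)
    (hu' : ‖u'‖ = 1) (hc : ‖c‖ = 1) (hc' : ‖c'‖ = 1) (huu : inner ℝ u u' = (0 : ℝ))
    (hcc : inner ℝ c c' = (0 : ℝ)) (hsum : c + c' = u + u') (huc : inner ℝ u c = (1 / 2 : ℝ))
    {β i j : Fin 3} (h3 : St (K β) u') (h4 : St (K i) c) (h5 : St (K j) c') :
    (St (K 1) c ∧ St (K 2) c') ∨ (St (K 2) c ∧ St (K 1) c') := by
  obtain ⟨a, b, hab, ha, hb⟩ := t3_two h hu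
  obtain ⟨k, g1, g2, g3⟩ := t3_octa_one h hu.1 hu' hc hc' huu hcc hsum huc ha h3 h4 h5
  obtain ⟨k', g4, g5, g6⟩ := t3_octa_one h hu.1 hu' hc hc' huu hcc hsum huc hb h3 h4 h5
  rcases t3_octa_fin a b β i j k k' hab g1 g2 g3 g4 g5 g6 with ⟨rfl, rfl⟩ | ⟨rfl, rfl⟩
  · exact Or.inl ⟨h4, h5⟩
  · exact Or.inr ⟨h4, h5⟩

/-- around a wild point `u` of the sphere one of the two circles (60° and 90°) contains a positive
length of wild points -/
theorem t3_wild_circle {K : Fin 3 → Set E3} (h : T3C K) {u z : E3} (hu : T3W K u) (hz : ‖z‖ = 1)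
    (huz : inner ℝ u z = (0 : ℝ))
    (h1 : ∀ᵐ θ : ℝ, ¬ T3W K (rot (ax u θ) ((1 / 2 : ℝ) • u + (Real.sqrt 3 / 2) • z)))
    (h2 : ∀ᵐ θ : ℝ, ¬ T3W K (rot (ax u θ) z)) : False := by
  have hu1 := hu.1
  set y : E3 := (1 / 2 : ℝ) • u + (Real.sqrt 3 / 2) • z with hy
  have hm : Measurable (fun θ : ℝ => rot (ax u θ) y) :=
    wc_meas (fun p => rot p.1 p.2) measurable_rot u y
  have hgeo := octa_geometry hu1 hz huz
  have hny : ∀ θ : ℝ, ‖rot (ax u θ) y‖ = 1 := by
    intro θ
    have := (hgeo (θ - gam)).2.1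
    rwa [sub_add_cancel] at this
  have hor : ∀ θ : ℝ, ¬ T3W K (rot (ax u θ) y) → ∃ i, St (K i) (rot (ax u θ) y) := by
    intro θ hθ
    by_contra hcon
    push Not at hcon
    exact hθ ⟨hny θ, hcon⟩
  have hperiod : ∀ θ : ℝ, rot (ax u (θ + Real.pi)) y = rot (ax u θ) y := by
    intro θ
    rw [ax_add_pi, rot_neg]
  have h1p : ∀ᵐ θ : ℝ, ¬ T3W K (rot (ax u (θ + gam)) y) :=
    (measurePreserving_add_right (volume : Measure ℝ) gam).quasiMeasurePreserving.ae h1
  have h1m : ∀ᵐ θ : ℝ, ¬ T3W K (rot (ax u (θ - gam)) y) :=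
    (measurePreserving_sub_right (volume : Measure ℝ) gam).quasiMeasurePreserving.ae h1
  have hrel : ∀ᵐ θ : ℝ, (St (K 1) (rot (ax u (θ + gam)) y) ∧ St (K 2) (rot (ax u (θ - gam)) y)) ∨
      (St (K 2) (rot (ax u (θ + gam)) y) ∧ St (K 1) (rot (ax u (θ - gam)) y)) := by
    filter_upwards [h1p, h1m, h2] with θ a1 a2 a3
    obtain ⟨g1, g2, g3, g4, g5, g6, g7⟩ := hgeo θ
    have hu' : ∃ i, St (K i) (rot (ax u θ) z) := by
      by_contra hcon
      push Not at hcon
      exact a3 ⟨g1, hcon⟩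
    obtain ⟨β, hβ⟩ := hu'
    obtain ⟨i, hi⟩ := hor _ a1
    obtain ⟨j, hj⟩ := hor _ a2
    exact t3_octa h hu g1 g2 g3 g4 g5 g6 g7 hβ hi hj
  refine circle_contra (S := {θ | St (K 1) (rot (ax u θ) y)})
    (T := {θ | St (K 2) (rot (ax u θ) y)})
    (hm (measurableSet_st (h.mK 1))) (hm (measurableSet_st (h.mK 2))) ?_ ?_ ?_ ?_ hrel
  · rw [Set.disjoint_left]
    intro θ ha hb
    exact st_disjoint (h.disj 1 2 (by decide)) ha hb
  · have h3 : ∀ᵐ θ : ℝ, (St (K 1) (rot (ax u (θ + -gam + gam)) y) ∨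
        St (K 2) (rot (ax u (θ + -gam + gam)) y)) := by
      refine (measurePreserving_add_right (volume : Measure ℝ) (-gam)).quasiMeasurePreserving.ae
        (p := fun θ => St (K 1) (rot (ax u (θ + gam)) y) ∨ St (K 2) (rot (ax u (θ + gam)) y)) ?_
      filter_upwards [hrel] with θ hθ
      rcases hθ with hθ | hθ
      · exact Or.inl hθ.1
      · exact Or.inr hθ.1
    filter_upwards [h3] with θ hθ
    rw [neg_add_cancel_right] at hθ
    exact hθ
  · intro θ
    simp only [Set.mem_ofPred_eq, hperiod]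
  · intro θ
    simp only [Set.mem_ofPred_eq, hperiod]

theorem t3_exists_perp (u : E3) : ∃ z : E3, ‖z‖ = 1 ∧ inner ℝ u z = (0 : ℝ) := by
  by_cases h : u 0 ^ 2 + u 1 ^ 2 = 0
  · refine ⟨!₂[1, 0, 0], ?_, ?_⟩
    · rw [EuclideanSpace.norm_eq, Fin.sum_univ_three]
      simp
    · have h0 : u 0 = 0 := by nlinarith [sq_nonneg (u 0), sq_nonneg (u 1)]
      rw [PiLp.inner_apply, Fin.sum_univ_three]
      simp [h0]
  · have hpos : 0 < u 0 ^ 2 + u 1 ^ 2 := lt_of_le_of_ne (by positivity) (Ne.symm h)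
    set r := Real.sqrt (u 0 ^ 2 + u 1 ^ 2) with hr
    have hr0 : 0 < r := Real.sqrt_pos.2 hpos
    have hr2 : r ^ 2 = u 0 ^ 2 + u 1 ^ 2 := Real.sq_sqrt hpos.le
    refine ⟨!₂[-u 1 / r, u 0 / r, 0], ?_, ?_⟩
    · rw [EuclideanSpace.norm_eq, Fin.sum_univ_three, Real.sqrt_eq_one]
      simp
      field_simp
      simp only [sq_abs]
      rw [hr2]; ring
    · rw [PiLp.inner_apply, Fin.sum_univ_three]
      simp
      field_simp
      ring

theorem t3_wild_step {K : Fin 3 → Set E3} (h : T3C K)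
    (hZm : MeasurableSet {y : E3 | T3W K y}) (hZ : ∀ᵐ q : HH, rot q e0 ∉ {y : E3 | T3W K y})
    {u y : E3} (hu : ‖u‖ = 1) (hy : ‖y‖ = 1) (huy : |(inner ℝ u y : ℝ)| < 1)
    (hfr : ¬ ∀ᵐ θ : ℝ, ¬ T3W K (rot (ax u θ) y)) : False := by
  obtain ⟨t, ht, hyt⟩ := t3_exists_perp y
  have h3 : Real.sqrt 3 ^ 2 = 3 := Real.sq_sqrt (by norm_num)
  have hyy : (inner ℝ y y : ℝ) = 1 := by rw [real_inner_self_eq_norm_sq, hy]; norm_num
  have htt : (inner ℝ t t : ℝ) = 1 := by rw [real_inner_self_eq_norm_sq, ht]; norm_num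
  have hty : (inner ℝ t y : ℝ) = 0 := by rw [real_inner_comm]; exact hyt
  set s : E3 := (1 / 2 : ℝ) • y + (Real.sqrt 3 / 2) • t with hs
  have hys : (inner ℝ y s : ℝ) = 1 / 2 := by
    rw [hs, inner_add_right, inner_smul_right, inner_smul_right, hyy, hyt]; ring
  have hss : ‖s‖ = 1 := by
    have : ‖s‖ ^ 2 = 1 := by
      rw [← real_inner_self_eq_norm_sq, hs]
      simp only [inner_add_left, inner_add_right, inner_smul_left, inner_smul_right, hyy, htt, hyt,
        hty, conj_trivial]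
      nlinarith
    nlinarith [norm_nonneg s, sq_nonneg (‖s‖ - 1), sq_nonneg (‖s‖ + 1)]
  have e1 := two_step_circle hZm hZ hu hy hss huy (by rw [hys]; norm_num)
  have e2 := two_step_circle hZm hZ hu hy ht huy (by rw [hyt]; norm_num)
  have hfr' : ∃ᵐ θ : ℝ, T3W K (rot (ax u θ) y) := hfr
  obtain ⟨θ, hθ, hθ1, hθ2⟩ := (hfr'.and_eventually (e1.and e2)).exists
  have hg : ax u θ ≠ 0 := ax_ne_zero hu θ
  refine t3_wild_circle h (u := rot (ax u θ) y) (z := rot (ax u θ) t) hθ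
    (by rw [norm_rot hg, ht]) (by rw [inner_rot hg, hyt]) ?_ ?_
  · filter_upwards [hθ1] with θ' h4
    have h5 : rot (ax (rot (ax u θ) y) θ')
        ((1 / 2 : ℝ) • rot (ax u θ) y + (Real.sqrt 3 / 2) • rot (ax u θ) t) =
        rot (ax u θ) (rot (ax y θ') s) := by
      rw [← rot_conj hg, hs, rot_add (ax u θ), rot_smul (ax u θ), rot_smul (ax u θ)]
    rw [h5]
    exact h4
  · filter_upwards [hθ2] with θ' h4
    rw [rot_conj hg]
    exact h4

theorem t3_meas_wild {K : Fin 3 → Set E3} (mK : ∀ i, MeasurableSet (K i)) :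
    MeasurableSet {y : E3 | T3W K y} := by
  have h1 : MeasurableSet {y : E3 | ‖y‖ = 1} :=
    measurableSet_eq_fun measurable_norm measurable_const
  have h2 : MeasurableSet (⋂ i, {y : E3 | St (K i) y}ᶜ) :=
    MeasurableSet.iInter fun i => (measurableSet_st (mK i)).compl
  have e : {y : E3 | T3W K y} = {y : E3 | ‖y‖ = 1} ∩ ⋂ i, {y : E3 | St (K i) y}ᶜ := by
    ext y
    simp [T3W]
  rw [e]
  exact h1.inter h2

/-- no wild point on the sphere -/
theorem t3_no_wild_sphere {K : Fin 3 → Set E3} (h : T3C K) (u : E3) : ¬ T3W K u := by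
  intro hu
  have hZm : MeasurableSet {y : E3 | T3W K y} := t3_meas_wild h.mK
  have hZ : ∀ᵐ q : HH, rot q e0 ∉ {y : E3 | T3W K y} := by
    have hall : ∀ᵐ q : HH, ∀ i, rot q e0 ∈ K i → St (K i) (rot q e0) :=
      ae_all_iff.2 fun i => ae_st (h.mK i) e0
    filter_upwards [h.full1, hall] with q h1 h2 h4
    obtain ⟨i, hi⟩ := mem_iUnion.1 h1
    exact h4.2 i (h2 i hi)
  have hu1 := hu.1
  have huu : (inner ℝ u u : ℝ) = 1 := by rw [real_inner_self_eq_norm_sq, hu1]; norm_num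
  obtain ⟨z, hz, huz⟩ := t3_exists_perp u
  have hzu : (inner ℝ z u : ℝ) = 0 := by rw [real_inner_comm]; exact huz
  have hzz : (inner ℝ z z : ℝ) = 1 := by rw [real_inner_self_eq_norm_sq, hz]; norm_num
  have h3 : Real.sqrt 3 ^ 2 = 3 := Real.sq_sqrt (by norm_num)
  by_cases c1 : ∀ᵐ θ : ℝ, ¬ T3W K (rot (ax u θ) ((1 / 2 : ℝ) • u + (Real.sqrt 3 / 2) • z))
  · by_cases c2 : ∀ᵐ θ : ℝ, ¬ T3W K (rot (ax u θ) z)
    · exact t3_wild_circle h hu hz huz c1 c2
    · exact t3_wild_step h hZm hZ hu1 hz (by rw [huz]; norm_num) c2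
  · set s : E3 := (1 / 2 : ℝ) • u + (Real.sqrt 3 / 2) • z with hs
    have hus : (inner ℝ u s : ℝ) = 1 / 2 := by
      rw [hs, inner_add_right, inner_smul_right, inner_smul_right, huu, huz]; ring
    have hss : ‖s‖ = 1 := by
      have : ‖s‖ ^ 2 = 1 := by
        rw [← real_inner_self_eq_norm_sq, hs]
        simp only [inner_add_left, inner_add_right, inner_smul_left, inner_smul_right, huu, hzz,
          huz, hzu, conj_trivial]
        nlinarith
      nlinarith [norm_nonneg s, sq_nonneg (‖s‖ - 1), sq_nonneg (‖s‖ + 1)]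
    exact t3_wild_step h hZm hZ hu1 hss (by rw [hus]; norm_num) c1

/-! ## level one -/

private theorem t3_e0 : ‖e0‖ = 1 := by
  simp [e0, EuclideanSpace.norm_eq, Fin.sum_univ_three]

private def t3_L : HH →ₗ[ℝ] ℝ where
  toFun q := q.re
  map_add' _ _ := rfl
  map_smul' _ _ := rfl

private theorem t3_re : volume {q : HH | q.re = 0} = 0 := by
  have h1 : LinearMap.ker t3_L ≠ ⊤ := by
    intro h
    have h2 : (1 : HH) ∈ LinearMap.ker t3_L := by rw [h]; exact Submodule.mem_top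
    rw [LinearMap.mem_ker] at h2
    have h3 : (1 : ℝ) = 0 := h2
    exact one_ne_zero h3
  exact Measure.addHaar_submodule (volume : Measure HH) (LinearMap.ker t3_L) h1

private theorem t3_meas {A : Set E3} (hA : MeasurableSet A) (x : E3) :
    MeasurableSet {q : HH | rot q x ∈ A} :=
  measurable_rot_left x hA

/-- the unit square on the unit sphere -/
private theorem t3_square {K : Fin 3 → Set E3} (h : T3C K) {s : Fin 3}
    (hA : ∀ᵐ q : HH, rot q e0 ∈ K s) : s = 0 := by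
  set x : E3 := !₂[1 / 2, 1 / 2, Real.sqrt (1 / 2)] with hx
  set a : E3 := !₂[-1, 0, 0] with ha
  set b : E3 := !₂[0, -1, 0] with hb
  have hs : Real.sqrt (1 / 2) ^ 2 = 1 / 2 := Real.sq_sqrt (by norm_num)
  have hn : ∀ s t : ℝ, s ^ 2 = 1 / 4 → t ^ 2 = 1 / 4 →
      ‖(!₂[s, t, Real.sqrt (1 / 2)] : E3)‖ = 1 := by
    intro s t h1 h2
    rw [EuclideanSpace.norm_eq, Real.sqrt_eq_one]
    simp only [Fin.sum_univ_three, Real.norm_eq_abs, sq_abs]
    show s ^ 2 + t ^ 2 + Real.sqrt (1 / 2) ^ 2 = 1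
    rw [h1, h2, hs]
    norm_num
  have hx1 : ‖x‖ = 1 := hn _ _ (by norm_num) (by norm_num)
  have hxa : ‖x + a‖ = 1 := by
    have : x + a = !₂[-1 / 2, 1 / 2, Real.sqrt (1 / 2)] := by
      ext i
      fin_cases i <;> simp [hx, ha]
      norm_num
    rw [this]
    exact hn _ _ (by norm_num) (by norm_num)
  have hxb : ‖x + b‖ = 1 := by
    have : x + b = !₂[1 / 2, -1 / 2, Real.sqrt (1 / 2)] := by
      ext i
      fin_cases i <;> simp [hx, hb]
      norm_num
    rw [this]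
    exact hn _ _ (by norm_num) (by norm_num)
  have hxab : ‖x + a + b‖ = 1 := by
    have : x + a + b = !₂[-1 / 2, -1 / 2, Real.sqrt (1 / 2)] := by
      ext i
      fin_cases i <;> simp [hx, ha, hb] <;> norm_num
    rw [this]
    exact hn _ _ (by norm_num) (by norm_num)
  have hna : ‖a‖ = 1 := by simp [ha, EuclideanSpace.norm_eq, Fin.sum_univ_three]
  have hnb : ‖b‖ = 1 := by simp [hb, EuclideanSpace.norm_eq, Fin.sum_univ_three]
  have hab : inner ℝ a b = (0 : ℝ) := by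
    simp [ha, hb, PiLp.inner_apply, Fin.sum_univ_three]
  have h1 := ae_rot_of_ae (x := e0) (y := x) (by rw [t3_e0, hx1]) hA
  have h2 := ae_rot_of_ae (x := e0) (y := x + a) (by rw [t3_e0, hxa]) hA
  have h3 := ae_rot_of_ae (x := e0) (y := x + b) (by rw [t3_e0, hxb]) hA
  have h4 := ae_rot_of_ae (x := e0) (y := x + a + b) (by rw [t3_e0, hxab]) hA
  have h5 : ∀ᵐ q : HH, q ≠ 0 ∧ rot q x ∈ K s ∧ rot q (x + a) ∈ K s ∧ rot q (x + b) ∈ K s ∧
      rot q (x + a + b) ∈ K s := by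
    filter_upwards [ae_ne_zero, h1, h2, h3, h4] with q e1 e2 e3 e4 e5
    exact ⟨e1, e2, e3, e4, e5⟩
  obtain ⟨q, hq, k1, k2, k3, k4⟩ := h5.exists
  rw [rot_add] at k2 k3
  rw [rot_add, rot_add] at k4
  exact t3_lg_const s (h.h4 (rot q x) (rot q a) (rot q b) (by rw [norm_rot hq, hna])
    (by rw [norm_rot hq, hnb]) (by rw [inner_rot hq, hab]) _ _ _ _ k1 k2 k3 k4)

/-- a square with one vertex at the origin -/
private theorem t3_corner {K : Fin 3 → Set E3} (h : T3C K)
    (hA : ∀ᵐ q : HH, rot q e0 ∈ K 0) : False := by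
  set a : E3 := !₂[1, 0, 0] with ha
  set b : E3 := !₂[0, 1, 0] with hb
  have hna : ‖a‖ = 1 := by simp [ha, EuclideanSpace.norm_eq, Fin.sum_univ_three]
  have hnb : ‖b‖ = 1 := by simp [hb, EuclideanSpace.norm_eq, Fin.sum_univ_three]
  have hab : inner ℝ a b = (0 : ℝ) := by
    simp [ha, hb, PiLp.inner_apply, Fin.sum_univ_three]
  have hw : ‖a + b‖ = Real.sqrt 2 := by
    have e : ‖a + b‖ ^ 2 = 2 := by
      rw [norm_add_sq_real, hab, hna, hnb]; norm_num
    rw [← e, Real.sqrt_sq (norm_nonneg _)]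
  have h1 := ae_rot_of_ae (x := e0) (y := a) (by rw [t3_e0, hna]) hA
  have h2 := ae_rot_of_ae (x := e0) (y := b) (by rw [t3_e0, hnb]) hA
  obtain ⟨q, hq, k1, k2, k3⟩ := (ae_ne_zero.and (h1.and (h2.and (h.full_diag hw)))).exists
  obtain ⟨k, hk⟩ := mem_iUnion.1 k3
  rw [rot_add] at hk
  exact t3_bs_zero k (h.h3 (rot q a) (rot q b) (by rw [norm_rot hq, hna])
    (by rw [norm_rot hq, hnb]) (by rw [inner_rot hq, hab]) _ _ _ k1 k2 hk)

/-- conclusion of the analysis on the sphere -/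
theorem t3_level1 {K : Fin 3 → Set E3} (h : T3C K) : False := by
  have hU : IsOpen {q : HH | 0 < q.re} := isOpen_lt continuous_const Quaternion.continuous_re
  have hUc : Convex ℝ {q : HH | 0 < q.re} := convex_halfSpace_gt (f := fun q : HH => q.re)
    ⟨fun _ _ => rfl, fun _ _ => rfl⟩ 0
  obtain ⟨s, hs⟩ := t3_nested (K := fun i => {q : HH | rot q e0 ∈ K i}) hU hUc
    (fun i => t3_meas (h.mK i) e0)
    (by
      intro i j hij
      rw [Set.disjoint_left]
      intro q h1 h2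
      exact Set.disjoint_left.1 (h.disj i j hij) h1 h2)
    (by
      have h1 : volume {q : HH | ¬ (rot q e0 ∈ ⋃ i, K i)} = 0 := ae_iff.1 h.full1
      refine measure_mono_null ?_ h1
      intro q hq hq'
      apply hq.2
      obtain ⟨i, hi⟩ := mem_iUnion.1 hq'
      exact mem_iUnion.2 ⟨i, hi⟩)
    (by
      intro q hq
      have hq0 : q ≠ 0 := by
        rintro rfl
        exact lt_irrefl (0 : ℝ) hq
      by_contra hcon
      push Not at hcon
      refine t3_no_wild_sphere h (rot q e0) ⟨by rw [norm_rot hq0, t3_e0], fun i hi => ?_⟩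
      exact hcon i ((dens_rot_iff hq0 (K i) e0).2 hi))
  have hneg : volume ((fun q : HH => (-1 : ℝ) • q) ⁻¹'
      ({q : HH | 0 < q.re} \ {q : HH | rot q e0 ∈ K s})) = 0 := by
    rw [Measure.addHaar_preimage_smul volume (by norm_num : (-1 : ℝ) ≠ 0), hs, mul_zero]
  have hall : ∀ᵐ q : HH, rot q e0 ∈ K s := by
    rw [ae_iff]
    refine measure_mono_null (t := (({q : HH | 0 < q.re} \ {q : HH | rot q e0 ∈ K s}) ∪
        ((fun q : HH => (-1 : ℝ) • q) ⁻¹' ({q : HH | 0 < q.re} \ {q : HH | rot q e0 ∈ K s}))) ∪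
        {q : HH | q.re = 0}) ?_ (measure_union_null (measure_union_null hs hneg) t3_re)
    intro q hq
    rcases lt_trichotomy q.re 0 with hr | hr | hr
    · refine Or.inl (Or.inr ⟨?_, ?_⟩)
      · show 0 < ((-1 : ℝ) • q).re
        rw [neg_one_smul, Quaternion.re_neg]
        linarith
      · show ¬ rot ((-1 : ℝ) • q) e0 ∈ K s
        rw [neg_one_smul, rot_neg]
        exact hq
    · exact Or.inr hr
    · exact Or.inl (Or.inl ⟨hr, hq⟩)
  obtain rfl := t3_square h hall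
  exact t3_corner h hall

/-! ## wild points -/

/-- three classes covering almost everything, all squares with vertices in the classes legal -/
structure T3G (K : Fin 3 → Set E3) : Prop where
  mK : ∀ i, MeasurableSet (K i)
  disj : ∀ i j, i ≠ j → Disjoint (K i) (K j)
  full : volume (⋃ i, K i)ᶜ = 0
  h4 : ∀ x a b : E3, ‖a‖ = 1 → ‖b‖ = 1 → inner ℝ a b = (0 : ℝ) → ∀ i j k l, x ∈ K i →
    x + a ∈ K j → x + b ∈ K k → x + a + b ∈ K l → T3Lg i j k l

private theorem t3_t {A : Set E3} {x : E3} (h : Dens x A) : Dens (0 : E3) {t | x + t ∈ A} := by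
  rw [← dens_add_iff, add_zero]
  exact h

/-- translation of four points -/
theorem t3_translate {A A₁ A₂ A₃ : Set E3} {p x₁ x₂ x₃ : E3} (hp : ¬ Dens p Aᶜ)
    (h₁ : Dens x₁ A₁) (h₂ : Dens x₂ A₂) (h₃ : Dens x₃ A₃) :
    ∃ t : E3, p + t ∈ A ∧ x₁ + t ∈ A₁ ∧ x₂ + t ∈ A₂ ∧ x₃ + t ∈ A₃ := by
  have hE := (t3_t h₁).inter ((t3_t h₂).inter (t3_t h₃))
  have hG : ¬ Dens (0 : E3) {t | p + t ∈ Aᶜ} := by
    rw [← dens_add_iff, add_zero]
    exact hp
  obtain ⟨t, ht, ht'⟩ := exists_of_dens hE hG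
  refine ⟨t, ?_, ht.1, ht.2.1, ht.2.2⟩
  by_contra hcon
  exact ht' hcon

/-- the stable points around a wild point -/
theorem t3_cfg {K : Fin 3 → Set E3} (h : T3G K) {p : E3} (hp : ∀ i, ¬ Dens p (K i))
    (h1 : ∀ᵐ q : HH, ∃ i, Dens (p + rot q e0) (K i))
    (h2 : ∀ᵐ q : HH, ∃ i, Dens (p + Real.sqrt 2 • rot q e0) (K i)) :
    T3C (fun i => {y | Dens (p + y) (K i)}) where
  mK i := measurableSet_dens (X := E3) (S := {z : E3 × E3 | z.2 ∈ K i})
    ((h.mK i).preimage measurable_snd) (φ := fun y => p + y) (measurable_const.add measurable_id)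
  disj i j hij := by
    rw [Set.disjoint_left]
    intro y hy hy'
    exact Dens.not_disjoint hy hy' (h.disj i j hij)
  full1 := by
    filter_upwards [h1] with q hq
    obtain ⟨i, hi⟩ := hq
    exact mem_iUnion.2 ⟨i, hi⟩
  full2 := by
    filter_upwards [h2] with q hq
    obtain ⟨i, hi⟩ := hq
    exact mem_iUnion.2 ⟨i, hi⟩
  h3 := by
    intro u v hu hv huv i j k g1 g2 g3
    obtain ⟨a, b, hab, ha, hb⟩ := t3_dens_two (dens_of_ae h.full p) hp
    have key : ∀ c, ¬ Dens p (K c)ᶜ → T3Lg c i j k := by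
      intro c hc
      obtain ⟨t, t1, t2, t3, t4⟩ := t3_translate hc g1 g2 g3
      refine h.h4 (p + t) u v hu hv huv _ _ _ _ t1 ?_ ?_ ?_
      · rwa [add_right_comm] at t2
      · rwa [add_right_comm] at t3
      · have e : p + (u + v) + t = p + t + u + v := by abel
        rwa [e] at t4
    exact t3_bs_of_lg a b i j k hab (key a ha) (key b hb)
  h4 := by
    intro x a b ha hb hab i j k l g1 g2 g3 g4
    obtain ⟨t, h5, h6, h7, h8⟩ :=
      ((t3_t g1).inter ((t3_t g2).inter ((t3_t g3).inter (t3_t g4)))).nonempty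
    simp only [mem_ofPred_eq] at h5 h6 h7 h8
    refine h.h4 (p + x + t) a b ha hb hab _ _ _ _ h5 ?_ ?_ ?_
    · have e : p + (x + a) + t = p + x + t + a := by abel
      rwa [e] at h6
    · have e : p + (x + b) + t = p + x + t + b := by abel
      rwa [e] at h7
    · have e : p + (x + a + b) + t = p + x + t + a + b := by abel
      rwa [e] at h8

private theorem t3_WW_null {K : Fin 3 → Set E3} (h : T3G K) :
    volume {x : E3 | ∀ i, ¬ Dens x (K i)} = 0 := by
  have h1 : ∀ᵐ x : E3, ∀ i, x ∈ K i → Dens x (K i) := ae_all_iff.2 fun i => ae_dens (h.mK i)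
  have h2 : ∀ᵐ x : E3, ¬ ∀ i, ¬ Dens x (K i) := by
    have h3 : ∀ᵐ x : E3, x ∉ (⋃ i, K i)ᶜ := measure_eq_zero_iff_ae_notMem.1 h.full
    filter_upwards [h1, h3] with x hx hx' hcon
    rw [notMem_compl_iff] at hx'
    obtain ⟨i, hi⟩ := mem_iUnion.1 hx'
    exact hcon i (hx i hi)
  rw [ae_iff] at h2
  simpa only [not_not] using h2

private theorem t3_wild_key {K : Fin 3 → Set E3} (h : T3G K) {p : E3} (hp : ∀ i, ¬ Dens p (K i)) :
    ¬ (∀ᵐ q : HH, p + (1 : ℝ) • rot q e0 ∉ {x : E3 | ∀ i, ¬ Dens x (K i)}) ∨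
    ¬ (∀ᵐ q : HH, p + Real.sqrt 2 • rot q e0 ∉ {x : E3 | ∀ i, ¬ Dens x (K i)}) := by
  by_contra hcon
  rw [not_or, not_not, not_not] at hcon
  obtain ⟨h1, h2⟩ := hcon
  refine t3_level1 (t3_cfg h hp ?_ ?_)
  · filter_upwards [h1] with q hq
    rw [one_smul] at hq
    by_contra hc
    push Not at hc
    exact hq hc
  · filter_upwards [h2] with q hq
    by_contra hc
    push Not at hc
    exact hq hc

/-- no wild point -/
theorem t3_no_wild_point {K : Fin 3 → Set E3} (h : T3G K) (p : E3) : ∃ i, Dens p (K i) := by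
  by_contra hcon
  push Not at hcon
  have main : ∀ r : ℝ, 0 < r →
      ¬ (∀ᵐ q : HH, p + r • rot q e0 ∉ {x : E3 | ∀ i, ¬ Dens x (K i)}) → False := by
    intro r hr0 hq
    apply hq
    have t1 := two_step_sphere (t3_WW_null h) p hr0 one_pos
    have t2 := two_step_sphere (t3_WW_null h) p hr0 (s := Real.sqrt 2) (by positivity)
    filter_upwards [t1, t2] with q h1 h2 hW
    rcases t3_wild_key h hW with h3 | h3
    · exact h3 h1
    · exact h3 h2
  rcases t3_wild_key h hcon with h3 | h3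
  · exact main 1 one_pos h3
  · exact main (Real.sqrt 2) (by positivity) h3

/-- three classes: the class `0` has full measure -/
theorem t3_main {K : Fin 3 → Set E3} (h : T3G K) : volume (K 0)ᶜ = 0 := by
  obtain ⟨s, hs⟩ := t3_nested (U := (Set.univ : Set E3)) isOpen_univ convex_univ h.mK h.disj
    (by rw [← compl_eq_univ_sdiff]; exact h.full) (fun x _ => t3_no_wild_point h x)
  rw [← compl_eq_univ_sdiff] at hs
  have hd : ∀ x : E3, Dens x (K s) := fun x => dens_of_ae hs x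
  obtain ⟨t, h5, h6, h7, h8⟩ :=
    ((t3_t (hd 0)).inter ((t3_t (hd !₂[1, 0, 0])).inter ((t3_t (hd !₂[0, 1, 0])).inter
      (t3_t (hd (!₂[1, 0, 0] + !₂[0, 1, 0])))))).nonempty
  simp only [mem_ofPred_eq] at h5 h6 h7 h8
  have hna : ‖(!₂[1, 0, 0] : E3)‖ = 1 := by simp [EuclideanSpace.norm_eq, Fin.sum_univ_three]
  have hnb : ‖(!₂[0, 1, 0] : E3)‖ = 1 := by simp [EuclideanSpace.norm_eq, Fin.sum_univ_three]
  have hab : inner ℝ (!₂[1, 0, 0] : E3) !₂[0, 1, 0] = (0 : ℝ) := by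
    simp [PiLp.inner_apply, Fin.sum_univ_three]
  rw [zero_add] at h5
  rw [add_comm] at h6 h7 h8
  rw [← add_assoc] at h8
  have := t3_lg_const s (h.h4 t _ _ hna hnb hab _ _ _ _ h5 h6 h7 h8)
  rw [this] at hs
  exact hs

/-! ## from almost every square to every square -/

/-- four density points: all nearby four-tuples have a positive volume of translates in the four sets -/
theorem t3_pos_of_dens {C : Fin 4 → Set E3} {y : Fin 4 → E3} (h : ∀ i, Dens (y i) (C i)) :
    ∃ ε > 0, ∀ y' : Fin 4 → E3, (∀ i, dist (y' i) (y i) < ε) →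
      0 < volume {t : E3 | ∀ i, y' i + t ∈ C i} := by
  have h1 : ∀ᶠ r in 𝓝[>] (0 : ℝ), ∀ i, volume (closedBall (y i) r \ C i) /
      volume (closedBall (y i) r) < 1 / 64 := by
    rw [Filter.eventually_all]
    intro i
    exact (h i).eventually_lt_const (by norm_num)
  obtain ⟨r, hr1, hr0⟩ := (h1.and self_mem_nhdsWithin).exists
  have hr0 : (0 : ℝ) < r := hr0
  refine ⟨r / 2, by positivity, fun y' hy' => ?_⟩
  set L : ENNReal := volume (closedBall (0 : E3) (r / 2)) with hL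
  have hLpos : 0 < L := measure_closedBall_pos _ _ (by positivity)
  have hLtop : L ≠ ⊤ := measure_closedBall_lt_top.ne
  have hball : ∀ x : E3, volume (closedBall x r) = 8 * L := by
    intro x
    rw [hL, Measure.addHaar_closedBall _ _ hr0.le, Measure.addHaar_closedBall _ _ (by positivity)]
    have hf : Module.finrank ℝ E3 = 3 := by simp
    rw [hf, ← mul_assoc]
    congr 1
    have : (8 : ENNReal) = ENNReal.ofReal 8 := by norm_num
    rw [this, ← ENNReal.ofReal_mul (by norm_num)]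
    congr 1
    ring
  have hbad : ∀ i, volume {t ∈ closedBall (0 : E3) (r / 2) | y' i + t ∉ C i} ≤ L / 8 := by
    intro i
    have hsub : {t ∈ closedBall (0 : E3) (r / 2) | y' i + t ∉ C i} ⊆
        (fun t => y' i + t) ⁻¹' (closedBall (y i) r \ C i) := by
      rintro t ⟨ht, htA⟩
      refine ⟨?_, htA⟩
      rw [mem_closedBall, dist_zero_right] at ht
      rw [mem_closedBall]
      have hd := hy' i
      calc dist (y' i + t) (y i) ≤ dist (y' i + t) (y' i) + dist (y' i) (y i) := dist_triangle _ _ _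
        _ ≤ r / 2 + r / 2 := by
            have : dist (y' i + t) (y' i) = ‖t‖ := by rw [dist_eq_norm, add_sub_cancel_left]
            rw [this]
            linarith
        _ = r := by ring
    refine (measure_mono hsub).trans ?_
    rw [measure_preimage_add]
    have h2 := hr1 i
    rw [hball (y i)] at h2
    have h3 : volume (closedBall (y i) r \ C i) < 1 / 64 * (8 * L) :=
      (ENNReal.div_lt_iff (Or.inl (by positivity)) (Or.inl (ENNReal.mul_ne_top (by norm_num) hLtop))).1 h2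
    refine h3.le.trans (le_of_eq ?_)
    have e : (64 : ENNReal) = 8 * 8 := by norm_num
    rw [one_div, e, ENNReal.mul_inv (Or.inl (by norm_num)) (Or.inl (by norm_num)), mul_assoc,
      ← mul_assoc (8 : ENNReal)⁻¹ 8 L, ENNReal.inv_mul_cancel (by norm_num) (by norm_num), one_mul,
      ENNReal.div_eq_inv_mul]
  by_contra hcon
  have hcon : volume {t : E3 | ∀ i, y' i + t ∈ C i} = 0 := by
    simpa using hcon
  have hcov : closedBall (0 : E3) (r / 2) ⊆ {t : E3 | ∀ i, y' i + t ∈ C i} ∪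
      ⋃ i, {t ∈ closedBall (0 : E3) (r / 2) | y' i + t ∉ C i} := by
    intro t ht
    by_cases hall : ∀ i, y' i + t ∈ C i
    · exact Or.inl hall
    · push Not at hall
      obtain ⟨i, hi⟩ := hall
      exact Or.inr (mem_iUnion.2 ⟨i, ht, hi⟩)
  have h4 : L ≤ L / 2 := by
    calc L ≤ volume ({t : E3 | ∀ i, y' i + t ∈ C i} ∪
          ⋃ i, {t ∈ closedBall (0 : E3) (r / 2) | y' i + t ∉ C i}) := measure_mono hcov
      _ ≤ volume {t : E3 | ∀ i, y' i + t ∈ C i} +
          volume (⋃ i, {t ∈ closedBall (0 : E3) (r / 2) | y' i + t ∉ C i}) := measure_union_le _ _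
      _ ≤ 0 + ∑ i : Fin 4, volume {t ∈ closedBall (0 : E3) (r / 2) | y' i + t ∉ C i} := by
          rw [hcon]
          gcongr
          exact measure_iUnion_fintype_le _ _
      _ ≤ 0 + ∑ _i : Fin 4, L / 8 := by
          gcongr with i
          exact hbad i
      _ = L / 2 := by
          rw [zero_add, Finset.sum_const, Finset.card_univ, Fintype.card_fin, nsmul_eq_mul]
          rw [ENNReal.div_eq_inv_mul, ENNReal.div_eq_inv_mul, ← mul_assoc]
          congr 1
          have e : (8 : ENNReal) = 4 * 2 := by norm_num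
          rw [e, ENNReal.mul_inv (Or.inl (by norm_num)) (Or.inl (by norm_num)), ← mul_assoc]
          push_cast
          rw [ENNReal.mul_inv_cancel (by norm_num) (by norm_num), one_mul]
  have h5 := ENNReal.half_lt_self hLpos.ne' hLtop
  exact absurd h4 (not_le.2 h5)

/-- the three classes of two disjoint sets -/
def t3K (A B : Set E3) : Fin 3 → Set E3 := ![(A ∪ B)ᶜ, A, B]

theorem t3_leg {A B : Set E3} (hd : Disjoint A B) {x y z w : E3} (h : Leg A B x y z w)
    {i j k l : Fin 3} (h1 : x ∈ t3K A B i) (h2 : y ∈ t3K A B j) (h3 : z ∈ t3K A B k)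
    (h4 : w ∈ t3K A B l) : T3Lg i j k l := by
  have hA : ∀ (m : Fin 3) (p : E3), p ∈ t3K A B m → p ∈ A → m = 1 := by
    intro m p hp hpA
    fin_cases m
    · exact absurd (Or.inl hpA) hp
    · rfl
    · exact absurd hp (Set.disjoint_left.1 hd hpA)
  have hB : ∀ (m : Fin 3) (p : E3), p ∈ t3K A B m → p ∈ B → m = 2 := by
    intro m p hp hpB
    fin_cases m
    · exact absurd (Or.inr hpB) hp
    · exact absurd hpB (Set.disjoint_left.1 hd hp)
    · rfl
  have h0 : ∀ (m : Fin 3) (p : E3), p ∈ t3K A B m → p ∉ A ∪ B → m = 0 := by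
    intro m p hp hpAB
    fin_cases m
    · rfl
    · exact absurd (Or.inl hp) hpAB
    · exact absurd (Or.inr hp) hpAB
  rcases h with ⟨g1, g2, g3, g4⟩ | ⟨gA, gB⟩
  · exact Or.inl ⟨h0 _ _ h1 g1, h0 _ _ h2 g2, h0 _ _ h3 g3, h0 _ _ h4 g4⟩
  · refine Or.inr ⟨?_, ?_⟩
    · rcases gA with g | g | g | g
      · exact Or.inl (hA _ _ h1 g)
      · exact Or.inr (Or.inl (hA _ _ h2 g))
      · exact Or.inr (Or.inr (Or.inl (hA _ _ h3 g)))
      · exact Or.inr (Or.inr (Or.inr (hA _ _ h4 g)))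
    · rcases gB with g | g | g | g
      · exact Or.inl (hB _ _ h1 g)
      · exact Or.inr (Or.inl (hB _ _ h2 g))
      · exact Or.inr (Or.inr (Or.inl (hB _ _ h3 g)))
      · exact Or.inr (Or.inr (Or.inr (hB _ _ h4 g)))

/-- THREE-VALUED MEASURABLE THEOREM (adaptation of `LibMS49.main0`) -/
theorem three_sets (A B : Set E3) (mA : MeasurableSet A) (mB : MeasurableSet B) (hd : Disjoint A B)
    (D : Set (E3 × E3)) (hD : DenseON D)
    (h : ∀ u v : E3, (u, v) ∈ D → ∀ᵐ x : E3, Leg A B x (x + u) (x + v) (x + u + v)) :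
    volume (A ∪ B) = 0 := by
  have mK : ∀ i, MeasurableSet (t3K A B i) := by
    intro i
    fin_cases i
    · exact (mA.union mB).compl
    · exact mA
    · exact mB
  have dK : ∀ i j, i ≠ j → Disjoint (t3K A B i) (t3K A B j) := by
    have hA0 : Disjoint (A ∪ B)ᶜ A := disjoint_compl_left.mono_right subset_union_left
    have hB0 : Disjoint (A ∪ B)ᶜ B := disjoint_compl_left.mono_right subset_union_right
    intro i j hij
    fin_cases i <;> fin_cases j
    · exact absurd rfl hij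
    · exact hA0
    · exact hB0
    · exact hA0.symm
    · exact absurd rfl hij
    · exact hd
    · exact hB0.symm
    · exact hd.symm
    · exact absurd rfl hij
  have full : (⋃ i, t3K A B i) = Set.univ := by
    refine eq_univ_of_forall fun x => mem_iUnion.2 ?_
    by_cases hxA : x ∈ A
    · exact ⟨1, hxA⟩
    · by_cases hxB : x ∈ B
      · exact ⟨2, hxB⟩
      · exact ⟨0, fun h => h.elim hxA hxB⟩
  have hG : T3G (fun i => {x | Dens x (t3K A B i)}) := by
    refine ⟨fun i => ?_, fun i j hij => ?_, ?_, ?_⟩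
    · exact measurableSet_dens (X := E3) (S := {p : E3 × E3 | p.2 ∈ t3K A B i})
        (measurable_snd (mK i)) (φ := fun x => x) measurable_id
    · rw [Set.disjoint_left]
      intro x hx hx'
      exact Dens.not_disjoint hx hx' (dK i j hij)
    · have h1 : ∀ᵐ x : E3, ∀ i, x ∈ t3K A B i → Dens x (t3K A B i) :=
        ae_all_iff.2 fun i => ae_dens (mK i)
      rw [ae_iff] at h1
      refine measure_mono_null ?_ h1
      intro x hx hx'
      have h2 : x ∈ ⋃ i, t3K A B i := by rw [full]; exact mem_univ x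
      obtain ⟨i, hi⟩ := mem_iUnion.1 h2
      exact hx (mem_iUnion.2 ⟨i, hx' i hi⟩)
    · intro x a b ha hb hab i j k l g1 g2 g3 g4
      obtain ⟨ε, hε, hpos⟩ := t3_pos_of_dens (C := ![t3K A B i, t3K A B j, t3K A B k, t3K A B l])
        (y := ![x, x + a, x + b, x + a + b])
        (by
          intro m
          fin_cases m
          · exact g1
          · exact g2
          · exact g3
          · exact g4)
      obtain ⟨u', v', huv, hu', hv'⟩ := hD a b ⟨ha, hb, hab⟩ (ε / 2) (by positivity)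
      have h1 := hpos ![x, x + u', x + v', x + u' + v'] (by
        have e : ∀ p q r : E3, dist (p + q) (p + r) = dist q r := fun p q r => dist_add_left p q r
        intro i
        fin_cases i
        · change dist x x < ε
          rw [dist_self]
          exact hε
        · change dist (x + u') (x + a) < ε
          rw [e]; linarith
        · change dist (x + v') (x + b) < ε
          rw [e]; linarith
        · change dist (x + u' + v') (x + a + b) < ε
          rw [add_assoc, add_assoc, e]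
          have := dist_add_add_le u' v' a b
          linarith)
      have h2 : ∀ᵐ t : E3, Leg A B (x + t) (x + t + u') (x + t + v') (x + t + u' + v') :=
        (measurePreserving_add_left volume x).quasiMeasurePreserving.ae (h u' v' huv)
      rw [ae_iff] at h2
      have h3 : ∃ t, (∀ m : Fin 4, (![x, x + u', x + v', x + u' + v'] : Fin 4 → E3) m + t ∈
          (![t3K A B i, t3K A B j, t3K A B k, t3K A B l] : Fin 4 → Set E3) m) ∧
          Leg A B (x + t) (x + t + u') (x + t + v') (x + t + u' + v') := by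
        by_contra hcon
        push Not at hcon
        exact h1.ne' (measure_mono_null (fun t ht => hcon t ht) h2)
      obtain ⟨t, ht, hL⟩ := h3
      have t0 : x + t ∈ t3K A B i := ht 0
      have t1 : x + u' + t ∈ t3K A B j := ht 1
      have t2 : x + v' + t ∈ t3K A B k := ht 2
      have t3 : x + u' + v' + t ∈ t3K A B l := ht 3
      rw [add_right_comm] at t1 t2
      have e3 : x + u' + v' + t = x + t + u' + v' := by abel
      rw [e3] at t3
      exact t3_leg hd hL t0 t1 t2 t3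
  have hmain := t3_main hG
  have h1 : ∀ᵐ x : E3, ∀ i, x ∈ t3K A B i → Dens x (t3K A B i) :=
    ae_all_iff.2 fun i => ae_dens (mK i)
  rw [ae_iff] at h1
  refine measure_mono_null ?_ (measure_union_null hmain h1)
  intro x hx
  by_cases hx0 : Dens x (t3K A B 0)
  · right
    intro hcon
    rcases hx with hx | hx
    · exact Dens.not_disjoint hx0 (hcon 1 hx) (dK 0 1 (by decide))
    · exact Dens.not_disjoint hx0 (hcon 2 hx) (dK 0 2 (by decide))
  · exact Or.inl hx0

end Pool.Agent.LibSQ58
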