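import Pool.Agent.LibSQ58.Defs
set_option autoImplicit false
namespace Pool.Agent.LibSQ58
open MeasureTheory Filter Topology

private theorem lmax {x y x' y' s : ℝ} (h1 : |x - x'| ≤ s) (h2 : |y - y'| ≤ s) :
    |max x y - max x' y'| ≤ s :=
  (abs_max_sub_max_le_max x y x' y').trans (max_le h1 h2)

private theorem lmin {x y x' y' s : ℝ} (h1 : |x - x'| ≤ s) (h2 : |y - y'| ≤ s) :
    |min x y - min x' y'| ≤ s :=
  (abs_min_sub_min_le_max x y x' y').trans (max_le h1 h2)

private theorem labs {x x' k s : ℝ} (h : |x - x'| ≤ s) : |(|x - k|) - (|x' - k|)| ≤ s := by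
  refine (abs_abs_sub_abs_le _ _).trans ?_
  have h2 : x - k - (x' - k) = x - x' := by ring
  rw [h2]
  exact h

/-- distance of the values to `k`, minimum over the four coordinates -/
private noncomputable def mn (k a b c d : ℝ) : ℝ :=
  min (min |a - k| |b - k|) (min |c - k| |d - k|)

/-- maximum of the four absolute values -/
private noncomputable def mx (a b c d : ℝ) : ℝ :=
  max (max |a - 0| |b - 0|) (max |c - 0| |d - 0|)

private theorem mn_nonneg (k a b c d : ℝ) : 0 ≤ mn k a b c d :=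
  le_min (le_min (abs_nonneg _) (abs_nonneg _)) (le_min (abs_nonneg _) (abs_nonneg _))

private theorem mx_nonneg (a b c d : ℝ) : 0 ≤ mx a b c d :=
  (abs_nonneg (a - 0)).trans ((le_max_left _ _).trans (le_max_left _ _))

private theorem mn_zero (k a b c d : ℝ) :
    mn k a b c d = 0 ↔ (a = k ∨ b = k ∨ c = k ∨ d = k) := by
  have e : ∀ x : ℝ, |x - k| ≤ 0 ↔ x = k := fun x => by
    rw [abs_nonpos_iff, sub_eq_zero]
  have h : mn k a b c d = 0 ↔ mn k a b c d ≤ 0 :=
    ⟨fun h => h.le, fun h => le_antisymm h (mn_nonneg _ _ _ _ _)⟩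
  rw [h]
  unfold mn
  rw [min_le_iff, min_le_iff, min_le_iff, e, e, e, e, or_assoc]

private theorem mx_zero (a b c d : ℝ) :
    mx a b c d = 0 ↔ (a = 0 ∧ b = 0 ∧ c = 0 ∧ d = 0) := by
  have e : ∀ x : ℝ, |x - 0| ≤ 0 ↔ x = 0 := fun x => by
    rw [abs_nonpos_iff, sub_eq_zero]
  have h : mx a b c d = 0 ↔ mx a b c d ≤ 0 :=
    ⟨fun h => h.le, fun h => le_antisymm h (mx_nonneg _ _ _ _)⟩
  rw [h]
  unfold mx
  rw [max_le_iff, max_le_iff, max_le_iff, e, e, e, e, and_assoc]

private theorem mn_lip (k a b c d a' b' c' d' s : ℝ) (ha : |a - a'| ≤ s) (hb : |b - b'| ≤ s)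
    (hc : |c - c'| ≤ s) (hd : |d - d'| ≤ s) : |mn k a b c d - mn k a' b' c' d'| ≤ s :=
  lmin (lmin (labs ha) (labs hb)) (lmin (labs hc) (labs hd))

private theorem mx_lip (a b c d a' b' c' d' s : ℝ) (ha : |a - a'| ≤ s) (hb : |b - b'| ≤ s)
    (hc : |c - c'| ≤ s) (hd : |d - d'| ≤ s) : |mx a b c d - mx a' b' c' d'| ≤ s :=
  lmax (lmax (labs ha) (labs hb)) (lmax (labs hc) (labs hd))

/-- a `1`-Lipschitz function which vanishes exactly on the trichotomy set (e.g. `Metric.infDist` in `Fin 4 → ℝ`) -/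
theorem exists_dT : ∃ θ : ℝ → ℝ → ℝ → ℝ → ℝ, (∀ a b c d, 0 ≤ θ a b c d) ∧
    (∀ a b c d, θ a b c d = 0 ↔ Tri a b c d) ∧
    (∀ a b c d a' b' c' d', |θ a b c d - θ a' b' c' d'| ≤ |a - a'| + |b - b'| + |c - c'| + |d - d'|) ∧
    Measurable (fun p : ℝ × ℝ × ℝ × ℝ => θ p.1 p.2.1 p.2.2.1 p.2.2.2) := by
  refine ⟨fun a b c d => min (mx a b c d) (max (mn 1 a b c d) (mn (-1) a b c d)), ?_, ?_, ?_, ?_⟩
  · intro a b c d
    exact le_min (mx_nonneg _ _ _ _) ((mn_nonneg 1 a b c d).trans (le_max_left _ _))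
  · intro a b c d
    have h0 : 0 ≤ mx a b c d := mx_nonneg _ _ _ _
    have h1 : 0 ≤ mn 1 a b c d := mn_nonneg _ _ _ _ _
    have h2 : 0 ≤ mn (-1) a b c d := mn_nonneg _ _ _ _ _
    unfold Tri
    rw [← mx_zero a b c d, ← mn_zero 1 a b c d, ← mn_zero (-1) a b c d]
    constructor
    · intro h
      have h' : min (mx a b c d) (max (mn 1 a b c d) (mn (-1) a b c d)) ≤ 0 := h.le
      rcases min_le_iff.1 h' with h3 | h3
      · exact Or.inl (le_antisymm h3 h0)
      · rw [max_le_iff] at h3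
        exact Or.inr ⟨le_antisymm h3.1 h1, le_antisymm h3.2 h2⟩
    · intro h
      refine le_antisymm ?_ (le_min h0 (h1.trans (le_max_left _ _)))
      rcases h with h | ⟨h, h'⟩
      · exact (min_le_left _ _).trans h.le
      · exact (min_le_right _ _).trans (max_le h.le h'.le)
  · intro a b c d a' b' c' d'
    have ka := abs_nonneg (a - a')
    have kb := abs_nonneg (b - b')
    have kc := abs_nonneg (c - c')
    have kd := abs_nonneg (d - d')
    have ha : |a - a'| ≤ |a - a'| + |b - b'| + |c - c'| + |d - d'| := by linarith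
    have hb : |b - b'| ≤ |a - a'| + |b - b'| + |c - c'| + |d - d'| := by linarith
    have hc : |c - c'| ≤ |a - a'| + |b - b'| + |c - c'| + |d - d'| := by linarith
    have hd : |d - d'| ≤ |a - a'| + |b - b'| + |c - c'| + |d - d'| := by linarith
    exact lmin (mx_lip _ _ _ _ _ _ _ _ _ ha hb hc hd)
      (lmax (mn_lip _ _ _ _ _ _ _ _ _ _ ha hb hc hd) (mn_lip _ _ _ _ _ _ _ _ _ _ ha hb hc hd))
  · apply Continuous.measurable
    unfold mx mn
    fun_prop

end Pool.Agent.LibSQ58
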