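import Pool.Agent.LibSQ58.TrF
import Pool.Agent.LibSQ58.TrB
import Pool.Agent.LibSQ58.DcE
import Pool.Agent.LibSQ58.DcF
set_option autoImplicit false
namespace Pool.Agent.LibSQ58
open MeasureTheory Filter Topology


variable {Ω : Type} [MeasurableSpace Ω]

private theorem RR.r_T_trg (X : RR Ω) (y x : E3) (ω : Ω) : X.r y (X.T x ω) = X.r (y + x) ω := by
  unfold RR.r
  rw [X.T_add]

private theorem RR.r_meas_trg (X : RR Ω) (y : E3) : Measurable (X.r y) :=
  X.alg_meas (X.alg_r y)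

private theorem RR.r_le_trg (X : RR Ω) (y : E3) (ω : Ω) : |X.r y ω| ≤ 1 := X.ρ1 _

private theorem RR.abs_int_trg (X : RR Ω) (y z : E3) :
    Integrable (fun ω => |X.r y ω - X.r z ω|) X.μ := by
  have := X.prob
  refine Integrable.of_bound
    (((X.r_meas_trg y).sub (X.r_meas_trg z)).norm).aestronglyMeasurable 2
    (Eventually.of_forall fun ω => ?_)
  rw [Real.norm_eq_abs, abs_abs]
  have h1 := abs_le.mp (X.r_le_trg y ω)
  have h2 := abs_le.mp (X.r_le_trg z ω)
  rw [abs_le]
  constructor <;> linarith [h1.1, h1.2, h2.1, h2.2]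

/-- TRICHOTOMY for all unit squares at `x` (`bad`, `generic_dense`, `exists_dT`, `r_cont`, translation by `x`) -/
theorem RR.tri_all (X : RR Ω) (x u v : E3) (h : ON u v) :
    ∀ᵐ ω ∂X.μ, Tri (X.r x ω) (X.r (x + u) ω) (X.r (x + v) ω) (X.r (x + u + v) ω) := by
  have hprob := X.prob
  obtain ⟨θ, θ0, θT, θL, θm⟩ := exists_dT
  obtain ⟨B₁, B₂, hB₁, hB₂, hB⟩ := X.bad
  have h00 : θ 0 0 0 0 = 0 := (θT 0 0 0 0).2 (Or.inl ⟨rfl, rfl, rfl, rfl⟩)
  have hm : ∀ a b c d : E3,
      Measurable (fun ω => θ (X.r a ω) (X.r b ω) (X.r c ω) (X.r d ω)) := by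
    intro a b c d
    exact θm.comp ((X.r_meas_trg a).prodMk ((X.r_meas_trg b).prodMk
      ((X.r_meas_trg c).prodMk (X.r_meas_trg d))))
  have hint : ∀ a b c d : E3,
      Integrable (fun ω => θ (X.r a ω) (X.r b ω) (X.r c ω) (X.r d ω)) X.μ := by
    intro a b c d
    refine Integrable.of_bound (hm a b c d).aestronglyMeasurable 4
      (Eventually.of_forall fun ω => ?_)
    have h1 := θL (X.r a ω) (X.r b ω) (X.r c ω) (X.r d ω) 0 0 0 0
    rw [h00] at h1
    simp only [sub_zero] at h1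
    rw [Real.norm_eq_abs]
    linarith [X.r_le_trg a ω, X.r_le_trg b ω, X.r_le_trg c ω, X.r_le_trg d ω]
  -- generic squares
  have hgen : ∀ u' v' : E3, ON u' v' → u' ∉ B₁ → v' ∉ B₂ u' →
      ∫ ω, θ (X.r x ω) (X.r (x + u') ω) (X.r (x + v') ω) (X.r (x + u' + v') ω) ∂X.μ = 0 := by
    intro u' v' hON h1 h2
    obtain ⟨hP2, hP3⟩ := hB u' v' h1 h2
    have h3 := X.tri_generic u' v' hON hP2 hP3
    have h4 : ∫ ω, θ (X.r 0 ω) (X.r u' ω) (X.r v' ω) (X.r (u' + v') ω) ∂X.μ = 0 := by
      rw [integral_congr_ae (g := fun _ => (0 : ℝ))]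
      · simp
      · filter_upwards [h3] with ω hω
        exact (θT _ _ _ _).2 hω
    have h5 := X.integral_T x (fun ω => θ (X.r 0 ω) (X.r u' ω) (X.r v' ω) (X.r (u' + v') ω))
      (hm 0 u' v' (u' + v'))
    rw [h4] at h5
    rw [← h5]
    refine integral_congr_ae (Eventually.of_forall fun ω => ?_)
    simp only [X.r_T_trg]
    rw [zero_add, add_comm u' x, add_comm v' x, add_comm (u' + v') x, ← add_assoc x u' v']
  -- the integral at the given square vanishes
  have hle : ∀ ε > 0,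
      ∫ ω, θ (X.r x ω) (X.r (x + u) ω) (X.r (x + v) ω) (X.r (x + u + v) ω) ∂X.μ ≤ 3 * ε := by
    intro ε hε
    obtain ⟨δ, hδ, hδr⟩ := X.r_cont ε hε
    obtain ⟨u', v', hON, hu, hv, hb1, hb2⟩ :=
      generic_dense B₁ B₂ hB₁ hB₂ u v h (δ / 2) (by positivity)
    have hzero := hgen u' v' hON hb1 hb2
    have e1 : dist (x + u) (x + u') < δ := by
      rw [dist_add_left, dist_comm]
      linarith
    have e2 : dist (x + v) (x + v') < δ := by
      rw [dist_add_left, dist_comm]
      linarith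
    have e3 : dist (x + u + v) (x + u' + v') < δ := by
      have h1 := dist_add_add_le (x + u) v (x + u') v'
      rw [dist_add_left, dist_comm u u', dist_comm v v'] at h1
      linarith
    have i1 := hδr _ _ e1
    have i2 := hδr _ _ e2
    have i3 := hδr _ _ e3
    have J1 : Integrable (fun ω => |X.r (x + v) ω - X.r (x + v') ω| +
        |X.r (x + u + v) ω - X.r (x + u' + v') ω|) X.μ :=
      (X.abs_int_trg _ _).add (X.abs_int_trg _ _)
    have J2 : Integrable (fun ω => |X.r (x + u) ω - X.r (x + u') ω| +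
        (|X.r (x + v) ω - X.r (x + v') ω| + |X.r (x + u + v) ω - X.r (x + u' + v') ω|)) X.μ :=
      (X.abs_int_trg _ _).add J1
    have J3 : Integrable (fun ω =>
        θ (X.r x ω) (X.r (x + u') ω) (X.r (x + v') ω) (X.r (x + u' + v') ω) +
        (|X.r (x + u) ω - X.r (x + u') ω| + (|X.r (x + v) ω - X.r (x + v') ω| +
          |X.r (x + u + v) ω - X.r (x + u' + v') ω|))) X.μ :=
      (hint _ _ _ _).add J2
    have hsum : ∫ ω, θ (X.r x ω) (X.r (x + u) ω) (X.r (x + v) ω) (X.r (x + u + v) ω) ∂X.μ ≤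
        ∫ ω, (θ (X.r x ω) (X.r (x + u') ω) (X.r (x + v') ω) (X.r (x + u' + v') ω) +
          (|X.r (x + u) ω - X.r (x + u') ω| + (|X.r (x + v) ω - X.r (x + v') ω| +
            |X.r (x + u + v) ω - X.r (x + u' + v') ω|))) ∂X.μ := by
      refine integral_mono (hint _ _ _ _) J3 fun ω => ?_
      have h1 := θL (X.r x ω) (X.r (x + u) ω) (X.r (x + v) ω) (X.r (x + u + v) ω)
        (X.r x ω) (X.r (x + u') ω) (X.r (x + v') ω) (X.r (x + u' + v') ω)
      rw [sub_self, abs_zero, zero_add] at h1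
      have h2 := (abs_le.mp h1).2
      simp only
      linarith
    have hs1 := integral_add (hint x (x + u') (x + v') (x + u' + v')) J2
    have hs2 := integral_add (X.abs_int_trg (x + u) (x + u')) J1
    have hs3 := integral_add (X.abs_int_trg (x + v) (x + v'))
      (X.abs_int_trg (x + u + v) (x + u' + v'))
    linarith
  have hz : ∫ ω, θ (X.r x ω) (X.r (x + u) ω) (X.r (x + v) ω) (X.r (x + u + v) ω) ∂X.μ = 0 := by
    refine le_antisymm ?_ (integral_nonneg fun ω => θ0 _ _ _ _)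
    refine le_of_forall_pos_le_add fun ε hε => ?_
    have := hle (ε / 3) (by positivity)
    linarith
  rw [integral_eq_zero_iff_of_nonneg (fun ω => θ0 _ _ _ _) (hint _ _ _ _)] at hz
  filter_upwards [hz] with ω hω
  exact (θT _ _ _ _).1 hω

end Pool.Agent.LibSQ58
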