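import Pool.Agent.LibSQ58.JtA
import Pool.Agent.LibSQ58.JtB
import Pool.Agent.LibSQ58.T3
import Pool.Agent.LibSQ58.TrG
set_option autoImplicit false
namespace Pool.Agent.LibSQ58
open MeasureTheory Filter Topology


variable {Ω : Type} [MeasurableSpace Ω]

private theorem measTri_jtc {α : Type} [MeasurableSpace α] {a b c d : α → ℝ} (ha : Measurable a)
    (hb : Measurable b) (hc : Measurable c) (hd : Measurable d) :
    MeasurableSet {p | Tri (a p) (b p) (c p) (d p)} := by
  have h : ∀ (f : α → ℝ), Measurable f → ∀ t : ℝ, MeasurableSet {p | f p = t} :=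
    fun f hf t => hf (measurableSet_singleton t)
  exact ((h a ha 0).inter ((h b hb 0).inter ((h c hc 0).inter (h d hd 0)))).union
    (((h a ha 1).union ((h b hb 1).union ((h c hc 1).union (h d hd 1)))).inter
      ((h a ha (-1)).union ((h b hb (-1)).union ((h c hc (-1)).union (h d hd (-1))))))

private theorem leg_of_tri_jtc (R : E3 → ℝ) (x y z w : E3) (h : Tri (R x) (R y) (R z) (R w)) :
    Leg {x | R x = 1} {x | R x = -1} x y z w := by
  rcases h with ⟨h1, h2, h3, h4⟩ | h
  · left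
    have key : ∀ t : E3, R t = 0 → t ∉ {x | R x = 1} ∪ {x | R x = -1} := by
      intro t ht hmem
      rcases hmem with hm | hm
      · rw [Set.mem_ofPred_eq, ht] at hm
        norm_num at hm
      · rw [Set.mem_ofPred_eq, ht] at hm
        norm_num at hm
    exact ⟨key x h1, key y h2, key z h3, key w h4⟩
  · right
    exact h

/-- almost every path: `three_sets` for `A = {x | R ω x = 1}`, `B = {x | R ω x = -1}`; Fubini; stationarity; then `tri_all` gives `ρ = 0` a.s. -/
theorem RR.rho_zero (X : RR Ω) : ∀ᵐ ω ∂X.μ, X.ρ ω = 0 := by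
  have hprob := X.prob
  obtain ⟨R, hRm, hR⟩ := X.exists_joint
  obtain ⟨D, hDc, hDd, hDON⟩ := exists_countable_ON
  have hRx : ∀ ω, Measurable (R ω) := fun ω => hRm.comp measurable_prodMk_left
  -- for each pair, a.e. path is in the trichotomy set at a.e. point
  have h1 : ∀ u v : E3, (u, v) ∈ D → ∀ᵐ ω ∂X.μ, ∀ᵐ x : E3,
      Tri (R ω x) (R ω (x + u)) (R ω (x + v)) (R ω (x + u + v)) := by
    intro u v huv
    rw [Measure.ae_ae_comm]
    · refine Eventually.of_forall fun x => ?_
      filter_upwards [X.tri_all x u v (hDON u v huv), hR x, hR (x + u), hR (x + v),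
        hR (x + u + v)] with ω h0 e1 e2 e3 e4
      rw [e1, e2, e3, e4]
      exact h0
    · refine measTri_jtc hRm ?_ ?_ ?_
      · exact hRm.comp (measurable_fst.prodMk (measurable_snd.add_const u))
      · exact hRm.comp (measurable_fst.prodMk (measurable_snd.add_const v))
      · exact hRm.comp (measurable_fst.prodMk ((measurable_snd.add_const u).add_const v))
  have h2 : ∀ᵐ ω ∂X.μ, ∀ q ∈ D, ∀ᵐ x : E3,
      Tri (R ω x) (R ω (x + q.1)) (R ω (x + q.2)) (R ω (x + q.1 + q.2)) := by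
    rw [ae_ball_iff hDc]
    intro q hq
    exact h1 q.1 q.2 hq
  have h3 : ∀ᵐ ω ∂X.μ, ∀ᵐ x : E3, R ω x ≠ 1 ∧ R ω x ≠ -1 := by
    filter_upwards [h2] with ω hω
    have h4 := three_sets {x | R ω x = 1} {x | R ω x = -1}
      ((hRx ω) (measurableSet_singleton 1)) ((hRx ω) (measurableSet_singleton (-1)))
      (by
        rw [Set.disjoint_left]
        intro x hx hx'
        rw [Set.mem_ofPred_eq] at hx hx'
        rw [hx] at hx'
        norm_num at hx') D hDd
      (by
        intro u v huv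
        filter_upwards [hω (u, v) huv] with x hx
        exact leg_of_tri_jtc (R ω) _ _ _ _ hx)
    rw [ae_iff]
    refine measure_mono_null (fun x hx => ?_) h4
    rw [Set.mem_ofPred_eq] at hx
    by_cases h5 : R ω x = 1
    · exact Or.inl h5
    · right
      by_contra h6
      exact hx ⟨h5, h6⟩
  have h4 : ∀ᵐ x : E3, ∀ᵐ ω ∂X.μ, R ω x ≠ 1 ∧ R ω x ≠ -1 := by
    rw [Measure.ae_ae_comm] at h3
    · exact h3
    · exact ((hRm (measurableSet_singleton 1)).compl).inter
        ((hRm (measurableSet_singleton (-1))).compl)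
  obtain ⟨x, hx⟩ := h4.exists
  have h5 : ∀ᵐ ω ∂X.μ, X.ρ (X.T x ω) ≠ 1 ∧ X.ρ (X.T x ω) ≠ -1 := by
    filter_upwards [hx, hR x] with ω h6 h7
    rw [h7] at h6
    exact h6
  have hms : MeasurableSet {ω | X.ρ ω ≠ 1 ∧ X.ρ ω ≠ -1} :=
    ((X.ρm (measurableSet_singleton 1)).compl).inter
        ((X.ρm (measurableSet_singleton (-1))).compl)
  have h6 : ∀ᵐ ω ∂X.μ, X.ρ ω ≠ 1 ∧ X.ρ ω ≠ -1 := by
    rw [← (X.mp x).map_eq]
    rw [ae_map_iff (X.mp x).measurable.aemeasurable hms]
    exact h5
  have h7 : ∀ y : E3, ∀ᵐ ω ∂X.μ, X.r y ω ≠ 1 ∧ X.r y ω ≠ -1 := by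
    intro y
    have h8 := h6
    rw [← (X.mp y).map_eq, ae_map_iff (X.mp y).measurable.aemeasurable hms] at h8
    exact h8
  -- an orthonormal pair
  have hON : ON (EuclideanSpace.single (0 : Fin 3) (1 : ℝ))
      (EuclideanSpace.single (1 : Fin 3) (1 : ℝ)) := by
    refine ⟨by simp, by simp, ?_⟩
    simp [EuclideanSpace.inner_single_left]
  filter_upwards [X.tri_all 0 _ _ hON, h7 0, h7 (0 + EuclideanSpace.single (0 : Fin 3) (1 : ℝ)),
    h7 (0 + EuclideanSpace.single (1 : Fin 3) (1 : ℝ)),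
    h7 (0 + EuclideanSpace.single (0 : Fin 3) (1 : ℝ) + EuclideanSpace.single (1 : Fin 3) (1 : ℝ))]
    with ω g0 g1 g2 g3 g4
  have g5 : X.r 0 ω = 0 := by
    rcases g0 with h | ⟨h, -⟩
    · exact h.1
    · exfalso
      rcases h with h | h | h | h
      · exact g1.1 h
      · exact g2.1 h
      · exact g3.1 h
      · exact g4.1 h
  unfold RR.r at g5
  rwa [X.T_zero] at g5

end Pool.Agent.LibSQ58
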