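import Pool.Agent.LibSQ58.RhA
set_option autoImplicit false
namespace Pool.Agent.LibSQ58
open MeasureTheory Filter Topology


variable {Ω : Type} [MeasurableSpace Ω]

theorem RF.rhb_int (X : RF Ω) {f : Ω → ℝ} (hf : Measurable f) {C : ℝ} (h : ∀ ω, |f ω| ≤ C) :
    Integrable f X.μ := by
  have := X.prob
  exact Integrable.of_bound hf.aestronglyMeasurable C
    (Filter.Eventually.of_forall (fun ω => by simpa [Real.norm_eq_abs] using h ω))

theorem RF.rhb_Tm (X : RF Ω) (a : E3) : Measurable (X.T a) := (X.mp a).measurable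

theorem RF.rhb_χ1 (X : RF Ω) (ω : Ω) : |X.χ ω| ≤ 1 := by
  rcases X.pm ω with h | h <;> rw [h] <;> norm_num

theorem RF.rhb_mul1 {a b : ℝ} (ha : |a| ≤ 1) (hb : |b| ≤ 1) : |a * b| ≤ 1 := by
  rw [abs_mul]
  exact mul_le_one₀ ha (abs_nonneg _) hb

/-- correlation of two translates -/
theorem RF.rhb_corr (X : RF Ω) (a b : E3) :
    ∫ ω, X.χ (X.T a ω) * X.χ (X.T b ω) ∂X.μ = X.A (b - a) + if b = a then X.κ else 0 := by
  have h1 := X.integral_T a (fun ω => X.χ ω * X.χ (X.T (b - a) ω))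
    (X.χm.mul (X.χm.comp (X.rhb_Tm _)))
  have h2 : ∀ ω, X.T (b - a) (X.T a ω) = X.T b ω := by
    intro ω
    rw [← X.T_add, sub_add_cancel]
  simp only [h2] at h1
  rw [h1, X.corr (b - a)]
  congr 1
  simp [sub_eq_zero]

/-- average over a finite set of translates -/
noncomputable def RF.av (X : RF Ω) (S : Finset E3) (ω : Ω) : ℝ :=
  (1 / (S.card : ℝ)) * ∑ a ∈ S, X.χ (X.T a ω)

theorem RF.av_meas (X : RF Ω) (S : Finset E3) : Measurable (X.av S) := by
  unfold RF.av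
  exact (Finset.measurable_sum S (fun a _ => X.χm.comp (X.rhb_Tm a))).const_mul _

theorem RF.av_le (X : RF Ω) (S : Finset E3) (ω : Ω) : |X.av S ω| ≤ 1 := by
  unfold RF.av
  rw [abs_mul]
  have h1 : |∑ a ∈ S, X.χ (X.T a ω)| ≤ S.card := by
    refine (Finset.abs_sum_le_sum_abs _ _).trans ?_
    refine (Finset.sum_le_sum (fun a _ => X.rhb_χ1 _)).trans ?_
    simp
  rcases Nat.eq_zero_or_pos S.card with h0 | h0
  · rw [h0]; simp
  · have hc : (0 : ℝ) < S.card := by exact_mod_cast h0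
    rw [abs_of_nonneg (by positivity)]
    rw [one_div, inv_mul_le_iff₀ hc, mul_one]
    exact h1

theorem RF.av_single (X : RF Ω) (ω : Ω) : X.av {0} ω = X.χ ω := by
  simp [RF.av, X.T_zero]

theorem rhb_count (S S' : Finset E3) (w : E3) :
    (∑ a ∈ S, ∑ b ∈ S', (if w + b = a then (1 : ℝ) else 0)) ≤ S.card ∧
    (∑ a ∈ S, ∑ b ∈ S', (if w + b = a then (1 : ℝ) else 0)) ≤ S'.card := by
  classical
  constructor
  · have : ∀ a ∈ S, (∑ b ∈ S', (if w + b = a then (1 : ℝ) else 0)) ≤ 1 := by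
      intro a _
      have : ∀ b, (w + b = a) ↔ (b = a - w) := by
        intro b
        constructor
        · intro h; rw [← h]; abel
        · intro h; rw [h]; abel
      simp only [this, Finset.sum_ite_eq']
      split_ifs <;> norm_num
    refine (Finset.sum_le_sum this).trans ?_
    simp
  · rw [Finset.sum_comm]
    have : ∀ b ∈ S', (∑ a ∈ S, (if w + b = a then (1 : ℝ) else 0)) ≤ 1 := by
      intro b _
      simp only [Finset.sum_ite_eq]
      split_ifs <;> norm_num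
    refine (Finset.sum_le_sum this).trans ?_
    simp

theorem rhb_alg (s s' η : ℝ) (hs : s ≠ 0) (hs' : s' ≠ 0) :
    1 / s * (1 / s') * (s * (s' * η)) = η ∧ 1 / s * (1 / s') * s' = 1 / s ∧
      1 / s * (1 / s') * s = 1 / s' := by
  refine ⟨?_, ?_, ?_⟩ <;> field_simp

/-- correlation of two averages -/
theorem RF.av_corr (X : RF Ω) (S S' : Finset E3) (hS : S.Nonempty) (hS' : S'.Nonempty) (w : E3)
    (η : ℝ) (hη : ∀ a ∈ S, ∀ b ∈ S', |X.A (w + b - a) - X.A w| ≤ η) :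
    |∫ ω, X.av S ω * X.av S' (X.T w ω) ∂X.μ - X.A w| ≤ η + |X.κ| * (1 / (S.card : ℝ)) ∧
    |∫ ω, X.av S ω * X.av S' (X.T w ω) ∂X.μ - X.A w| ≤ η + |X.κ| * (1 / (S'.card : ℝ)) := by
  classical
  have hc : (0 : ℝ) < S.card := by exact_mod_cast hS.card_pos
  have hc' : (0 : ℝ) < S'.card := by exact_mod_cast hS'.card_pos
  set P : ℝ := (1 / (S.card : ℝ)) * (1 / (S'.card : ℝ)) with hP
  have hP0 : 0 < P := by positivity
  have h1 : ∀ ω, X.av S ω * X.av S' (X.T w ω) =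
      P * ∑ a ∈ S, ∑ b ∈ S', X.χ (X.T a ω) * X.χ (X.T (w + b) ω) := by
    intro ω
    unfold RF.av
    rw [mul_mul_mul_comm, Finset.sum_mul_sum]
    congr 1
    refine Finset.sum_congr rfl (fun a _ => Finset.sum_congr rfl (fun b _ => ?_))
    rw [← X.T_add, add_comm b w]
  have hint : ∀ a b, Integrable (fun ω => X.χ (X.T a ω) * X.χ (X.T b ω)) X.μ := fun a b =>
    X.rhb_int ((X.χm.comp (X.rhb_Tm a)).mul (X.χm.comp (X.rhb_Tm b)))
      (fun ω => RF.rhb_mul1 (X.rhb_χ1 _) (X.rhb_χ1 _))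
  have h2 : ∫ ω, X.av S ω * X.av S' (X.T w ω) ∂X.μ =
      P * ∑ a ∈ S, ∑ b ∈ S', (X.A (w + b - a) + if w + b = a then X.κ else 0) := by
    simp only [h1]
    rw [integral_const_mul, integral_finsetSum _ (fun a _ => integrable_finsetSum _
      (fun b _ => hint a (w + b)))]
    congr 1
    refine Finset.sum_congr rfl (fun a _ => ?_)
    rw [integral_finsetSum _ (fun b _ => hint a (w + b))]
    exact Finset.sum_congr rfl (fun b _ => X.rhb_corr a (w + b))
  have h3 : X.A w = P * ∑ a ∈ S, ∑ b ∈ S', X.A w := by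
    simp only [Finset.sum_const, nsmul_eq_mul, hP]
    field_simp
  set N : ℝ := ∑ a ∈ S, ∑ b ∈ S', (if w + b = a then (1 : ℝ) else 0) with hN
  have hN0 : 0 ≤ N := Finset.sum_nonneg (fun a _ => Finset.sum_nonneg (fun b _ => by
    split_ifs <;> norm_num))
  have h4 : |∫ ω, X.av S ω * X.av S' (X.T w ω) ∂X.μ - X.A w| ≤ η + |X.κ| * (P * N) := by
    have e1 : ∫ ω, X.av S ω * X.av S' (X.T w ω) ∂X.μ - X.A w =
        P * (∑ a ∈ S, ∑ b ∈ S', (X.A (w + b - a) - X.A w)) + X.κ * (P * N) := by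
      rw [h2]
      conv_lhs => rw [h3]
      rw [hN, ← mul_sub, ← Finset.sum_sub_distrib]
      simp only [← Finset.sum_sub_distrib]
      have : X.κ * (P * ∑ a ∈ S, ∑ b ∈ S', (if w + b = a then (1 : ℝ) else 0)) =
          P * ∑ a ∈ S, ∑ b ∈ S', (if w + b = a then X.κ else 0) := by
        rw [mul_left_comm, Finset.mul_sum]
        congr 1
        refine Finset.sum_congr rfl (fun a _ => ?_)
        rw [Finset.mul_sum]
        refine Finset.sum_congr rfl (fun b _ => ?_)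
        split_ifs <;> simp
      rw [this, ← mul_add, ← Finset.sum_add_distrib]
      congr 1
      refine Finset.sum_congr rfl (fun a _ => ?_)
      rw [← Finset.sum_add_distrib]
      refine Finset.sum_congr rfl (fun b _ => ?_)
      ring
    rw [e1]
    refine (abs_add_le _ _).trans ?_
    refine add_le_add ?_ ?_
    · rw [abs_mul, abs_of_pos hP0]
      have : |∑ a ∈ S, ∑ b ∈ S', (X.A (w + b - a) - X.A w)| ≤ S.card * (S'.card * η) := by
        refine (Finset.abs_sum_le_sum_abs _ _).trans ?_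
        refine (Finset.sum_le_sum (fun a ha => (Finset.abs_sum_le_sum_abs _ _).trans
          (Finset.sum_le_sum (fun b hb => hη a ha b hb)))).trans ?_
        simp
      calc P * |∑ a ∈ S, ∑ b ∈ S', (X.A (w + b - a) - X.A w)|
          ≤ P * (S.card * (S'.card * η)) := mul_le_mul_of_nonneg_left this hP0.le
        _ = η := (rhb_alg _ _ _ hc.ne' hc'.ne').1
    · rw [abs_mul, abs_of_nonneg (mul_nonneg hP0.le hN0)]
  obtain ⟨c1, c2⟩ := rhb_count S S' w
  constructor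
  · refine h4.trans ?_
    have : P * N ≤ 1 / (S.card : ℝ) := by
      calc P * N ≤ P * S'.card := mul_le_mul_of_nonneg_left c2 hP0.le
        _ = 1 / (S.card : ℝ) := (rhb_alg _ _ η hc.ne' hc'.ne').2.1
    have := mul_le_mul_of_nonneg_left this (abs_nonneg X.κ)
    linarith
  · refine h4.trans ?_
    have : P * N ≤ 1 / (S'.card : ℝ) := by
      calc P * N ≤ P * S.card := mul_le_mul_of_nonneg_left c1 hP0.le
        _ = 1 / (S'.card : ℝ) := (rhb_alg _ _ η hc.ne' hc'.ne').2.2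
    have := mul_le_mul_of_nonneg_left this (abs_nonneg X.κ)
    linarith

theorem rhb_exists_S (n : ℕ) : ∃ S : Finset E3, S.card = n + 1 ∧ ∀ a ∈ S, ‖a‖ ≤ 1 / ((n : ℝ) + 1) := by
  have hinf : (Metric.closedBall (0 : E3) (1 / ((n : ℝ) + 1))).Infinite := by
    have hpos : (0 : ℝ) < 1 / ((n : ℝ) + 1) := by positivity
    have h1 : (Metric.ball (0 : E3) (1 / ((n : ℝ) + 1))).Infinite := by
      have : (Metric.ball (0 : E3) (1 / ((n : ℝ) + 1))) ∈ 𝓝 (0 : E3) := Metric.ball_mem_nhds _ hpos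
      exact infinite_of_mem_nhds _ this
    exact h1.mono Metric.ball_subset_closedBall
  obtain ⟨S, hS, hc⟩ := hinf.exists_subset_card_eq (n + 1)
  refine ⟨S, hc, fun a ha => ?_⟩
  have := hS ha
  simpa [Metric.mem_closedBall, dist_zero_right] using this

/-- truncation -/
theorem rhb_trunc (g f : ℝ) (hf : |f| ≤ 1) : |max (-1) (min 1 g) - f| ≤ |g - f| := by
  rw [abs_le] at hf
  rcases le_total g 1 with h | h
  · rw [min_eq_right h]
    rcases le_total (-1) g with h' | h'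
    · rw [max_eq_right h']
    · rw [max_eq_left h']
      rw [abs_of_nonpos (by linarith), abs_of_nonpos (by linarith)]
      linarith
  · rw [min_eq_left h, max_eq_right (by norm_num)]
    rw [abs_of_nonneg (by linarith), abs_of_nonneg (by linarith)]
    linarith

/-- THE REGULAR PART: `ρ` = `L²` limit of `(1/n) ∑_{i<n} χ ∘ T (t_{n,i})`, `t_{n,i}` distinct, `‖t_{n,i}‖ ≤ 1/n`. -/
theorem RF.exists_rho (X : RF Ω) : ∃ ρ : Ω → ℝ, Measurable ρ ∧ (∀ ω, |ρ ω| ≤ 1) ∧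
    Tendsto (fun w => ∫ ω, (ρ (X.T w ω) - ρ ω) ^ 2 ∂X.μ) (𝓝 0) (𝓝 0) ∧
    ∀ w, w ≠ 0 → ∫ ω, (X.χ ω - ρ ω) * (X.χ (X.T w ω) - ρ (X.T w ω)) ∂X.μ = 0 := by
  classical
  have := X.prob
  choose S hSc hSn using rhb_exists_S
  have hSne : ∀ n, (S n).Nonempty := fun n => by
    rw [← Finset.card_pos, hSc]; omega
  set f : ℕ → Ω → ℝ := fun n => X.av (S n) with hf
  have fm : ∀ n, Measurable (f n) := fun n => X.av_meas _
  have f1 : ∀ n ω, |f n ω| ≤ 1 := fun n ω => X.av_le _ _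
  have fi : ∀ n, Integrable (f n) X.μ := fun n => X.rhb_int (fm n) (f1 n)
  -- main estimates
  have inv_lt : ∀ ε > 0, ∃ N : ℕ, ∀ n ≥ N, 1 / ((n : ℝ) + 1) < ε := by
    intro ε hε
    obtain ⟨N, hN⟩ := exists_nat_gt (1 / ε)
    refine ⟨N, fun n hn => ?_⟩
    rw [div_lt_iff₀ (by positivity)]
    have h1 : (N : ℝ) ≤ n := by exact_mod_cast hn
    have h2 : 1 / ε < (n : ℝ) + 1 := by linarith
    rw [div_lt_iff₀ hε] at h2
    linarith
  have kap : ∀ ε > 0, ∃ N : ℕ, ∀ n ≥ N, |X.κ| * (1 / ((n : ℝ) + 1)) ≤ ε := by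
    intro ε hε
    obtain ⟨N, hN⟩ := inv_lt (ε / (|X.κ| + 1)) (by positivity)
    refine ⟨N, fun n hn => ?_⟩
    have h1 := hN n hn
    rw [lt_div_iff₀ (by positivity)] at h1
    have h2 : (0 : ℝ) ≤ 1 / ((n : ℝ) + 1) := by positivity
    nlinarith
  have M1 : ∀ w : E3, ∀ ε > 0, ∃ N : ℕ, ∀ n ≥ N, ∀ m ≥ N,
      |∫ ω, f n ω * f m (X.T w ω) ∂X.μ - X.A w| ≤ ε := by
    intro w ε hε
    obtain ⟨δ, hδ, hA⟩ := Metric.continuous_iff.mp X.A_cont w (ε / 2) (by positivity)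
    obtain ⟨N1, hN1⟩ := inv_lt (δ / 2) (by positivity)
    obtain ⟨N2, hN2⟩ := kap (ε / 2) (by positivity)
    refine ⟨max N1 N2, fun n hn m hm => ?_⟩
    have h := (X.av_corr (S n) (S m) (hSne n) (hSne m) w (ε / 2) (by
      intro a ha b hb
      have h1 := hSn n a ha
      have h2 := hSn m b hb
      have h3 := hN1 n (le_trans (le_max_left _ _) hn)
      have h4 := hN1 m (le_trans (le_max_left _ _) hm)
      have h5 : dist (w + b - a) w < δ := by
        rw [dist_eq_norm]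
        have : w + b - a - w = b - a := by abel
        rw [this]
        calc ‖b - a‖ ≤ ‖b‖ + ‖a‖ := norm_sub_le _ _
          _ < δ := by linarith
      have := hA _ h5
      rw [Real.dist_eq] at this
      exact this.le)).1
    rw [hSc n] at h
    push_cast at h
    have := hN2 n (le_trans (le_max_right _ _) hn)
    refine h.trans ?_
    linarith
  have M2 : ∀ w : E3, ∀ ε > 0, ∃ N : ℕ, ∀ m ≥ N,
      |∫ ω, X.χ ω * f m (X.T w ω) ∂X.μ - X.A w| ≤ ε := by
    intro w ε hε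
    obtain ⟨δ, hδ, hA⟩ := Metric.continuous_iff.mp X.A_cont w (ε / 2) (by positivity)
    obtain ⟨N1, hN1⟩ := inv_lt δ hδ
    obtain ⟨N2, hN2⟩ := kap (ε / 2) (by positivity)
    refine ⟨max N1 N2, fun m hm => ?_⟩
    have h := (X.av_corr {0} (S m) (Finset.singleton_nonempty _) (hSne m) w (ε / 2) (by
      intro a ha b hb
      rw [Finset.mem_singleton] at ha
      subst ha
      have h2 := hSn m b hb
      have h4 := hN1 m (le_trans (le_max_left _ _) hm)
      have h5 : dist (w + b - 0) w < δ := by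
        rw [dist_eq_norm]
        have : w + b - 0 - w = b := by abel
        rw [this]
        linarith
      have := hA _ h5
      rw [Real.dist_eq] at this
      exact this.le)).2
    simp only [X.av_single] at h
    rw [hSc m] at h
    push_cast at h
    have := hN2 m (le_trans (le_max_right _ _) hm)
    refine h.trans ?_
    linarith
  have M3 : ∀ w : E3, ∀ ε > 0, ∃ N : ℕ, ∀ n ≥ N,
      |∫ ω, f n ω * X.χ (X.T w ω) ∂X.μ - X.A w| ≤ ε := by
    intro w ε hε
    obtain ⟨δ, hδ, hA⟩ := Metric.continuous_iff.mp X.A_cont w (ε / 2) (by positivity)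
    obtain ⟨N1, hN1⟩ := inv_lt δ hδ
    obtain ⟨N2, hN2⟩ := kap (ε / 2) (by positivity)
    refine ⟨max N1 N2, fun n hn => ?_⟩
    have h := (X.av_corr (S n) {0} (hSne n) (Finset.singleton_nonempty _) w (ε / 2) (by
      intro a ha b hb
      rw [Finset.mem_singleton] at hb
      subst hb
      have h2 := hSn n a ha
      have h4 := hN1 n (le_trans (le_max_left _ _) hn)
      have h5 : dist (w + 0 - a) w < δ := by
        rw [dist_eq_norm]
        have : w + 0 - a - w = -a := by abel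
        rw [this, norm_neg]
        linarith
      have := hA _ h5
      rw [Real.dist_eq] at this
      exact this.le)).1
    simp only [X.av_single] at h
    rw [hSc n] at h
    push_cast at h
    have := hN2 n (le_trans (le_max_right _ _) hn)
    refine h.trans ?_
    linarith
  -- L² Cauchy
  have C2 : ∀ ε > 0, ∃ N : ℕ, ∀ n ≥ N, ∀ m ≥ N, ∫ ω, (f n ω - f m ω) ^ 2 ∂X.μ ≤ ε := by
    intro ε hε
    obtain ⟨N, hN⟩ := M1 0 (ε / 4) (by positivity)
    refine ⟨N, fun n hn m hm => ?_⟩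
    have e1 : ∀ ω, (f n ω - f m ω) ^ 2 = f n ω * f n ω - 2 * (f n ω * f m ω) + f m ω * f m ω := by
      intro ω; ring
    have i1 : ∀ k l, Integrable (fun ω => f k ω * f l ω) X.μ := fun k l =>
      X.rhb_int ((fm k).mul (fm l)) (fun ω => RF.rhb_mul1 (f1 _ _) (f1 _ _))
    have h1 := hN n hn n hn
    have h2 := hN n hn m hm
    have h3 := hN m hm m hm
    simp only [X.T_zero] at h1 h2 h3
    simp only [e1]
    rw [integral_add (show Integrable (fun ω => f n ω * f n ω - 2 * (f n ω * f m ω)) X.μ from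
      (i1 n n).sub ((i1 n m).const_mul 2)) (i1 m m),
      integral_sub (i1 n n) ((i1 n m).const_mul 2), integral_const_mul]
    rw [abs_le] at h1 h2 h3
    linarith [h1.1, h1.2, h2.1, h2.2, h3.1, h3.2]
  -- L¹ Cauchy
  have C1 : ∀ ε > 0, ∃ N : ℕ, ∀ n ≥ N, ∀ m ≥ N, ∫ ω, ‖f n ω - f m ω‖ ∂X.μ < ε := by
    intro ε hε
    obtain ⟨N, hN⟩ := C2 (ε ^ 2 / 4) (by positivity)
    refine ⟨N, fun n hn m hm => ?_⟩
    have h1 := hN n hn m hm
    have i1 : Integrable (fun ω => ‖f n ω - f m ω‖) X.μ := ((fi n).sub (fi m)).norm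
    have i2 : Integrable (fun ω => (f n ω - f m ω) ^ 2) X.μ :=
      X.rhb_int (((fm n).sub (fm m)).pow_const 2) (C := 4) (fun ω => by
        have a1 := abs_le.mp (f1 n ω)
        have a2 := abs_le.mp (f1 m ω)
        rw [abs_of_nonneg (sq_nonneg _)]
        nlinarith [a1.1, a1.2, a2.1, a2.2])
    have h2 : ∫ ω, ‖f n ω - f m ω‖ ∂X.μ ≤ ∫ ω, (ε / 4 + (1 / ε) * (f n ω - f m ω) ^ 2) ∂X.μ := by
      refine integral_mono i1 ((integrable_const _).add (i2.const_mul _)) (fun ω => ?_)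
      simp only [Real.norm_eq_abs]
      set x := |f n ω - f m ω| with hx
      have hx2 : (f n ω - f m ω) ^ 2 = x ^ 2 := by rw [hx, sq_abs]
      rw [hx2]
      have : 0 ≤ (1 / ε) * (x - ε / 2) ^ 2 := by positivity
      have e : (1 / ε) * (x - ε / 2) ^ 2 = ε / 4 + 1 / ε * x ^ 2 - x := by
        field_simp; ring
      linarith
    rw [integral_add (integrable_const _) (i2.const_mul _), integral_const_mul] at h2
    simp only [integral_const, probReal_univ, smul_eq_mul, one_mul] at h2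
    have h3 : 1 / ε * ∫ ω, (f n ω - f m ω) ^ 2 ∂X.μ ≤ 1 / ε * (ε ^ 2 / 4) :=
      mul_le_mul_of_nonneg_left h1 (by positivity)
    have h4 : 1 / ε * (ε ^ 2 / 4) = ε / 4 := by field_simp
    linarith
  -- limit in L¹
  have hcau : CauchySeq (fun n => (fi n).toL1 (f n)) := by
    rw [Metric.cauchySeq_iff]
    intro ε hε
    obtain ⟨N, hN⟩ := C1 ε hε
    refine ⟨N, fun n hn m hm => ?_⟩
    rw [dist_eq_norm, ← Integrable.toL1_sub, L1.norm_of_fun_eq_integral_norm]
    exact hN n hn m hm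
  obtain ⟨G, hG⟩ := cauchySeq_tendsto_of_complete hcau
  have hGi : Integrable (fun ω => G ω) X.μ := L1.integrable_coeFn G
  have hlim : ∀ ε > 0, ∃ N : ℕ, ∀ n ≥ N, ∫ ω, |G ω - f n ω| ∂X.μ < ε := by
    intro ε hε
    obtain ⟨N, hN⟩ := (Metric.tendsto_atTop.mp hG) ε hε
    refine ⟨N, fun n hn => ?_⟩
    have h1 := hN n hn
    rw [dist_comm, dist_eq_norm] at h1
    have h2 : G - (fi n).toL1 (f n) = (hGi.sub (fi n)).toL1 (fun ω => G ω - f n ω) := by
      have e := Integrable.toL1_sub (fun ω => G ω) (f n) hGi (fi n)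
      rw [Integrable.toL1_coeFn] at e
      exact e.symm
    rw [h2, L1.norm_of_fun_eq_integral_norm] at h1
    simpa [Real.norm_eq_abs] using h1
  set ρ : Ω → ℝ := fun ω => max (-1) (min 1 (G ω)) with hρ
  have Gm : Measurable (fun ω => G ω) := (Lp.stronglyMeasurable G).measurable
  have ρm : Measurable ρ := measurable_const.max (measurable_const.min Gm)
  have ρ1 : ∀ ω, |ρ ω| ≤ 1 := by
    intro ω
    rw [abs_le]
    exact ⟨le_max_left _ _, max_le (by norm_num) (min_le_left _ _)⟩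
  have hd : ∀ ε > 0, ∃ N : ℕ, ∀ n ≥ N, ∫ ω, |ρ ω - f n ω| ∂X.μ < ε := by
    intro ε hε
    obtain ⟨N, hN⟩ := hlim ε hε
    refine ⟨N, fun n hn => lt_of_le_of_lt ?_ (hN n hn)⟩
    refine integral_mono ?_ ?_ (fun ω => rhb_trunc _ _ (f1 n ω))
    · exact ((X.rhb_int ρm ρ1).sub (fi n)).abs
    · exact (hGi.sub (fi n)).abs
  -- transfer of products
  have tr : ∀ (u u' v v' : Ω → ℝ), Measurable u → Measurable u' → Measurable v → Measurable v' →
      (∀ ω, |u ω| ≤ 1) → (∀ ω, |u' ω| ≤ 1) → (∀ ω, |v ω| ≤ 1) → (∀ ω, |v' ω| ≤ 1) → ∀ w : E3,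
      |∫ ω, u ω * v (X.T w ω) ∂X.μ - ∫ ω, u' ω * v' (X.T w ω) ∂X.μ| ≤
        ∫ ω, |u ω - u' ω| ∂X.μ + ∫ ω, |v ω - v' ω| ∂X.μ := by
    intro u u' v v' um um' vm vm' u1 u1' v1 v1' w
    have iu : Integrable (fun ω => |u ω - u' ω|) X.μ :=
      ((X.rhb_int um u1).sub (X.rhb_int um' u1')).abs
    have hvw : Integrable (fun ω => |v (X.T w ω) - v' (X.T w ω)|) X.μ :=
      ((X.rhb_int (vm.comp (X.rhb_Tm w)) (fun ω => v1 _)).sub
        (X.rhb_int (vm'.comp (X.rhb_Tm w)) (fun ω => v1' _))).abs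
    have p1 : Integrable (fun ω => u ω * v (X.T w ω)) X.μ :=
      X.rhb_int (um.mul (vm.comp (X.rhb_Tm w))) (fun ω => RF.rhb_mul1 (u1 _) (v1 _))
    have p2 : Integrable (fun ω => u' ω * v' (X.T w ω)) X.μ :=
      X.rhb_int (um'.mul (vm'.comp (X.rhb_Tm w))) (fun ω => RF.rhb_mul1 (u1' _) (v1' _))
    rw [← X.integral_T w (fun ω => |v ω - v' ω|) (vm.sub vm').abs, ← integral_sub p1 p2,
      ← integral_add iu hvw]
    refine (abs_integral_le_integral_abs).trans ?_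
    refine integral_mono (p1.sub p2).abs (iu.add hvw) (fun ω => ?_)
    · have e : u ω * v (X.T w ω) - u' ω * v' (X.T w ω) =
          (u ω - u' ω) * v (X.T w ω) + u' ω * (v (X.T w ω) - v' (X.T w ω)) := by ring
      simp only []
      rw [e]
      refine (abs_add_le _ _).trans ?_
      rw [abs_mul, abs_mul]
      have := mul_le_mul_of_nonneg_left (v1 (X.T w ω)) (abs_nonneg (u ω - u' ω))
      have := mul_le_mul_of_nonneg_right (u1' ω) (abs_nonneg (v (X.T w ω) - v' (X.T w ω)))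
      linarith
  have χ1 := X.rhb_χ1
  have zero0 : ∀ u : Ω → ℝ, ∫ ω, |u ω - u ω| ∂X.μ = 0 := by intro u; simp
  have R1 : ∀ w, ∫ ω, ρ ω * ρ (X.T w ω) ∂X.μ = X.A w := by
    intro w
    refine eq_of_forall_dist_le (fun ε hε => ?_)
    obtain ⟨N1, h1⟩ := hd (ε / 4) (by positivity)
    obtain ⟨N2, h2⟩ := M1 w (ε / 2) (by positivity)
    set n := max N1 N2
    have a1 := h1 n (le_max_left _ _)
    have a2 := h2 n (le_max_right _ _) n (le_max_right _ _)
    have a3 := tr ρ (f n) ρ (f n) ρm (fm n) ρm (fm n) ρ1 (f1 n) ρ1 (f1 n) w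
    rw [Real.dist_eq]
    calc |∫ ω, ρ ω * ρ (X.T w ω) ∂X.μ - X.A w|
        ≤ |∫ ω, ρ ω * ρ (X.T w ω) ∂X.μ - ∫ ω, f n ω * f n (X.T w ω) ∂X.μ| +
          |∫ ω, f n ω * f n (X.T w ω) ∂X.μ - X.A w| := abs_sub_le _ _ _
      _ ≤ ε := by linarith
  have R2 : ∀ w, ∫ ω, X.χ ω * ρ (X.T w ω) ∂X.μ = X.A w := by
    intro w
    refine eq_of_forall_dist_le (fun ε hε => ?_)
    obtain ⟨N1, h1⟩ := hd (ε / 4) (by positivity)
    obtain ⟨N2, h2⟩ := M2 w (ε / 2) (by positivity)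
    set n := max N1 N2
    have a1 := h1 n (le_max_left _ _)
    have a2 := h2 n (le_max_right _ _)
    have a3 := tr X.χ X.χ ρ (f n) X.χm X.χm ρm (fm n) χ1 χ1 ρ1 (f1 n) w
    rw [zero0] at a3
    rw [Real.dist_eq]
    calc |∫ ω, X.χ ω * ρ (X.T w ω) ∂X.μ - X.A w|
        ≤ |∫ ω, X.χ ω * ρ (X.T w ω) ∂X.μ - ∫ ω, X.χ ω * f n (X.T w ω) ∂X.μ| +
          |∫ ω, X.χ ω * f n (X.T w ω) ∂X.μ - X.A w| := abs_sub_le _ _ _
      _ ≤ ε := by linarith
  have R3 : ∀ w, ∫ ω, ρ ω * X.χ (X.T w ω) ∂X.μ = X.A w := by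
    intro w
    refine eq_of_forall_dist_le (fun ε hε => ?_)
    obtain ⟨N1, h1⟩ := hd (ε / 4) (by positivity)
    obtain ⟨N2, h2⟩ := M3 w (ε / 2) (by positivity)
    set n := max N1 N2
    have a1 := h1 n (le_max_left _ _)
    have a2 := h2 n (le_max_right _ _)
    have a3 := tr ρ (f n) X.χ X.χ ρm (fm n) X.χm X.χm ρ1 (f1 n) χ1 χ1 w
    rw [zero0] at a3
    rw [Real.dist_eq]
    calc |∫ ω, ρ ω * X.χ (X.T w ω) ∂X.μ - X.A w|
        ≤ |∫ ω, ρ ω * X.χ (X.T w ω) ∂X.μ - ∫ ω, f n ω * X.χ (X.T w ω) ∂X.μ| +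
          |∫ ω, f n ω * X.χ (X.T w ω) ∂X.μ - X.A w| := abs_sub_le _ _ _
      _ ≤ ε := by linarith
  have ip : ∀ (u v : Ω → ℝ), Measurable u → Measurable v → (∀ ω, |u ω| ≤ 1) → (∀ ω, |v ω| ≤ 1) →
      Integrable (fun ω => u ω * v ω) X.μ := fun u v um vm u1 v1 =>
    X.rhb_int (um.mul vm) (fun ω => RF.rhb_mul1 (u1 _) (v1 _))
  refine ⟨ρ, ρm, ρ1, ?_, ?_⟩
  · have e : ∀ w, ∫ ω, (ρ (X.T w ω) - ρ ω) ^ 2 ∂X.μ = 2 * X.A 0 - 2 * X.A w := by
      intro w
      have e1 : ∀ ω, (ρ (X.T w ω) - ρ ω) ^ 2 =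
          ρ (X.T w ω) * ρ (X.T w ω) - 2 * (ρ ω * ρ (X.T w ω)) + ρ ω * ρ ω := by intro ω; ring
      have hw := ρm.comp (X.rhb_Tm w)
      have i1 := ip _ _ hw hw (fun ω => ρ1 _) (fun ω => ρ1 _)
      have i2 := ip _ _ ρm hw ρ1 (fun ω => ρ1 _)
      have i3 := ip _ _ ρm ρm ρ1 ρ1
      simp only [e1]
      simp only [Function.comp_apply] at i1 i2
      rw [integral_add (show Integrable (fun ω => ρ (X.T w ω) * ρ (X.T w ω) -
        2 * (ρ ω * ρ (X.T w ω))) X.μ from i1.sub (i2.const_mul 2)) i3, integral_sub i1 (i2.const_mul 2),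
        integral_const_mul, R1 w]
      have h0 : ∫ ω, ρ ω * ρ ω ∂X.μ = X.A 0 := by
        have := R1 0
        simpa only [X.T_zero] using this
      have h1 : ∫ ω, ρ (X.T w ω) * ρ (X.T w ω) ∂X.μ = X.A 0 := by
        rw [X.integral_T w (fun ω => ρ ω * ρ ω) (ρm.mul ρm), h0]
      rw [h0, h1]; ring
    simp only [e]
    have hc : Continuous (fun w => 2 * X.A 0 - 2 * X.A w) :=
      continuous_const.sub (continuous_const.mul X.A_cont)
    have := hc.tendsto 0
    simpa using this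
  · intro w hw
    have e1 : ∀ ω, (X.χ ω - ρ ω) * (X.χ (X.T w ω) - ρ (X.T w ω)) =
        X.χ ω * X.χ (X.T w ω) - X.χ ω * ρ (X.T w ω) - ρ ω * X.χ (X.T w ω) +
          ρ ω * ρ (X.T w ω) := by intro ω; ring
    have hw1 := ρm.comp (X.rhb_Tm w)
    have hw2 := X.χm.comp (X.rhb_Tm w)
    have i1 := ip _ _ X.χm hw2 χ1 (fun ω => χ1 _)
    have i2 := ip _ _ X.χm hw1 χ1 (fun ω => ρ1 _)
    have i3 := ip _ _ ρm hw2 ρ1 (fun ω => χ1 _)
    have i4 := ip _ _ ρm hw1 ρ1 (fun ω => ρ1 _)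
    simp only [Function.comp_apply] at i1 i2 i3 i4
    simp only [e1]
    rw [integral_add (show Integrable (fun ω => X.χ ω * X.χ (X.T w ω) - X.χ ω * ρ (X.T w ω) -
      ρ ω * X.χ (X.T w ω)) X.μ from (i1.sub i2).sub i3) i4,
      integral_sub (show Integrable (fun ω => X.χ ω * X.χ (X.T w ω) - X.χ ω * ρ (X.T w ω)) X.μ from
        i1.sub i2) i3, integral_sub i1 i2,
      X.corr w, R1, R2, R3, if_neg hw]
    ring

end Pool.Agent.LibSQ58
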