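import Pool.Agent.LibSQ58.MeanApi
set_option autoImplicit false
namespace Pool.Agent.LibSQ58
open MeasureTheory Filter Topology


/-- translations preserve the measure (π-system of the cylinders) -/
theorem mp_shift (μ : Measure (E3 → Bool)) [IsProbabilityMeasure μ] (a : E3)
    (h : ∀ (n : ℕ) (x : Fin n → E3) (F : (Fin n → Bool) → ℝ),
      ∫ c, F (fun i => c (x i + a)) ∂μ = ∫ c, F (fun i => c (x i)) ∂μ) :
    MeasurePreserving (fun (c : E3 → Bool) (x : E3) => c (x + a)) μ μ := by
  classical
  have hm : Measurable (fun (c : E3 → Bool) (x : E3) => c (x + a)) :=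
    measurable_pi_iff.2 fun x => measurable_pi_apply (x + a)
  refine ⟨hm, ?_⟩
  have : IsProbabilityMeasure (μ.map (fun (c : E3 → Bool) (x : E3) => c (x + a))) :=
    Measure.isProbabilityMeasure_map hm.aemeasurable
  refine ext_of_generate_finite (measurableCylinders (fun _ : E3 => Bool))
    generateFrom_measurableCylinders.symm isPiSystem_measurableCylinders ?_ (by simp)
  intro t ht
  have htm : MeasurableSet t := MeasurableSet.of_mem_measurableCylinders ht
  rw [Measure.map_apply hm htm]
  obtain ⟨I, S, -, rfl⟩ := (mem_measurableCylinders t).1 ht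
  have key := h I.card (fun j => (I.equivFin.symm j : E3))
    (fun f => if (fun i : I => f (I.equivFin i)) ∈ S then 1 else 0)
  have e1 : ∀ c : E3 → Bool, (if (fun i : I => (fun j => c ((I.equivFin.symm j : E3) + a))
      (I.equivFin i)) ∈ S then (1 : ℝ) else 0) =
      ((fun (c : E3 → Bool) (x : E3) => c (x + a)) ⁻¹' cylinder I S).indicator (fun _ => (1 : ℝ)) c := by
    intro c
    rw [Set.indicator_apply]
    simp only [Equiv.symm_apply_apply, Set.mem_preimage, mem_cylinder]
    rfl
  have e2 : ∀ c : E3 → Bool, (if (fun i : I => (fun j => c ((I.equivFin.symm j : E3)))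
      (I.equivFin i)) ∈ S then (1 : ℝ) else 0) =
      (cylinder I S).indicator (fun _ => (1 : ℝ)) c := by
    intro c
    rw [Set.indicator_apply]
    simp only [Equiv.symm_apply_apply, mem_cylinder]
    rfl
  simp only [e1, e2] at key
  rw [integral_indicator (hm htm), integral_indicator htm] at key
  simp only [integral_const, smul_eq_mul, mul_one, Measure.real, Measure.restrict_apply_univ] at key
  exact (ENNReal.toReal_eq_toReal_iff' (measure_ne_top _ _) (measure_ne_top _ _)).1 key

end Pool.Agent.LibSQ58
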