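import Pool.Agent.LibSQ58.RzA
import Pool.Agent.LibSQ58.RzB
set_option autoImplicit false
namespace Pool.Agent.LibSQ58
open MeasureTheory Filter Topology

theorem sg_inj_rz {a b : Bool} (h : sg a = sg b) : a = b := by
  cases a <;> cases b <;> simp [sg] at h ⊢ <;> norm_num at h

theorem bdd_cyl {n : ℕ} (x : Fin n → E3) (F : (Fin n → Bool) → ℝ) :
    Bdd (fun c : E3 → Bool => F (fun i => c (x i))) := by
  classical
  refine ⟨∑ b : Fin n → Bool, |F b|, fun c => ?_⟩
  exact Finset.single_le_sum (f := fun b => |F b|) (fun b _ => abs_nonneg _)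
    (Finset.mem_univ (fun i => c (x i)))

theorem measurable_cyl {n : ℕ} (x : Fin n → E3) (F : (Fin n → Bool) → ℝ) :
    Measurable (fun c : E3 → Bool => F (fun i => c (x i))) := by
  have h1 : Measurable F := measurable_of_countable F
  have h2 : Measurable (fun (c : E3 → Bool) (i : Fin n) => c (x i)) :=
    measurable_pi_lambda _ (fun i => measurable_pi_apply _)
  exact h1.comp h2

/-- the random field -/
theorem exists_rf (E : Mean (E3 → Bool)) (hE : StM E) (A : E3 → ℝ) (κ : ℝ) (hpd : PD A)
    (hA : Tendsto A (𝓝 0) (𝓝 (A 0))) (hc : ∀ w, corr E w = A w + if w = 0 then κ else 0) :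
    Nonempty (RF (E3 → Bool)) := by
  obtain ⟨μ, hμ, hint⟩ := exists_measure E
  refine ⟨{
    μ := μ
    prob := hμ
    T := fun a c x => c (x + a)
    mp := ?_
    T_add := ?_
    T_zero := ?_
    χ := fun c => sg (c 0)
    χm := ?_
    pm := ?_
    sq := ?_
    A := A
    Apd := hpd
    Acont := hA
    κ := κ
    corr := ?_ }⟩
  · intro a
    refine mp_shift μ a ?_
    intro n x F
    rw [hint n (fun i => x i + a) F, hint n x F]
    exact hE.stat a (fun c => F (fun i => c (x i))) (bdd_cyl x F)
  · intro a b ω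
    funext x
    show ω (x + (a + b)) = ω (x + a + b)
    rw [add_assoc]
  · intro ω
    funext x
    show ω (x + 0) = ω x
    rw [add_zero]
  · exact (measurable_of_countable sg).comp (measurable_pi_apply 0)
  · intro ω
    show sg (ω 0) = 1 ∨ sg (ω 0) = -1
    cases ω 0 <;> simp [sg]
  · intro u v huv
    classical
    set F : (Fin 4 → Bool) → ℝ :=
      fun b => if (b 1 = b 0 ∧ b 2 = b 0 ∧ b 3 = b 0) then 1 else 0 with hF
    set x : Fin 4 → E3 := ![0, u, v, u + v] with hx
    have h1 : ∫ c, F (fun i => c (x i)) ∂μ = 0 := by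
      rw [hint 4 x F, ← hE.sq 0 u v huv]
      congr 1
      funext c
      simp [hF, hx]
    have hnn : 0 ≤ᵐ[μ] fun c : E3 → Bool => F (fun i => c (x i)) := by
      refine Filter.Eventually.of_forall (fun c => ?_)
      show 0 ≤ F (fun i => c (x i))
      simp only [hF]
      split_ifs <;> norm_num
    have hi : Integrable (fun c : E3 → Bool => F (fun i => c (x i))) μ := by
      obtain ⟨C, hC⟩ := bdd_cyl x F
      exact Integrable.of_bound (measurable_cyl x F).aestronglyMeasurable C
        (Filter.Eventually.of_forall (fun c => by simpa using hC c))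
    have h2 := (integral_eq_zero_iff_of_nonneg_ae hnn hi).1 h1
    filter_upwards [h2] with c hc2
    rintro ⟨a1, a2, a3⟩
    have b1 := sg_inj_rz a1
    have b2 := sg_inj_rz a2
    have b3 := sg_inj_rz a3
    rw [zero_add] at b1 b2 b3
    have hval : F (fun i => c (x i)) = 1 := by
      simp only [hF]
      rw [if_pos]
      refine ⟨?_, ?_, ?_⟩
      · simpa [hx] using b1
      · simpa [hx] using b2
      · simpa [hx] using b3
    have h3 : F (fun i => c (x i)) = 0 := hc2
    rw [hval] at h3
    norm_num at h3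
  · intro w
    rw [← hc w]
    have h1 := hint 2 ![0, w] (fun b => sg (b 0) * sg (b 1))
    simp only [Matrix.cons_val_zero, Matrix.cons_val_one] at h1
    show ∫ ω : E3 → Bool, sg (ω 0) * sg (ω (0 + w)) ∂μ = _
    rw [zero_add, h1]
    rfl

end Pool.Agent.LibSQ58
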