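import Pool.Agent.LibSQ58.ThC
import Pool.Agent.LibSQ58.RzC
import Pool.Agent.LibSQ58.RhB
import Pool.Agent.LibSQ58.JtC
import Pool.Agent.LibSQ58.EnC
set_option autoImplicit false
namespace Pool.Agent.LibSQ58
open MeasureTheory Filter Topology

theorem not_proper (c : E3 → Bool) : ¬ Proper c := by
  intro h
  obtain ⟨E, hE, A, κ, hpd, hcont, _, hc⟩ := thmA c h
  obtain ⟨X⟩ := exists_rf E hE A κ hpd hcont hc
  obtain ⟨ρ, h1, h2, h3, h4⟩ := X.exists_rho
  exact RR.contra ⟨X, ρ, h1, h2, h3, h4⟩ (RR.rho_zero _)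

private theorem fin2_eq : ∀ a b : Fin 2, decide (a = 0) = decide (b = 0) → a = b := by
  decide

theorem main (f : E3 → Fin 2) :
    ∃ p q s : E3, ‖q - p‖ = 1 ∧ ‖s - p‖ = 1 ∧ inner ℝ (q - p) (s - p) = (0 : ℝ) ∧
        f q = f p ∧ f s = f p ∧ f (q + s - p) = f p := by
  have h := not_proper (fun x => decide (f x = 0))
  unfold Proper at h
  push Not at h
  obtain ⟨p, u, v, huv, h1, h2, h3⟩ := h
  have key : ∀ y, decide (f y = 0) = decide (f p = 0) → f y = f p := by
    intro y hy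
    exact fin2_eq _ _ hy
  refine ⟨p, p + u, p + v, ?_, ?_, ?_, key _ h1, key _ h2, ?_⟩
  · rw [add_sub_cancel_left]; exact huv.1
  · rw [add_sub_cancel_left]; exact huv.2.1
  · rw [add_sub_cancel_left, add_sub_cancel_left]; exact huv.2.2
  · have e : p + u + (p + v) - p = p + u + v := by abel
    rw [e]
    exact key _ h3

end Pool.Agent.LibSQ58
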