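import Pool.Agent.LibSQ58.Defs
set_option autoImplicit false
namespace Pool.Agent.LibSQ58
open MeasureTheory Filter Topology

/-! closure properties of `Bdd` and elementary properties of means -/

variable {α β : Type*}

theorem Bdd.add {f g : α → ℝ} (hf : Bdd f) (hg : Bdd g) : Bdd (fun x => f x + g x) := by
  obtain ⟨C, hC⟩ := hf
  obtain ⟨D, hD⟩ := hg
  exact ⟨C + D, fun x => (abs_add_le _ _).trans (add_le_add (hC x) (hD x))⟩

theorem Bdd.mul {f g : α → ℝ} (hf : Bdd f) (hg : Bdd g) : Bdd (fun x => f x * g x) := by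
  obtain ⟨C, hC⟩ := hf
  obtain ⟨D, hD⟩ := hg
  refine ⟨C * D, fun x => ?_⟩
  rw [abs_mul]
  exact mul_le_mul (hC x) (hD x) (abs_nonneg _) ((abs_nonneg _).trans (hC x))

theorem Bdd.const (c : ℝ) : Bdd (fun _ : α => c) := ⟨|c|, fun _ => le_refl _⟩

theorem Bdd.cmul {f : α → ℝ} (c : ℝ) (hf : Bdd f) : Bdd (fun x => c * f x) :=
  (Bdd.const c).mul hf

theorem Bdd.comp {f : α → ℝ} (hf : Bdd f) (g : β → α) : Bdd (fun x => f (g x)) := by
  obtain ⟨C, hC⟩ := hf
  exact ⟨C, fun x => hC (g x)⟩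

theorem Bdd.sum {ι : Type*} (s : Finset ι) {f : ι → α → ℝ} (hf : ∀ i ∈ s, Bdd (f i)) :
    Bdd (fun x => ∑ i ∈ s, f i x) := by
  classical
  induction s using Finset.induction_on with
  | empty => simpa using Bdd.const 0
  | insert a s ha ih =>
    have h1 := (hf a (Finset.mem_insert_self a s)).add
      (ih fun i hi => hf i (Finset.mem_insert_of_mem hi))
    simpa [Finset.sum_insert ha] using h1

theorem Mean.sum (M : Mean α) {ι : Type*} (s : Finset ι) {f : ι → α → ℝ}
    (hf : ∀ i ∈ s, Bdd (f i)) : M (fun x => ∑ i ∈ s, f i x) = ∑ i ∈ s, M (f i) := by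
  classical
  induction s using Finset.induction_on with
  | empty => simpa using M.const' 0
  | insert a s ha ih =>
    have h1 := hf a (Finset.mem_insert_self a s)
    have h2 : ∀ i ∈ s, Bdd (f i) := fun i hi => hf i (Finset.mem_insert_of_mem hi)
    have h3 := M.add' (f a) (fun x => ∑ i ∈ s, f i x) h1 (Bdd.sum s h2)
    simp only [Finset.sum_insert ha]
    rw [h3, ih h2]

theorem Mean.sub (M : Mean α) {f g : α → ℝ} (hf : Bdd f) (hg : Bdd g) :
    M (fun x => f x - g x) = M f - M g := by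
  have h1 := M.add' f (fun x => (-1) * g x) hf (hg.cmul (-1))
  have h2 := M.smul' (-1) g hg
  rw [h2] at h1
  have e : (fun x => f x - g x) = fun x => f x + (-1) * g x := by
    funext x
    ring
  rw [e, h1]
  ring

theorem Mean.nonneg (M : Mean α) {f : α → ℝ} (hf : Bdd f) (h : ∀ x, 0 ≤ f x) : 0 ≤ M f := by
  have h1 := M.mono' (fun _ => 0) f (Bdd.const 0) hf h
  rwa [M.const' 0] at h1

theorem Mean.abs_le (M : Mean α) {f : α → ℝ} {C : ℝ} (h : ∀ x, |f x| ≤ C) : |M f| ≤ C := by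
  have hf : Bdd f := ⟨C, h⟩
  rw [_root_.abs_le]
  constructor
  · have h1 := M.mono' (fun _ => -C) f (Bdd.const _) hf (fun x => (_root_.abs_le.1 (h x)).1)
    rwa [M.const' (-C)] at h1
  · have h1 := M.mono' f (fun _ => C) hf (Bdd.const _) (fun x => (_root_.abs_le.1 (h x)).2)
    rwa [M.const' C] at h1

/-- Cauchy-Schwarz against `1` -/
theorem Mean.sq_le (M : Mean α) {f : α → ℝ} (hf : Bdd f) : (M f) ^ 2 ≤ M (fun x => f x ^ 2) := by
  have hb : Bdd (fun x => f x ^ 2) := by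
    have := hf.mul hf
    simpa [sq] using this
  have h1 : 0 ≤ M (fun x => f x ^ 2 + (-(2 * M f)) * f x + (M f) ^ 2) := by
    refine M.nonneg ((hb.add (hf.cmul _)).add (Bdd.const _)) (fun x => ?_)
    nlinarith [sq_nonneg (f x - M f)]
  rw [M.add' _ _ (hb.add (hf.cmul _)) (Bdd.const _), M.add' _ _ hb (hf.cmul _), M.smul' _ _ hf,
    M.const'] at h1
  nlinarith

/-- a mean is bounded: difference of values -/
theorem Mean.abs_sub_le (M : Mean α) {f g : α → ℝ} (hf : Bdd f) (hg : Bdd g) {C : ℝ}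
    (h : ∀ x, |f x - g x| ≤ C) : |M f - M g| ≤ C := by
  rw [← M.sub hf hg]
  exact M.abs_le h

end Pool.Agent.LibSQ58
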