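import Pool.Agent.LibSQ58.MeanApi
set_option autoImplicit false
namespace Pool.Agent.LibSQ58
open MeasureTheory Filter Topology

/-- positivity for families of points (which may coincide) -/
private theorem PD.fam {Φ : E3 → ℝ} (h : PD Φ) {n : ℕ} (p : Fin n → E3) (a : Fin n → ℝ) :
    0 ≤ ∑ i, ∑ j, a i * a j * Φ (p i - p j) := by
  classical
  have key : ∀ g : E3 → ℝ, ∑ x ∈ Finset.univ.image p,
      (∑ i ∈ Finset.univ.filter (fun i => p i = x), a i) * g x = ∑ i, a i * g (p i) := by
    intro g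
    rw [← Finset.sum_fiberwise_of_maps_to (s := Finset.univ) (t := Finset.univ.image p)
      (g := p) (fun i hi => Finset.mem_image_of_mem p hi)]
    refine Finset.sum_congr rfl fun x _ => ?_
    rw [Finset.sum_mul]
    refine Finset.sum_congr rfl fun i hi => ?_
    rw [(Finset.mem_filter.1 hi).2]
  have h1 := h.2 (Finset.univ.image p)
    (fun x => ∑ i ∈ Finset.univ.filter (fun i => p i = x), a i)
  have h2 : (∑ x ∈ Finset.univ.image p, ∑ y ∈ Finset.univ.image p,
      (∑ i ∈ Finset.univ.filter (fun i => p i = x), a i) *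
      (∑ i ∈ Finset.univ.filter (fun i => p i = y), a i) * Φ (x - y)) =
      ∑ i, ∑ j, a i * a j * Φ (p i - p j) := by
    have h3 : ∀ x, (∑ y ∈ Finset.univ.image p,
      (∑ i ∈ Finset.univ.filter (fun i => p i = x), a i) *
      (∑ i ∈ Finset.univ.filter (fun i => p i = y), a i) * Φ (x - y)) =
      (∑ i ∈ Finset.univ.filter (fun i => p i = x), a i) * ∑ j, a j * Φ (x - p j) := by
      intro x
      rw [← key (fun y => Φ (x - y)), Finset.mul_sum]
      refine Finset.sum_congr rfl fun y _ => ?_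
      ring
    simp_rw [h3]
    rw [key (fun x => ∑ j, a j * Φ (x - p j))]
    refine Finset.sum_congr rfl fun i _ => ?_
    rw [Finset.mul_sum]
    refine Finset.sum_congr rfl fun j _ => ?_
    ring
  rw [h2] at h1
  exact h1

theorem PD.zero_nonneg {Φ : E3 → ℝ} (h : PD Φ) : 0 ≤ Φ 0 := by
  have h1 := h.fam (n := 1) (fun _ => 0) (fun _ => 1)
  simpa using h1

theorem PD.abs_le {Φ : E3 → ℝ} (h : PD Φ) (w : E3) : |Φ w| ≤ Φ 0 := by
  have h1 := h.fam (n := 2) ![0, w] ![1, 1]
  have h2 := h.fam (n := 2) ![0, w] ![1, -1]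
  simp only [Fin.sum_univ_two, Matrix.cons_val_zero, Matrix.cons_val_one, sub_self, zero_sub,
    sub_zero, h.1] at h1 h2
  rw [_root_.abs_le]
  constructor <;> linarith

/-- correlation functions of representations are positive definite -/
theorem pd_of_rep {H : Type*} [NormedAddCommGroup H] [InnerProductSpace ℝ H] (S : Rp E3 H)
    (ξ : H) : PD (fun w => inner ℝ ξ (S.τ w ξ)) := by
  have key : ∀ x y : E3, inner ℝ ξ (S.τ (x - y) ξ) = inner ℝ (S.τ y ξ) (S.τ x ξ) := by
    intro x y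
    have h1 : S.τ x ξ = S.τ y (S.τ (x - y) ξ) := by
      rw [← S.add', add_sub_cancel]
    rw [h1, LinearIsometry.inner_map_map]
  refine ⟨?_, ?_⟩
  · intro x
    have h1 := key 0 x
    have h2 := key x 0
    rw [zero_sub, S.zero'] at h1
    rw [sub_zero, S.zero'] at h2
    change inner ℝ ξ (S.τ (-x) ξ) = inner ℝ ξ (S.τ x ξ)
    rw [h1, real_inner_comm]
  · intro s c
    have h1 : (∑ x ∈ s, ∑ y ∈ s, c x * c y * (fun w => inner ℝ ξ (S.τ w ξ)) (x - y)) =
        inner ℝ (∑ x ∈ s, c x • S.τ x ξ) (∑ x ∈ s, c x • S.τ x ξ) := by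
      rw [sum_inner]
      refine Finset.sum_congr rfl fun x _ => ?_
      rw [inner_sum]
      refine Finset.sum_congr rfl fun y _ => ?_
      change c x * c y * inner ℝ ξ (S.τ (x - y) ξ) = _
      rw [key x y, real_inner_smul_left, real_inner_smul_right, real_inner_comm]
      ring
    rw [h1]
    exact real_inner_self_nonneg

/-- continuity in two complementary directions: from the `3 × 3` (or `4 x 4`) matrix:
`Φ 0 - Φ (x + y) ≤ 2 (Φ 0 - Φ x) + 2 (Φ 0 - Φ y)`
(points `0, x, x + y`; `‖a + b‖² ≤ 2 ‖a‖² + 2 ‖b‖²`, i.e. coefficients `1, -2, 1`) -/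
theorem PD.add_le {Φ : E3 → ℝ} (h : PD Φ) (x y : E3) :
    Φ 0 - Φ (x + y) ≤ 2 * (Φ 0 - Φ x) + 2 * (Φ 0 - Φ y) := by
  have h1 := h.fam (n := 3) ![0, x, x + y] ![1, -2, 1]
  have e1 : x - (x + y) = -y := by abel
  have e2 : x + y - x = y := by abel
  simp only [Fin.sum_univ_three, Matrix.cons_val_zero, Matrix.cons_val_one, Matrix.cons_val_two,
    Matrix.head_cons, Matrix.tail_cons, sub_self, zero_sub, sub_zero, e1, e2,
    h.1] at h1
  linarith

end Pool.Agent.LibSQ58
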