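import Pool.Agent.LibSQ58.MeanApi
set_option autoImplicit false
namespace Pool.Agent.LibSQ58
open MeasureTheory Filter Topology

variable {V : Type*} [AddCommGroup V] {H : Type*} [NormedAddCommGroup H] [InnerProductSpace ℝ H]

theorem Rp.neg_cancel (S : Rp V H) (x : V) (h : H) : S.τ (-x) (S.τ x h) = h := by
  rw [← S.add', neg_add_cancel, S.zero']

theorem Rp.cancel_neg (S : Rp V H) (x : V) (h : H) : S.τ x (S.τ (-x) h) = h := by
  rw [← S.add', add_neg_cancel, S.zero']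

theorem Rp.inner_left (S : Rp V H) (x : V) (h k : H) :
    inner ℝ (S.τ x h) k = inner ℝ h (S.τ (-x) k) := by
  rw [← (S.τ x).inner_map_map h (S.τ (-x) k), S.cancel_neg]

theorem Rp.inner_two (S : Rp V H) (x y : V) (h k : H) :
    inner ℝ (S.τ x h) (S.τ y k) = inner ℝ h (S.τ (y - x) k) := by
  rw [S.inner_left, ← S.add', sub_eq_add_neg, add_comm (-x) y]

/-- `|⟨k, τ_x h⟩| ≤ ‖k‖ ‖h‖` -/
theorem Rp.abs_inner_le (S : Rp V H) (x : V) (h k : H) :
    |inner ℝ k (S.τ x h)| ≤ ‖k‖ * ‖h‖ := by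
  refine (abs_real_inner_le_norm k (S.τ x h)).trans ?_
  rw [(S.τ x).norm_map]

/-- restriction of a representation of `ℝ³` to the line through `e` -/
def Rp.line (S : Rp E3 H) (e : E3) : Rp ℝ H where
  τ t := S.τ (t • e)
  add' x y h := by rw [add_smul, S.add']
  zero' h := by rw [zero_smul, S.zero']

private theorem Rep_bdd {α : Type*} (φ : α → H) (C : ℝ) (hφ : ∀ t, ‖φ t‖ ≤ C) (k : H) :
    ∀ t, |inner ℝ k (φ t)| ≤ C * ‖k‖ := fun t =>
  (abs_real_inner_le_norm k (φ t)).trans (by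
    rw [mul_comm C]
    exact mul_le_mul_of_nonneg_left (hφ t) (norm_nonneg k))

/-- weak means in Hilbert space -/
theorem weak_mean {α : Type*} [CompleteSpace H] (M : Mean α) (φ : α → H) (C : ℝ)
    (hφ : ∀ t, ‖φ t‖ ≤ C) : ∃ v : H, ∀ k : H, inner ℝ k v = M (fun t => inner ℝ k (φ t)) := by
  have hb : ∀ k : H, Bdd (fun t => inner ℝ k (φ t)) := fun k => ⟨C * ‖k‖, Rep_bdd φ C hφ k⟩
  let L : H →ₗ[ℝ] ℝ :=
    { toFun := fun k => M (fun t => inner ℝ k (φ t))
      map_add' := by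
        intro k l
        have h1 : (fun t => inner ℝ (k + l) (φ t)) =
            fun t => inner ℝ k (φ t) + inner ℝ l (φ t) := by
          funext t
          rw [inner_add_left]
        rw [h1]
        exact M.add' _ _ (hb k) (hb l)
      map_smul' := by
        intro c k
        have h1 : (fun t => inner ℝ (c • k) (φ t)) = fun t => c * inner ℝ k (φ t) := by
          funext t
          rw [real_inner_smul_left]
        rw [h1]
        exact M.smul' c _ (hb k) }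
  let L' : H →L[ℝ] ℝ := L.mkContinuous C (fun k => by
    rw [Real.norm_eq_abs]
    exact M.abs_le (Rep_bdd φ C hφ k))
  refine ⟨(InnerProductSpace.toDual ℝ H).symm L', fun k => ?_⟩
  rw [real_inner_comm, InnerProductSpace.toDual_symm_apply]
  rfl

/-- Cauchy-Schwarz for weak means: `(M ⟨k, φ⟩)² ≤ ‖k‖² M ‖φ‖²` -/
theorem mean_inner_sq_le {α : Type*} (M : Mean α) (φ : α → H) (C : ℝ)
    (hφ : ∀ t, ‖φ t‖ ≤ C) (k : H) :
    (M (fun t => inner ℝ k (φ t))) ^ 2 ≤ ‖k‖ ^ 2 * M (fun t => ‖φ t‖ ^ 2) := by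
  have hb : Bdd (fun t => inner ℝ k (φ t)) := ⟨C * ‖k‖, Rep_bdd φ C hφ k⟩
  have hb2 : Bdd (fun t => ‖φ t‖ ^ 2) := by
    refine ⟨C ^ 2, fun t => ?_⟩
    rw [abs_of_nonneg (sq_nonneg _)]
    exact pow_le_pow_left₀ (norm_nonneg _) (hφ t) 2
  refine (M.sq_le hb).trans ?_
  rw [← M.smul' _ _ hb2]
  refine M.mono' _ _ ?_ (hb2.cmul _) fun t => ?_
  · have h1 := hb.mul hb
    have h2 : (fun t => inner ℝ k (φ t) ^ 2) = fun t => inner ℝ k (φ t) * inner ℝ k (φ t) := by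
      funext t
      rw [sq]
    rw [h2]
    exact h1
  · rw [← mul_pow]
    exact sq_le_sq.2 ((abs_real_inner_le_norm k (φ t)).trans (le_abs_self _))

/-- the norm of an average: `‖(1/n) ∑ φ_i‖² = (1/n²) ∑∑ ⟨φ_i, φ_j⟩` -/
theorem norm_avg_sq {n : ℕ} (φ : Fin n → H) :
    ‖(1 / (n : ℝ)) • ∑ i, φ i‖ ^ 2 = (1 / (n : ℝ) ^ 2) * ∑ i, ∑ j, inner ℝ (φ i) (φ j) := by
  rw [← real_inner_self_eq_norm_sq, real_inner_smul_left, real_inner_smul_right, ← mul_assoc,
    sum_inner]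
  congr 1
  · rw [← sq, div_pow, one_pow]
  · exact Finset.sum_congr rfl fun i _ => inner_sum _ _ _

end Pool.Agent.LibSQ58
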