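import Pool.Agent.LibSQ58.Defs
set_option autoImplicit false
namespace Pool.Agent.LibSQ58
open MeasureTheory Filter Topology


variable {Ω : Type} [MeasurableSpace Ω]

/-- integrals are invariant -/
theorem RF.integral_T (X : RF Ω) (a : E3) (f : Ω → ℝ) (hf : Measurable f) :
    ∫ ω, f (X.T a ω) ∂X.μ = ∫ ω, f ω ∂X.μ := by
  have h1 := integral_map (μ := X.μ) (φ := X.T a) (f := f) (X.mp a).measurable.aemeasurable
    hf.aestronglyMeasurable
  rw [(X.mp a).map_eq] at h1
  exact h1.symm

private theorem RhA_sum (x y : E3) (s : ℝ) (g : E3 → ℝ) :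
    ∑ a ∈ ({0, x, y} : Finset E3), (s * (if a = 0 then 1 else 0) + (if a = x then 1 else 0) -
      (if a = y then 1 else 0)) * g a = s * g 0 + g x - g y := by
  have h1 : ∀ a, (s * (if a = 0 then 1 else 0) + (if a = x then 1 else 0) -
      (if a = y then 1 else 0)) * g a = (if a = 0 then s * g a else 0) +
      (if a = x then g a else 0) - (if a = y then g a else 0) := by
    intro a
    split_ifs <;> ring
  rw [Finset.sum_congr rfl (fun a _ => h1 a), Finset.sum_sub_distrib, Finset.sum_add_distrib,
    Finset.sum_ite_eq', Finset.sum_ite_eq', Finset.sum_ite_eq']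
  simp

private theorem RhA_ineq (A : E3 → ℝ) (hA : PD A) (x y : E3) :
    (A x - A y) ^ 2 ≤ 2 * A 0 * (A 0 - A (x - y)) := by
  have h1 : ∀ s : ℝ, 0 ≤ A 0 * (s * s) + (2 * (A x - A y)) * s + 2 * (A 0 - A (x - y)) := by
    intro s
    have h2 := hA.2 {0, x, y} (fun a => s * (if a = 0 then 1 else 0) + (if a = x then 1 else 0) -
      (if a = y then 1 else 0))
    have h3 : ∀ a : E3, ∑ b ∈ ({0, x, y} : Finset E3),
        (s * (if a = 0 then 1 else 0) + (if a = x then 1 else 0) - (if a = y then 1 else 0)) *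
        (s * (if b = 0 then 1 else 0) + (if b = x then 1 else 0) - (if b = y then 1 else 0)) *
        A (a - b) =
        (s * (if a = 0 then 1 else 0) + (if a = x then 1 else 0) - (if a = y then 1 else 0)) *
          (s * A (a - 0) + A (a - x) - A (a - y)) := by
      intro a
      rw [← RhA_sum x y s (fun b => A (a - b)), Finset.mul_sum]
      exact Finset.sum_congr rfl (fun b _ => by ring)
    rw [Finset.sum_congr rfl (fun a _ => h3 a),
      RhA_sum x y s (fun a => s * A (a - 0) + A (a - x) - A (a - y))] at h2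
    have e1 : A (0 - x) = A x := by rw [zero_sub]; exact hA.1 x
    have e2 : A (0 - y) = A y := by rw [zero_sub]; exact hA.1 y
    have e3 : A (y - x) = A (x - y) := by rw [← neg_sub]; exact hA.1 (x - y)
    rw [e1, e2, e3, sub_zero, sub_zero, sub_zero, sub_self, sub_self] at h2
    linarith
  have h2 := discrim_le_zero h1
  unfold discrim at h2
  nlinarith

/-- continuity everywhere: `|A x - A y|² ≤ 2 A 0 (A 0 - A (x - y))` for positive definite `A` (from the `3 × 3` matrix of the points
`0, x, y` with coefficients `s, 1, -1`) -/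
theorem RF.A_cont (X : RF Ω) : Continuous X.A := by
  rw [continuous_iff_continuousAt]
  intro x
  have h1 : Tendsto (fun y => Real.sqrt (2 * X.A 0 * (X.A 0 - X.A (y - x)))) (𝓝 x) (𝓝 0) := by
    have h2 : Tendsto (fun y => y - x) (𝓝 x) (𝓝 0) := by
      have h3 : Tendsto (fun y : E3 => y - x) (𝓝 x) (𝓝 (x - x)) := tendsto_id.sub_const x
      rwa [sub_self] at h3
    have h4 := (((X.Acont.comp h2).const_sub (X.A 0)).const_mul (2 * X.A 0)).sqrt
    rw [sub_self, mul_zero, Real.sqrt_zero] at h4
    exact h4
  have h5 : Tendsto (fun y => X.A y - X.A x) (𝓝 x) (𝓝 0) := by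
    apply squeeze_zero_norm _ h1
    intro y
    rw [Real.norm_eq_abs]
    apply Real.abs_le_sqrt
    exact RhA_ineq X.A X.Apd y x
  have h6 := h5.add_const (X.A x)
  simpa [ContinuousAt] using h6

end Pool.Agent.LibSQ58
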