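import Pool.Agent.LibSQ58.Defs
set_option autoImplicit false
namespace Pool.Agent.LibSQ58
open MeasureTheory Filter Topology


variable {Ω : Type} [MeasurableSpace Ω]

/-- the data used from now on -/
structure RR (Ω : Type) [MeasurableSpace Ω] extends RF Ω where
  ρ : Ω → ℝ
  ρm : Measurable ρ
  ρ1 : ∀ ω, |ρ ω| ≤ 1
  ρc : Tendsto (fun w => ∫ ω, (ρ (T w ω) - ρ ω) ^ 2 ∂μ) (𝓝 0) (𝓝 0)
  orth : ∀ w, w ≠ 0 → ∫ ω, (χ ω - ρ ω) * (χ (T w ω) - ρ (T w ω)) ∂μ = 0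

/-- the wild part at the point `x` -/
noncomputable def RR.g (X : RR Ω) (x : E3) (ω : Ω) : ℝ := X.χ (X.T x ω) - X.ρ (X.T x ω)

/-- the regular part at the point `x` -/
noncomputable def RR.r (X : RR Ω) (x : E3) (ω : Ω) : ℝ := X.ρ (X.T x ω)

/-- product of regular parts -/
noncomputable def RR.R (X : RR Ω) (L : List E3) (ω : Ω) : ℝ := (L.map (fun x => X.r x ω)).prod

end Pool.Agent.LibSQ58
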