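import Pool.Agent.LibSQ58.MeanApi
set_option autoImplicit false
namespace Pool.Agent.LibSQ58
open MeasureTheory Filter Topology

/-- the compact space `E3 → Bool` with its Borel sets -/
def RzX : Type := E3 → Bool

instance : TopologicalSpace RzX := inferInstanceAs (TopologicalSpace (E3 → Bool))
instance : T2Space RzX := inferInstanceAs (T2Space (E3 → Bool))
instance : CompactSpace RzX := inferInstanceAs (CompactSpace (E3 → Bool))
instance : MeasurableSpace RzX := borel RzX
instance : BorelSpace RzX := ⟨rfl⟩

/-- the identity -/
def rzι : RzX → (E3 → Bool) := fun c => c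

theorem rzι_cont : Continuous rzι := continuous_id

theorem rzι_meas : Measurable rzι := by
  refine measurable_pi_lambda _ (fun x => ?_)
  have : Continuous (fun c : RzX => rzι c x) := (continuous_apply x).comp rzι_cont
  exact this.measurable

theorem rz_bdd (f : C(RzX, ℝ)) : Bdd (fun c : E3 → Bool => f c) := by
  obtain ⟨C, hC⟩ := (isCompact_range f.continuous).isBounded.exists_norm_le
  exact ⟨C, fun x => hC _ ⟨x, rfl⟩⟩

open CompactlySupported in
/-- the positive functional -/
noncomputable def rzΛ (E : Mean (E3 → Bool)) : C_c(RzX, ℝ) →ₚ[ℝ] ℝ where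
  toFun f := E (fun c => f c)
  map_add' f g := E.add' (fun c => f c) (fun c => g c) (rz_bdd f.toContinuousMap)
    (rz_bdd g.toContinuousMap)
  map_smul' r f := E.smul' r (fun c => f c) (rz_bdd f.toContinuousMap)
  monotone' f g h := E.mono' (fun c => f c) (fun c => g c) (rz_bdd f.toContinuousMap)
    (rz_bdd g.toContinuousMap) (fun c => h c)

open CompactlySupported in
theorem rz_int (E : Mean (E3 → Bool)) (f : C(RzX, ℝ)) :
    ∫ c, f c ∂(RealRMK.rieszMeasure (rzΛ E)) = E (fun c => f c) := by
  have := RealRMK.integral_rieszMeasure (rzΛ E)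
    (⟨f, HasCompactSupport.of_compactSpace _⟩ : C_c(RzX, ℝ))
  exact this

/-- Riesz-Markov on the compact space `E3 → Bool` (`RealRMK.rieszMeasure`).  `MeasurableSpace` is the product σ-algebra (the Borel measure
is mapped by the identity, which is measurable since the coordinates are continuous), or any other choice. -/
theorem exists_measure (E : Mean (E3 → Bool)) :
    ∃ μ : Measure (E3 → Bool), IsProbabilityMeasure μ ∧
      ∀ (n : ℕ) (x : Fin n → E3) (F : (Fin n → Bool) → ℝ),
        ∫ c, F (fun i => c (x i)) ∂μ = E (fun c => F (fun i => c (x i))) := by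
  set ν : Measure RzX := RealRMK.rieszMeasure (rzΛ E) with hν
  have hreg : ν.Regular := RealRMK.regular_rieszMeasure (rzΛ E)
  have hfin : IsFiniteMeasure ν := ⟨IsCompact.measure_lt_top isCompact_univ⟩
  have h1 : ν.real Set.univ = 1 := by
    have := rz_int E (ContinuousMap.const RzX (1 : ℝ))
    simp only [ContinuousMap.const_apply, integral_const, smul_eq_mul, mul_one] at this
    rw [← hν] at this
    rw [this]
    exact E.const' 1
  have hp : IsProbabilityMeasure ν := by
    constructor
    have h2 : (ν Set.univ).toReal = 1 := h1
    have h3 : ν Set.univ ≠ ⊤ := measure_ne_top _ _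
    rw [← ENNReal.ofReal_toReal h3, h2, ENNReal.ofReal_one]
  refine ⟨ν.map rzι, Measure.isProbabilityMeasure_map rzι_meas.aemeasurable, ?_⟩
  intro n x F
  have hm : Measurable (fun c : E3 → Bool => F (fun i => c (x i))) := by
    have h2 : Measurable (fun c : E3 → Bool => (fun i => c (x i))) :=
      measurable_pi_lambda _ (fun i => measurable_pi_apply (x i))
    exact (measurable_of_finite F).comp h2
  rw [integral_map rzι_meas.aemeasurable hm.aestronglyMeasurable]
  have hc : Continuous (fun c : RzX => F (fun i => rzι c (x i))) := by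
    have h2 : Continuous (fun c : RzX => (fun i => rzι c (x i))) :=
      continuous_pi (fun i => (continuous_apply (x i)).comp rzι_cont)
    exact (continuous_of_discreteTopology (f := F)).comp h2
  exact rz_int E ⟨_, hc⟩

end Pool.Agent.LibSQ58
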