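import Pool.Agent.LibSQ58.InvMean
set_option autoImplicit false
namespace Pool.Agent.LibSQ58
open MeasureTheory Filter Topology


/-- stationary mean from one proper colouring: `E F = M_a F (c₀ (· + a))`, `M` an invariant mean on `ℝ³` -/
theorem exists_stat (c₀ : E3 → Bool) (h : Proper c₀) : ∃ E : Mean (E3 → Bool), StM E := by
  obtain ⟨M, hM⟩ := exists_inv_mean E3
  have hb : ∀ F : (E3 → Bool) → ℝ, Bdd F → Bdd (fun a : E3 => F (fun x => c₀ (x + a))) :=
    fun F hF => hF.comp (fun a : E3 => fun x => c₀ (x + a))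
  refine ⟨⟨fun F => M (fun a => F (fun x => c₀ (x + a))), fun F G hF hG => ?_, fun c F hF => ?_,
    fun F G hF hG hFG => ?_, fun c => ?_⟩, ?_, ?_⟩
  · exact M.add' _ _ (hb F hF) (hb G hG)
  · exact M.smul' _ _ (hb F hF)
  · exact M.mono' _ _ (hb F hF) (hb G hG) (fun a => hFG _)
  · exact M.const' c
  · intro b F hF
    have h1 := hM (fun a => F (fun x => c₀ (x + a))) (hb F hF) b
    refine Eq.trans ?_ h1
    show M (fun a => F (fun x => c₀ (x + b + a))) = M (fun a => F (fun x => c₀ (x + (a + b))))
    congr 1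
    funext a
    congr 1
    funext x
    congr 1
    abel
  · intro p u v huv
    show M (fun a => if (c₀ (p + u + a) = c₀ (p + a) ∧ c₀ (p + v + a) = c₀ (p + a) ∧
      c₀ (p + u + v + a) = c₀ (p + a)) then 1 else 0) = 0
    have e : (fun a => if (c₀ (p + u + a) = c₀ (p + a) ∧ c₀ (p + v + a) = c₀ (p + a) ∧
      c₀ (p + u + v + a) = c₀ (p + a)) then (1 : ℝ) else 0) = fun _ => 0 := by
      funext a
      rw [if_neg]
      intro hh
      apply h (p + a) u v huv
      have e1 : p + a + u = p + u + a := by abel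
      have e2 : p + a + v = p + v + a := by abel
      have e3 : p + a + u + v = p + u + v + a := by abel
      rw [e1, e2, show p + u + a + v = p + u + v + a by abel]
      exact hh
    rw [e]
    exact M.const' 0

end Pool.Agent.LibSQ58
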