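import Pool.Agent.LibSQ58.MeanApi
set_option autoImplicit false
namespace Pool.Agent.LibSQ58
open MeasureTheory Filter Topology

private theorem Mean.congr_of_eq {α : Type*} (M : Mean α) {f g : α → ℝ} (h : ∀ x, f x = g x) :
    M f = M g := by
  have : f = g := funext h
  rw [this]

/-- average of a stationary mean over linear isometries `R θ` with `R (θ + φ) = R θ ∘ R φ`:
`E' F = M_θ E (c ↦ F (c ∘ R θ))` -/
theorem exists_avg (M : Mean ℝ) (hM : ∀ f, Bdd f → ∀ g : ℝ, M (fun x => f (x + g)) = M f)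
    (R : ℝ → E3 → E3) (hR : ∀ θ, ∃ L : E3 ≃ₗᵢ[ℝ] E3, ∀ w, L w = R θ w)
    (hadd : ∀ θ φ w, R (θ + φ) w = R θ (R φ w)) (E : Mean (E3 → Bool)) (hE : StM E) :
    ∃ E' : Mean (E3 → Bool), StM E' ∧ (∀ w, corr E' w = M (fun θ => corr E (R θ w))) ∧
      (∀ θ w, corr E' (R θ w) = corr E' w) := by
  have hbE : ∀ F : (E3 → Bool) → ℝ, Bdd F → ∀ θ : ℝ,
      Bdd (fun c : E3 → Bool => F (fun x => c (R θ x))) :=
    fun F hF θ => hF.comp (fun c : E3 → Bool => fun x => c (R θ x))
  have hbM : ∀ F : (E3 → Bool) → ℝ, Bdd F →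
      Bdd (fun θ : ℝ => E (fun c : E3 → Bool => F (fun x => c (R θ x)))) := by
    rintro F ⟨C, hC⟩
    exact ⟨C, fun θ => E.abs_le (fun c => hC _)⟩
  have hR0 : ∀ θ, R θ 0 = 0 := by
    intro θ
    obtain ⟨L, hL⟩ := hR θ
    rw [← hL, map_zero]
  have hRadd : ∀ θ x y, R θ (x + y) = R θ x + R θ y := by
    intro θ x y
    obtain ⟨L, hL⟩ := hR θ
    rw [← hL, ← hL, ← hL, map_add]
  let E' : Mean (E3 → Bool) :=
    ⟨fun F => M (fun θ => E (fun c => F (fun x => c (R θ x)))),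
      fun F G hF hG => by
        rw [← M.add' _ _ (hbM F hF) (hbM G hG)]
        exact Mean.congr_of_eq M (fun θ => E.add' _ _ (hbE F hF θ) (hbE G hG θ)),
      fun c F hF => by
        rw [← M.smul' _ _ (hbM F hF)]
        exact Mean.congr_of_eq M (fun θ => E.smul' _ _ (hbE F hF θ)),
      fun F G hF hG hFG => M.mono' _ _ (hbM F hF) (hbM G hG)
        (fun θ => E.mono' _ _ (hbE F hF θ) (hbE G hG θ) (fun c => hFG _)),
      fun c => (Mean.congr_of_eq M (fun θ => E.const' c)).trans (M.const' c)⟩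
  have hE' : ∀ F, E' F = M (fun θ => E (fun c => F (fun x => c (R θ x)))) := fun F => rfl
  have hcorr : ∀ w, corr E' w = M (fun θ => corr E (R θ w)) := by
    intro w
    unfold corr
    rw [hE']
    refine Mean.congr_of_eq M (fun θ => Mean.congr_of_eq E (fun c => ?_))
    show sg (c (R θ 0)) * sg (c (R θ w)) = sg (c 0) * sg (c (R θ w))
    rw [hR0]
  refine ⟨E', ⟨fun a F hF => ?_, fun p u v huv => ?_⟩, hcorr, fun φ w => ?_⟩
  · rw [hE', hE']
    refine Mean.congr_of_eq M (fun θ => ?_)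
    have h1 := hE.stat (R θ a) (fun c => F (fun x => c (R θ x))) (hbE F hF θ)
    rw [← h1]
    refine Mean.congr_of_eq E (fun c => ?_)
    simp only [hRadd]
  · rw [hE']
    refine Eq.trans (Mean.congr_of_eq M (fun θ => ?_)) (M.const' 0)
    obtain ⟨L, hL⟩ := hR θ
    have hON : ON (R θ u) (R θ v) := by
      obtain ⟨h1, h2, h3⟩ := huv
      rw [← hL, ← hL]
      refine ⟨by rw [L.norm_map, h1], by rw [L.norm_map, h2], by rw [L.inner_map_map, h3]⟩
    refine Eq.trans (Mean.congr_of_eq E (fun c => ?_)) (hE.sq (R θ p) (R θ u) (R θ v) hON)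
    simp only [hRadd]
  · rw [hcorr, hcorr]
    have hb : Bdd (fun θ => corr E (R θ w)) := by
      refine ⟨1, fun θ => E.abs_le (fun c => ?_)⟩
      cases c 0 <;> cases c (R θ w) <;> simp [sg]
    have h1 := hM (fun θ => corr E (R θ w)) hb φ
    rw [← h1]
    refine Mean.congr_of_eq M (fun θ => ?_)
    rw [hadd]

end Pool.Agent.LibSQ58
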