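import Pool.Agent.LibSQ58.ThA
import Pool.Agent.LibSQ58.ThB
import Pool.Agent.LibSQ58.AvD
set_option autoImplicit false
namespace Pool.Agent.LibSQ58
open MeasureTheory Filter Topology


/-- THEOREM A -/
theorem thmA (c₀ : E3 → Bool) (h : Proper c₀) : ∃ E : Mean (E3 → Bool), StM E ∧
    ∃ (A : E3 → ℝ) (κ : ℝ), PD A ∧ Tendsto A (𝓝 0) (𝓝 (A 0)) ∧ 0 ≤ κ ∧
      ∀ w, corr E w = A w + if w = 0 then κ else 0 := by
  obtain ⟨E0, hE0⟩ := exists_stat c₀ h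
  obtain ⟨M, hM⟩ := exists_inv_mean ℝ
  obtain ⟨E1, hE1, -, hrot1⟩ := exists_avg M hM rotZ exists_rotZ rotZ_add E0 hE0
  obtain ⟨E2, hE2, hc2, -⟩ := exists_avg M hM rotX exists_rotX rotX_add E1 hE1
  obtain ⟨E3', hE3, hc3, -⟩ := exists_avg M hM rotZ exists_rotZ rotZ_add E2 hE2
  obtain ⟨A, κ, hA, hAc, hκ, hAκ⟩ := three_avg M hM (corr E1) (pd_corr E1 hE1.stat) hrot1
  refine ⟨E3', hE3, A, κ, hA, hAc, hκ, fun w => ?_⟩
  rw [hc3, ← hAκ w]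
  congr 1
  funext θ
  exact hc2 _

end Pool.Agent.LibSQ58
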