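import Pool.Agent.LibSQ58.Defs
set_option autoImplicit false
namespace Pool.Agent.LibSQ58
open MeasureTheory Filter Topology

private theorem pair_le {p q c d : ℝ} (hp : 0 < p) (hq : 0 < q)
    (h : p * q * (1 + c) * (1 + d) ≤ p * q * (1 - c) * (1 - d)) : c + d ≤ 0 := by
  have hpq : 0 < p * q := mul_pos hp hq
  have h1 : (p * q) * (2 * (c + d)) ≤ 0 := by nlinarith
  by_contra hcon
  have h2 : 0 < (p * q) * (2 * (c + d)) := mul_pos hpq (by linarith)
  linarith

private theorem pair_ge {p q a b : ℝ} (hp : 0 < p) (hq : 0 < q)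
    (h : (1 - a) * (1 - b) * p * q ≤ (1 + a) * (1 + b) * p * q) : 0 ≤ a + b := by
  have hpq : 0 < p * q := mul_pos hp hq
  have h1 : 0 ≤ (p * q) * (2 * (a + b)) := by nlinarith
  by_contra hcon
  have h2 : 0 < (p * q) * (-(2 * (a + b))) := mul_pos hpq (by linarith)
  linarith

private theorem zero4 {x y z w : ℝ} (h : x * y * z * w = 0) : x = 0 ∨ y = 0 ∨ z = 0 ∨ w = 0 := by
  rcases mul_eq_zero.1 h with h | h
  · rcases mul_eq_zero.1 h with h | h
    · rcases mul_eq_zero.1 h with h | h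
      · exact Or.inl h
      · exact Or.inr (Or.inl h)
    · exact Or.inr (Or.inr (Or.inl h))
  · exact Or.inr (Or.inr (Or.inr h))

/-- the pointwise algebra of the trichotomy.  If some coordinate is `±1` then both products vanish, so there are a `+1` and a `-1`.  Otherwise
all `1 ± x > 0` and e.g. `h01` divided by `(1+a)(1+b)` gives `c + d ≤ 0`, and with `h0` divided by `(1-c)(1-d)` gives `a + b ≥ 0`; all pair
sums vanish. -/
theorem tri_of (a b c d : ℝ) (ha : |a| ≤ 1) (hb : |b| ≤ 1) (hc : |c| ≤ 1) (hd : |d| ≤ 1)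
    (h0 : (1 + a) * (1 + b) * (1 + c) * (1 + d) = (1 - a) * (1 - b) * (1 - c) * (1 - d))
    (h01 : (1 + a) * (1 + b) * (1 + c) * (1 + d) ≤ (1 + a) * (1 + b) * (1 - c) * (1 - d))
    (h02 : (1 + a) * (1 + b) * (1 + c) * (1 + d) ≤ (1 + a) * (1 - b) * (1 + c) * (1 - d))
    (h03 : (1 + a) * (1 + b) * (1 + c) * (1 + d) ≤ (1 + a) * (1 - b) * (1 - c) * (1 + d))
    (h12 : (1 + a) * (1 + b) * (1 + c) * (1 + d) ≤ (1 - a) * (1 + b) * (1 + c) * (1 - d))
    (h13 : (1 + a) * (1 + b) * (1 + c) * (1 + d) ≤ (1 - a) * (1 + b) * (1 - c) * (1 + d))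
    (h23 : (1 + a) * (1 + b) * (1 + c) * (1 + d) ≤ (1 - a) * (1 - b) * (1 + c) * (1 + d)) :
    Tri a b c d := by
  rw [abs_le] at ha hb hc hd
  by_cases hz : (1 + a) * (1 + b) * (1 + c) * (1 + d) = 0
  · right
    have hz' : (1 - a) * (1 - b) * (1 - c) * (1 - d) = 0 := by rw [← h0]; exact hz
    constructor
    · rcases zero4 hz' with h | h | h | h
      · exact Or.inl (by linarith)
      · exact Or.inr (Or.inl (by linarith))
      · exact Or.inr (Or.inr (Or.inl (by linarith)))
      · exact Or.inr (Or.inr (Or.inr (by linarith)))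
    · rcases zero4 hz with h | h | h | h
      · exact Or.inl (by linarith)
      · exact Or.inr (Or.inl (by linarith))
      · exact Or.inr (Or.inr (Or.inl (by linarith)))
      · exact Or.inr (Or.inr (Or.inr (by linarith)))
  · left
    have hz' : (1 - a) * (1 - b) * (1 - c) * (1 - d) ≠ 0 := by rw [← h0]; exact hz
    have a1 : 0 < 1 + a := lt_of_le_of_ne (by linarith) (fun h => hz (by rw [← h]; ring))
    have b1 : 0 < 1 + b := lt_of_le_of_ne (by linarith) (fun h => hz (by rw [← h]; ring))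
    have c1 : 0 < 1 + c := lt_of_le_of_ne (by linarith) (fun h => hz (by rw [← h]; ring))
    have d1 : 0 < 1 + d := lt_of_le_of_ne (by linarith) (fun h => hz (by rw [← h]; ring))
    have a2 : 0 < 1 - a := lt_of_le_of_ne (by linarith) (fun h => hz' (by rw [← h]; ring))
    have b2 : 0 < 1 - b := lt_of_le_of_ne (by linarith) (fun h => hz' (by rw [← h]; ring))
    have c2 : 0 < 1 - c := lt_of_le_of_ne (by linarith) (fun h => hz' (by rw [← h]; ring))
    have d2 : 0 < 1 - d := lt_of_le_of_ne (by linarith) (fun h => hz' (by rw [← h]; ring))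
    have s1 : c + d ≤ 0 := pair_le a1 b1 h01
    have s3 : b + c ≤ 0 := pair_le (p := 1 + a) (q := 1 + d) a1 d1 (by linarith)
    have s2 : b + d ≤ 0 := pair_le (p := 1 + a) (q := 1 + c) a1 c1 (by linarith)
    have s4 : a + d ≤ 0 := pair_le (p := 1 + b) (q := 1 + c) b1 c1 (by linarith)
    have s5 : a + c ≤ 0 := pair_le (p := 1 + b) (q := 1 + d) b1 d1 (by linarith)
    have s6 : a + b ≤ 0 := pair_le (p := 1 + c) (q := 1 + d) c1 d1 (by linarith)
    have t1 : 0 ≤ a + b := pair_ge (p := 1 - c) (q := 1 - d) c2 d2 (by linarith)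
    have t2 : 0 ≤ a + c := pair_ge (p := 1 - b) (q := 1 - d) b2 d2 (by linarith)
    have t3 : 0 ≤ a + d := pair_ge (p := 1 - b) (q := 1 - c) b2 c2 (by linarith)
    have t4 : 0 ≤ b + c := pair_ge (p := 1 - a) (q := 1 - d) a2 d2 (by linarith)
    refine ⟨by linarith, by linarith, by linarith, by linarith⟩

end Pool.Agent.LibSQ58
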