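import Pool.Agent.LibSQ58.Defs
set_option autoImplicit false
namespace Pool.Agent.LibSQ58
open MeasureTheory Filter Topology

private theorem sq_bound (s C ε q : ℝ) (hs : |s| ≤ C) (h1 : ε ≤ 1) (h0 : 0 < ε)
    (hq : |q - Real.sqrt (max (-s) 0)| < ε) :
    |q| ≤ C + 2 ∧ q ^ 2 * s ≤ -(max (-s) 0) ^ 2 + ε * (C * (2 * C + 3)) := by
  have hC : 0 ≤ C := (abs_nonneg s).trans hs
  have hm0 : 0 ≤ max (-s) 0 := le_max_right _ _
  have hmC : max (-s) 0 ≤ C := max_le (by have := neg_abs_le s; linarith) hC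
  set f := Real.sqrt (max (-s) 0) with hf
  have hf0 : 0 ≤ f := Real.sqrt_nonneg _
  have hff : f ^ 2 = max (-s) 0 := Real.sq_sqrt hm0
  have hf1 : f ≤ 1 + C := by
    by_contra hcon
    push Not at hcon
    have : (1 + C) * (1 + C) < f ^ 2 := by nlinarith
    rw [hff] at this
    nlinarith
  rw [abs_lt] at hq
  have hq2 : |q| ≤ C + 2 := by
    rw [abs_le]
    constructor <;> linarith
  refine ⟨hq2, ?_⟩
  have e1 : -(max (-s) 0) ^ 2 = f ^ 2 * s := by
    rw [hff]
    rcases le_total s 0 with h | h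
    · rw [max_eq_left (by linarith)]; ring
    · rw [max_eq_right (by linarith)]; ring
  rw [e1]
  have e2 : q ^ 2 * s - f ^ 2 * s = ((q - f) * (q + f)) * s := by ring
  have b1 : |q - f| ≤ ε := by rw [abs_le]; constructor <;> linarith
  have b2 : |q + f| ≤ 2 * C + 3 := by
    rw [abs_le]; constructor <;> linarith
  have b3 : |((q - f) * (q + f)) * s| ≤ ε * (2 * C + 3) * C := by
    rw [abs_mul, abs_mul]
    have : |q - f| * |q + f| ≤ ε * (2 * C + 3) :=
      mul_le_mul b1 b2 (abs_nonneg _) h0.le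
    exact mul_le_mul this hs (abs_nonneg _) (by positivity)
  have b4 := le_abs_self (((q - f) * (q + f)) * s)
  have : q ^ 2 * s - f ^ 2 * s ≤ ε * (2 * C + 3) * C := by rw [e2]; linarith
  linarith

/-- polynomial test functions: if `W` is bounded and measurable and `∫ (p(W))² W ≥ 0` for all real polynomials then `W ≥ 0` a.e.
(Weierstrass: approximate `s ↦ √(max (-s) 0)` uniformly on `[-C, C]`) -/
theorem nonneg_of_poly {Ω : Type} [MeasurableSpace Ω] (μ : Measure Ω) [IsProbabilityMeasure μ]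
    (W : Ω → ℝ) (hW : Measurable W) (C : ℝ) (hC : ∀ ω, |W ω| ≤ C)
    (h : ∀ p : Polynomial ℝ, 0 ≤ ∫ ω, (p.eval (W ω)) ^ 2 * W ω ∂μ) : ∀ᵐ ω ∂μ, 0 ≤ W ω := by
  have hne : Nonempty Ω := by
    by_contra hcon
    rw [not_nonempty_iff] at hcon
    have h1 : μ Set.univ = 1 := measure_univ
    rw [Set.univ_eq_empty_iff.2 hcon, measure_empty] at h1
    exact zero_ne_one h1
  have hC0 : 0 ≤ C := by
    obtain ⟨ω⟩ := hne
    exact (abs_nonneg _).trans (hC ω)
  have gint : Integrable (fun ω => (max (-W ω) 0) ^ 2) μ := by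
    refine Integrable.of_bound ?_ (C ^ 2) ?_
    · exact ((hW.neg.max measurable_const).pow_const 2).aestronglyMeasurable
    · refine Eventually.of_forall (fun ω => ?_)
      have h1 : max (-W ω) 0 ≤ C := max_le (by have := neg_abs_le (W ω); have := hC ω; linarith) hC0
      have h2 : 0 ≤ max (-W ω) 0 := le_max_right _ _
      rw [Real.norm_eq_abs, abs_of_nonneg (by positivity)]
      nlinarith
  have key : ∀ ε : ℝ, 0 < ε → ε ≤ 1 →
      ∫ ω, (max (-W ω) 0) ^ 2 ∂μ ≤ ε * (C * (2 * C + 3)) := by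
    intro ε h0 h1
    have hcont : ContinuousOn (fun s : ℝ => Real.sqrt (max (-s) 0)) (Set.Icc (-C) C) := by
      apply Continuous.continuousOn
      fun_prop
    obtain ⟨p, hp⟩ := exists_polynomial_near_of_continuousOn (-C) C _ hcont ε h0
    have hb : ∀ ω, |p.eval (W ω)| ≤ C + 2 ∧ (p.eval (W ω)) ^ 2 * W ω ≤
        -(max (-W ω) 0) ^ 2 + ε * (C * (2 * C + 3)) := by
      intro ω
      refine sq_bound (W ω) C ε _ (hC ω) h1 h0 (hp (W ω) ?_)
      have := abs_le.1 (hC ω)
      exact ⟨this.1, this.2⟩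
    have pint : Integrable (fun ω => (p.eval (W ω)) ^ 2 * W ω) μ := by
      refine Integrable.of_bound ?_ ((C + 2) ^ 2 * C) ?_
      · exact (((p.continuous.measurable.comp hW).pow_const 2).mul hW).aestronglyMeasurable
      · refine Eventually.of_forall (fun ω => ?_)
        rw [Real.norm_eq_abs, abs_mul, abs_pow]
        exact mul_le_mul (pow_le_pow_left₀ (abs_nonneg _) (hb ω).1 2) (hC ω) (abs_nonneg _)
          (by positivity)
    have hle : ∫ ω, (max (-W ω) 0) ^ 2 ∂μ ≤
        ∫ ω, (ε * (C * (2 * C + 3)) - (p.eval (W ω)) ^ 2 * W ω) ∂μ := by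
      refine integral_mono gint ((integrable_const _).sub pint) (fun ω => ?_)
      have := (hb ω).2
      show (max (-W ω) 0) ^ 2 ≤ ε * (C * (2 * C + 3)) - (p.eval (W ω)) ^ 2 * W ω
      linarith
    rw [integral_sub (integrable_const _) pint, integral_const] at hle
    have hp0 := h p
    have h2 : μ.real Set.univ = 1 := by simp [measureReal_def]
    rw [h2, one_smul] at hle
    linarith
  have hzero : ∫ ω, (max (-W ω) 0) ^ 2 ∂μ ≤ 0 := by
    by_contra hcon
    push Not at hcon
    set I := ∫ ω, (max (-W ω) 0) ^ 2 ∂μ with hI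
    have hK : 0 ≤ C * (2 * C + 3) := by positivity
    have hpos : 0 < C * (2 * C + 3) + 1 := by linarith
    have k1 := key (min 1 (I / (2 * (C * (2 * C + 3) + 1))))
      (lt_min one_pos (by positivity)) (min_le_left _ _)
    have k2 : min 1 (I / (2 * (C * (2 * C + 3) + 1))) * (C * (2 * C + 3)) ≤
        I / (2 * (C * (2 * C + 3) + 1)) * (C * (2 * C + 3) + 1) := by
      refine mul_le_mul (min_le_right _ _) (by linarith) hK (by positivity)
    have k3 : I / (2 * (C * (2 * C + 3) + 1)) * (C * (2 * C + 3) + 1) = I / 2 := by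
      field_simp
    rw [k3] at k2
    linarith
  have heq : ∫ ω, (max (-W ω) 0) ^ 2 ∂μ = 0 :=
    le_antisymm hzero (integral_nonneg (fun ω => by positivity))
  have hae := (integral_eq_zero_iff_of_nonneg (fun ω => by positivity) gint).1 heq
  filter_upwards [hae] with ω hω
  have h1 : (max (-W ω) 0) ^ 2 = 0 := hω
  have h2 : max (-W ω) 0 = 0 := by
    exact pow_eq_zero_iff (two_ne_zero) |>.1 h1
  have h3 : -W ω ≤ 0 := by rw [← h2]; exact le_max_left _ _
  linarith

end Pool.Agent.LibSQ58
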