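import Pool.Agent.LibSQ58.DcD
set_option autoImplicit false
namespace Pool.Agent.LibSQ58
open MeasureTheory Filter Topology


variable {Ω : Type} [MeasurableSpace Ω]

/-- polynomials in the regular parts -/
def RR.Alg (X : RR Ω) : Submodule ℝ (Ω → ℝ) := Submodule.span ℝ (Set.range X.R)

private theorem RR.R_mem_trd (X : RR Ω) (L : List E3) : X.R L ∈ X.Alg :=
  Submodule.subset_span ⟨L, rfl⟩

theorem RR.alg_one (X : RR Ω) : (fun _ => (1 : ℝ)) ∈ X.Alg := by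
  have h : (fun _ => (1 : ℝ)) = X.R [] := by
    funext ω
    simp [RR.R]
  rw [h]
  exact X.R_mem_trd []

theorem RR.alg_r (X : RR Ω) (x : E3) : X.r x ∈ X.Alg := by
  have h : X.r x = X.R [x] := by
    funext ω
    simp [RR.R]
  rw [h]
  exact X.R_mem_trd [x]

private theorem RR.alg_mul_R_trd (X : RR Ω) {f : Ω → ℝ} (hf : f ∈ X.Alg) (L : List E3) :
    (fun ω => f ω * X.R L ω) ∈ X.Alg := by
  refine Submodule.span_induction (p := fun f _ => (fun ω => f ω * X.R L ω) ∈ X.Alg)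
    ?_ ?_ ?_ ?_ hf
  · rintro f ⟨L', rfl⟩
    have h : (fun ω => X.R L' ω * X.R L ω) = X.R (L' ++ L) := by
      funext ω
      simp [RR.R]
    rw [h]
    exact X.R_mem_trd _
  · have h : (fun ω => (0 : Ω → ℝ) ω * X.R L ω) = 0 := by
      funext ω
      simp
    rw [h]
    exact Submodule.zero_mem _
  · intro f g _ _ hf hg
    have h : (fun ω => (f + g) ω * X.R L ω) = (fun ω => f ω * X.R L ω) + (fun ω => g ω * X.R L ω) := by
      funext ω
      simp [add_mul]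
    rw [h]
    exact Submodule.add_mem _ hf hg
  · intro a f _ hf
    have h : (fun ω => (a • f) ω * X.R L ω) = a • (fun ω => f ω * X.R L ω) := by
      funext ω
      simp [mul_assoc]
    rw [h]
    exact Submodule.smul_mem _ _ hf

theorem RR.alg_mul (X : RR Ω) {f g : Ω → ℝ} (hf : f ∈ X.Alg) (hg : g ∈ X.Alg) :
    (fun ω => f ω * g ω) ∈ X.Alg := by
  refine Submodule.span_induction (p := fun g _ => (fun ω => f ω * g ω) ∈ X.Alg)
    ?_ ?_ ?_ ?_ hg
  · rintro g ⟨L, rfl⟩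
    exact X.alg_mul_R_trd hf L
  · have h : (fun ω => f ω * (0 : Ω → ℝ) ω) = 0 := by
      funext ω
      simp
    rw [h]
    exact Submodule.zero_mem _
  · intro g₁ g₂ _ _ h₁ h₂
    have h : (fun ω => f ω * (g₁ + g₂) ω) = (fun ω => f ω * g₁ ω) + (fun ω => f ω * g₂ ω) := by
      funext ω
      simp [mul_add]
    rw [h]
    exact Submodule.add_mem _ h₁ h₂
  · intro a g₁ _ h₁
    have h : (fun ω => f ω * (a • g₁) ω) = a • (fun ω => f ω * g₁ ω) := by
      funext ω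
      simp only [Pi.smul_apply, smul_eq_mul]
      ring
    rw [h]
    exact Submodule.smul_mem _ _ h₁

theorem RR.alg_poly (X : RR Ω) {f : Ω → ℝ} (hf : f ∈ X.Alg) (p : Polynomial ℝ) :
    (fun ω => p.eval (f ω)) ∈ X.Alg := by
  have hpow : ∀ n : ℕ, (fun ω => f ω ^ n) ∈ X.Alg := by
    intro n
    induction n with
    | zero =>
      simp only [pow_zero]
      exact X.alg_one
    | succ n ih =>
      simp only [pow_succ]
      exact X.alg_mul ih hf
  have h : (fun ω => p.eval (f ω)) =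
      ∑ i ∈ Finset.range (p.natDegree + 1), p.coeff i • (fun ω => f ω ^ i) := by
    funext ω
    rw [Finset.sum_apply, Polynomial.eval_eq_sum_range]
    refine Finset.sum_congr rfl fun i _ => ?_
    simp
  rw [h]
  exact Submodule.sum_mem _ fun i _ => Submodule.smul_mem _ _ (hpow i)

theorem RR.alg_meas (X : RR Ω) {f : Ω → ℝ} (hf : f ∈ X.Alg) : Measurable f := by
  refine Submodule.span_induction (p := fun f _ => Measurable f) ?_ ?_ ?_ ?_ hf
  · rintro f ⟨L, rfl⟩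
    exact X.R_meas L
  · exact measurable_const
  · intro f g _ _ hf hg
    exact hf.add hg
  · intro a f _ hf
    exact hf.const_smul a

theorem RR.alg_bdd (X : RR Ω) {f : Ω → ℝ} (hf : f ∈ X.Alg) : ∃ C, ∀ ω, |f ω| ≤ C := by
  refine Submodule.span_induction (p := fun f _ => ∃ C, ∀ ω, |f ω| ≤ C) ?_ ?_ ?_ ?_ hf
  · rintro f ⟨L, rfl⟩
    exact ⟨1, X.R_le L⟩
  · exact ⟨0, fun ω => by simp⟩
  · rintro f g _ _ ⟨C, hC⟩ ⟨D, hD⟩
    exact ⟨C + D, fun ω => (abs_add_le _ _).trans (add_le_add (hC ω) (hD ω))⟩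
  · rintro a f _ ⟨C, hC⟩
    refine ⟨|a| * C, fun ω => ?_⟩
    rw [Pi.smul_apply, smul_eq_mul, abs_mul]
    exact mul_le_mul_of_nonneg_left (hC ω) (abs_nonneg a)

private theorem RR.alg_int_trd (X : RR Ω) {f h : Ω → ℝ} (hf : f ∈ X.Alg) (hm : Measurable h)
    (hb : ∃ C, ∀ ω, |h ω| ≤ C) : Integrable (fun ω => f ω * h ω) X.μ := by
  have := X.prob
  obtain ⟨C, hC⟩ := X.alg_bdd hf
  obtain ⟨D, hD⟩ := hb
  refine Integrable.of_bound ((X.alg_meas hf).mul hm).aestronglyMeasurable (C * D)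
    (Eventually.of_forall fun ω => ?_)
  rw [norm_mul, Real.norm_eq_abs, Real.norm_eq_abs]
  exact mul_le_mul (hC ω) (hD ω) (abs_nonneg _) ((abs_nonneg _).trans (hC ω))

private theorem RR.alg_zero_trd (X : RR Ω) {h : Ω → ℝ} (hm : Measurable h)
    (hb : ∃ C, ∀ ω, |h ω| ≤ C) (hL : ∀ L : List E3, ∫ ω, X.R L ω * h ω ∂X.μ = 0)
    {f : Ω → ℝ} (hf : f ∈ X.Alg) : ∫ ω, f ω * h ω ∂X.μ = 0 := by
  refine Submodule.span_induction (p := fun f _ => ∫ ω, f ω * h ω ∂X.μ = 0) ?_ ?_ ?_ ?_ hf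
  · rintro f ⟨L, rfl⟩
    exact hL L
  · simp
  · intro f g hf hg h1 h2
    have e : (fun ω => (f + g) ω * h ω) = fun ω => f ω * h ω + g ω * h ω := by
      funext ω
      simp [add_mul]
    rw [e, integral_add (X.alg_int_trd hf hm hb) (X.alg_int_trd hg hm hb), h1, h2, add_zero]
  · intro a f hf h1
    have e : (fun ω => (a • f) ω * h ω) = fun ω => a * (f ω * h ω) := by
      funext ω
      simp [mul_assoc]
    rw [e, integral_const_mul, h1, mul_zero]

theorem RR.alg_P1 (X : RR Ω) (x : E3) {f : Ω → ℝ} (hf : f ∈ X.Alg) :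
    ∫ ω, f ω * X.g x ω ∂X.μ = 0 :=
  X.alg_zero_trd (X.g_meas x) ⟨2, X.g_le x⟩ (X.p1 x) hf

private theorem RR.g_mul_le_trd (X : RR Ω) (x y : E3) (ω : Ω) :
    |X.g x ω * X.g y ω| ≤ 2 * 2 := by
  rw [abs_mul]
  exact mul_le_mul (X.g_le x ω) (X.g_le y ω) (abs_nonneg _) (by norm_num)

theorem RR.alg_P2 (X : RR Ω) {x y : E3} (h : X.P2 x y) {f : Ω → ℝ} (hf : f ∈ X.Alg) :
    ∫ ω, f ω * (X.g x ω * X.g y ω) ∂X.μ = 0 :=
  X.alg_zero_trd ((X.g_meas x).mul (X.g_meas y)) ⟨2 * 2, X.g_mul_le_trd x y⟩ h hf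

theorem RR.alg_P3 (X : RR Ω) {x y z : E3} (h : X.P3 x y z) {f : Ω → ℝ} (hf : f ∈ X.Alg) :
    ∫ ω, f ω * (X.g x ω * X.g y ω * X.g z ω) ∂X.μ = 0 := by
  refine X.alg_zero_trd (h := fun ω => X.g x ω * X.g y ω * X.g z ω)
    (((X.g_meas x).mul (X.g_meas y)).mul (X.g_meas z)) ⟨2 * 2 * 2, fun ω => ?_⟩ h hf
  rw [abs_mul]
  exact mul_le_mul (X.g_mul_le_trd x y ω) (X.g_le z ω) (abs_nonneg _) (by norm_num)

end Pool.Agent.LibSQ58
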