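import Pool.Agent.LibSQ58.TrD
set_option autoImplicit false
namespace Pool.Agent.LibSQ58
open MeasureTheory Filter Topology


variable {Ω : Type} [MeasurableSpace Ω]

/-- the colour at the point `x` -/
noncomputable def RR.c (X : RR Ω) (x : E3) (ω : Ω) : ℝ := X.χ (X.T x ω)

private theorem RR.c_eq (X : RR Ω) (x : E3) (ω : Ω) : X.c x ω = X.r x ω + X.g x ω := by
  unfold RR.c RR.r RR.g
  ring

private theorem bdd_int (μ : Measure Ω) [IsProbabilityMeasure μ] {f : Ω → ℝ} (hm : Measurable f)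
    (hb : ∃ C, ∀ ω, |f ω| ≤ C) : Integrable f μ := by
  obtain ⟨C, hC⟩ := hb
  exact Integrable.of_bound hm.aestronglyMeasurable C (Eventually.of_forall (fun ω => by
    rw [Real.norm_eq_abs]; exact hC ω))

omit [MeasurableSpace Ω] in
private theorem bdd_mul {f g : Ω → ℝ} (hf : ∃ C, ∀ ω, |f ω| ≤ C) (hg : ∃ C, ∀ ω, |g ω| ≤ C) :
    ∃ C, ∀ ω, |f ω * g ω| ≤ C := by
  obtain ⟨C, hC⟩ := hf
  obtain ⟨D, hD⟩ := hg
  refine ⟨C * D, fun ω => ?_⟩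
  rw [abs_mul]
  have := abs_nonneg (f ω)
  exact mul_le_mul (hC ω) (hD ω) (abs_nonneg _) (le_trans this (hC ω))

/-- DECOUPLED EXPANSION: `c = r + g`; in `∏ (1 + s_i (r_i + g_i))` the terms with one, two or three `g`'s integrate to `0` -/
theorem RR.expand (X : RR Ω) (x y z w : E3) (h2 : X.P2 x y ∧ X.P2 x z ∧ X.P2 x w ∧ X.P2 y z ∧ X.P2 y w ∧ X.P2 z w)
    (h3 : X.P3 x y z ∧ X.P3 x y w ∧ X.P3 x z w ∧ X.P3 y z w) (s t p q : ℝ)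
    {f : Ω → ℝ} (hf : f ∈ X.Alg) :
    ∫ ω, f ω * ((1 + s * X.c x ω) * (1 + t * X.c y ω) * (1 + p * X.c z ω) * (1 + q * X.c w ω)) ∂X.μ =
      ∫ ω, f ω * ((1 + s * X.r x ω) * (1 + t * X.r y ω) * (1 + p * X.r z ω) * (1 + q * X.r w ω)) ∂X.μ +
        (s * t * p * q) * ∫ ω, f ω * (X.g x ω * X.g y ω * X.g z ω * X.g w ω) ∂X.μ := by
  have := X.prob
  obtain ⟨hxy, hxz, hxw, hyz, hyw, hzw⟩ := h2
  obtain ⟨hxyz, hxyw, hxzw, hyzw⟩ := h3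
  -- the factors without wild part
  have hA : ∀ (a : ℝ) (u : E3), (fun ω => 1 + a * X.r u ω) ∈ X.Alg := by
    intro a u
    have h1 := X.alg_one
    have h2 := X.Alg.smul_mem a (X.alg_r u)
    have h3 := X.Alg.add_mem h1 h2
    exact h3
  have hM : ∀ {k l : Ω → ℝ}, k ∈ X.Alg → l ∈ X.Alg → (fun ω => k ω * l ω) ∈ X.Alg :=
    fun hk hl => X.alg_mul hk hl
  have hS : ∀ (a : ℝ) {k : Ω → ℝ}, k ∈ X.Alg → (fun ω => a * k ω) ∈ X.Alg := by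
    intro a k hk
    exact X.Alg.smul_mem a hk
  have hgm := fun u => X.g_meas u
  have hgb : ∀ u : E3, ∃ C, ∀ ω, |X.g u ω| ≤ C := fun u => ⟨2, X.g_le u⟩
  set a1 : Ω → ℝ := fun ω => 1 + s * X.r x ω with ha1
  set a2 : Ω → ℝ := fun ω => 1 + t * X.r y ω with ha2
  set a3 : Ω → ℝ := fun ω => 1 + p * X.r z ω with ha3
  set a4 : Ω → ℝ := fun ω => 1 + q * X.r w ω with ha4
  have A1 : a1 ∈ X.Alg := hA s x
  have A2 : a2 ∈ X.Alg := hA t y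
  have A3 : a3 ∈ X.Alg := hA p z
  have A4 : a4 ∈ X.Alg := hA q w
  -- integrability of `k`, `k g`, `k g g`, `k g g g`, `k g g g g`
  have I0 : ∀ {k : Ω → ℝ}, k ∈ X.Alg → Integrable k X.μ := fun hk =>
    bdd_int X.μ (X.alg_meas hk) (X.alg_bdd hk)
  have I1 : ∀ {k : Ω → ℝ} (u : E3), k ∈ X.Alg → Integrable (fun ω => k ω * X.g u ω) X.μ :=
    fun u hk => bdd_int X.μ ((X.alg_meas hk).mul (hgm u)) (bdd_mul (X.alg_bdd hk) (hgb u))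
  have I2 : ∀ {k : Ω → ℝ} (u v : E3), k ∈ X.Alg →
      Integrable (fun ω => k ω * (X.g u ω * X.g v ω)) X.μ :=
    fun u v hk => bdd_int X.μ ((X.alg_meas hk).mul ((hgm u).mul (hgm v)))
      (bdd_mul (X.alg_bdd hk) (bdd_mul (hgb u) (hgb v)))
  have I3 : ∀ {k : Ω → ℝ} (u v v' : E3), k ∈ X.Alg →
      Integrable (fun ω => k ω * (X.g u ω * X.g v ω * X.g v' ω)) X.μ :=
    fun u v v' hk => bdd_int X.μ ((X.alg_meas hk).mul (((hgm u).mul (hgm v)).mul (hgm v')))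
      (bdd_mul (X.alg_bdd hk) (bdd_mul (bdd_mul (hgb u) (hgb v)) (hgb v')))
  have I4 : ∀ {k : Ω → ℝ} (u v v' v'' : E3), k ∈ X.Alg →
      Integrable (fun ω => k ω * (X.g u ω * X.g v ω * X.g v' ω * X.g v'' ω)) X.μ :=
    fun u v v' v'' hk => bdd_int X.μ ((X.alg_meas hk).mul ((((hgm u).mul (hgm v)).mul (hgm v')).mul
      (hgm v''))) (bdd_mul (X.alg_bdd hk) (bdd_mul (bdd_mul (bdd_mul (hgb u) (hgb v)) (hgb v'))
        (hgb v'')))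
  -- the four groups of terms
  have B0 : (fun ω => f ω * (a1 ω * a2 ω * a3 ω * a4 ω)) ∈ X.Alg :=
    hM hf (hM (hM (hM A1 A2) A3) A4)
  have key : (fun ω => f ω * ((1 + s * X.c x ω) * (1 + t * X.c y ω) * (1 + p * X.c z ω) *
      (1 + q * X.c w ω))) = fun ω =>
      (f ω * (a1 ω * a2 ω * a3 ω * a4 ω)) +
      (((s * (f ω * (a2 ω * a3 ω * a4 ω))) * X.g x ω + (t * (f ω * (a1 ω * a3 ω * a4 ω))) * X.g y ω +
        (p * (f ω * (a1 ω * a2 ω * a4 ω))) * X.g z ω + (q * (f ω * (a1 ω * a2 ω * a3 ω))) * X.g w ω) +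
      (((s * t) * (f ω * (a3 ω * a4 ω))) * (X.g x ω * X.g y ω) +
        ((s * p) * (f ω * (a2 ω * a4 ω))) * (X.g x ω * X.g z ω) +
        ((s * q) * (f ω * (a2 ω * a3 ω))) * (X.g x ω * X.g w ω) +
        ((t * p) * (f ω * (a1 ω * a4 ω))) * (X.g y ω * X.g z ω) +
        ((t * q) * (f ω * (a1 ω * a3 ω))) * (X.g y ω * X.g w ω) +
        ((p * q) * (f ω * (a1 ω * a2 ω))) * (X.g z ω * X.g w ω)) +
      (((s * t * p) * (f ω * a4 ω)) * (X.g x ω * X.g y ω * X.g z ω) +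
        ((s * t * q) * (f ω * a3 ω)) * (X.g x ω * X.g y ω * X.g w ω) +
        ((s * p * q) * (f ω * a2 ω)) * (X.g x ω * X.g z ω * X.g w ω) +
        ((t * p * q) * (f ω * a1 ω)) * (X.g y ω * X.g z ω * X.g w ω))) +
      (s * t * p * q) * (f ω * (X.g x ω * X.g y ω * X.g z ω * X.g w ω)) := by
    funext ω
    simp only [RR.c_eq, ha1, ha2, ha3, ha4]
    ring
  rw [key]
  have C1 := hS s (hM hf (hM (hM A2 A3) A4))
  have C2 := hS t (hM hf (hM (hM A1 A3) A4))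
  have C3 := hS p (hM hf (hM (hM A1 A2) A4))
  have C4 := hS q (hM hf (hM (hM A1 A2) A3))
  have D12 := hS (s * t) (hM hf (hM A3 A4))
  have D13 := hS (s * p) (hM hf (hM A2 A4))
  have D14 := hS (s * q) (hM hf (hM A2 A3))
  have D23 := hS (t * p) (hM hf (hM A1 A4))
  have D24 := hS (t * q) (hM hf (hM A1 A3))
  have D34 := hS (p * q) (hM hf (hM A1 A2))
  have E1 := hS (s * t * p) (hM hf A4)
  have E2 := hS (s * t * q) (hM hf A3)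
  have E3' := hS (s * p * q) (hM hf A2)
  have E4 := hS (t * p * q) (hM hf A1)
  have Z : ∀ {h k : Ω → ℝ}, (Integrable h X.μ ∧ ∫ ω, h ω ∂X.μ = 0) →
      (Integrable k X.μ ∧ ∫ ω, k ω ∂X.μ = 0) →
      (Integrable (fun ω => h ω + k ω) X.μ ∧ ∫ ω, (h ω + k ω) ∂X.μ = 0) := by
    intro h k hh hk
    refine ⟨hh.1.add hk.1, ?_⟩
    rw [integral_add hh.1 hk.1, hh.2, hk.2, add_zero]
  have Z1 := Z (Z (Z ⟨I1 x C1, X.alg_P1 x C1⟩ ⟨I1 y C2, X.alg_P1 y C2⟩) ⟨I1 z C3, X.alg_P1 z C3⟩)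
    ⟨I1 w C4, X.alg_P1 w C4⟩
  have Z2 := Z (Z (Z (Z (Z ⟨I2 x y D12, X.alg_P2 hxy D12⟩ ⟨I2 x z D13, X.alg_P2 hxz D13⟩)
    ⟨I2 x w D14, X.alg_P2 hxw D14⟩) ⟨I2 y z D23, X.alg_P2 hyz D23⟩)
    ⟨I2 y w D24, X.alg_P2 hyw D24⟩) ⟨I2 z w D34, X.alg_P2 hzw D34⟩
  have Z3 := Z (Z (Z ⟨I3 x y z E1, X.alg_P3 hxyz E1⟩ ⟨I3 x y w E2, X.alg_P3 hxyw E2⟩)
    ⟨I3 x z w E3', X.alg_P3 hxzw E3'⟩) ⟨I3 y z w E4, X.alg_P3 hyzw E4⟩
  have Z12 := Z (Z Z1 Z2) Z3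
  have J4 := (I4 x y z w hf).const_mul (s * t * p * q)
  have J0 := I0 B0
  have JJ : Integrable (fun ω => (f ω * (a1 ω * a2 ω * a3 ω * a4 ω)) + _) X.μ := J0.add Z12.1
  rw [integral_add JJ J4, integral_add J0 Z12.1, Z12.2, add_zero, integral_const_mul]

end Pool.Agent.LibSQ58
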