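import Pool.Agent.LibSQ58.TrE
import Pool.Agent.LibSQ58.TrA
import Pool.Agent.LibSQ58.TrC
set_option autoImplicit false
namespace Pool.Agent.LibSQ58
open MeasureTheory Filter Topology


variable {Ω : Type} [MeasurableSpace Ω]

private theorem RR.c_pm (X : RR Ω) (x : E3) (ω : Ω) : X.c x ω = 1 ∨ X.c x ω = -1 := X.pm _

private theorem RR.c_zero (X : RR Ω) (ω : Ω) : X.c 0 ω = X.χ ω := by
  unfold RR.c
  rw [X.T_zero]

/-- a.s. the product `(1 + χ)(1 + χ_u)(1 + χ_v)(1 + χ_{u+v})` vanishes, and the same with minus signs -/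
theorem RR.prod_zero (X : RR Ω) (u v : E3) (h : ON u v) : ∀ᵐ ω ∂X.μ,
    (1 + X.c 0 ω) * (1 + X.c u ω) * (1 + X.c v ω) * (1 + X.c (u + v) ω) = 0 ∧
    (1 - X.c 0 ω) * (1 - X.c u ω) * (1 - X.c v ω) * (1 - X.c (u + v) ω) = 0 := by
  filter_upwards [X.sq u v h] with ω hω
  have e0 := X.c_zero ω
  have h1 : X.c u ω = X.χ (X.T u ω) := rfl
  have h2 : X.c v ω = X.χ (X.T v ω) := rfl
  have h3 : X.c (u + v) ω = X.χ (X.T (u + v) ω) := rfl
  rw [← h1, ← h2, ← h3, ← e0] at hω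
  rcases X.c_pm 0 ω with a | a <;> rcases X.c_pm u ω with b | b <;>
    rcases X.c_pm v ω with c | c <;> rcases X.c_pm (u + v) ω with d | d <;>
    rw [a, b, c, d] at hω ⊢ <;> first | (exfalso; apply hω; norm_num; done) | norm_num

private theorem RR.ineq (X : RR Ω) (u v : E3) (h : ON u v)
    (h2 : X.P2 0 u ∧ X.P2 0 v ∧ X.P2 0 (u + v) ∧ X.P2 u v ∧ X.P2 u (u + v) ∧ X.P2 v (u + v))
    (h3 : X.P3 0 u v ∧ X.P3 0 u (u + v) ∧ X.P3 0 v (u + v) ∧ X.P3 u v (u + v))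
    (e s t p q : ℝ) (he : e = 1 ∨ e = -1) (hs : s = 1 ∨ s = -1) (ht : t = 1 ∨ t = -1)
    (hp : p = 1 ∨ p = -1) (hq : q = 1 ∨ q = -1) (hone : s * t * p * q = 1) :
    ∀ᵐ ω ∂X.μ, (1 + e * X.r 0 ω) * (1 + e * X.r u ω) * (1 + e * X.r v ω) *
      (1 + e * X.r (u + v) ω) ≤
      (1 + s * X.r 0 ω) * (1 + t * X.r u ω) * (1 + p * X.r v ω) * (1 + q * X.r (u + v) ω) := by
  have := X.prob
  have hA : ∀ (a : ℝ) (x : E3), (fun ω => 1 + a * X.r x ω) ∈ X.Alg := by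
    intro a x
    exact X.Alg.add_mem X.alg_one (X.Alg.smul_mem a (X.alg_r x))
  have hP : ∀ a b c d : ℝ, (fun ω => (1 + a * X.r 0 ω) * (1 + b * X.r u ω) * (1 + c * X.r v ω) *
      (1 + d * X.r (u + v) ω)) ∈ X.Alg := by
    intro a b c d
    exact X.alg_mul (X.alg_mul (X.alg_mul (hA a 0) (hA b u)) (hA c v)) (hA d (u + v))
  have hint : ∀ {k : Ω → ℝ}, k ∈ X.Alg → Integrable k X.μ := by
    intro k hk
    obtain ⟨C, hC⟩ := X.alg_bdd hk
    exact Integrable.of_bound (X.alg_meas hk).aestronglyMeasurable C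
      (Eventually.of_forall (fun ω => by rw [Real.norm_eq_abs]; exact hC ω))
  set W : Ω → ℝ := fun ω => (1 + s * X.r 0 ω) * (1 + t * X.r u ω) * (1 + p * X.r v ω) *
      (1 + q * X.r (u + v) ω) - (1 + e * X.r 0 ω) * (1 + e * X.r u ω) * (1 + e * X.r v ω) *
      (1 + e * X.r (u + v) ω) with hW
  have hWA : W ∈ X.Alg := X.Alg.sub_mem (hP s t p q) (hP e e e e)
  obtain ⟨C, hC⟩ := X.alg_bdd hWA
  have key := nonneg_of_poly X.μ W (X.alg_meas hWA) C hC ?_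
  · filter_upwards [key] with ω hω
    simp only [hW] at hω
    linarith
  · intro P
    set f : Ω → ℝ := fun ω => (P.eval (W ω)) ^ 2 with hf
    have hfA : f ∈ X.Alg := by
      have h1 := X.alg_mul (X.alg_poly hWA P) (X.alg_poly hWA P)
      have h2 : f = fun ω => P.eval (W ω) * P.eval (W ω) := by
        funext ω
        simp only [hf]
        ring
      rw [h2]
      exact h1
    have E1 := X.expand 0 u v (u + v) h2 h3 s t p q hfA
    have E2 := X.expand 0 u v (u + v) h2 h3 e e e e hfA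
    have he4 : e * e * e * e = 1 := by rcases he with he | he <;> rw [he] <;> norm_num
    rw [hone] at E1
    rw [he4] at E2
    have Z : ∫ ω, f ω * ((1 + e * X.c 0 ω) * (1 + e * X.c u ω) * (1 + e * X.c v ω) *
        (1 + e * X.c (u + v) ω)) ∂X.μ = 0 := by
      rw [integral_eq_zero_of_ae]
      filter_upwards [X.prod_zero u v h] with ω hω
      simp only [Pi.zero_apply]
      rcases he with he | he
      · rw [he]
        simp only [one_mul]
        rw [hω.1, mul_zero]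
      · rw [he]
        simp only [neg_mul, one_mul, ← sub_eq_add_neg]
        rw [hω.2, mul_zero]
    have N : 0 ≤ ∫ ω, f ω * ((1 + s * X.c 0 ω) * (1 + t * X.c u ω) * (1 + p * X.c v ω) *
        (1 + q * X.c (u + v) ω)) ∂X.μ := by
      apply integral_nonneg
      intro ω
      have hpos : ∀ (a : ℝ) (x : E3), (a = 1 ∨ a = -1) → 0 ≤ 1 + a * X.c x ω := by
        intro a x ha
        rcases ha with ha | ha <;> rcases X.c_pm x ω with hc | hc <;> rw [ha, hc] <;> norm_num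
      exact mul_nonneg (sq_nonneg _) (mul_nonneg (mul_nonneg (mul_nonneg (hpos s 0 hs)
        (hpos t u ht)) (hpos p v hp)) (hpos q (u + v) hq))
    have D : ∫ ω, f ω * W ω ∂X.μ = ∫ ω, f ω * ((1 + s * X.r 0 ω) * (1 + t * X.r u ω) *
        (1 + p * X.r v ω) * (1 + q * X.r (u + v) ω)) ∂X.μ - ∫ ω, f ω * ((1 + e * X.r 0 ω) *
        (1 + e * X.r u ω) * (1 + e * X.r v ω) * (1 + e * X.r (u + v) ω)) ∂X.μ := by
      rw [← integral_sub (hint (X.alg_mul hfA (hP s t p q))) (hint (X.alg_mul hfA (hP e e e e)))]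
      apply integral_congr_ae
      filter_upwards with ω
      simp only [hW]
      ring
    show 0 ≤ ∫ ω, f ω * W ω ∂X.μ
    rw [D]
    rw [Z] at E2
    linarith

/-- TRICHOTOMY for decoupled squares (`expand`, `prod_zero`, `nonneg_of_poly`, `tri_of`) -/
theorem RR.tri_generic (X : RR Ω) (u v : E3) (h : ON u v)
    (h2 : X.P2 0 u ∧ X.P2 0 v ∧ X.P2 0 (u + v) ∧ X.P2 u v ∧ X.P2 u (u + v) ∧ X.P2 v (u + v))
    (h3 : X.P3 0 u v ∧ X.P3 0 u (u + v) ∧ X.P3 0 v (u + v) ∧ X.P3 u v (u + v)) :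
    ∀ᵐ ω ∂X.μ, Tri (X.r 0 ω) (X.r u ω) (X.r v ω) (X.r (u + v) ω) := by
  have P : (1 : ℝ) = 1 ∨ (1 : ℝ) = -1 := Or.inl rfl
  have N : (-1 : ℝ) = 1 ∨ (-1 : ℝ) = -1 := Or.inr rfl
  have i1 := X.ineq u v h h2 h3 1 (-1) (-1) (-1) (-1) P N N N N (by norm_num)
  have i2 := X.ineq u v h h2 h3 (-1) 1 1 1 1 N P P P P (by norm_num)
  have i01 := X.ineq u v h h2 h3 1 1 1 (-1) (-1) P P P N N (by norm_num)
  have i02 := X.ineq u v h h2 h3 1 1 (-1) 1 (-1) P P N P N (by norm_num)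
  have i03 := X.ineq u v h h2 h3 1 1 (-1) (-1) 1 P P N N P (by norm_num)
  have i12 := X.ineq u v h h2 h3 1 (-1) 1 1 (-1) P N P P N (by norm_num)
  have i13 := X.ineq u v h h2 h3 1 (-1) 1 (-1) 1 P N P N P (by norm_num)
  have i23 := X.ineq u v h h2 h3 1 (-1) (-1) 1 1 P N N P P (by norm_num)
  filter_upwards [i1, i2, i01, i02, i03, i12, i13, i23] with ω j1 j2 j01 j02 j03 j12 j13 j23
  simp only [one_mul, neg_mul, ← sub_eq_add_neg] at j1 j2 j01 j02 j03 j12 j13 j23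
  exact tri_of _ _ _ _ (X.ρ1 _) (X.ρ1 _) (X.ρ1 _) (X.ρ1 _) (le_antisymm j1 j2) j01 j02 j03 j12
    j13 j23

end Pool.Agent.LibSQ58
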