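import Pool.Agent.LibSQ58.Rep
set_option autoImplicit false
namespace Pool.Agent.LibSQ58
open MeasureTheory Filter Topology


variable {H : Type*} [NormedAddCommGroup H] [InnerProductSpace ℝ H]

/-- `h` is continuous along the line `ℝ e` -/
def LCont (S : Rp E3 H) (e : E3) (h : H) : Prop :=
  Tendsto (fun t : ℝ => S.τ (t • e) h) (𝓝 0) (𝓝 h)

/-- `h` is continuous in the horizontal directions -/
def HCont (S : Rp E3 H) (h : H) : Prop :=
  Tendsto (fun p : ℝ × ℝ => S.τ (!₂[p.1, p.2, 0] : E3) h) (𝓝 0) (𝓝 h)

/-- horizontal unit vectors -/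
noncomputable def eth (θ : ℝ) : E3 := !₂[Real.cos θ, Real.sin θ, 0]

/-- the vectors fixed asymptotically by a family of isometries form a closed set -/
private theorem closed_WildA {ι : Type*} (l : Filter ι) (T : ι → H →ₗᵢ[ℝ] H) :
    IsClosed {h : H | Tendsto (fun i => T i h) l (𝓝 h)} := by
  rw [← closure_subset_iff_isClosed]
  intro h hh
  rw [Set.mem_ofPred_eq, Metric.tendsto_nhds]
  intro ε hε
  rw [Metric.mem_closure_iff] at hh
  obtain ⟨k, hk, hd⟩ := hh (ε / 3) (by positivity)
  rw [Set.mem_ofPred_eq, Metric.tendsto_nhds] at hk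
  filter_upwards [hk (ε / 3) (by positivity)] with i hi
  have e1 : dist (T i h) (T i k) = dist h k := (T i).isometry.dist_eq h k
  calc dist (T i h) h ≤ dist (T i h) (T i k) + dist (T i k) k + dist k h :=
        dist_triangle4 _ _ _ _
    _ < ε / 3 + ε / 3 + ε / 3 := by
        rw [e1, dist_comm k h]
        linarith
    _ = ε := by ring

private theorem inv_WildA {ι : Type*} (S : Rp E3 H) (l : Filter ι) (w : ι → E3) (x : E3) {h : H}
    (hh : Tendsto (fun i => S.τ (w i) h) l (𝓝 h)) :
    Tendsto (fun i => S.τ (w i) (S.τ x h)) l (𝓝 (S.τ x h)) := by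
  have e1 : (fun i => S.τ (w i) (S.τ x h)) = fun i => S.τ x (S.τ (w i) h) := by
    funext i
    rw [← S.add', ← S.add', add_comm]
  rw [e1]
  exact ((S.τ x).continuous.tendsto h).comp hh

/-- the closed subspace of the vectors continuous along a line -/
def lsub (S : Rp E3 H) (e : E3) : Submodule ℝ H where
  carrier := {h | LCont S e h}
  add_mem' := by
    intro a b ha hb
    have h := Tendsto.add ha hb
    refine h.congr fun t => ?_
    rw [map_add]
  zero_mem' := by
    refine tendsto_const_nhds.congr fun t => ?_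
    rw [map_zero]
  smul_mem' := by
    intro c a ha
    have h := Tendsto.const_smul ha c
    refine h.congr fun t => ?_
    rw [map_smul]

theorem lsub_closed (S : Rp E3 H) (e : E3) : IsClosed (lsub S e : Set H) :=
  closed_WildA (𝓝 (0 : ℝ)) (fun t : ℝ => S.τ (t • e))

/-- the closed subspace of the horizontally continuous vectors -/
def hsub (S : Rp E3 H) : Submodule ℝ H where
  carrier := {h | HCont S h}
  add_mem' := by
    intro a b ha hb
    have h := Tendsto.add ha hb
    refine h.congr fun t => ?_
    rw [map_add]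
  zero_mem' := by
    refine tendsto_const_nhds.congr fun t => ?_
    rw [map_zero]
  smul_mem' := by
    intro c a ha
    have h := Tendsto.const_smul ha c
    refine h.congr fun t => ?_
    rw [map_smul]

theorem hsub_closed (S : Rp E3 H) : IsClosed (hsub S : Set H) :=
  closed_WildA (𝓝 (0 : ℝ × ℝ)) (fun p : ℝ × ℝ => S.τ (!₂[p.1, p.2, 0] : E3))

theorem lsub_inv (S : Rp E3 H) (e x : E3) {h : H} (hh : LCont S e h) : LCont S e (S.τ x h) :=
  inv_WildA S _ _ x hh

theorem hsub_inv (S : Rp E3 H) (x : E3) {h : H} (hh : HCont S h) : HCont S (S.τ x h) :=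
  inv_WildA S _ _ x hh

end Pool.Agent.LibSQ58
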