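import Pool.Agent.LibSQ58.WildA
set_option autoImplicit false
namespace Pool.Agent.LibSQ58
open MeasureTheory Filter Topology


variable {H : Type*} [NormedAddCommGroup H] [InnerProductSpace ℝ H]

/-- continuity along two different horizontal lines -/
theorem hcont_of_two (S : Rp E3 H) {θ φ : ℝ} (hs : Real.sin (θ - φ) ≠ 0) {h : H}
    (h1 : LCont S (eth θ) h) (h2 : LCont S (eth φ) h) : HCont S h := by
  have hdet : Real.cos θ * Real.sin φ - Real.sin θ * Real.cos φ ≠ 0 := by
    intro h0
    apply hs
    rw [Real.sin_sub]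
    linarith
  set d : ℝ := Real.cos θ * Real.sin φ - Real.sin θ * Real.cos φ with hd
  -- the coordinates
  set a : ℝ × ℝ → ℝ := fun p => (p.1 * Real.sin φ - p.2 * Real.cos φ) / d with ha
  set b : ℝ × ℝ → ℝ := fun p => (Real.cos θ * p.2 - Real.sin θ * p.1) / d with hb
  have hab : ∀ p : ℝ × ℝ, (!₂[p.1, p.2, 0] : E3) = a p • eth θ + b p • eth φ := by
    intro p
    ext i
    fin_cases i
    · simp [eth, ha, hb]
      field_simp
      rw [hd]
      ring
    · simp [eth, ha, hb]
      field_simp
      rw [hd]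
      ring
    · simp [eth, ha, hb]
  have hca : Tendsto a (𝓝 0) (𝓝 0) := by
    have hc : Continuous a := by
      rw [ha]
      fun_prop
    have := hc.tendsto 0
    have h0 : a 0 = 0 := by simp [ha]
    rwa [h0] at this
  have hcb : Tendsto b (𝓝 0) (𝓝 0) := by
    have hc : Continuous b := by
      rw [hb]
      fun_prop
    have := hc.tendsto 0
    have h0 : b 0 = 0 := by simp [hb]
    rwa [h0] at this
  have t1 : Tendsto (fun p => S.τ (a p • eth θ) h) (𝓝 0) (𝓝 h) := h1.comp hca
  have t2 : Tendsto (fun p => S.τ (b p • eth φ) h) (𝓝 0) (𝓝 h) := h2.comp hcb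
  rw [tendsto_iff_dist_tendsto_zero] at t1 t2
  unfold HCont
  rw [tendsto_iff_dist_tendsto_zero]
  have t3 := t2.add t1
  rw [add_zero] at t3
  refine squeeze_zero (fun _ => dist_nonneg) ?_ t3
  intro p
  rw [hab p, S.add']
  calc dist (S.τ (a p • eth θ) (S.τ (b p • eth φ) h)) h
      ≤ dist (S.τ (a p • eth θ) (S.τ (b p • eth φ) h)) (S.τ (a p • eth θ) h) +
          dist (S.τ (a p • eth θ) h) h := dist_triangle _ _ _
    _ = dist (S.τ (b p • eth φ) h) h + dist (S.τ (a p • eth θ) h) h := by
        rw [(S.τ (a p • eth θ)).isometry.dist_eq]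

/-- a linear isometry intertwining the rotation maps continuous vectors to continuous vectors -/
theorem lcont_rot (S : Rp E3 H) (θ φ : ℝ) (U : H →ₗᵢ[ℝ] H)
    (hU : ∀ w h, U (S.τ w h) = S.τ (rotZ θ w) (U h)) {h : H} (hh : LCont S (eth φ) h) :
    LCont S (eth (φ + θ)) (U h) := by
  have e1 : ∀ t : ℝ, t • eth (φ + θ) = rotZ θ (t • eth φ) := by
    intro t
    ext i
    fin_cases i
    · simp [eth, rotZ, Real.cos_add]
      ring
    · simp [eth, rotZ, Real.sin_add]
      ring
    · simp [eth, rotZ]
  unfold LCont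
  have e2 : (fun t : ℝ => S.τ (t • eth (φ + θ)) (U h)) = fun t : ℝ => U (S.τ (t • eth φ) h) := by
    funext t
    rw [e1 t, hU]
  rw [e2]
  exact (U.continuous.tendsto h).comp hh

/-- an orthogonal projection onto an invariant closed subspace commutes with the representation -/
theorem proj_comm [CompleteSpace H] (S : Rp E3 H) (K : Submodule ℝ H) [K.HasOrthogonalProjection]
    (hK : ∀ x, ∀ h ∈ K, S.τ x h ∈ K) (x : E3) (h : H) :
    (K.orthogonalProjection (S.τ x h) : H) = S.τ x (K.orthogonalProjection h) := by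
  have e1 : (K.orthogonalProjection (S.τ x h) : H) = K.starProjection (S.τ x h) := rfl
  rw [e1]
  refine Submodule.eq_starProjection_of_mem_of_inner_eq_zero (hK x _ (Subtype.mem _)) ?_
  intro w hw
  have e2 : S.τ x h - S.τ x (K.orthogonalProjection h : H) =
      S.τ x (h - (K.orthogonalProjection h : H)) := by rw [map_sub]
  rw [e2, S.inner_left]
  exact K.starProjection_inner_eq_zero h _ (hK _ _ hw)

end Pool.Agent.LibSQ58
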